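import Mathlib

/-!
# MP_3581cd_co: entropy of functions on a finite weighted space

`p : Ω → ℝ` is a probability weight (`IsPr p`).  `ent p f` is the Shannon entropy (natural
logarithm) of the function `f`, `cent p f g = H(f | g)`.  All inequalities are stated with
`Det p f g` ('on the support of `p`, `f` determines `g`').
-/

namespace RFold

open Finset

section Ent

variable {Ω : Type*} {α β γ δ : Type*} {p : Ω → ℝ}

/-- On the support of `p`, `f` determines `g`. -/
def Det (p : Ω → ℝ) (f : Ω → β) (g : Ω → γ) : Prop :=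
  ∀ ω ω', p ω ≠ 0 → p ω' ≠ 0 → f ω = f ω' → g ω = g ω'

theorem Det.refl (f : Ω → β) : Det p f f := fun _ _ _ _ h => h

theorem Det.of (f : Ω → β) (G : β → γ) : Det p f (fun ω => G (f ω)) :=
  fun _ _ _ _ h => congrArg G h

theorem Det.trans {f : Ω → β} {g : Ω → γ} {h : Ω → δ} (h1 : Det p f g) (h2 : Det p g h) :
    Det p f h := fun _ _ a b e => h2 _ _ a b (h1 _ _ a b e)

theorem Det.pair {f : Ω → β} {g : Ω → γ} {h : Ω → δ} (h1 : Det p f g) (h2 : Det p f h) :
    Det p f (fun ω => (g ω, h ω)) := fun _ _ a b e => Prod.ext (h1 _ _ a b e) (h2 _ _ a b e)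

theorem Det.fst {f : Ω → β} {g : Ω → γ} {h : Ω → δ} (h1 : Det p f h) :
    Det p (fun ω => (f ω, g ω)) h := fun _ _ a b e => h1 _ _ a b (Prod.ext_iff.mp e).1

theorem Det.snd {f : Ω → β} {g : Ω → γ} {h : Ω → δ} (h1 : Det p g h) :
    Det p (fun ω => (f ω, g ω)) h := fun _ _ a b e => h1 _ _ a b (Prod.ext_iff.mp e).2

theorem Det.family {ι : Type*} {γ : ι → Type*} {f : Ω → β} {g : (i : ι) → Ω → γ i}
    (h : ∀ i, Det p f (g i)) : Det p f (fun ω i => g i ω) :=
  fun _ _ a b e => funext fun i => h i _ _ a b e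

variable [Fintype Ω]

/-- `p` is a probability weight on `Ω`. -/
structure IsPr (p : Ω → ℝ) : Prop where
  nonneg : ∀ ω, 0 ≤ p ω
  sum_eq : ∑ ω, p ω = 1

open Classical in
/-- The probability of the event `A`. -/
noncomputable def pr (p : Ω → ℝ) (A : Ω → Prop) : ℝ := ∑ ω, if A ω then p ω else 0

/-- The law of `f` under `p`. -/
noncomputable def law (p : Ω → ℝ) (f : Ω → β) (b : β) : ℝ := pr p fun ω => f ω = b

/-- Shannon entropy of `f` under `p` (natural logarithm). -/
noncomputable def ent (p : Ω → ℝ) (f : Ω → β) : ℝ := ∑ ω, p ω * (-Real.log (law p f (f ω)))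

/-- Conditional entropy `H(f | g)`. -/
noncomputable def cent (p : Ω → ℝ) (f : Ω → β) (g : Ω → γ) : ℝ :=
  ent p (fun ω => (f ω, g ω)) - ent p g

/-- The uniform weight. -/
noncomputable def uni (Ω : Type*) [Fintype Ω] : Ω → ℝ := fun _ => (Fintype.card Ω : ℝ)⁻¹

theorem isPr_uni [Nonempty Ω] : IsPr (uni Ω) := by
  refine ⟨fun _ => by unfold uni; positivity, ?_⟩
  have h : (Fintype.card Ω : ℝ) ≠ 0 := by exact_mod_cast Fintype.card_ne_zero
  simp only [uni, sum_const, card_univ, nsmul_eq_mul]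
  exact mul_inv_cancel₀ h

/-! ### probabilities -/

theorem IsPr.nonempty (hp : IsPr p) : Nonempty Ω := by
  by_contra h
  rw [not_nonempty_iff] at h
  have := hp.sum_eq
  simp at this

theorem IsPr.le_one (hp : IsPr p) (ω : Ω) : p ω ≤ 1 := by
  rw [← hp.sum_eq]
  exact single_le_sum (fun ω _ => hp.nonneg ω) (mem_univ ω)

theorem pr_nonneg (hp : IsPr p) (A : Ω → Prop) : 0 ≤ pr p A := by
  classical
  unfold pr
  refine sum_nonneg fun ω _ => ?_
  split_ifs
  · exact hp.nonneg ω
  · exact le_rfl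

theorem pr_mono (hp : IsPr p) {A B : Ω → Prop} (h : ∀ ω, p ω ≠ 0 → A ω → B ω) :
    pr p A ≤ pr p B := by
  classical
  unfold pr
  refine sum_le_sum fun ω _ => ?_
  by_cases h0 : p ω = 0
  · simp [h0]
  · by_cases hA : A ω
    · simp [hA, h ω h0 hA]
    · simp only [hA, if_false]
      split_ifs
      · exact hp.nonneg ω
      · exact le_rfl

theorem pr_congr (hp : IsPr p) {A B : Ω → Prop} (h : ∀ ω, p ω ≠ 0 → (A ω ↔ B ω)) :
    pr p A = pr p B :=
  le_antisymm (pr_mono hp fun ω h0 hA => (h ω h0).1 hA) (pr_mono hp fun ω h0 hA => (h ω h0).2 hA)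

theorem pr_true (hp : IsPr p) : pr p (fun _ => True) = 1 := by
  classical
  simp [pr, hp.sum_eq]

theorem pr_le_one (hp : IsPr p) (A : Ω → Prop) : pr p A ≤ 1 := by
  rw [← pr_true hp]
  exact pr_mono hp fun _ _ _ => trivial

theorem pr_or_le (hp : IsPr p) (A B : Ω → Prop) : pr p (fun ω => A ω ∨ B ω) ≤ pr p A + pr p B := by
  classical
  unfold pr
  rw [← sum_add_distrib]
  refine sum_le_sum fun ω _ => ?_
  have := hp.nonneg ω
  by_cases hA : A ω
  · by_cases hB : B ω
    · simp [hA, hB]; linarith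
    · simp [hA, hB]
  · by_cases hB : B ω
    · simp [hA, hB]
    · simp [hA, hB]

theorem pr_exists_le {ι : Type*} [Fintype ι] (hp : IsPr p) (A : ι → Ω → Prop) :
    pr p (fun ω => ∃ i, A i ω) ≤ ∑ i, pr p (A i) := by
  classical
  unfold pr
  rw [sum_comm]
  refine sum_le_sum fun ω _ => ?_
  have h0 := hp.nonneg ω
  have h1 : ∀ i, 0 ≤ (if A i ω then p ω else 0) := fun i => by split_ifs <;> simp [h0]
  split_ifs with h
  · obtain ⟨i, hi⟩ := h
    refine le_trans ?_ (single_le_sum (fun i _ => h1 i) (mem_univ i))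
    simp [hi]
  · exact sum_nonneg fun i _ => h1 i

theorem pr_not (hp : IsPr p) (A : Ω → Prop) : pr p (fun ω => ¬ A ω) = 1 - pr p A := by
  classical
  rw [← hp.sum_eq]
  unfold pr
  rw [eq_sub_iff_add_eq, ← sum_add_distrib]
  refine sum_congr rfl fun ω _ => ?_
  by_cases hA : A ω <;> simp [hA]

theorem law_nonneg (hp : IsPr p) (f : Ω → β) (b : β) : 0 ≤ law p f b := pr_nonneg hp _

theorem law_le_one (hp : IsPr p) (f : Ω → β) (b : β) : law p f b ≤ 1 := pr_le_one hp _

theorem le_law (hp : IsPr p) (f : Ω → β) (ω : Ω) : p ω ≤ law p f (f ω) := by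
  classical
  unfold law pr
  have h1 : ∀ ω', 0 ≤ (if f ω' = f ω then p ω' else 0) := fun ω' => by
    split_ifs
    · exact hp.nonneg ω'
    · exact le_rfl
  refine le_trans ?_ (single_le_sum (fun i _ => h1 i) (mem_univ ω))
  simp

theorem law_pos (hp : IsPr p) (f : Ω → β) {ω : Ω} (h : p ω ≠ 0) : 0 < law p f (f ω) :=
  lt_of_lt_of_le (lt_of_le_of_ne (hp.nonneg ω) (Ne.symm h)) (le_law hp f ω)

theorem law_mono (hp : IsPr p) {f : Ω → β} {g : Ω → γ} (h : Det p f g) {ω : Ω} (hω : p ω ≠ 0) :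
    law p f (f ω) ≤ law p g (g ω) :=
  pr_mono hp fun ω' h0 hf => h ω' ω h0 hω hf

/-! ### basic properties of the entropy -/

theorem ent_nonneg (hp : IsPr p) (f : Ω → β) : 0 ≤ ent p f := by
  unfold ent
  refine sum_nonneg fun ω _ => ?_
  have := Real.log_nonpos (law_nonneg hp f (f ω)) (law_le_one hp f (f ω))
  exact mul_nonneg (hp.nonneg ω) (by linarith)

theorem ent_mono (hp : IsPr p) {f : Ω → β} {g : Ω → γ} (h : Det p f g) : ent p g ≤ ent p f := by
  unfold ent
  refine sum_le_sum fun ω _ => ?_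
  by_cases h0 : p ω = 0
  · simp [h0]
  · have h1 := Real.log_le_log (law_pos hp f h0) (law_mono hp h h0)
    exact mul_le_mul_of_nonneg_left (by linarith) (hp.nonneg ω)

theorem ent_congr (hp : IsPr p) {f : Ω → β} {g : Ω → γ} (h : Det p f g) (h' : Det p g f) :
    ent p f = ent p g := le_antisymm (ent_mono hp h') (ent_mono hp h)

/-- `H(f, g) = H(f)` if `f` determines `g`. -/
theorem ent_pair_eq (hp : IsPr p) {f : Ω → β} {g : Ω → γ} (h : Det p f g) :
    ent p (fun ω => (f ω, g ω)) = ent p f :=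
  ent_congr hp (Det.fst (Det.refl f)) (Det.pair (Det.refl f) h)

theorem ent_pair_eq' (hp : IsPr p) {f : Ω → β} {g : Ω → γ} (h : Det p f g) :
    ent p (fun ω => (g ω, f ω)) = ent p f :=
  ent_congr hp (Det.snd (Det.refl f)) (Det.pair h (Det.refl f))

theorem ent_swap (hp : IsPr p) (f : Ω → β) (g : Ω → γ) :
    ent p (fun ω => (f ω, g ω)) = ent p (fun ω => (g ω, f ω)) :=
  ent_congr hp (Det.pair (Det.snd (Det.refl g)) (Det.fst (Det.refl f)))
    (Det.pair (Det.snd (Det.refl f)) (Det.fst (Det.refl g)))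

theorem ent_const (hp : IsPr p) (b : β) : ent p (fun _ => b) = 0 := by
  unfold ent
  have h : law p (fun _ : Ω => b) b = 1 := by
    rw [← pr_true hp]
    exact pr_congr hp fun _ _ => by simp
  simp [h]

theorem cent_eq (f : Ω → β) (g : Ω → γ) :
    cent p f g = ∑ ω, p ω * (Real.log (law p g (g ω)) -
      Real.log (law p (fun ω => (f ω, g ω)) (f ω, g ω))) := by
  unfold cent ent
  rw [← sum_sub_distrib]
  exact sum_congr rfl fun ω _ => by ring

/-! ### Gibbs' inequality -/

/-- Conditional Gibbs' inequality. -/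
theorem cent_le_gibbs (hp : IsPr p) (f : Ω → β) (g : Ω → γ) (q : γ → β → ℝ)
    (hq : ∀ ω, p ω ≠ 0 → 0 < q (g ω) (f ω)) (S : γ → Finset β)
    (hS : ∀ ω, p ω ≠ 0 → f ω ∈ S (g ω)) (hq0 : ∀ ω, p ω ≠ 0 → ∀ b ∈ S (g ω), 0 ≤ q (g ω) b)
    (hqS : ∀ ω, p ω ≠ 0 → ∑ b ∈ S (g ω), q (g ω) b ≤ 1) :
    cent p f g ≤ ∑ ω, p ω * (-Real.log (q (g ω) (f ω))) := by
  classical
  set J : β × γ → ℝ := law p (fun ω => (f ω, g ω)) with hJ
  have key : ∑ ω, p ω * (law p g (g ω) * (q (g ω) (f ω) / J (f ω, g ω))) ≤ 1 := by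
    have e1 : ∀ ω, p ω * (law p g (g ω) * (q (g ω) (f ω) / J (f ω, g ω))) =
        ∑ ω', p ω' * (if g ω = g ω' then p ω * (q (g ω') (f ω) / J (f ω, g ω')) else 0) := by
      intro ω
      have : law p g (g ω) = ∑ ω', if g ω' = g ω then p ω' else 0 := rfl
      rw [this, sum_mul, mul_sum]
      refine sum_congr rfl fun ω' _ => ?_
      by_cases h : g ω' = g ω
      · simp only [h, if_true]; ring
      · have h' : ¬ g ω = g ω' := fun h' => h h'.symm
        simp [h, h']
    rw [sum_congr rfl fun ω _ => e1 ω, sum_comm]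
    rw [← hp.sum_eq]
    refine sum_le_sum fun ω' _ => ?_
    rw [← mul_sum]
    by_cases h0 : p ω' = 0
    · simp [h0]
    have h2 : ∑ ω, (if g ω = g ω' then p ω * (q (g ω') (f ω) / J (f ω, g ω')) else 0) ≤ 1 := by
      refine le_trans (le_of_eq ?_) (hqS ω' h0 |>.trans' (?_ :
        ∑ b ∈ S (g ω'), J (b, g ω') * (q (g ω') b / J (b, g ω')) ≤ _))
      · have e2 : ∀ b ∈ S (g ω'), J (b, g ω') * (q (g ω') b / J (b, g ω')) =
            ∑ ω, if f ω = b ∧ g ω = g ω' then p ω * (q (g ω') b / J (b, g ω')) else 0 := by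
          intro b _
          have : J (b, g ω') = ∑ ω, if f ω = b ∧ g ω = g ω' then p ω else 0 := by
            rw [hJ]
            unfold law pr
            refine sum_congr rfl fun ω _ => ?_
            simp only [Prod.mk.injEq]
          rw [this, sum_mul]
          refine sum_congr rfl fun ω _ => ?_
          split_ifs <;> ring
        rw [sum_congr rfl e2, sum_comm]
        refine sum_congr rfl fun ω _ => ?_
        by_cases h3 : p ω = 0
        · simp [h3]
        · by_cases h4 : g ω = g ω'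
          · have h5 : f ω ∈ S (g ω') := h4 ▸ hS ω h3
            rw [sum_eq_single_of_mem (f ω) h5]
            · simp [h4]
            · intro b _ hb
              rw [if_neg]
              rintro ⟨h6, _⟩
              exact hb h6.symm
          · simp [h4]
      · refine sum_le_sum fun b hb => ?_
        by_cases h3 : J (b, g ω') = 0
        · rw [h3, zero_mul]; exact hq0 ω' h0 b hb
        · rw [mul_div_cancel₀ _ h3]
    calc p ω' * _ ≤ p ω' * 1 := mul_le_mul_of_nonneg_left h2 (hp.nonneg ω')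
      _ = p ω' := mul_one _
  rw [cent_eq]
  have key2 : ∀ ω, p ω * (Real.log (law p g (g ω)) - Real.log (J (f ω, g ω))) ≤
      p ω * (-Real.log (q (g ω) (f ω))) +
        (p ω * (law p g (g ω) * (q (g ω) (f ω) / J (f ω, g ω))) - p ω) := by
    intro ω
    by_cases h0 : p ω = 0
    · simp [h0]
    · have h1 := law_pos hp g h0
      have h2 : 0 < J (f ω, g ω) := law_pos hp (fun ω => (f ω, g ω)) h0
      have h3 := hq ω h0
      have h4 := Real.log_le_sub_one_of_pos
        (x := law p g (g ω) * (q (g ω) (f ω) / J (f ω, g ω))) (by positivity)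
      rw [Real.log_mul h1.ne' (by positivity), Real.log_div h3.ne' h2.ne'] at h4
      have h5 := mul_le_mul_of_nonneg_left h4 (hp.nonneg ω)
      nlinarith [h5]
  refine (sum_le_sum fun ω _ => key2 ω).trans ?_
  rw [sum_add_distrib, sum_sub_distrib, hp.sum_eq]
  linarith

/-- Gibbs' inequality. -/
theorem ent_le_gibbs (hp : IsPr p) (f : Ω → β) (q : β → ℝ) (hq : ∀ ω, p ω ≠ 0 → 0 < q (f ω))
    (S : Finset β) (hS : ∀ ω, p ω ≠ 0 → f ω ∈ S) (hq0 : ∀ b ∈ S, 0 ≤ q b)
    (hqS : ∑ b ∈ S, q b ≤ 1) :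
    ent p f ≤ ∑ ω, p ω * (-Real.log (q (f ω))) := by
  have h := cent_le_gibbs hp f (fun _ => ()) (fun _ b => q b) hq (fun _ => S)
    hS (fun _ _ b hb => hq0 b hb) (fun _ _ => hqS)
  refine le_trans (le_of_eq ?_) h
  unfold cent
  rw [ent_const hp, sub_zero]
  exact ent_congr hp (Det.pair (Det.refl f) (fun _ _ _ _ _ => rfl)) (Det.fst (Det.refl f))

theorem ent_le_log_card (hp : IsPr p) (f : Ω → β) (S : Finset β)
    (hS : ∀ ω, p ω ≠ 0 → f ω ∈ S) : ent p f ≤ Real.log S.card := by
  have hne : ∃ ω, p ω ≠ 0 := by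
    by_contra h
    push Not at h
    have := hp.sum_eq
    simp [h] at this
  obtain ⟨ω₀, h₀⟩ := hne
  have hc : 0 < S.card := card_pos.mpr ⟨_, hS ω₀ h₀⟩
  have hc' : (0 : ℝ) < S.card := by exact_mod_cast hc
  have h := ent_le_gibbs hp f (fun _ => (S.card : ℝ)⁻¹)
    (fun _ _ => by positivity) S hS (fun _ _ => by positivity) (by
      rw [sum_const, nsmul_eq_mul, mul_inv_cancel₀ hc'.ne'])
  refine h.trans (le_of_eq ?_)
  rw [← sum_mul, hp.sum_eq, one_mul, Real.log_inv, neg_neg]

theorem ent_le_log_card' [Fintype β] (hp : IsPr p) (f : Ω → β) :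
    ent p f ≤ Real.log (Fintype.card β) :=
  ent_le_log_card hp f univ fun _ _ => mem_univ _

/-- `H(f | g) ≤ E log |S(g)|` if `f ∈ S(g)`. -/
theorem cent_le_log_card (hp : IsPr p) (f : Ω → β) (g : Ω → γ) (S : γ → Finset β)
    (hS : ∀ ω, p ω ≠ 0 → f ω ∈ S (g ω)) :
    cent p f g ≤ ∑ ω, p ω * Real.log (S (g ω)).card := by
  have hc : ∀ ω, p ω ≠ 0 → (0 : ℝ) < (S (g ω)).card := by
    intro ω h
    exact_mod_cast card_pos.mpr ⟨_, hS ω h⟩
  have h := cent_le_gibbs hp f g (fun c _ => ((S c).card : ℝ)⁻¹)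
    (fun ω h => inv_pos.mpr (hc ω h)) S hS (fun _ _ _ _ => by positivity) (fun ω h => by
      rw [sum_const, nsmul_eq_mul, mul_inv_cancel₀ (hc ω h).ne'])
  refine h.trans (le_of_eq ?_)
  refine sum_congr rfl fun ω _ => ?_
  rw [Real.log_inv, neg_neg]

/-! ### submodularity -/

/-- conditioning reduces entropy -/
theorem cent_anti (hp : IsPr p) (f : Ω → α) {g : Ω → β} {g' : Ω → γ} (hg : Det p g' g) :
    cent p f g' ≤ cent p f g := by
  classical
  -- `u c` is the value of `g` on `{g' = c}`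
  have hu : ∃ u : γ → Option β, ∀ ω, p ω ≠ 0 → u (g' ω) = some (g ω) := by
    refine ⟨fun c => if h : ∃ ω, p ω ≠ 0 ∧ g' ω = c then some (g h.choose) else none, ?_⟩
    intro ω h0
    have h : ∃ ω', p ω' ≠ 0 ∧ g' ω' = g' ω := ⟨ω, h0, rfl⟩
    simp only [h, dif_pos]
    exact congrArg some (hg _ _ h.choose_spec.1 h0 h.choose_spec.2)
  obtain ⟨u, hu⟩ := hu
  set J : α × β → ℝ := law p (fun ω => (f ω, g ω)) with hJ
  have hJ0 : ∀ x, 0 ≤ J x := law_nonneg hp _
  set q : γ → α → ℝ := fun c a => match u c with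
    | some b => J (a, b) / law p g b
    | none => 0 with hq
  have hqv : ∀ ω, p ω ≠ 0 → ∀ a, q (g' ω) a = J (a, g ω) / law p g (g ω) := by
    intro ω h0 a
    simp only [hq, hu ω h0]
  have hq0 : ∀ c a, 0 ≤ q c a := by
    intro c a
    simp only [hq]
    cases u c with
    | none => exact le_rfl
    | some b => exact div_nonneg (hJ0 _) (law_nonneg hp _ _)
  have h := cent_le_gibbs hp f g' q ?_ (fun _ => univ.image f) ?_ (fun _ _ _ _ => hq0 _ _) ?_
  · refine h.trans (le_of_eq ?_)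
    rw [cent_eq]
    refine sum_congr rfl fun ω _ => ?_
    by_cases h0 : p ω = 0
    · simp [h0]
    · rw [hqv ω h0, Real.log_div (law_pos hp (fun ω => (f ω, g ω)) h0).ne' (law_pos hp g h0).ne']
      ring
  · intro ω h0
    rw [hqv ω h0]
    exact div_pos (law_pos hp (fun ω => (f ω, g ω)) h0) (law_pos hp g h0)
  · intro ω _
    exact mem_image_of_mem _ (mem_univ _)
  · intro ω h0
    rw [sum_congr rfl fun a _ => hqv ω h0 a, ← sum_div, div_le_one (law_pos hp g h0)]
    have : ∀ a, J (a, g ω) = ∑ ω', if f ω' = a ∧ g ω' = g ω then p ω' else 0 := by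
      intro a
      rw [hJ]
      unfold law pr
      refine sum_congr rfl fun ω _ => ?_
      simp only [Prod.mk.injEq]
    rw [sum_congr rfl fun a _ => this a, sum_comm]
    unfold law pr
    refine sum_le_sum fun ω' _ => ?_
    by_cases h4 : g ω' = g ω
    · simp only [h4, and_true, if_true]
      rw [sum_ite_eq]
      simp
    · simp [h4]

/-- Submodularity, general form: `J` is determined by `(A, B)`, and `M` is determined by `A` and
by `B`.  Then `H(J) + H(M) ≤ H(A) + H(B)`. -/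
theorem ent_submod' (hp : IsPr p) {A : Ω → α} {B : Ω → β} {J : Ω → γ} {M : Ω → δ}
    (hJ : Det p (fun ω => (A ω, B ω)) J) (hA : Det p A M) (hB : Det p B M) :
    ent p J + ent p M ≤ ent p A + ent p B := by
  have h1 := cent_anti hp A hB
  unfold cent at h1
  have h2 := ent_mono hp hJ
  have h3 : ent p (fun ω => (A ω, M ω)) = ent p A := ent_pair_eq hp hA
  linarith

/-- `H(f, g, h) + H(h) ≤ H(f, h) + H(g, h)`. -/
theorem ent_submod (hp : IsPr p) (f : Ω → β) (g : Ω → γ) (h : Ω → δ) :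
    ent p (fun ω => (f ω, g ω, h ω)) + ent p h ≤
      ent p (fun ω => (f ω, h ω)) + ent p (fun ω => (g ω, h ω)) := by
  refine ent_submod' hp ?_ (Det.snd (Det.refl h)) (Det.snd (Det.refl h))
  intro ω ω' _ _ e
  simp only [Prod.mk.injEq] at e ⊢
  tauto

theorem ent_pair_le (hp : IsPr p) (f : Ω → β) (g : Ω → γ) :
    ent p (fun ω => (f ω, g ω)) ≤ ent p f + ent p g := by
  have h := ent_submod' hp (A := f) (B := g) (J := fun ω => (f ω, g ω)) (M := fun _ => ())
    (Det.refl _) (fun _ _ _ _ _ => rfl) (fun _ _ _ _ _ => rfl)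
  rw [ent_const hp] at h
  linarith

/-! ### conditional entropy -/

theorem cent_nonneg (hp : IsPr p) (f : Ω → β) (g : Ω → γ) : 0 ≤ cent p f g := by
  have := ent_mono hp (f := fun ω => (f ω, g ω)) (g := g) (Det.snd (Det.refl g))
  unfold cent
  linarith

theorem cent_le_ent (hp : IsPr p) (f : Ω → β) (g : Ω → γ) : cent p f g ≤ ent p f := by
  have := ent_pair_le hp f g
  unfold cent
  linarith

/-- monotone in the first argument, antitone in the condition -/
theorem cent_mono {α' β' : Type*} (hp : IsPr p) {f : Ω → α} {f' : Ω → α'} {g : Ω → β}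
    {g' : Ω → β'} (hf : Det p (fun ω => (f' ω, g' ω)) f) (hg : Det p g' g) :
    cent p f g' ≤ cent p f' g := by
  refine le_trans ?_ (cent_anti hp f' hg)
  unfold cent
  have := ent_mono hp (f := fun ω => (f' ω, g' ω)) (g := fun ω => (f ω, g' ω))
    (Det.pair hf (Det.snd (Det.refl g')))
  linarith

theorem cent_congr {α' β' : Type*} (hp : IsPr p) {f : Ω → α} {f' : Ω → α'} {g : Ω → β}
    {g' : Ω → β'} (h1 : Det p g g') (h2 : Det p g' g)
    (h3 : Det p (fun ω => (f ω, g ω)) f') (h4 : Det p (fun ω => (f' ω, g' ω)) f) :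
    cent p f g = cent p f' g' := by
  refine le_antisymm (cent_mono hp ?_ h1) (cent_mono hp ?_ h2)
  · intro ω ω' a b e
    simp only [Prod.mk.injEq] at e
    exact h4 ω ω' a b (Prod.ext e.1 (h1 _ _ a b e.2))
  · intro ω ω' a b e
    simp only [Prod.mk.injEq] at e
    exact h3 ω ω' a b (Prod.ext e.1 (h2 _ _ a b e.2))

/-- chain rule: `H(f, g | h) = H(f | h) + H(g | f, h)`. -/
theorem cent_chain (hp : IsPr p) (f : Ω → β) (g : Ω → γ) (h : Ω → δ) :
    cent p (fun ω => (f ω, g ω)) h = cent p f h + cent p g (fun ω => (f ω, h ω)) := by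
  unfold cent
  have : ent p (fun ω => ((f ω, g ω), h ω)) = ent p (fun ω => (g ω, f ω, h ω)) := by
    refine ent_congr hp ?_ ?_ <;>
    · intro ω ω' _ _ e
      simp only [Prod.mk.injEq] at e ⊢
      tauto
  rw [this]
  ring

theorem cent_zero_of_det (hp : IsPr p) {f : Ω → β} {g : Ω → γ} (h : Det p g f) :
    cent p f g = 0 := by
  unfold cent
  rw [ent_pair_eq' hp h, sub_self]

/-- `H(f, g) = H(g) + H(f | g)`. -/
theorem ent_pair (f : Ω → β) (g : Ω → γ) :
    ent p (fun ω => (f ω, g ω)) = ent p g + cent p f g := by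
  unfold cent; ring

/-- `H(f, (g_i)_{i ∈ S}) ≤ H(f) + ∑_{i ∈ S} H(g_i | f)`. -/
theorem ent_family_le_finset {ι : Type*} {γ : ι → Type*} (hp : IsPr p) (f : Ω → β)
    (g : (i : ι) → Ω → γ i) (S : Finset ι) :
    ent p (fun ω => (f ω, fun i : {i // i ∈ S} => g i ω)) ≤ ent p f + ∑ i ∈ S, cent p (g i) f := by
  classical
  induction S using Finset.induction_on with
  | empty =>
    rw [sum_empty, add_zero]
    refine le_of_eq (ent_congr hp (Det.fst (Det.refl f)) (Det.pair (Det.refl f) ?_))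
    intro ω ω' _ _ _
    funext i
    exact absurd i.2 (Finset.notMem_empty _)
  | insert a S ha ih =>
    rw [sum_insert ha]
    have h1 := ent_submod' hp (A := fun ω => (f ω, fun i : {i // i ∈ S} => g i ω))
      (B := fun ω => (g a ω, f ω)) (J := fun ω => (f ω, fun i : {i // i ∈ insert a S} => g i ω))
      (M := f) ?_ (Det.fst (Det.refl f)) (Det.snd (Det.refl f))
    · have h2 : ent p (fun ω => (g a ω, f ω)) = ent p f + cent p (g a) f := ent_pair _ _
      linarith
    · intro ω ω' _ _ e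
      simp only [Prod.mk.injEq] at e ⊢
      refine ⟨e.1.1, ?_⟩
      funext i
      rcases Finset.mem_insert.mp i.2 with h | h
      · obtain ⟨i, hi⟩ := i
        simp only at h
        subst h
        exact e.2.1
      · exact congrFun e.1.2 ⟨i.1, h⟩

/-- `H(f, (g_i)_i) ≤ H(f) + ∑ H(g_i | f)`. -/
theorem ent_family_le {ι : Type*} [Fintype ι] {γ : ι → Type*} (hp : IsPr p) (f : Ω → β)
    (g : (i : ι) → Ω → γ i) :
    ent p (fun ω => (f ω, fun i => g i ω)) ≤ ent p f + ∑ i, cent p (g i) f := by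
  refine le_trans (ent_mono hp ?_) (ent_family_le_finset hp f g univ)
  intro ω ω' _ _ e
  simp only [Prod.mk.injEq] at e ⊢
  refine ⟨e.1, ?_⟩
  funext i
  exact congrFun e.2 ⟨i, mem_univ i⟩

theorem cent_family_le {ι : Type*} [Fintype ι] {γ : ι → Type*} (hp : IsPr p) (f : Ω → β)
    (g : (i : ι) → Ω → γ i) :
    cent p (fun ω i => g i ω) f ≤ ∑ i, cent p (g i) f := by
  have h := ent_family_le hp f g
  unfold cent at h ⊢
  rw [ent_swap hp]
  linarith

/-! ### only the law matters -/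

/-- `∑ p ω G(f ω) = ∑_b law b G(b)` -/
theorem sum_law {S : Finset β} (f : Ω → β) (hS : ∀ ω, p ω ≠ 0 → f ω ∈ S) (G : β → ℝ) :
    ∑ ω, p ω * G (f ω) = ∑ b ∈ S, law p f b * G b := by
  classical
  have h : ∀ b, law p f b * G b = ∑ ω, if f ω = b then p ω * G (f ω) else 0 := by
    intro b
    unfold law pr
    rw [sum_mul]
    refine sum_congr rfl fun ω _ => ?_
    split_ifs with h
    · rw [h]
    · exact zero_mul _
  rw [sum_congr rfl fun b _ => h b, sum_comm]
  refine sum_congr rfl fun ω _ => ?_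
  by_cases h0 : p ω = 0
  · simp [h0]
  · rw [sum_ite_eq, if_pos (hS ω h0)]

/-- Only the law matters. -/
theorem ent_of_law' {Ω' : Type*} [Fintype Ω'] {p' : Ω' → ℝ} {f : Ω → β} {f' : Ω' → β}
    (h : ∀ b, law p f b = law p' f' b) : ent p f = ent p' f' := by
  classical
  unfold ent
  rw [sum_law (S := univ.image f ∪ univ.image f') f
      (fun ω _ => mem_union_left _ (mem_image_of_mem _ (mem_univ _)))
      (fun b => -Real.log (law p f b)),
    sum_law (S := univ.image f ∪ univ.image f') f'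
      (fun ω _ => mem_union_right _ (mem_image_of_mem _ (mem_univ _)))
      (fun b => -Real.log (law p' f' b))]
  refine sum_congr rfl fun b _ => ?_
  rw [h]

/-- Only the law matters. -/
theorem ent_of_law {Ω' : Type*} [Fintype Ω'] {p' : Ω' → ℝ} (_hp : IsPr p) (_hp' : IsPr p')
    {f : Ω → β} {f' : Ω' → β} (h : ∀ b, law p f b = law p' f' b) : ent p f = ent p' f' :=
  ent_of_law' h

/-! ### the uniform space -/

open Classical in
theorem law_uni (f : Ω → β) (b : β) :
    law (uni Ω) f b = (univ.filter fun y => f y = b).card / (Fintype.card Ω : ℝ) := by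
  unfold law pr uni
  rw [← sum_filter, sum_const, nsmul_eq_mul, div_eq_mul_inv]

open Classical in
theorem ent_uni_eq [Nonempty Ω] (f : Ω → β) :
    ent (uni Ω) f = Real.log (Fintype.card Ω) -
      (Fintype.card Ω : ℝ)⁻¹ * ∑ x, Real.log (univ.filter fun y => f y = f x).card := by
  have hN : (0 : ℝ) < Fintype.card Ω := by exact_mod_cast Fintype.card_pos
  have hc : ∀ x, (0 : ℝ) < (univ.filter fun y => f y = f x).card := by
    intro x
    exact_mod_cast card_pos.mpr ⟨x, by simp⟩
  unfold ent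
  have h : ∀ x, uni Ω x * (-Real.log (law (uni Ω) f (f x))) =
      (Fintype.card Ω : ℝ)⁻¹ * Real.log (Fintype.card Ω) -
        (Fintype.card Ω : ℝ)⁻¹ * Real.log (univ.filter fun y => f y = f x).card := by
    intro x
    rw [law_uni, Real.log_div (hc x).ne' hN.ne', uni]
    ring
  rw [sum_congr rfl fun x _ => h x, sum_sub_distrib, ← mul_sum, ← mul_sum, sum_const, card_univ,
    nsmul_eq_mul]
  congr 1
  field_simp

theorem ent_uni_inj [Nonempty Ω] {f : Ω → β} (hf : Function.Injective f) :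
    ent (uni Ω) f = Real.log (Fintype.card Ω) := by
  classical
  rw [ent_uni_eq]
  have h : ∀ x, (univ.filter fun y => f y = f x).card = 1 := by
    intro x
    rw [card_eq_one]
    refine ⟨x, ?_⟩
    ext y
    simp only [mem_filter, mem_univ, true_and, mem_singleton]
    exact hf.eq_iff
  simp [h]

end Ent

end RFold
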