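import Pool.Agent.Lib.MP_3581cd_co.Defs
import Pool.Agent.Lib.MP_3581cd_co.Ent

/-!
# MP_3581cd_co: Lemma A (4.3)
-/

namespace RFold

open Finset

variable {I : Type} {m : ℕ}

/-- The points of `H` which agree with `x` on `T`. -/
def agree [DecidableEq I] (H : Finset (I → Fin m)) (T : Finset I) (x : I → Fin m) :
    Finset (I → Fin m) := H.filter fun y => ∀ i ∈ T, y i = x i

/-- `x` is `T`-bad with parameter `c`: for some coordinate `i` outside `T`, at least the proportion
`c` of the points of `H` agreeing with `x` on `T` agree with `x` at `i`. -/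
def TBad [DecidableEq I] (c : ℝ) (H : Finset (I → Fin m)) (T : Finset I) (x : I → Fin m) : Prop :=
  ∃ i, i ∉ T ∧ c * (agree H T x).card ≤ (((agree H T x).filter fun y => y i = x i).card : ℝ)

/-! ### restrictions, fibres and popular values -/

/-- restriction to `T` -/
def lrs (T : Finset I) (x : I → Fin m) : {j // j ∈ T} → Fin m := fun j => x j

/-- the points of `H` restricting to `u` -/
def lfib [DecidableEq I] (H : Finset (I → Fin m)) (T : Finset I) (u : {j // j ∈ T} → Fin m) :
    Finset (I → Fin m) := H.filter fun y => lrs T y = u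

theorem agree_eq_lfib [DecidableEq I] (H : Finset (I → Fin m)) (T : Finset I) (x : I → Fin m) :
    agree H T x = lfib H T (lrs T x) := by
  unfold agree lfib lrs
  refine Finset.filter_congr fun y _ => ?_
  constructor
  · intro h
    funext j
    exact h j j.2
  · intro h j hj
    exact congrFun h ⟨j, hj⟩

open Classical in
/-- the restrictions for which the value `v` is popular at `i` -/
noncomputable def LPop [Fintype I] [DecidableEq I] (c : ℝ) (H : Finset (I → Fin m)) (T : Finset I)
    (i : I) (v : Fin m) : Finset ({j // j ∈ T} → Fin m) :=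
  univ.filter fun u => 0 < (lfib H T u).card ∧
    c * (lfib H T u).card ≤ (((lfib H T u).filter fun y => y i = v).card : ℝ)

theorem tbad_iff [Fintype I] [DecidableEq I] {c : ℝ} {H : Finset (I → Fin m)} {T : Finset I}
    {x : I → Fin m} (hx : x ∈ H) : TBad c H T x ↔ ∃ i, i ∉ T ∧ lrs T x ∈ LPop c H T i (x i) := by
  unfold TBad LPop
  simp only [agree_eq_lfib, mem_filter, mem_univ, true_and]
  have h0 : 0 < (lfib H T (lrs T x)).card :=
    Finset.card_pos.mpr ⟨x, by unfold lfib; rw [mem_filter]; exact ⟨hx, rfl⟩⟩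
  constructor
  · rintro ⟨i, hi, h⟩
    exact ⟨i, hi, h0, h⟩
  · rintro ⟨i, hi, _, h⟩
    exact ⟨i, hi, h⟩

theorem sum_pop_le [Fintype I] [DecidableEq I] {c : ℝ} (H : Finset (I → Fin m))
    (T : Finset I) (i : I) : ∑ v, c * ((LPop c H T i v).card : ℝ) ≤ (m : ℝ) ^ T.card := by
  classical
  have h1 : ∀ v, c * ((LPop c H T i v).card : ℝ) =
      ∑ u : {j // j ∈ T} → Fin m, if u ∈ LPop c H T i v then c else 0 := by
    intro v
    rw [← Finset.sum_filter, Finset.sum_const, nsmul_eq_mul, mul_comm]
    congr 2
    rw [Finset.filter_mem_eq_inter, Finset.univ_inter]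
  simp only [h1]
  rw [Finset.sum_comm]
  have h2 : ∀ u : {j // j ∈ T} → Fin m,
      (∑ v, if u ∈ LPop c H T i v then c else 0) ≤ 1 := by
    intro u
    by_cases h0 : (lfib H T u).card = 0
    · have : ∀ v, u ∉ LPop c H T i v := by
        intro v hv
        unfold LPop at hv
        rw [mem_filter] at hv
        omega
      simp [this]
    · have hpos : (0 : ℝ) < (lfib H T u).card := by exact_mod_cast Nat.pos_of_ne_zero h0
      have h3 : (∑ v, if u ∈ LPop c H T i v then c else 0) * (lfib H T u).card ≤
          (lfib H T u).card := by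
        rw [Finset.sum_mul]
        have h4 : ((lfib H T u).card : ℝ) =
            ∑ v : Fin m, (((lfib H T u).filter fun y => y i = v).card : ℝ) := by
          have := Finset.card_eq_sum_card_fiberwise (f := fun y : I → Fin m => y i)
            (s := lfib H T u) (t := (univ : Finset (Fin m))) (fun _ _ => Finset.mem_coe.mpr (mem_univ _))
          exact_mod_cast this
        rw [h4]
        refine Finset.sum_le_sum fun v _ => ?_
        split_ifs with hv
        · unfold LPop at hv
          rw [mem_filter] at hv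
          rw [← h4]
          exact hv.2.2
        · rw [zero_mul]
          positivity
      by_contra hcon
      push Not at hcon
      nlinarith
  calc (∑ u : {j // j ∈ T} → Fin m, ∑ v, if u ∈ LPop c H T i v then c else 0)
      ≤ ∑ _u : {j // j ∈ T} → Fin m, (1 : ℝ) := Finset.sum_le_sum fun u _ => h2 u
    _ = (m : ℝ) ^ T.card := by
      rw [Finset.sum_const, nsmul_eq_mul, mul_one, Finset.card_univ, Fintype.card_fun,
        Fintype.card_fin, Fintype.card_coe]
      push_cast
      rfl

/-- the threshold -/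
noncomputable def lthr (m τ : ℕ) (δ : ℝ) : ℝ := (m : ℝ) ^ ((τ : ℝ) - δ / 2)

theorem card_unfine_le [Fintype I] [DecidableEq I] {c δ : ℝ} (hc : 0 < c) (hm : 2 ≤ m)
    (H : Finset (I → Fin m)) (hsp : Spread δ H) (T : Finset I) (i : I) :
    ((H.filter fun x => lthr m T.card δ < ((LPop c H T i (x i)).card : ℝ)).card : ℝ) ≤
      1 / c * (m : ℝ) ^ (-(δ / 2)) * H.card := by
  classical
  have hm0 : (0 : ℝ) < m := by positivity
  set V := (univ : Finset (Fin m)).filter fun v => lthr m T.card δ < ((LPop c H T i v).card : ℝ)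
    with hV
  have hthr : 0 < lthr m T.card δ := by unfold lthr; positivity
  have h1 : (V.card : ℝ) * (c * lthr m T.card δ) ≤ (m : ℝ) ^ T.card := by
    calc (V.card : ℝ) * (c * lthr m T.card δ) = ∑ _v ∈ V, c * lthr m T.card δ := by
          rw [Finset.sum_const, nsmul_eq_mul]
      _ ≤ ∑ v ∈ V, c * ((LPop c H T i v).card : ℝ) := by
          refine Finset.sum_le_sum fun v hv => ?_
          rw [hV, mem_filter] at hv
          exact mul_le_mul_of_nonneg_left hv.2.le hc.le
      _ ≤ ∑ v, c * ((LPop c H T i v).card : ℝ) :=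
          Finset.sum_le_sum_of_subset_of_nonneg (Finset.filter_subset _ _)
            (fun v _ _ => by positivity)
      _ ≤ _ := sum_pop_le H T i
  have h2 : (V.card : ℝ) ≤ 1 / c * (m : ℝ) ^ (δ / 2) := by
    have h3 : lthr m T.card δ * (m : ℝ) ^ (δ / 2) = (m : ℝ) ^ T.card := by
      unfold lthr
      rw [← Real.rpow_add hm0, sub_add_cancel, Real.rpow_natCast]
    have h4 : (V.card : ℝ) * c ≤ (m : ℝ) ^ (δ / 2) := by
      by_contra hcon
      push Not at hcon
      have : lthr m T.card δ * (m : ℝ) ^ (δ / 2) < lthr m T.card δ * (V.card * c) :=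
        mul_lt_mul_of_pos_left hcon hthr
      rw [h3] at this
      nlinarith
    rw [one_div, inv_mul_eq_div, le_div_iff₀ hc]
    exact h4
  have h5 : ((H.filter fun x => lthr m T.card δ < ((LPop c H T i (x i)).card : ℝ)).card : ℝ) =
      ∑ v ∈ V, ((H.filter fun x => x i = v).card : ℝ) := by
    have := Finset.card_eq_sum_card_fiberwise (f := fun y : I → Fin m => y i)
      (s := H.filter fun x => lthr m T.card δ < ((LPop c H T i (x i)).card : ℝ)) (t := V)
      (fun x hx => by
        rw [Finset.mem_coe, mem_filter] at hx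
        rw [Finset.mem_coe, hV, mem_filter]
        exact ⟨mem_univ _, hx.2⟩)
    rw [this]
    push_cast
    refine Finset.sum_congr rfl fun v hv => ?_
    rw [hV, mem_filter] at hv
    congr 2
    ext x
    simp only [mem_filter]
    constructor
    · rintro ⟨⟨h1, _⟩, h2⟩
      exact ⟨h1, h2⟩
    · rintro ⟨h1, h2⟩
      subst h2
      exact ⟨⟨h1, hv.2⟩, rfl⟩
  rw [h5]
  calc ∑ v ∈ V, ((H.filter fun x => x i = v).card : ℝ)
      ≤ ∑ _v ∈ V, (m : ℝ) ^ (-δ) * H.card := Finset.sum_le_sum fun v _ => hsp i v
    _ = V.card * ((m : ℝ) ^ (-δ) * H.card) := by rw [Finset.sum_const, nsmul_eq_mul]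
    _ ≤ (1 / c * (m : ℝ) ^ (δ / 2)) * ((m : ℝ) ^ (-δ) * H.card) :=
        mul_le_mul_of_nonneg_right h2 (by positivity)
    _ = 1 / c * ((m : ℝ) ^ (δ / 2) * (m : ℝ) ^ (-δ)) * H.card := by ring
    _ = 1 / c * (m : ℝ) ^ (-(δ / 2)) * H.card := by
        rw [← Real.rpow_add hm0]
        congr 3
        ring

/-! ### the entropy bound -/

/-- `x` is `T`-bad with a witness in `B` which is fine. -/
def EBad [Fintype I] [DecidableEq I] (c δ : ℝ) (H : Finset (I → Fin m)) (T B : Finset I)
    (x : I → Fin m) : Prop :=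
  ∃ i ∈ B, lrs T x ∈ LPop c H T i (x i) ∧ ((LPop c H T i (x i)).card : ℝ) ≤ lthr m T.card δ

open Classical in
theorem cent_le_of_ebad [Fintype I] [DecidableEq I] [Nonempty I] {c δ : ℝ} (hm : 2 ≤ m)
    (H : Finset (I → Fin m)) (hH : H.Nonempty) (T B : Finset I) :
    cent (uni {x // x ∈ H}) (fun x => lrs T x.1) (fun x => lrs B x.1) ≤
      Real.log 2 + T.card * Real.log m -
        ((H.filter fun x => EBad c δ H T B x).card : ℝ) / H.card *
          (δ / 2 * Real.log m - Real.log (Fintype.card I)) := by
  have hm0 : (0 : ℝ) < m := by positivity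
  have hm1 : (1 : ℝ) < m := by
    have : (2 : ℝ) ≤ m := by exact_mod_cast hm
    linarith
  have : Nonempty {x // x ∈ H} := ⟨⟨hH.choose, hH.choose_spec⟩⟩
  have hp : IsPr (uni {x // x ∈ H}) := isPr_uni
  have hK : (0 : ℝ) < Fintype.card I := by exact_mod_cast Fintype.card_pos
  have hthr : 0 < lthr m T.card δ := by unfold lthr; positivity
  set S : ({j // j ∈ B} → Fin m) → Finset ({j // j ∈ T} → Fin m) := fun b =>
    univ.filter fun u => ∃ i : {j // j ∈ B}, u ∈ LPop c H T i (b i) ∧
      ((LPop c H T i (b i)).card : ℝ) ≤ lthr m T.card δ with hS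
  have hScard : ∀ b, ((S b).card : ℝ) ≤ Fintype.card I * lthr m T.card δ := by
    intro b
    have h1 : S b ⊆ (univ : Finset {j // j ∈ B}).biUnion fun i =>
        if ((LPop c H T i (b i)).card : ℝ) ≤ lthr m T.card δ then LPop c H T i (b i) else ∅ := by
      intro u hu
      rw [hS] at hu
      simp only [mem_filter, mem_univ, true_and] at hu
      obtain ⟨i, hi, hi2⟩ := hu
      rw [mem_biUnion]
      refine ⟨i, mem_univ _, ?_⟩
      rw [if_pos hi2]
      exact hi
    have h2 : ((S b).card : ℝ) ≤ ∑ i : {j // j ∈ B},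
        ((if ((LPop c H T i (b i)).card : ℝ) ≤ lthr m T.card δ then LPop c H T i (b i)
          else ∅ : Finset _).card : ℝ) := by
      exact_mod_cast (Finset.card_le_card h1).trans Finset.card_biUnion_le
    refine h2.trans ?_
    calc ∑ i : {j // j ∈ B},
        ((if ((LPop c H T i (b i)).card : ℝ) ≤ lthr m T.card δ then LPop c H T i (b i)
          else ∅ : Finset _).card : ℝ)
        ≤ ∑ _i : {j // j ∈ B}, lthr m T.card δ := by
          refine Finset.sum_le_sum fun i _ => ?_
          split_ifs with h
          · exact h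
          · simp only [Finset.card_empty, Nat.cast_zero]
            exact hthr.le
      _ = (B.card : ℝ) * lthr m T.card δ := by
          rw [Finset.sum_const, nsmul_eq_mul, Finset.card_univ, Fintype.card_coe]
      _ ≤ Fintype.card I * lthr m T.card δ := by
          refine mul_le_mul_of_nonneg_right ?_ hthr.le
          exact_mod_cast Finset.card_le_univ B
  set q : ({j // j ∈ B} → Fin m) → ({j // j ∈ T} → Fin m) → ℝ := fun b u =>
    1 / 2 * ((m : ℝ) ^ T.card)⁻¹ +
      if u ∈ S b then 1 / 2 * (Fintype.card I * lthr m T.card δ)⁻¹ else 0 with hq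
  have hq1 : ∀ b u, 1 / 2 * ((m : ℝ) ^ T.card)⁻¹ ≤ q b u := by
    intro b u
    simp only [hq]
    split_ifs
    · have : (0 : ℝ) ≤ 1 / 2 * (Fintype.card I * lthr m T.card δ)⁻¹ := by positivity
      linarith
    · linarith
  have hq0 : ∀ b u, 0 < q b u := fun b u => lt_of_lt_of_le (by positivity) (hq1 b u)
  have hqsum : ∀ b, ∑ u, q b u ≤ 1 := by
    intro b
    simp only [hq]
    rw [Finset.sum_add_distrib, Finset.sum_const, Finset.card_univ, Fintype.card_fun,
      Fintype.card_fin, Fintype.card_coe, ← Finset.sum_filter, Finset.sum_const,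
      nsmul_eq_mul, nsmul_eq_mul, Finset.filter_mem_eq_inter, Finset.univ_inter]
    have h1 : ((m ^ T.card : ℕ) : ℝ) * (1 / 2 * ((m : ℝ) ^ T.card)⁻¹) = 1 / 2 := by
      push_cast
      field_simp
    have h2 : ((S b).card : ℝ) * (1 / 2 * (Fintype.card I * lthr m T.card δ)⁻¹) ≤ 1 / 2 := by
      have h3 : 0 < (Fintype.card I : ℝ) * lthr m T.card δ := by positivity
      have h4 : ((S b).card : ℝ) * (Fintype.card I * lthr m T.card δ)⁻¹ ≤ 1 := by
        rw [← div_eq_mul_inv, div_le_one h3]
        exact hScard b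
      linarith
    rw [h1]
    linarith
  have hgib := cent_le_gibbs hp (fun x : {x // x ∈ H} => lrs T x.1) (fun x => lrs B x.1) q
    (fun ω _ => hq0 _ _) (fun _ => univ) (fun _ _ => mem_univ _)
    (fun _ _ _ _ => (hq0 _ _).le) (fun _ _ => hqsum _)
  refine hgib.trans ?_
  -- pointwise bound
  have hpt : ∀ x : {x // x ∈ H}, -Real.log (q (lrs B x.1) (lrs T x.1)) ≤
      Real.log 2 + T.card * Real.log m -
        (if EBad c δ H T B x.1 then (1 : ℝ) else 0) *
          (δ / 2 * Real.log m - Real.log (Fintype.card I)) := by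
    intro x
    split_ifs with hx
    · have hmem : lrs T x.1 ∈ S (lrs B x.1) := by
        obtain ⟨i, hi, h1, h2⟩ := hx
        rw [hS]
        simp only [mem_filter, mem_univ, true_and]
        exact ⟨⟨i, hi⟩, h1, h2⟩
      have h1 : 1 / 2 * (Fintype.card I * lthr m T.card δ)⁻¹ ≤ q (lrs B x.1) (lrs T x.1) := by
        simp only [hq]
        rw [if_pos hmem]
        have : (0 : ℝ) ≤ 1 / 2 * ((m : ℝ) ^ T.card)⁻¹ := by positivity
        linarith
      have h2 : Real.log (1 / 2 * (Fintype.card I * lthr m T.card δ)⁻¹) ≤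
          Real.log (q (lrs B x.1) (lrs T x.1)) := Real.log_le_log (by positivity) h1
      have h3 : Real.log (1 / 2 * (Fintype.card I * lthr m T.card δ)⁻¹) =
          -Real.log 2 - Real.log (Fintype.card I) - (T.card - δ / 2) * Real.log m := by
        rw [Real.log_mul (by norm_num) (by positivity), Real.log_inv,
          Real.log_mul hK.ne' hthr.ne', one_div, Real.log_inv]
        unfold lthr
        rw [Real.log_rpow hm0]
        ring
      rw [h3] at h2
      linarith
    · have h2 : Real.log (1 / 2 * ((m : ℝ) ^ T.card)⁻¹) ≤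
          Real.log (q (lrs B x.1) (lrs T x.1)) := Real.log_le_log (by positivity) (hq1 _ _)
      have h3 : Real.log (1 / 2 * ((m : ℝ) ^ T.card)⁻¹) =
          -Real.log 2 - T.card * Real.log m := by
        rw [Real.log_mul (by norm_num) (by positivity), Real.log_inv, one_div, Real.log_inv,
          Real.log_pow]
        ring
      rw [h3] at h2
      linarith
  calc ∑ x : {x // x ∈ H}, uni {x // x ∈ H} x * -Real.log (q (lrs B x.1) (lrs T x.1))
      ≤ ∑ x : {x // x ∈ H}, uni {x // x ∈ H} x * (Real.log 2 + T.card * Real.log m -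
        (if EBad c δ H T B x.1 then (1 : ℝ) else 0) *
          (δ / 2 * Real.log m - Real.log (Fintype.card I))) :=
        Finset.sum_le_sum fun x _ => mul_le_mul_of_nonneg_left (hpt x) (hp.nonneg x)
    _ = (Real.log 2 + T.card * Real.log m) * (∑ x, uni {x // x ∈ H} x) -
        (∑ x : {x // x ∈ H}, uni {x // x ∈ H} x * (if EBad c δ H T B x.1 then (1 : ℝ) else 0)) *
          (δ / 2 * Real.log m - Real.log (Fintype.card I)) := by
        rw [Finset.mul_sum, Finset.sum_mul, ← Finset.sum_sub_distrib]
        refine Finset.sum_congr rfl fun x _ => ?_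
        ring
    _ = _ := by
        rw [hp.sum_eq, mul_one]
        congr 2
        unfold uni
        rw [← Finset.mul_sum, Fintype.card_coe, ← div_eq_inv_mul]
        congr 1
        have h6 := Finset.sum_coe_sort H (fun x => if EBad c δ H T B x then (1 : ℝ) else 0)
        rw [h6, Finset.sum_ite, Finset.sum_const_zero, add_zero, Finset.sum_const, nsmul_eq_mul,
          mul_one]

open Classical in
/-- the entropy bound for a family of disjoint blocks -/
theorem sum_ebad_le [Fintype I] [DecidableEq I] [Nonempty I] {c δ D : ℝ} (hm : 2 ≤ m)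
    (H : Finset (I → Fin m)) (hH : H.Nonempty)
    (hcard : (m : ℝ) ^ ((Fintype.card I : ℝ) - D) ≤ H.card) {l : ℕ} (T : Fin l → Finset I)
    (B : Finset I) (hcover : ∀ i, i ∈ B ∨ ∃ a, i ∈ T a)
    (hsum : B.card + ∑ a, (T a).card ≤ Fintype.card I) :
    (∑ a, ((H.filter fun x => EBad c δ H (T a) B x).card : ℝ) / H.card) *
        (δ / 2 * Real.log m - Real.log (Fintype.card I)) ≤
      D * Real.log m + l * Real.log 2 := by
  have hm0 : (0 : ℝ) < m := by positivity
  have hm1 : (1 : ℝ) < m := by
    have : (2 : ℝ) ≤ m := by exact_mod_cast hm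
    linarith
  have hL : 0 < Real.log m := Real.log_pos hm1
  have : Nonempty {x // x ∈ H} := ⟨⟨hH.choose, hH.choose_spec⟩⟩
  have hp : IsPr (uni {x // x ∈ H}) := isPr_uni
  have h1 : ((Fintype.card I : ℝ) - D) * Real.log m ≤ Real.log H.card := by
    rw [← Real.log_rpow hm0]
    exact Real.log_le_log (by positivity) hcard
  have h2 : Real.log H.card = ent (uni {x // x ∈ H}) (fun x : {x // x ∈ H} => x.1) := by
    rw [ent_uni_inj Subtype.val_injective, Fintype.card_coe]
  have h3 : ent (uni {x // x ∈ H}) (fun x : {x // x ∈ H} => x.1) ≤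
      ent (uni {x // x ∈ H}) (fun x : {x // x ∈ H} => (lrs B x.1, fun a => lrs (T a) x.1)) := by
    refine ent_mono hp fun x y _ _ hxy => ?_
    rw [Prod.mk.injEq] at hxy
    funext i
    rcases hcover i with h | ⟨a, h⟩
    · exact congrFun hxy.1 ⟨i, h⟩
    · exact congrFun (congrFun hxy.2 a) ⟨i, h⟩
  have h4 := ent_family_le hp (fun x : {x // x ∈ H} => lrs B x.1)
    (fun (a : Fin l) (x : {x // x ∈ H}) => lrs (T a) x.1)
  have h5 : ent (uni {x // x ∈ H}) (fun x : {x // x ∈ H} => lrs B x.1) ≤
      B.card * Real.log m := by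
    have := ent_le_log_card' hp (fun x : {x // x ∈ H} => lrs B x.1)
    rw [Fintype.card_fun, Fintype.card_fin, Fintype.card_coe] at this
    push_cast at this
    rwa [Real.log_pow] at this
  have h6 : ∑ a, cent (uni {x // x ∈ H}) (fun x : {x // x ∈ H} => lrs (T a) x.1)
      (fun x => lrs B x.1) ≤ ∑ a, (Real.log 2 + (T a).card * Real.log m -
        ((H.filter fun x => EBad c δ H (T a) B x).card : ℝ) / H.card *
          (δ / 2 * Real.log m - Real.log (Fintype.card I))) :=
    Finset.sum_le_sum fun a _ => cent_le_of_ebad hm H hH (T a) B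
  rw [Finset.sum_sub_distrib, Finset.sum_add_distrib, Finset.sum_const, Finset.card_univ,
    Fintype.card_fin, nsmul_eq_mul, ← Finset.sum_mul, ← Finset.sum_mul] at h6
  have h7 : ((B.card : ℝ) + ∑ a, ((T a).card : ℝ)) * Real.log m ≤
      Fintype.card I * Real.log m := by
    refine mul_le_mul_of_nonneg_right ?_ hL.le
    exact_mod_cast hsum
  nlinarith

/-! ### permutations -/

theorem exists_perm_map [Fintype I] [DecidableEq I] {S T : Finset I} (h : S.card = T.card) :
    ∃ ρ : Equiv.Perm I, S.map ρ.toEmbedding = T := by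
  classical
  have e : {i // i ∈ S} ≃ {i // i ∈ T} := Finset.equivOfCardEq h
  refine ⟨e.extendSubtype, ?_⟩
  have h1 : S.map (e.extendSubtype).toEmbedding ⊆ T := by
    intro i hi
    rw [Finset.mem_map] at hi
    obtain ⟨j, hj, rfl⟩ := hi
    exact e.extendSubtype_mem j hj
  exact Finset.eq_of_subset_of_card_le h1 (by rw [Finset.card_map, h])

theorem sum_perm_map_eq [Fintype I] [DecidableEq I] {S T : Finset I} (h : S.card = T.card)
    (f : Finset I → ℝ) : ∑ σ : Equiv.Perm I, f (S.map σ.toEmbedding) =
      ∑ σ : Equiv.Perm I, f (T.map σ.toEmbedding) := by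
  obtain ⟨ρ, rfl⟩ := exists_perm_map h
  rw [← Equiv.sum_comp (Equiv.mulRight ρ) (fun σ : Equiv.Perm I => f (S.map σ.toEmbedding))]
  refine Finset.sum_congr rfl fun σ _ => ?_
  rw [Finset.map_map]
  rfl

open Classical in
theorem sum_perm_witness [Fintype I] [DecidableEq I] (S B : Finset I) (hSB : Disjoint S B)
    (hB : Fintype.card I ≤ 2 * B.card + S.card) (f : Finset I → ℝ) (hf : ∀ T, 0 ≤ f T)
    (w : Finset I → I) (hw : ∀ T, f T ≠ 0 → w T ∉ T) :
    ∑ σ : Equiv.Perm I, f (S.map σ.toEmbedding) ≤
      2 * ∑ σ : Equiv.Perm I, f (S.map σ.toEmbedding) *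
        (if w (S.map σ.toEmbedding) ∈ B.map σ.toEmbedding then 1 else 0) := by
  set N : I → ℝ := fun b => ∑ σ : Equiv.Perm I, f (S.map σ.toEmbedding) *
    (if w (S.map σ.toEmbedding) = σ b then 1 else 0) with hN
  have hN0 : ∀ b, 0 ≤ N b := fun b => Finset.sum_nonneg fun σ _ =>
    mul_nonneg (hf _) (by split_ifs <;> norm_num)
  -- the sum over `b ∈ B`
  have h1 : ∑ σ : Equiv.Perm I, f (S.map σ.toEmbedding) *
      (if w (S.map σ.toEmbedding) ∈ B.map σ.toEmbedding then 1 else 0) = ∑ b ∈ B, N b := by
    simp only [hN]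
    rw [Finset.sum_comm]
    refine Finset.sum_congr rfl fun σ _ => ?_
    rw [← Finset.mul_sum]
    congr 1
    split_ifs with h
    · rw [Finset.mem_map] at h
      obtain ⟨b, hb, hb2⟩ := h
      have hb3 : σ b = w (S.map σ.toEmbedding) := hb2
      rw [Finset.sum_eq_single b]
      · rw [if_pos hb3.symm]
      · intro b' _ hne
        rw [if_neg]
        intro h'
        exact hne (σ.injective (by rw [← h', hb3]))
      · intro h'
        exact absurd hb h'
    · symm
      refine Finset.sum_eq_zero fun b hb => ?_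
      rw [if_neg]
      intro h'
      exact h (by rw [h', Finset.mem_map]; exact ⟨b, hb, rfl⟩)
  have h2 : ∑ σ : Equiv.Perm I, f (S.map σ.toEmbedding) = ∑ b ∈ Sᶜ, N b := by
    simp only [hN]
    rw [Finset.sum_comm]
    refine Finset.sum_congr rfl fun σ _ => ?_
    rw [← Finset.mul_sum]
    by_cases h0 : f (S.map σ.toEmbedding) = 0
    · rw [h0, zero_mul]
    have hw1 := hw _ h0
    have hb : σ.symm (w (S.map σ.toEmbedding)) ∈ Sᶜ := by
      rw [Finset.mem_compl]
      intro h
      exact hw1 (by rw [Finset.mem_map]; exact ⟨_, h, by simp⟩)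
    rw [Finset.sum_eq_single (σ.symm (w (S.map σ.toEmbedding)))]
    · rw [if_pos (by simp), mul_one]
    · intro b' _ hne
      rw [if_neg]
      intro h'
      exact hne (by rw [h', Equiv.symm_apply_apply])
    · intro h'
      exact absurd hb h'
  have h3 : ∀ b b', b ∉ S → b' ∉ S → N b = N b' := by
    intro b b' hb hb'
    simp only [hN]
    rw [← Equiv.sum_comp (Equiv.mulRight (Equiv.swap b b'))
      (fun σ : Equiv.Perm I => f (S.map σ.toEmbedding) *
        (if w (S.map σ.toEmbedding) = σ b' then 1 else 0))]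
    refine Finset.sum_congr rfl fun σ _ => ?_
    have hS : S.map ((Equiv.mulRight (Equiv.swap b b')) σ).toEmbedding =
        S.map σ.toEmbedding := by
      ext i
      simp only [Finset.mem_map_equiv, Equiv.coe_mulRight]
      constructor
      · intro h
        have h' : (Equiv.swap b b') (σ.symm i) ∈ S := by
          have : (σ * Equiv.swap b b').symm i = (Equiv.swap b b') (σ.symm i) := by
            rw [Equiv.symm_apply_eq]
            simp
          rwa [this] at h
        by_cases h1 : σ.symm i = b
        · rw [h1, Equiv.swap_apply_left] at h'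
          exact absurd h' hb'
        by_cases h2 : σ.symm i = b'
        · rw [h2, Equiv.swap_apply_right] at h'
          exact absurd h' hb
        rwa [Equiv.swap_apply_of_ne_of_ne h1 h2] at h'
      · intro h
        have : (σ * Equiv.swap b b').symm i = (Equiv.swap b b') (σ.symm i) := by
          rw [Equiv.symm_apply_eq]
          simp
        rw [this]
        by_cases h1 : σ.symm i = b
        · rw [h1] at h
          exact absurd h hb
        by_cases h2 : σ.symm i = b'
        · rw [h2] at h
          exact absurd h hb'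
        rwa [Equiv.swap_apply_of_ne_of_ne h1 h2]
    rw [hS]
    have : ((Equiv.mulRight (Equiv.swap b b')) σ) b' = σ b := by
      simp
    rw [this]
  rw [h1, h2]
  by_cases hne : Sᶜ.Nonempty
  · obtain ⟨b0, hb0⟩ := hne
    rw [Finset.mem_compl] at hb0
    have h4 : ∑ b ∈ Sᶜ, N b = Sᶜ.card * N b0 := by
      rw [Finset.sum_congr rfl fun b hb => h3 b b0 (Finset.mem_compl.mp hb) hb0,
        Finset.sum_const, nsmul_eq_mul]
    have h5 : ∑ b ∈ B, N b = B.card * N b0 := by
      rw [Finset.sum_congr rfl fun b hb => h3 b b0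
        (fun h => Finset.disjoint_left.mp hSB h hb) hb0, Finset.sum_const, nsmul_eq_mul]
    rw [h4, h5]
    have h6 : (Sᶜ.card : ℝ) ≤ 2 * B.card := by
      have : Sᶜ.card ≤ 2 * B.card := by
        rw [Finset.card_compl]
        omega
      exact_mod_cast this
    have := mul_le_mul_of_nonneg_right h6 (hN0 b0)
    linarith
  · rw [Finset.not_nonempty_iff_eq_empty] at hne
    rw [hne, Finset.sum_empty]
    have : 0 ≤ ∑ b ∈ B, N b := Finset.sum_nonneg fun b _ => hN0 b
    linarith

/-! ### Lemma A -/

/-- `x` is `T`-bad with a fine witness. -/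
def FBad [Fintype I] [DecidableEq I] (c δ : ℝ) (H : Finset (I → Fin m)) (T : Finset I)
    (x : I → Fin m) : Prop :=
  ∃ i, i ∉ T ∧ lrs T x ∈ LPop c H T i (x i) ∧ ((LPop c H T i (x i)).card : ℝ) ≤ lthr m T.card δ

open Classical in
theorem card_tbad_le [Fintype I] [DecidableEq I] {c δ : ℝ} (hc : 0 < c) (hm : 2 ≤ m)
    (H : Finset (I → Fin m)) (hsp : Spread δ H) (T : Finset I) :
    ((H.filter fun x => TBad c H T x).card : ℝ) ≤
      ((H.filter fun x => FBad c δ H T x).card : ℝ) +
        Fintype.card I / c * (m : ℝ) ^ (-(δ / 2)) * H.card := by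
  have h1 : (H.filter fun x => TBad c H T x) ⊆ (H.filter fun x => FBad c δ H T x) ∪
      (univ : Finset I).biUnion fun i =>
        H.filter fun x => lthr m T.card δ < ((LPop c H T i (x i)).card : ℝ) := by
    intro x hx
    rw [mem_filter] at hx
    obtain ⟨hxH, hx⟩ := hx
    rw [tbad_iff hxH] at hx
    obtain ⟨i, hi, hi2⟩ := hx
    rw [mem_union]
    by_cases h : ((LPop c H T i (x i)).card : ℝ) ≤ lthr m T.card δ
    · left
      rw [mem_filter]
      exact ⟨hxH, i, hi, hi2, h⟩
    · right
      rw [mem_biUnion]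
      refine ⟨i, mem_univ _, ?_⟩
      rw [mem_filter]
      exact ⟨hxH, not_le.mp h⟩
  have h2 : ((H.filter fun x => TBad c H T x).card : ℝ) ≤
      ((H.filter fun x => FBad c δ H T x).card : ℝ) + ∑ i : I,
        ((H.filter fun x => lthr m T.card δ < ((LPop c H T i (x i)).card : ℝ)).card : ℝ) := by
    exact_mod_cast (Finset.card_le_card h1).trans
      ((Finset.card_union_le _ _).trans (Nat.add_le_add_left Finset.card_biUnion_le _))
  have h3 : ∑ i : I, ((H.filter fun x => lthr m T.card δ <
      ((LPop c H T i (x i)).card : ℝ)).card : ℝ) ≤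
      ∑ _i : I, 1 / c * (m : ℝ) ^ (-(δ / 2)) * H.card :=
    Finset.sum_le_sum fun i _ => card_unfine_le hc hm H hsp T i
  rw [Finset.sum_const, Finset.card_univ, nsmul_eq_mul] at h3
  calc _ ≤ _ := h2
    _ ≤ _ := add_le_add le_rfl h3
    _ = _ := by ring

open Classical in
theorem sum_fbad_le [Fintype I] [DecidableEq I] [Nonempty I] {c δ : ℝ}
    (H : Finset (I → Fin m)) (S B : Finset I) (hSB : Disjoint S B)
    (hB : Fintype.card I ≤ 2 * B.card + S.card) :
    ∑ σ : Equiv.Perm I, ((H.filter fun x => FBad c δ H (S.map σ.toEmbedding) x).card : ℝ) ≤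
      2 * ∑ σ : Equiv.Perm I, ((H.filter fun x =>
        EBad c δ H (S.map σ.toEmbedding) (B.map σ.toEmbedding) x).card : ℝ) := by
  have hx : ∀ x, ∑ σ : Equiv.Perm I,
      (if FBad c δ H (S.map σ.toEmbedding) x then (1 : ℝ) else 0) ≤
      2 * ∑ σ : Equiv.Perm I,
        (if EBad c δ H (S.map σ.toEmbedding) (B.map σ.toEmbedding) x then (1 : ℝ) else 0) := by
    intro x
    have h1 := sum_perm_witness S B hSB hB
      (fun T => if FBad c δ H T x then (1 : ℝ) else 0)
      (fun T => by split_ifs <;> norm_num)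
      (fun T => if h : FBad c δ H T x then h.choose else Classical.arbitrary I)
      (fun T hT => by
        have h : FBad c δ H T x := by
          by_contra h
          exact hT (if_neg h)
        rw [dif_pos h]
        exact h.choose_spec.1)
    refine h1.trans (mul_le_mul_of_nonneg_left (Finset.sum_le_sum fun σ _ => ?_) (by norm_num))
    by_cases h : FBad c δ H (S.map σ.toEmbedding) x
    · rw [if_pos h, one_mul, dif_pos h]
      by_cases h2 : h.choose ∈ B.map σ.toEmbedding
      · rw [if_pos h2, if_pos]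
        exact ⟨h.choose, h2, h.choose_spec.2⟩
      · rw [if_neg h2]
        split_ifs <;> norm_num
    · rw [if_neg h, zero_mul]
      split_ifs <;> norm_num
  have h2 : ∀ P : (I → Fin m) → Prop, ((H.filter P).card : ℝ) =
      ∑ x ∈ H, if P x then (1 : ℝ) else 0 := by
    intro P
    rw [Finset.sum_ite, Finset.sum_const_zero, add_zero, Finset.sum_const, nsmul_eq_mul, mul_one]
  simp only [h2]
  rw [Finset.sum_comm, Finset.sum_comm (s := univ) (t := H)
    (f := fun (σ : Equiv.Perm I) x =>
      if EBad c δ H (S.map σ.toEmbedding) (B.map σ.toEmbedding) x then (1 : ℝ) else 0),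
    Finset.mul_sum]
  exact Finset.sum_le_sum fun x _ => hx x

open Classical in
/-- Lemma A: for most blocks `T` of coordinates few points are `T`-bad. -/
theorem lemmaA [Fintype I] [DecidableEq I] (D δ c : ℝ) (hδ : 0 < δ) (hc : 0 < c) (hm : 2 ≤ m)
    (H : Finset (I → Fin m)) (hH : H.Nonempty) (hsp : Spread δ H)
    (hcard : (m : ℝ) ^ ((Fintype.card I : ℝ) - D) ≤ H.card) (T0 : Finset I) (l : ℕ) (hl : 1 ≤ l)
    (hlT : 2 * (l * T0.card) ≤ Fintype.card I)
    (hL : Real.log (Fintype.card I) < δ / 2 * Real.log m) :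
    ∑ σ : Equiv.Perm I, ((H.filter fun x => TBad c H (T0.map σ.toEmbedding) x).card : ℝ) / H.card ≤
      (Fintype.card I).factorial * (2 * (D * Real.log m + l * Real.log 2) /
        (l * (δ / 2 * Real.log m - Real.log (Fintype.card I))) +
        Fintype.card I / c * (m : ℝ) ^ (-(δ / 2))) := by
  have hm0 : (0 : ℝ) < m := by positivity
  have hm1 : (1 : ℝ) < m := by
    have : (2 : ℝ) ≤ m := by exact_mod_cast hm
    linarith
  have hLm : 0 < Real.log m := Real.log_pos hm1
  have hHc : (0 : ℝ) < H.card := by exact_mod_cast hH.card_pos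
  have hl0 : (0 : ℝ) < l := by exact_mod_cast hl
  have hD : 0 ≤ D := by
    have h1 : (H.card : ℝ) ≤ (m : ℝ) ^ (Fintype.card I : ℝ) := by
      have := Finset.card_le_univ H
      rw [Fintype.card_fun, Fintype.card_fin] at this
      rw [Real.rpow_natCast]
      exact_mod_cast this
    have h2 := (Real.rpow_le_rpow_left_iff hm1).mp (hcard.trans h1)
    linarith
  have hden : 0 < δ / 2 * Real.log m - Real.log (Fintype.card I) := by linarith
  rcases isEmpty_or_nonempty I with hI | hI
  · have h0 : ∀ T x, ¬ TBad c H T x := by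
      rintro T x ⟨i, _⟩
      exact hI.elim i
    simp only [h0, Finset.filter_false, Finset.card_empty, Nat.cast_zero, zero_div,
      Finset.sum_const_zero]
    positivity
  -- the blocks
  obtain ⟨e⟩ : Nonempty (Fin l × Fin T0.card ↪ I) := by
    refine Function.Embedding.nonempty_of_card_le ?_
    rw [Fintype.card_prod, Fintype.card_fin, Fintype.card_fin]
    omega
  set S : Fin l → Finset I := fun a => (univ : Finset (Fin T0.card)).image fun t => e (a, t)
    with hS
  have hScard : ∀ a, (S a).card = T0.card := by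
    intro a
    simp only [hS]
    rw [Finset.card_image_of_injective, Finset.card_univ, Fintype.card_fin]
    intro t t' h
    have := e.injective h
    rw [Prod.mk.injEq] at this
    exact this.2
  set U : Finset I := univ.biUnion S with hU
  set B0 : Finset I := Uᶜ with hB0
  have hUcard : U.card = l * T0.card := by
    rw [hU, Finset.card_biUnion]
    · rw [Finset.sum_congr rfl fun a _ => hScard a, Finset.sum_const, Finset.card_univ,
        Fintype.card_fin, smul_eq_mul]
    · intro a _ b _ hab
      change Disjoint (S a) (S b)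
      rw [Finset.disjoint_left]
      intro i hi hi'
      simp only [hS, mem_image, mem_univ, true_and] at hi hi'
      obtain ⟨t, ht⟩ := hi
      obtain ⟨t', ht'⟩ := hi'
      have := e.injective (ht.trans ht'.symm)
      rw [Prod.mk.injEq] at this
      exact hab this.1
  have hB0card : B0.card = Fintype.card I - l * T0.card := by
    rw [hB0, Finset.card_compl, hUcard]
  have hdisj : ∀ a, Disjoint (S a) B0 := by
    intro a
    rw [Finset.disjoint_left]
    intro i hi hi'
    rw [hB0, Finset.mem_compl] at hi'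
    exact hi' (by rw [hU, mem_biUnion]; exact ⟨a, mem_univ _, hi⟩)
  set R : ℝ := (D * Real.log m + l * Real.log 2) /
    (δ / 2 * Real.log m - Real.log (Fintype.card I)) with hR
  -- the entropy bound for every permutation
  have h1 : ∀ σ : Equiv.Perm I, ∑ a, ((H.filter fun x =>
      EBad c δ H ((S a).map σ.toEmbedding) (B0.map σ.toEmbedding) x).card : ℝ) / H.card ≤ R := by
    intro σ
    rw [hR, le_div_iff₀ hden]
    refine sum_ebad_le hm H hH hcard (fun a => (S a).map σ.toEmbedding)
      (B0.map σ.toEmbedding) (fun i => ?_) ?_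
    · by_cases h : σ.symm i ∈ B0
      · left
        rw [Finset.mem_map_equiv]
        exact h
      · right
        rw [hB0, Finset.mem_compl, not_not, hU, mem_biUnion] at h
        obtain ⟨a, _, ha⟩ := h
        exact ⟨a, by rw [Finset.mem_map_equiv]; exact ha⟩
    · simp only [Finset.card_map, hScard, hB0card, Finset.sum_const, Finset.card_univ,
        Fintype.card_fin, smul_eq_mul]
      omega
  -- sum over the permutations
  have h2 : ∀ a, ∑ σ : Equiv.Perm I, ((H.filter fun x =>
      FBad c δ H (T0.map σ.toEmbedding) x).card : ℝ) ≤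
      2 * ∑ σ : Equiv.Perm I, ((H.filter fun x =>
        EBad c δ H ((S a).map σ.toEmbedding) (B0.map σ.toEmbedding) x).card : ℝ) := by
    intro a
    rw [sum_perm_map_eq (hScard a).symm
      (fun T => ((H.filter fun x => FBad c δ H T x).card : ℝ))]
    refine sum_fbad_le H (S a) B0 (hdisj a) ?_
    rw [hB0card, hScard]
    omega
  have h3 : (l : ℝ) * ∑ σ : Equiv.Perm I, ((H.filter fun x =>
      FBad c δ H (T0.map σ.toEmbedding) x).card : ℝ) ≤
      2 * ((Fintype.card I).factorial * (R * H.card)) := by
    calc (l : ℝ) * ∑ σ : Equiv.Perm I, ((H.filter fun x =>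
          FBad c δ H (T0.map σ.toEmbedding) x).card : ℝ)
        = ∑ _a : Fin l, ∑ σ : Equiv.Perm I, ((H.filter fun x =>
          FBad c δ H (T0.map σ.toEmbedding) x).card : ℝ) := by
          rw [Finset.sum_const, Finset.card_univ, Fintype.card_fin, nsmul_eq_mul]
      _ ≤ ∑ a : Fin l, 2 * ∑ σ : Equiv.Perm I, ((H.filter fun x =>
          EBad c δ H ((S a).map σ.toEmbedding) (B0.map σ.toEmbedding) x).card : ℝ) :=
          Finset.sum_le_sum fun a _ => h2 a
      _ = 2 * ∑ σ : Equiv.Perm I, ∑ a : Fin l, ((H.filter fun x =>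
          EBad c δ H ((S a).map σ.toEmbedding) (B0.map σ.toEmbedding) x).card : ℝ) := by
          rw [← Finset.mul_sum, Finset.sum_comm]
      _ ≤ 2 * ∑ _σ : Equiv.Perm I, R * H.card := by
          refine mul_le_mul_of_nonneg_left (Finset.sum_le_sum fun σ _ => ?_) (by norm_num)
          have := h1 σ
          rw [← Finset.sum_div, div_le_iff₀ hHc] at this
          exact this
      _ = 2 * ((Fintype.card I).factorial * (R * H.card)) := by
          rw [Finset.sum_const, Finset.card_univ, Fintype.card_perm, nsmul_eq_mul]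
  have h4 : ∑ σ : Equiv.Perm I, ((H.filter fun x =>
      TBad c H (T0.map σ.toEmbedding) x).card : ℝ) ≤
      ∑ σ : Equiv.Perm I, ((H.filter fun x => FBad c δ H (T0.map σ.toEmbedding) x).card : ℝ) +
        (Fintype.card I).factorial *
          (Fintype.card I / c * (m : ℝ) ^ (-(δ / 2)) * H.card) := by
    calc _ ≤ ∑ σ : Equiv.Perm I, (((H.filter fun x =>
            FBad c δ H (T0.map σ.toEmbedding) x).card : ℝ) +
            Fintype.card I / c * (m : ℝ) ^ (-(δ / 2)) * H.card) :=
          Finset.sum_le_sum fun σ _ => card_tbad_le hc hm H hsp _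
      _ = _ := by
          rw [Finset.sum_add_distrib, Finset.sum_const, Finset.card_univ, Fintype.card_perm,
            nsmul_eq_mul]
  have h5 : ∑ σ : Equiv.Perm I, ((H.filter fun x =>
      FBad c δ H (T0.map σ.toEmbedding) x).card : ℝ) ≤
      (Fintype.card I).factorial * (2 * R / l * H.card) := by
    have h6 : ∑ σ : Equiv.Perm I, ((H.filter fun x =>
        FBad c δ H (T0.map σ.toEmbedding) x).card : ℝ) ≤
        2 * ((Fintype.card I).factorial * (R * H.card)) / l := by
      rw [le_div_iff₀ hl0]
      linarith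
    refine h6.trans (le_of_eq ?_)
    field_simp
  rw [← Finset.sum_div, div_le_iff₀ hHc]
  have h7 : 2 * (D * Real.log m + l * Real.log 2) /
      (l * (δ / 2 * Real.log m - Real.log (Fintype.card I))) = 2 * R / l := by
    rw [hR]
    field_simp
  rw [h7]
  calc _ ≤ _ := h4
    _ ≤ (Fintype.card I).factorial * (2 * R / l * H.card) + (Fintype.card I).factorial *
          (Fintype.card I / c * (m : ℝ) ^ (-(δ / 2)) * H.card) := add_le_add h5 le_rfl
    _ = _ := by ring

end RFold
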