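import Pool.Agent.Lib.MP_3581cd_co.Rs
import Pool.Agent.Lib.MP_3581cd_co.LemmaA

/-!
# MP_3581cd_co: averages over the permutations of the coordinates
-/

namespace RFold

open Finset

variable {I : Type} [Fintype I] [DecidableEq I] {m : ℕ}

/-- Two families of pairwise disjoint sets with the same cardinalities are related by a
permutation. -/
theorem exists_perm_family {τ : Type*} [Fintype τ] {T T' : τ → Finset I}
    (hT : ∀ a b, a ≠ b → Disjoint (T a) (T b)) (hT' : ∀ a b, a ≠ b → Disjoint (T' a) (T' b))
    (hcard : ∀ a, (T a).card = (T' a).card) :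
    ∃ ρ : Equiv.Perm I, ∀ a, (T a).map ρ.toEmbedding = T' a := by
  classical
  let col : (τ → Finset I) → I → Option τ := fun S i =>
    if h : ∃ a, i ∈ S a then some h.choose else none
  have hcol : ∀ (S : τ → Finset I), (∀ a b, a ≠ b → Disjoint (S a) (S b)) →
      ∀ i a, col S i = some a ↔ i ∈ S a := by
    intro S hS i a
    constructor
    · intro h
      simp only [col] at h
      split_ifs at h with h1
      rw [Option.some.injEq] at h
      rw [← h]
      exact h1.choose_spec
    · intro h
      have h1 : ∃ a, i ∈ S a := ⟨a, h⟩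
      simp only [col, dif_pos h1, Option.some.injEq]
      by_contra hne
      exact (disjoint_left.mp (hS _ _ hne) h1.choose_spec) h
  have hnone : ∀ (S : τ → Finset I), (univ.filter fun i => col S i = none).card +
      (univ.biUnion S).card = Fintype.card I := by
    intro S
    have h1 : univ.filter (fun i => col S i = none) = (univ.biUnion S)ᶜ := by
      ext i
      simp only [mem_filter, mem_univ, true_and, mem_compl, mem_biUnion, col]
      by_cases h : ∃ a, i ∈ S a
      · rw [dif_pos h]; simp [h]
      · rw [dif_neg h]; simp [h]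
    rw [h1, add_comm, card_add_card_compl]
  have hfib : ∀ k : Option τ, (univ.filter fun i => col T i = k).card =
      (univ.filter fun i => col T' i = k).card := by
    intro k
    cases k with
    | none =>
      have h1 := hnone T
      have h2 := hnone T'
      rw [card_biUnion (fun a _ b _ h => hT a b h)] at h1
      rw [card_biUnion (fun a _ b _ h => hT' a b h), ← sum_congr rfl (fun a _ => hcard a)] at h2
      omega
    | some a =>
      have h1 : univ.filter (fun i => col T i = some a) = T a := by
        ext i; simp [hcol T hT]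
      have h2 : univ.filter (fun i => col T' i = some a) = T' a := by
        ext i; simp [hcol T' hT']
      rw [h1, h2, hcard]
  have e : ∀ k : Option τ, {i // col T i = k} ≃ {i // col T' i = k} := fun k =>
    Fintype.equivOfCardEq (by
      rw [Fintype.card_subtype, Fintype.card_subtype]
      exact hfib k)
  refine ⟨Equiv.ofFiberEquiv e, fun a => ?_⟩
  have hsub : (T a).map (Equiv.ofFiberEquiv e).toEmbedding ⊆ T' a := by
    intro i hi
    rw [mem_map] at hi
    obtain ⟨j, hj, rfl⟩ := hi
    rw [← hcol T' hT']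
    have := Equiv.ofFiberEquiv_map e j
    rw [Equiv.coe_toEmbedding, this, hcol T hT]
    exact hj
  exact eq_of_subset_of_card_le hsub (by rw [card_map, hcard])

/-- Right translation of the permutations. -/
theorem sum_perm_mul_right (ρ : Equiv.Perm I) (F : Equiv.Perm I → ℝ) :
    ∑ σ, F (σ * ρ) = ∑ σ, F σ :=
  Equiv.sum_comp (Equiv.mulRight ρ) F

omit [Fintype I] [DecidableEq I] in
theorem map_mul_perm (σ ρ : Equiv.Perm I) (S : Finset I) :
    S.map (σ * ρ).toEmbedding = (S.map ρ.toEmbedding).map σ.toEmbedding := by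
  rw [map_map]
  rfl

/-- Averages of functions of pairwise disjoint sets depend only on the cardinalities. -/
theorem sum_perm_family {τ : Type*} [Fintype τ] {T T' : τ → Finset I}
    (hT : ∀ a b, a ≠ b → Disjoint (T a) (T b)) (hT' : ∀ a b, a ≠ b → Disjoint (T' a) (T' b))
    (hcard : ∀ a, (T a).card = (T' a).card) (f : (τ → Finset I) → ℝ) :
    ∑ σ : Equiv.Perm I, f (fun a => (T a).map σ.toEmbedding) =
      ∑ σ : Equiv.Perm I, f (fun a => (T' a).map σ.toEmbedding) := by
  obtain ⟨ρ, hρ⟩ := exists_perm_family hT hT' hcard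
  rw [← sum_perm_mul_right ρ]
  apply sum_congr rfl
  intro σ _
  congr 1
  funext a
  rw [map_mul_perm, hρ]

/-- two sets -/
theorem sum_perm_two {U Z U' Z' : Finset I} (h1 : Disjoint U Z) (h1' : Disjoint U' Z')
    (c1 : U.card = U'.card) (c2 : Z.card = Z'.card) (f : Finset I → Finset I → ℝ) :
    ∑ σ : Equiv.Perm I, f (U.map σ.toEmbedding) (Z.map σ.toEmbedding) =
      ∑ σ : Equiv.Perm I, f (U'.map σ.toEmbedding) (Z'.map σ.toEmbedding) := by
  have := sum_perm_family (T := ![U, Z]) (T' := ![U', Z'])
    (by intro a b hab; fin_cases a <;> fin_cases b <;> simp_all [disjoint_comm])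
    (by intro a b hab; fin_cases a <;> fin_cases b <;> simp_all [disjoint_comm])
    (by intro a; fin_cases a <;> simp [c1, c2]) (fun T => f (T 0) (T 1))
  simpa using this

/-- three sets -/
theorem sum_perm_three {U Y Z U' Y' Z' : Finset I} (h1 : Disjoint U Y) (h2 : Disjoint U Z)
    (h3 : Disjoint Y Z) (h1' : Disjoint U' Y') (h2' : Disjoint U' Z') (h3' : Disjoint Y' Z')
    (c1 : U.card = U'.card) (c2 : Y.card = Y'.card) (c3 : Z.card = Z'.card)
    (f : Finset I → Finset I → Finset I → ℝ) :
    ∑ σ : Equiv.Perm I, f (U.map σ.toEmbedding) (Y.map σ.toEmbedding) (Z.map σ.toEmbedding) =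
      ∑ σ : Equiv.Perm I, f (U'.map σ.toEmbedding) (Y'.map σ.toEmbedding)
        (Z'.map σ.toEmbedding) := by
  have := sum_perm_family (T := ![U, Y, Z]) (T' := ![U', Y', Z'])
    (by intro a b hab; fin_cases a <;> fin_cases b <;> simp_all [disjoint_comm])
    (by intro a b hab; fin_cases a <;> fin_cases b <;> simp_all [disjoint_comm])
    (by intro a; fin_cases a <;> simp [c1, c2, c3]) (fun T => f (T 0) (T 1) (T 2))
  simpa using this

/-- an element of `U` -/
theorem sum_perm_elem {U Y Z : Finset I} (h1 : Disjoint U Y) (h2 : Disjoint U Z)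
    (g : Finset I → Finset I → Finset I → I → ℝ) {u v : I} (hu : u ∈ U) (hv : v ∈ U) :
    ∑ σ : Equiv.Perm I, g (U.map σ.toEmbedding) (Y.map σ.toEmbedding) (Z.map σ.toEmbedding) (σ u) =
      ∑ σ : Equiv.Perm I, g (U.map σ.toEmbedding) (Y.map σ.toEmbedding) (Z.map σ.toEmbedding)
        (σ v) := by
  have hfix : ∀ S : Finset I, (∀ i ∈ S, Equiv.swap u v i ∈ S) →
      S.map (Equiv.swap u v).toEmbedding = S := by
    intro S hS
    apply eq_of_subset_of_card_le
    · intro i hi
      rw [mem_map] at hi
      obtain ⟨j, hj, rfl⟩ := hi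
      exact hS j hj
    · rw [card_map]
  have hU : U.map (Equiv.swap u v).toEmbedding = U := hfix U (by
    intro i hi
    by_cases h1 : i = u
    · rw [h1, Equiv.swap_apply_left]; exact hv
    · by_cases h2 : i = v
      · rw [h2, Equiv.swap_apply_right]; exact hu
      · rw [Equiv.swap_apply_of_ne_of_ne h1 h2]; exact hi)
  have hd : ∀ S : Finset I, Disjoint U S → S.map (Equiv.swap u v).toEmbedding = S := by
    intro S hS
    apply hfix
    intro i hi
    rw [Equiv.swap_apply_of_ne_of_ne]
    · exact hi
    · rintro rfl; exact (disjoint_left.mp hS hu) hi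
    · rintro rfl; exact (disjoint_left.mp hS hv) hi
  rw [← sum_perm_mul_right (Equiv.swap u v)]
  apply sum_congr rfl
  intro σ _
  rw [map_mul_perm, map_mul_perm, map_mul_perm, hU, hd Y h1, hd Z h2, Equiv.Perm.mul_apply,
    Equiv.swap_apply_left]

/-- The sum over a part of `U` is proportional to its size. -/
theorem sum_perm_part {U S Y Z : Finset I} (hS : S ⊆ U) (h1 : Disjoint U Y) (h2 : Disjoint U Z)
    (g : Finset I → Finset I → Finset I → I → ℝ) :
    (U.card : ℝ) * ∑ σ : Equiv.Perm I, ∑ v ∈ S.map σ.toEmbedding,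
      g (U.map σ.toEmbedding) (Y.map σ.toEmbedding) (Z.map σ.toEmbedding) v =
    S.card * ∑ σ : Equiv.Perm I, ∑ v ∈ U.map σ.toEmbedding,
      g (U.map σ.toEmbedding) (Y.map σ.toEmbedding) (Z.map σ.toEmbedding) v := by
  rcases S.eq_empty_or_nonempty with h0 | ⟨u, hu⟩
  · subst h0; simp
  · have key : ∀ R : Finset I, R ⊆ U → ∑ σ : Equiv.Perm I, ∑ v ∈ R.map σ.toEmbedding,
        g (U.map σ.toEmbedding) (Y.map σ.toEmbedding) (Z.map σ.toEmbedding) v =
        R.card * ∑ σ : Equiv.Perm I, g (U.map σ.toEmbedding) (Y.map σ.toEmbedding)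
          (Z.map σ.toEmbedding) (σ u) := by
      intro R hR
      simp_rw [sum_map]
      rw [sum_comm]
      simp only [Equiv.coe_toEmbedding]
      rw [sum_congr rfl (fun v hv => sum_perm_elem h1 h2 g (hR hv) (hS hu))]
      rw [sum_const, nsmul_eq_mul]
    rw [key S hS, key U (Subset.refl _)]
    ring

omit [DecidableEq I] in
/-- `l` disjoint sets of a given size. -/
theorem exists_disjoint_family (s l : ℕ) (h : l * s ≤ Fintype.card I) :
    ∃ S : Fin l → Finset I, (∀ a b, a ≠ b → Disjoint (S a) (S b)) ∧ ∀ a, (S a).card = s := by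
  have hcard : Fintype.card (Fin l × Fin s) ≤ Fintype.card I := by simpa using h
  obtain ⟨f⟩ := Function.Embedding.nonempty_of_card_le hcard
  refine ⟨fun a => univ.map ⟨fun j => f (a, j), fun i j hij =>
    congrArg Prod.snd (f.injective hij)⟩, ?_, ?_⟩
  · intro a b hab
    rw [disjoint_left]
    intro i hi hi'
    rw [mem_map] at hi hi'
    obtain ⟨j, _, hj⟩ := hi
    obtain ⟨j', _, hj'⟩ := hi'
    have := f.injective (hj.trans hj'.symm)
    exact hab (congrArg Prod.fst this)
  · intro a; simp

omit [Fintype I] in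
/-- Superadditivity of the deficiency on disjoint sets. -/
theorem sum_dS_le {H : Finset (I → Fin m)} (hne : H.Nonempty) {τ : Type*} (J : Finset τ)
    (S : τ → Finset I) (hS : ∀ a b, a ≠ b → Disjoint (S a) (S b)) :
    ∑ a ∈ J, dS H (S a) ≤ dS H (J.biUnion S) := by
  classical
  induction J using Finset.induction_on with
  | empty => simp [dS_empty hne]
  | insert a J ha ih =>
    rw [sum_insert ha, biUnion_insert]
    have h1 := dS_supermod hne (S a) (J.biUnion S)
    have h2 : S a ∩ J.biUnion S = ∅ := by
      rw [← disjoint_iff_inter_eq_empty, disjoint_biUnion_right]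
      intro b hb
      exact hS a b (fun h => ha (h ▸ hb))
    rw [h2, dS_empty hne] at h1
    linarith

/-- The average of the deficiency. -/
theorem sum_perm_dS_le {H : Finset (I → Fin m)} (hne : H.Nonempty) (S : Finset I) (l : ℕ)
    (hl : 0 < l) (h : l * S.card ≤ Fintype.card I) :
    ∑ σ : Equiv.Perm I, dS H (S.map σ.toEmbedding) ≤
      (Fintype.card I).factorial * (dS H univ / l) := by
  obtain ⟨T, hT, hTc⟩ := exists_disjoint_family (I := I) S.card l h
  have h1 : ∑ σ : Equiv.Perm I, ∑ a : Fin l, dS H ((T a).map σ.toEmbedding) ≤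
      ∑ _σ : Equiv.Perm I, dS H univ := by
    apply sum_le_sum
    intro σ _
    refine (sum_dS_le hne univ (fun a => (T a).map σ.toEmbedding) ?_).trans
      (dS_mono hne (subset_univ _))
    intro a b hab
    exact (disjoint_map _).mpr (hT a b hab)
  rw [sum_comm] at h1
  rw [sum_congr rfl (fun a _ => sum_perm_map_eq (hTc a) (dS H))] at h1
  simp only [sum_const, card_univ, Fintype.card_fin, nsmul_eq_mul, Fintype.card_perm] at h1
  have hl' : (0 : ℝ) < l := by exact_mod_cast hl
  rw [← mul_div_assoc, le_div_iff₀ hl']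
  linarith

end RFold
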