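import Pool.Agent.Lib.MP_3581cd_co.AvgDefs

/-!
# MP_3581cd_co: the averaged comb lemma
-/

set_option linter.unusedSectionVars false

namespace RFold

open Finset

section CE

variable {D δ : ℝ} {K' i : ℕ}

namespace CEx

variable {X : CEx D δ K' i}

/-- The blocks of the comb. -/
noncomputable def blk (I : Type) [Fintype I] [DecidableEq I] (s t₀ t : ℕ) : ℕ → Finset I
  | 0 => seg I s (s + t₀)
  | j + 1 => seg I (s + (t₀ + j * t)) (s + (t₀ + j * t) + t)

theorem biUnion_blk (I : Type) [Fintype I] [DecidableEq I] (s t₀ t j : ℕ) :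
    (Finset.range (j + 1)).biUnion (blk I s t₀ t) = seg I s (s + (t₀ + j * t)) := by
  induction j with
  | zero => simp [blk]
  | succ j ih =>
    rw [Finset.range_add_one, Finset.biUnion_insert, ih, union_comm]
    show seg I s (s + (t₀ + j * t)) ∪ seg I (s + (t₀ + j * t)) (s + (t₀ + j * t) + t) = _
    rw [seg_union (by omega) (by omega)]
    congr 1
    ring

theorem comb {K N q n₀ s t₀ t : ℕ} (hN : 0 < N) (hcard : s + (t₀ + K * t) ≤ Fintype.card X.I) :
    ∑ j ∈ Finset.range K, X.κ s (t₀ + j * t) t q ≤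
      X.Φ n₀ s t₀ + (K + 1) * (X.Φ (n₀ + 1) s t₀ - X.Φ n₀ s t₀) +
      ∑ j ∈ Finset.range K, ∑ l ∈ Finset.Ioc j K, (X.Φ (q + 1) s t - X.Φ q s t -
        (X.Φ N s (t₀ + l * t) - (q + K + 1) * D) / N) + K * K * X.er (s + (t₀ + K * t)) := by
  have hNr : (0 : ℝ) < N := by exact_mod_cast hN
  have hN1 : (1 : ℝ) ≤ N := by exact_mod_cast hN
  -- the pointwise inequality
  have hpt : ∀ σ : Equiv.Perm X.I,
      ∑ j ∈ Finset.range K, KU X.H ((seg X.I 0 s).map σ.toEmbedding)
        ((seg X.I s (s + (t₀ + j * t))).map σ.toEmbedding)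
        ((seg X.I (s + (t₀ + j * t)) (s + (t₀ + j * t) + t)).map σ.toEmbedding) q / X.L ≤
      FU X.H ((seg X.I 0 s).map σ.toEmbedding) ((seg X.I s (s + t₀)).map σ.toEmbedding) n₀ / X.L +
        (K + 1) * (FU X.H ((seg X.I 0 s).map σ.toEmbedding)
          ((seg X.I s (s + t₀)).map σ.toEmbedding) (n₀ + 1) / X.L -
          FU X.H ((seg X.I 0 s).map σ.toEmbedding)
            ((seg X.I s (s + t₀)).map σ.toEmbedding) n₀ / X.L) +
      ∑ j ∈ Finset.range K, ∑ l ∈ Finset.Ioc j K,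
        (FU X.H ((seg X.I 0 s).map σ.toEmbedding)
            ((seg X.I (s + (t₀ + j * t)) (s + (t₀ + j * t) + t)).map σ.toEmbedding) (q + 1) / X.L -
          FU X.H ((seg X.I 0 s).map σ.toEmbedding)
            ((seg X.I (s + (t₀ + j * t)) (s + (t₀ + j * t) + t)).map σ.toEmbedding) q / X.L -
          (FU X.H ((seg X.I 0 s).map σ.toEmbedding)
            ((seg X.I s (s + (t₀ + l * t))).map σ.toEmbedding) N / X.L -
            dS X.H ((seg X.I 0 (s + (t₀ + K * t))).map σ.toEmbedding) / X.L -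
            (q + K + 1) * D) / N) := by
    intro σ
    have hbU : ∀ j, (Finset.range (j + 1)).biUnion
        (fun j => (blk X.I s t₀ t j).map σ.toEmbedding) =
        (seg X.I s (s + (t₀ + j * t))).map σ.toEmbedding := by
      intro j
      rw [← biUnion_blk]
      ext x
      simp only [mem_biUnion, mem_map]
      constructor
      · rintro ⟨a, ha, y, hy, rfl⟩
        exact ⟨y, ⟨a, ha, hy⟩, rfl⟩
      · rintro ⟨y, ⟨a, ha, hy⟩, rfl⟩
        exact ⟨a, ha, y, hy, rfl⟩
    have h := FU_comb X.hne (H := X.H) (U := (seg X.I 0 s).map σ.toEmbedding)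
      (ζ := fun j => (blk X.I s t₀ t j).map σ.toEmbedding) (K := K) (N := N) (q := q) (n₀ := n₀) hN
      (by
        intro j _
        refine disj σ ?_
        rcases j with _ | j
        · exact disjoint_seg le_rfl
        · exact disjoint_seg (by omega))
    have b0 : blk X.I s t₀ t 0 = seg X.I s (s + t₀) := rfl
    have b1 : ∀ j, blk X.I s t₀ t (j + 1) =
      seg X.I (s + (t₀ + j * t)) (s + (t₀ + j * t) + t) := fun _ => rfl
    simp only [hbU, b0, b1] at h
    rw [← map_union', seg_union (Nat.zero_le _) (by omega)] at h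
    have h2 := div_le_div_of_nonneg_right h X.L_pos.le
    rw [Finset.sum_div] at h2
    refine h2.trans ?_
    rw [add_div, add_div, Finset.sum_div]
    refine add_le_add (le_of_eq ?_) (Finset.sum_le_sum fun j _ => ?_)
    · ring
    · rw [Finset.sum_div]
      refine Finset.sum_le_sum fun l _ => ?_
      have h3 : dS X.H univ / X.L ≤ D := by
        rw [div_le_iff₀ X.L_pos]
        exact X.dS_univ_le
      have h4 : ((q : ℝ) + K + 1) * (dS X.H univ / X.L) / N ≤ (q + K + 1) * D / N :=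
        div_le_div_of_nonneg_right (mul_le_mul_of_nonneg_left h3 (by positivity)) hNr.le
      have h5 : ∀ a b c e f : ℝ, (a - b - (c - e - f) / N) / X.L =
          a / X.L - b / X.L - (c / X.L - e / X.L - f / X.L) / N := by
        intro a b c e f
        ring
      rw [h5]
      have h6 : ((q : ℝ) + K + 1) * dS X.H univ / X.L = (q + K + 1) * (dS X.H univ / X.L) := by
        ring
      rw [h6]
      have h7 : ∀ c e f : ℝ, (c - e - f) / N = (c - e) / N - f / N := by
        intro c e f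
        ring
      rw [h7, h7]
      linarith
  have havg := avg_mono hpt
  rw [avg_sum] at havg
  refine le_trans (le_of_eq ?_) (havg.trans ?_)
  · rfl
  · rw [avg_add, avg_add, avg_mul, avg_sub, avg_sum]
    have e1 : ∀ j ∈ Finset.range K, ∀ n : ℕ, avg (fun σ : Equiv.Perm X.I =>
        FU X.H ((seg X.I 0 s).map σ.toEmbedding)
          ((seg X.I (s + (t₀ + j * t)) (s + (t₀ + j * t) + t)).map σ.toEmbedding) n / X.L) =
        X.Φ n s t := by
      intro j hj n
      rw [mem_range] at hj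
      have hjK : t₀ + j * t + t ≤ t₀ + K * t := by
        have : (j + 1) * t ≤ K * t := Nat.mul_le_mul_right t hj
        rw [add_mul, one_mul] at this
        omega
      unfold Φ
      refine avg_two (disjoint_seg (by omega)) (disjoint_seg le_rfl) rfl ?_
        (fun A B => FU X.H A B n / X.L)
      rw [card_seg (by omega), card_seg (by omega)]
      omega
    have e2 : ∀ j ∈ Finset.range K, avg (fun σ : Equiv.Perm X.I => ∑ l ∈ Finset.Ioc j K,
        (FU X.H ((seg X.I 0 s).map σ.toEmbedding)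
            ((seg X.I (s + (t₀ + j * t)) (s + (t₀ + j * t) + t)).map σ.toEmbedding) (q + 1) / X.L -
          FU X.H ((seg X.I 0 s).map σ.toEmbedding)
            ((seg X.I (s + (t₀ + j * t)) (s + (t₀ + j * t) + t)).map σ.toEmbedding) q / X.L -
          (FU X.H ((seg X.I 0 s).map σ.toEmbedding)
            ((seg X.I s (s + (t₀ + l * t))).map σ.toEmbedding) N / X.L -
            dS X.H ((seg X.I 0 (s + (t₀ + K * t))).map σ.toEmbedding) / X.L -
            (q + K + 1) * D) / N)) ≤ ∑ l ∈ Finset.Ioc j K, (X.Φ (q + 1) s t - X.Φ q s t -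
        (X.Φ N s (t₀ + l * t) - (q + K + 1) * D) / N) + K * X.er (s + (t₀ + K * t)) := by
      intro j hj
      rw [avg_sum]
      have e3 : ∀ l ∈ Finset.Ioc j K, avg (fun σ : Equiv.Perm X.I =>
          (FU X.H ((seg X.I 0 s).map σ.toEmbedding)
            ((seg X.I (s + (t₀ + j * t)) (s + (t₀ + j * t) + t)).map σ.toEmbedding) (q + 1) / X.L -
          FU X.H ((seg X.I 0 s).map σ.toEmbedding)
            ((seg X.I (s + (t₀ + j * t)) (s + (t₀ + j * t) + t)).map σ.toEmbedding) q / X.L -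
          (FU X.H ((seg X.I 0 s).map σ.toEmbedding)
            ((seg X.I s (s + (t₀ + l * t))).map σ.toEmbedding) N / X.L -
            dS X.H ((seg X.I 0 (s + (t₀ + K * t))).map σ.toEmbedding) / X.L -
            (q + K + 1) * D) / N)) ≤ (X.Φ (q + 1) s t - X.Φ q s t -
        (X.Φ N s (t₀ + l * t) - (q + K + 1) * D) / N) + X.er (s + (t₀ + K * t)) := by
        intro l _
        rw [avg_sub, avg_sub, e1 j hj, e1 j hj, avg_div (N : ℝ), avg_sub, avg_sub, avg_const]
        have e4 : avg (fun σ : Equiv.Perm X.I => FU X.H ((seg X.I 0 s).map σ.toEmbedding)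
            ((seg X.I s (s + (t₀ + l * t))).map σ.toEmbedding) N / X.L) =
            X.Φ N s (t₀ + l * t) := rfl
        have e5 : avg (fun σ : Equiv.Perm X.I =>
            dS X.H ((seg X.I 0 (s + (t₀ + K * t))).map σ.toEmbedding) / X.L) =
            X.er (s + (t₀ + K * t)) := rfl
        rw [e4, e5]
        have e6 := X.er_nonneg (s + (t₀ + K * t))
        have e7 : X.er (s + (t₀ + K * t)) / N ≤ X.er (s + (t₀ + K * t)) :=
          div_le_self e6 hN1
        have h7 : ∀ c e f : ℝ, (c - e - f) / N = (c - f) / N - e / N := by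
          intro c e f
          ring
        rw [h7]
        linarith
      refine (Finset.sum_le_sum e3).trans ?_
      rw [Finset.sum_add_distrib, Finset.sum_const, nsmul_eq_mul, Nat.card_Ioc]
      have e8 : ((K - j : ℕ) : ℝ) ≤ K := by exact_mod_cast Nat.sub_le K j
      have := mul_le_mul_of_nonneg_right e8 (X.er_nonneg (s + (t₀ + K * t)))
      linarith
    have e9 := Finset.sum_le_sum e2
    rw [Finset.sum_add_distrib, Finset.sum_const, nsmul_eq_mul, card_range] at e9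
    have e10 : avg (fun σ : Equiv.Perm X.I => FU X.H ((seg X.I 0 s).map σ.toEmbedding)
        ((seg X.I s (s + t₀)).map σ.toEmbedding) n₀ / X.L) = X.Φ n₀ s t₀ := rfl
    have e11 : avg (fun σ : Equiv.Perm X.I => FU X.H ((seg X.I 0 s).map σ.toEmbedding)
        ((seg X.I s (s + t₀)).map σ.toEmbedding) (n₀ + 1) / X.L) = X.Φ (n₀ + 1) s t₀ := rfl
    rw [e10, e11]
    linarith

/-- The average of the sum over a part of `U`. -/
theorem avg_part {s₁ : ℕ} (hs : 0 < s₁) {Y Z : Finset X.I}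
    (hcard : 100 * s₁ ≤ Fintype.card X.I) (hY : Disjoint (seg X.I 0 (100 * s₁)) Y)
    (hZ : Disjoint (seg X.I 0 (100 * s₁)) Z) (g : Finset X.I → Finset X.I → Finset X.I → X.I → ℝ) :
    avg (fun σ => ∑ v ∈ (seg X.I s₁ (100 * s₁)).map σ.toEmbedding,
      g ((seg X.I 0 (100 * s₁)).map σ.toEmbedding) (Y.map σ.toEmbedding) (Z.map σ.toEmbedding) v) =
    99 / 100 * avg (fun σ => ∑ v ∈ (seg X.I 0 (100 * s₁)).map σ.toEmbedding,
      g ((seg X.I 0 (100 * s₁)).map σ.toEmbedding) (Y.map σ.toEmbedding)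
        (Z.map σ.toEmbedding) v) := by
  have h := sum_perm_part (U := seg X.I 0 (100 * s₁)) (S := seg X.I s₁ (100 * s₁)) (Y := Y) (Z := Z)
    (by
      intro x hx
      rw [mem_seg] at hx ⊢
      omega) hY hZ g
  rw [card_seg hcard, card_seg hcard] at h
  have e1 : ((100 * s₁ - 0 : ℕ) : ℝ) = 100 * s₁ := by push_cast; simp
  have e2 : ((100 * s₁ - s₁ : ℕ) : ℝ) = 99 * s₁ := by
    have : 100 * s₁ - s₁ = 99 * s₁ := by omega
    rw [this]
    push_cast
    ring
  rw [e1, e2] at h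
  have hs' : (0 : ℝ) < s₁ := by exact_mod_cast hs
  unfold avg
  rw [← mul_div_assoc]
  congr 1
  have h2 : (s₁ : ℝ) * (100 * ∑ σ : Equiv.Perm X.I,
      ∑ v ∈ (seg X.I s₁ (100 * s₁)).map σ.toEmbedding,
      g ((seg X.I 0 (100 * s₁)).map σ.toEmbedding) (Y.map σ.toEmbedding)
        (Z.map σ.toEmbedding) v) =
      s₁ * (99 * ∑ σ : Equiv.Perm X.I, ∑ v ∈ (seg X.I 0 (100 * s₁)).map σ.toEmbedding,
      g ((seg X.I 0 (100 * s₁)).map σ.toEmbedding) (Y.map σ.toEmbedding)
        (Z.map σ.toEmbedding) v) := by linarith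
  have h3 := mul_left_cancel₀ hs'.ne' h2
  linarith

theorem h3c {s₁ z q : ℕ} (hs : 0 < s₁) (hcard : 100 * s₁ + z ≤ Fintype.card X.I) :
    X.Λ (100 * s₁) z q ≤ 100 / 99 * (X.Φ q (100 * s₁) z - X.Φ q s₁ (99 * s₁ + z)) +
      3 * X.er (100 * s₁ + z) := by
  set A : ℝ := avg (fun σ : Equiv.Perm X.I => ∑ v ∈ (seg X.I 0 (100 * s₁)).map σ.toEmbedding,
    IR X.H ((seg X.I 0 (100 * s₁)).map σ.toEmbedding)
      ((seg X.I (100 * s₁) (100 * s₁ + z)).map σ.toEmbedding) q v / X.L) with hA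
  have h1 : X.Λ (100 * s₁) z q ≤ X.er (100 * s₁ + z) + A := by
    unfold Λ er
    rw [hA, ← avg_add]
    refine avg_mono fun σ => ?_
    have h := LamU_le X.hne (H := X.H) (U := (seg X.I 0 (100 * s₁)).map σ.toEmbedding)
      (Z := (seg X.I (100 * s₁) (100 * s₁ + z)).map σ.toEmbedding)
      (disj σ (disjoint_seg le_rfl)) q
    rw [← map_union', seg_union (Nat.zero_le _) (by omega)] at h
    refine (div_le_div_of_nonneg_right h X.L_pos.le).trans (le_of_eq ?_)
    rw [add_div, Finset.sum_div]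
  have h2 : avg (fun σ => ∑ v ∈ (seg X.I s₁ (100 * s₁)).map σ.toEmbedding,
      IR X.H ((seg X.I 0 (100 * s₁)).map σ.toEmbedding)
      ((seg X.I (100 * s₁) (100 * s₁ + z)).map σ.toEmbedding) q v / X.L) ≤
      X.Φ q (100 * s₁) z - X.Φ q s₁ (99 * s₁ + z) + X.er (100 * s₁ + z) := by
    unfold Φ er
    rw [← avg_sub, ← avg_add]
    refine avg_mono fun σ => ?_
    have h := sum_IR_le X.hne (H := X.H) (U := (seg X.I 0 (100 * s₁)).map σ.toEmbedding)
      (U₁ := (seg X.I 0 s₁).map σ.toEmbedding)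
      (Z := (seg X.I (100 * s₁) (100 * s₁ + z)).map σ.toEmbedding)
      (disj σ (disjoint_seg le_rfl)) (map_subset_map.2 (seg_mono (by omega))) q
    rw [← map_sdiff', ← map_union', ← map_union', seg_sdiff (Nat.zero_le _),
      seg_union (Nat.zero_le _) (by omega), seg_union (by omega) (by omega)] at h
    have e : s₁ + (99 * s₁ + z) = 100 * s₁ + z := by omega
    rw [e]
    rw [← Finset.sum_div]
    refine (div_le_div_of_nonneg_right h X.L_pos.le).trans (le_of_eq ?_)
    ring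
  have h3 := avg_part (X := X) hs (Y := ∅)
    (Z := seg X.I (100 * s₁) (100 * s₁ + z)) (by omega) (disjoint_empty_right _)
    (disjoint_seg le_rfl) (fun U _ Z v => IR X.H U Z q v / X.L)
  have h4 : avg (fun σ => ∑ v ∈ (seg X.I s₁ (100 * s₁)).map σ.toEmbedding,
      IR X.H ((seg X.I 0 (100 * s₁)).map σ.toEmbedding)
      ((seg X.I (100 * s₁) (100 * s₁ + z)).map σ.toEmbedding) q v / X.L) = 99 / 100 * A := h3
  rw [h4] at h2
  have h5 := X.er_nonneg (100 * s₁ + z)
  linarith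

end CEx

theorem er_small (hD : 1 ≤ D) (a : ℕ) {ε : ℝ} (hε : 0 < ε) : ∃ i₀, ∀ i, i₀ ≤ i →
    ∀ X : CEx D δ K' i, X.er a ≤ ε := by
  obtain ⟨i₀, hi₀⟩ := avg_dS_small (δ := δ) (K' := K') hD a ε hε
  refine ⟨max i₀ a, fun i hi X => ?_⟩
  have h1 : i₀ ≤ i := (le_max_left _ _).trans hi
  have h2 : a ≤ i := (le_max_right _ _).trans hi
  unfold CEx.er
  refine hi₀ i h1 X _ ?_
  rw [card_seg (h2.trans X.card_ge)]
  omega

theorem CEx.comb_small (hD : 1 ≤ D) {K N q n₀ s t₀ t : ℕ} (hN : 0 < N) {ε : ℝ} (hε : 0 < ε) :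
    ∃ i₀, ∀ i, i₀ ≤ i → ∀ X : CEx D δ K' i, ∑ j ∈ Finset.range K, X.κ s (t₀ + j * t) t q ≤
      X.Φ n₀ s t₀ + (K + 1) * (X.Φ (n₀ + 1) s t₀ - X.Φ n₀ s t₀) +
      ∑ j ∈ Finset.range K, ∑ l ∈ Finset.Ioc j K, (X.Φ (q + 1) s t - X.Φ q s t -
        (X.Φ N s (t₀ + l * t) - (q + K + 1) * D) / N) + ε := by
  have hK : (0 : ℝ) < (K : ℝ) * K + 1 := by positivity
  obtain ⟨i₀, hi₀⟩ := er_small (δ := δ) (K' := K') hD (s + (t₀ + K * t))
    (ε := ε / (K * K + 1)) (by positivity)
  refine ⟨max i₀ (s + (t₀ + K * t)), fun i hi X => ?_⟩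
  have h1 : i₀ ≤ i := (le_max_left _ _).trans hi
  have h2 : s + (t₀ + K * t) ≤ i := (le_max_right _ _).trans hi
  have h3 := CEx.comb (X := X) (q := q) (n₀ := n₀) hN (h2.trans X.card_ge)
  have h4 := hi₀ i h1 X
  rw [le_div_iff₀ hK] at h4
  have h5 := X.er_nonneg (s + (t₀ + K * t))
  have h6 : (K : ℝ) * K * X.er (s + (t₀ + K * t)) ≤ ε := by linarith
  linarith

theorem CEx.h3c_small (hD : 1 ≤ D) {s₁ z q : ℕ} (hs : 0 < s₁) {ε : ℝ} (hε : 0 < ε) :
    ∃ i₀, ∀ i, i₀ ≤ i → ∀ X : CEx D δ K' i,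
      X.Λ (100 * s₁) z q ≤ 100 / 99 * (X.Φ q (100 * s₁) z - X.Φ q s₁ (99 * s₁ + z)) + ε := by
  obtain ⟨i₀, hi₀⟩ := er_small (δ := δ) (K' := K') hD (100 * s₁ + z) (ε := ε / 3) (by positivity)
  refine ⟨max i₀ (100 * s₁ + z), fun i hi X => ?_⟩
  have h1 : i₀ ≤ i := (le_max_left _ _).trans hi
  have h2 : 100 * s₁ + z ≤ i := (le_max_right _ _).trans hi
  have h3 := CEx.h3c (X := X) (q := q) hs (h2.trans X.card_ge)
  have h4 := hi₀ i h1 X
  linarith

end CE

end RFold
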