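import Pool.Agent.Lib.MP_3581cd_co.Model

/-!
# MP_3581cd_co: the copies of points form an abstract system
-/

set_option linter.unusedSectionVars false

namespace RFold

open Finset Pool.Agent.MP3581

variable {I : Type} [Fintype I] [DecidableEq I] {m : ℕ} {H : Finset (I → Fin m)}
variable {ι τ : Type} [Fintype ι] [DecidableEq ι] [Fintype τ] [DecidableEq τ]

/-- The values of the variables of `S`. -/
def Xv (H : Finset (I → Fin m)) (U : Finset I) (S : Finset (I ⊕ ι))
    (ω : {x // x ∈ H} × (ι → {x // x ∈ H})) :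
    (I → Option (Fin m)) × (ι → Option (I → Option (Fin m))) :=
  ((fun i : I => if Sum.inl i ∈ S then some (ω.1.1 i) else none),
    (fun j : ι => if Sum.inr j ∈ S then some (rs Uᶜ (ω.2 j).1) else none))

theorem hv_eq_ent (U : Finset I) (T : ι → Finset I) (S : Finset (I ⊕ ι)) :
    hv H U T S = ent (jt fun j => kz H U (T j)) (Xv H U S) := rfl

theorem Xv_eq_iff {U : Finset I} {S : Finset (I ⊕ ι)}
    {ω ω' : {x // x ∈ H} × (ι → {x // x ∈ H})} :
    Xv H U S ω = Xv H U S ω' ↔ (∀ i, Sum.inl i ∈ S → ω.1.1 i = ω'.1.1 i) ∧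
      ∀ j, Sum.inr j ∈ S → rs Uᶜ (ω.2 j).1 = rs Uᶜ (ω'.2 j).1 := by
  unfold Xv
  rw [Prod.mk.injEq]
  constructor
  · rintro ⟨h1, h2⟩
    constructor
    · intro i hi
      have := congrFun h1 i
      simpa [hi] using this
    · intro j hj
      have := congrFun h2 j
      simpa [hj] using this
  · rintro ⟨h1, h2⟩
    constructor
    · funext i
      by_cases hi : Sum.inl i ∈ S
      · rw [if_pos hi, if_pos hi, h1 i hi]
      · rw [if_neg hi, if_neg hi]
    · funext j
      by_cases hj : Sum.inr j ∈ S
      · rw [if_pos hj, if_pos hj, h2 j hj]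
      · rw [if_neg hj, if_neg hj]

theorem bs_injective : Function.Injective (bs : Finset I → Finset (I ⊕ ι)) :=
  Finset.map_injective _

theorem AA_zero (hne : H.Nonempty) (U Z : Finset I) :
    AA (fun x : {x // x ∈ H} => rs U x.1) (fun x : {x // x ∈ H} => rs Uᶜ x.1)
      (fun x : {x // x ∈ H} => rs Z x.1) 0 = hS H Z := by
  have h := FU_zero_of hne U Z
  unfold FU FF at h
  simp only [Nat.cast_zero, zero_mul, sub_zero] at h
  have : ent (uni {x // x ∈ H}) (fun x : {x // x ∈ H} => rs Z x.1) = hS H Z := rfl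
  linarith

theorem copySys_model (hne : H.Nonempty) : CopySysStatement H := by
  intro U ι _ _ T hT
  have hnon : Nonempty {x // x ∈ H} := hne.to_subtype
  have hker : ∀ j, IsKer (kz H U (T j)) := fun j => isKer_kz _ _
  have hP : IsPr (jt fun j => kz H U (T j)) := isPr_jt hker
  have hmono : ∀ {S T' : Finset (I ⊕ ι)}, S ⊆ T' → Det (jt fun j => kz H U (T j))
      (Xv H U T') (Xv H U S) := by
    intro S T' h ω ω' _ _ he
    rw [Xv_eq_iff] at he ⊢
    exact ⟨fun i hi => he.1 i (h hi), fun j hj => he.2 j (h hj)⟩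
  refine ⟨?_, ?_, ?_, ?_, ?_, ?_, ?_, ?_, ?_⟩
  · -- mono
    intro S T' h
    exact ent_mono hP (hmono h)
  · -- submod
    intro S T'
    rw [hv_eq_ent, hv_eq_ent, hv_eq_ent, hv_eq_ent]
    refine ent_submod' hP ?_ (hmono inter_subset_left) (hmono inter_subset_right)
    intro ω ω' _ _ he
    rw [Prod.mk.injEq, Xv_eq_iff, Xv_eq_iff] at he
    rw [Xv_eq_iff]
    constructor
    · intro i hi
      rcases mem_union.1 hi with h | h
      · exact he.1.1 i h
      · exact he.2.1 i h
    · intro i hi
      rcases mem_union.1 hi with h | h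
      · exact he.1.2 i h
      · exact he.2.2 i h
  · -- base
    rintro (i | i) (j | j) hi hj
    · cases hi
    · cases hi
    · cases hj
    · simp [tyv]
  · -- ci
    rintro (j | j) hj S hjS hS
    · cases hj
    have hty : tyv T (Sum.inr j) = bs (T j) := rfl
    rw [hty] at hS
    rw [hty, ← bs_union, hv_bs hne, ← h0_eq hne]
    have hφ : Det (jt fun j => kz H U (T j)) (Xv H U S)
        (fun ω : {x // x ∈ H} × (ι → {x // x ∈ H}) => (rs U ω.1.1, rs (T j) ω.1.1)) := by
      intro ω ω' _ _ he
      rw [Xv_eq_iff] at he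
      rw [Prod.mk.injEq, rs_eq_iff, rs_eq_iff]
      constructor
      · intro i hi
        exact he.1 i (hS (by simp [hi]))
      · intro i hi
        exact he.1 i (hS (by simp [hi]))
    have h1 := cent_ci (κ := fun j => kz H U (T j)) hker j
      (fun x : {x // x ∈ H} => (rs U x.1, rs (T j) x.1)) (dep_fk_self _) (Xv H U S) (by
        intro x e z
        rw [Xv_eq_iff]
        refine ⟨fun _ _ => rfl, fun l hl => ?_⟩
        have : l ≠ j := fun h => hjS (h ▸ hl)
        simp [Function.update_of_ne this]) hφ (fun x => rs Uᶜ x.1)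
    have h2 : hk (kz H U (T j)) (fun x => rs Uᶜ x.1) =
        h0 (fun x : {x // x ∈ H} => rs U x.1) (fun x : {x // x ∈ H} => rs Uᶜ x.1)
          (fun x : {x // x ∈ H} => rs (T j) x.1) := hk_fk _ _
    rw [h2] at h1
    rw [← h1]
    unfold cent
    rw [hv_eq_ent, hv_eq_ent]
    have h3 : ent (jt fun j => kz H U (T j)) (Xv H U (insert (Sum.inr j) S)) =
        ent (jt fun j => kz H U (T j)) (fun ω => (rs Uᶜ (ω.2 j).1, Xv H U S ω)) := by
      refine ent_congr hP ?_ ?_
      · intro ω ω' _ _ he
        rw [Xv_eq_iff] at he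
        rw [Prod.mk.injEq, Xv_eq_iff]
        exact ⟨he.2 j (by simp), fun i hi => he.1 i (by simp [hi]),
          fun l hl => he.2 l (by simp [hl])⟩
      · intro ω ω' _ _ he
        rw [Prod.mk.injEq, Xv_eq_iff] at he
        rw [Xv_eq_iff]
        refine ⟨fun i hi => he.2.1 i (by simpa using hi), fun l hl => ?_⟩
        rcases mem_insert.1 hl with h | h
        · rw [Sum.inr.injEq] at h
          subst h
          exact he.1
        · exact he.2.2 l h
    rw [h3]
    ring
  · -- det
    rintro (j | j) hj S hjS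
    · cases hj
    have hty : tyv T (Sum.inr j) = bs (T j) := rfl
    have hTU : T j ⊆ Uᶜ := fun i hi => mem_compl.2 fun hi' =>
      Finset.disjoint_left.1 (hT j) hi' hi
    rw [hty, hv_eq_ent, hv_eq_ent]
    refine ent_congr hP (hmono subset_union_left) ?_
    intro ω ω' h1 h2 he
    rw [Xv_eq_iff] at he ⊢
    constructor
    · intro i hi
      rcases mem_union.1 hi with h | h
      · exact he.1 i h
      · have hi' : i ∈ T j := by simpa using h
        have e3 := jt_fk h1 (i := j) rfl
        have e4 := jt_fk h2 (i := j) rfl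
        simp only [Prod.mk.injEq] at e3 e4
        have e5 := rs_eq_iff.1 e3.2 i hi'
        have e6 := rs_eq_iff.1 e4.2 i hi'
        have e7 := rs_eq_iff.1 (he.2 j hjS) i (hTU hi')
        rw [← e5, ← e6, e7]
    · intro l hl
      rcases mem_union.1 hl with h | h
      · exact he.2 l h
      · simp at h
  · -- eq0
    intro Z R hR
    have hRc : ∀ v ∈ R, ∃ j, v = Sum.inr j := by
      rintro (i | j) hv
      · cases (hR _ hv).1
      · exact ⟨j, rfl⟩
    rcases R.eq_empty_or_nonempty with rfl | hRne
    · rw [union_empty, card_empty]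
      unfold Av
      split_ifs with hZ
      · rw [AA_zero hne]
        conv_lhs => rw [hZ]
        exact hv_bs hne U T _
      · rfl
    · obtain ⟨v₀, hv₀⟩ := hRne
      obtain ⟨j₀, rfl⟩ := hRc v₀ hv₀
      have hZ : Z = bs (T j₀) := (hR _ hv₀).2.symm
      subst hZ
      set R' : Finset ι := univ.filter fun j => Sum.inr j ∈ R with hR'
      have hRR : R = R'.map Function.Embedding.inr := by
        ext v
        rw [hR', mem_map]
        constructor
        · intro hv
          obtain ⟨j, rfl⟩ := hRc v hv
          exact ⟨j, by simpa using hv, rfl⟩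
        · rintro ⟨j, hj, rfl⟩
          simpa using hj
      have hcard : R.card = R'.card := by rw [hRR, card_map]
      have hTj : ∀ j ∈ R', T j = T j₀ := by
        intro j hj
        rw [hR', mem_filter] at hj
        exact bs_injective (hR _ hj.2).2
      unfold Av
      rw [ub_bs, if_pos rfl, hcard]
      rw [hv_family hne U T (T j₀) (s := fun t : Fin R'.card => (R'.equivFin.symm t).1)
        (fun a b h => R'.equivFin.symm.injective (Subtype.ext h)) (by
        intro v
        rw [mem_union, mem_bs]
        refine or_congr Iff.rfl ?_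
        rw [hRR, mem_map]
        constructor
        · rintro ⟨j, hj, rfl⟩
          exact ⟨R'.equivFin ⟨j, hj⟩, by simp⟩
        · rintro ⟨t, rfl⟩
          exact ⟨_, (R'.equivFin.symm t).2, rfl⟩)]
      have : (fun t : Fin R'.card => kz H U (T (R'.equivFin.symm t).1)) =
          fun _ : Fin R'.card => fk fun x : {x // x ∈ H} => (rs U x.1, rs (T j₀) x.1) := by
        funext t
        rw [hTj _ (R'.equivFin.symm t).2]
        rfl
      rw [this]
      rfl
  · -- eq1
    rintro Z R (j | j₁) hR hjR hj hZj
    · cases hj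
    have hRc : ∀ v ∈ R, ∃ j, v = Sum.inr j := by
      rintro (i | j) hv
      · cases (hR _ hv).1
      · exact ⟨j, rfl⟩
    have hty : tyv T (Sum.inr j₁) = bs (T j₁) := rfl
    rw [hty] at hZj
    have hZ : Z = bs (ub Z) := by
      ext v
      constructor
      · intro hv
        obtain ⟨i, hi, rfl⟩ := mem_bs.1 (hZj hv)
        simpa [ub] using hv
      · intro hv
        obtain ⟨i, hi, rfl⟩ := mem_bs.1 hv
        simpa [ub] using hi
    set Z₀ := ub Z with hZ₀
    rw [hZ] at hZj hR ⊢
    have hZT : Z₀ ⊆ T j₁ := by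
      intro i hi
      have := hZj (inl_mem_bs.2 hi)
      simpa using this
    set R' : Finset ι := univ.filter fun j => Sum.inr j ∈ R with hR'
    have hRR : R = R'.map Function.Embedding.inr := by
      ext v
      rw [hR', mem_map]
      constructor
      · intro hv
        obtain ⟨j, rfl⟩ := hRc v hv
        exact ⟨j, by simpa using hv, rfl⟩
      · rintro ⟨j, hj, rfl⟩
        simpa using hj
    have hcard : R.card = R'.card := by rw [hRR, card_map]
    have hTj : ∀ j ∈ R', T j = Z₀ := by
      intro j hj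
      rw [hR', mem_filter] at hj
      exact bs_injective (hR _ hj.2).2
    have hj₁ : j₁ ∉ R' := by
      rw [hR', mem_filter]
      exact fun h => hjR h.2
    unfold Av
    rw [ub_bs, if_pos rfl, hcard]
    rw [hv_family hne U T Z₀ (s := fun t : Option (Fin R'.card) =>
      t.elim j₁ fun t => (R'.equivFin.symm t).1)
      (by
        intro a b h
        rcases a with _ | a <;> rcases b with _ | b
        · rfl
        · have h' : j₁ = (R'.equivFin.symm b).1 := h
          exact absurd (h'.symm ▸ (R'.equivFin.symm b).2 : j₁ ∈ R') hj₁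
        · have h' : (R'.equivFin.symm a).1 = j₁ := h
          exact absurd (h' ▸ (R'.equivFin.symm a).2 : j₁ ∈ R') hj₁
        · exact congrArg some (R'.equivFin.symm.injective (Subtype.ext h))) (by
      intro v
      rw [mem_union, mem_bs]
      refine or_congr Iff.rfl ?_
      rw [hRR, mem_insert, mem_map]
      constructor
      · rintro (rfl | ⟨j, hj, rfl⟩)
        · exact ⟨none, rfl⟩
        · exact ⟨some (R'.equivFin ⟨j, hj⟩), by simp⟩
      · rintro ⟨_ | t, rfl⟩
        · exact Or.inl rfl
        · exact Or.inr ⟨_, (R'.equivFin.symm t).2, rfl⟩)]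
    have e3 := ent_jt_eq
      (κ := fun t : Option (Fin R'.card) => kz H U (T (t.elim j₁ fun t => (R'.equivFin.symm t).1)))
      (κ' := fun _ : Fin (R'.card + 1) => kz H U Z₀)
      (fun _ => isKer_kz _ _) (fun _ => isKer_kz _ _) (s := id)
      (s' := (finSuccEquiv R'.card).symm)
      Function.injective_id (finSuccEquiv R'.card).symm.injective
      (fun x : {x // x ∈ H} => (rs U x.1, rs Z₀ x.1)) none (by
        intro t ht
        obtain ⟨t, rfl⟩ := Option.ne_none_iff_exists'.1 ht
        simp only [id, Option.elim]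
        rw [hTj _ (R'.equivFin.symm t).2]) (by
        intro t ht
        obtain ⟨t, rfl⟩ := Option.ne_none_iff_exists'.1 ht
        simp only [id, Option.elim]
        rw [hTj _ (R'.equivFin.symm t).2]
        exact dep_fk_self _) (by
        simp only [id, Option.elim]
        exact (comp_fk_fk (by
          intro x x' h
          rw [Prod.mk.injEq] at h ⊢
          exact ⟨h.1, rs_of_subset hZT h.2⟩)).symm)
      (fun x e => (rs Z₀ x.1, fun t => rs Uᶜ (e t).1)) (by
        intro x x' e h
        exact Prod.ext (Prod.mk.inj h).2 rfl)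
    simp only [id] at e3
    rw [e3]
    unfold AA
    refine ent_congr (isPr_jt fun _ => isKer_kz _ _) ?_ ?_
    · rintro ω ω' - - h
      simp only [Prod.mk.injEq] at h ⊢
      refine ⟨h.1, funext fun t => ?_⟩
      have := congrFun h.2 (finSuccEquiv R'.card t)
      simpa using this
    · rintro ω ω' - - h
      simp only [Prod.mk.injEq] at h ⊢
      exact ⟨h.1, funext fun t => congrFun h.2 _⟩
  · -- exch
    rintro (a | a) (b | b) ha hb hab S haS hbS
    · cases ha
    · cases ha
    · cases hb
    have hTab : T a = T b := bs_injective hab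
    rw [hv_eq_ent, hv_eq_ent]
    have e := ent_jt_marg (κ := fun j => kz H U (T j)) (κ' := fun j => kz H U (T j)) hker hker
      (s := id) (s' := Equiv.swap a b) Function.injective_id (Equiv.swap a b).injective (by
        intro t
        simp only [id]
        by_cases h1 : t = a
        · subst h1
          rw [Equiv.swap_apply_left, hTab]
        · by_cases h2 : t = b
          · subst h2
            rw [Equiv.swap_apply_right, hTab]
          · rw [Equiv.swap_apply_of_ne_of_ne h1 h2])
      (fun x e => Xv H U (insert (Sum.inr a) S) (x, e))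
    simp only [id] at e
    refine Eq.trans e ?_
    refine ent_congr hP ?_ ?_
    · rintro ω ω' - - h
      rw [Xv_eq_iff] at h ⊢
      refine ⟨fun i hi => h.1 i (by simpa using hi), fun l hl => ?_⟩
      rcases mem_insert.1 hl with h1 | h1
      · rw [Sum.inr.injEq] at h1
        subst h1
        have := h.2 a (by simp)
        simpa using this
      · have h2 : l ≠ a := fun hh => haS (hh ▸ h1)
        have h3 : l ≠ b := fun hh => hbS (hh ▸ h1)
        have := h.2 l (by simp [h1])
        simpa [Equiv.swap_apply_of_ne_of_ne h2 h3] using this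
    · rintro ω ω' - - h
      rw [Xv_eq_iff] at h ⊢
      refine ⟨fun i hi => h.1 i (by simpa using hi), fun l hl => ?_⟩
      rcases mem_insert.1 hl with h1 | h1
      · rw [Sum.inr.injEq] at h1
        subst h1
        have := h.2 b (by simp)
        simpa using this
      · have h2 : l ≠ a := fun hh => haS (hh ▸ h1)
        have h3 : l ≠ b := fun hh => hbS (hh ▸ h1)
        have := h.2 l (by simp [h1])
        simpa [Equiv.swap_apply_of_ne_of_ne h2 h3] using this
  · -- empty
    have : (∅ : Finset (I ⊕ ι)) = bs ∅ := by simp [bs]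
    rw [this, hv_bs hne, hS_empty hne]

/-! ### (P0), (P2), (P3), (C) -/

theorem FU_zero (hne : H.Nonempty) {U Z : Finset I} (_hd : Disjoint U Z) : FU H U Z 0 = 0 :=
  FU_zero_of hne U Z

theorem FU_mono (hne : H.Nonempty) {U Z : Finset I} (hd : Disjoint U Z) (n : ℕ) :
    FU H U Z n ≤ FU H U Z (n + 1) := FU_mono_of (copySys_model hne) hne hd n

theorem FU_conc (hne : H.Nonempty) {U Z : Finset I} (hd : Disjoint U Z) (n : ℕ) :
    FU H U Z (n + 2) + FU H U Z n ≤ 2 * FU H U Z (n + 1) :=
  FU_conc_of (copySys_model hne) hne hd n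

theorem FU_nonneg (hne : H.Nonempty) {U Z : Finset I} (hd : Disjoint U Z) (n : ℕ) :
    0 ≤ FU H U Z n := FU_nonneg_of (copySys_model hne) hne hd n

theorem FU_P2 (hne : H.Nonempty) {U Z Z' : Finset I} (hd : Disjoint U Z') (hZ : Z ⊆ Z')
    (q n : ℕ) : FU H U Z' q ≤ FU H U Z n + q * (FU H U Z (n + 1) - FU H U Z n) :=
  FU_P2_of (copySys_model hne) hne hd hZ q n

theorem FU_P3 (hne : H.Nonempty) {U₁ U Z : Finset I} (hd : Disjoint U Z) (hU : U₁ ⊆ U) (n : ℕ) :
    FU H U₁ ((U \ U₁) ∪ Z) n ≤ FU H U Z n := FU_P3_of (copySys_model hne) hne hd hU n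

/-- The comb lemma; `lev j = ζ 0 ∪ … ∪ ζ j`. -/
theorem FU_comb (hne : H.Nonempty) {U : Finset I} {ζ : ℕ → Finset I} {K N q n₀ : ℕ} (hN : 0 < N)
    (hd : ∀ j ≤ K, Disjoint U (ζ j)) :
    ∑ j ∈ Finset.range K, KU H U ((Finset.range (j + 1)).biUnion ζ) (ζ (j + 1)) q ≤
      FU H U (ζ 0) n₀ + (K + 1) * (FU H U (ζ 0) (n₀ + 1) - FU H U (ζ 0) n₀) +
      ∑ j ∈ Finset.range K, ∑ l ∈ Finset.Ioc j K,
        (FU H U (ζ (j + 1)) (q + 1) - FU H U (ζ (j + 1)) q -
          (FU H U ((Finset.range (l + 1)).biUnion ζ) N -
            dS H (U ∪ (Finset.range (K + 1)).biUnion ζ) - (q + K + 1) * dS H univ) / N) :=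
  FU_comb_of (copySys_model hne) hne hN hd

end RFold
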