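import Mathlib

/-!
# The choice of the parameters

`Φ n s t` stands for the (limit of the) averaged information about `s` coordinates which is contained
in `n` copies sharing these `s` coordinates and `t` further ones, given the `t` further ones, in units
of `log m`.
-/

namespace RFold

open Filter Topology

/-- Monotone concave sequences starting at `0`, with slope at most `D`. -/
structure Conc (D : ℝ) (g : ℕ → ℝ) : Prop where
  zero : g 0 = 0
  one : g 1 ≤ D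
  mono : ∀ n, g n ≤ g (n + 1)
  conc : ∀ n, g (n + 2) + g n ≤ 2 * g (n + 1)

namespace Conc

variable {D : ℝ} {g : ℕ → ℝ}

theorem diff_anti (h : Conc D g) : Antitone fun n => g (n + 1) - g n :=
  antitone_nat_of_succ_le fun n => by
    have := h.conc n
    show g (n + 2) - g (n + 1) ≤ g (n + 1) - g n
    linarith

theorem nonneg (h : Conc D g) (n : ℕ) : 0 ≤ g n := by
  induction n with
  | zero => exact h.zero.ge
  | succ n ih => exact ih.trans (h.mono n)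

theorem mul_diff_le (h : Conc D g) (n : ℕ) : n * (g (n + 1) - g n) ≤ g n := by
  induction n with
  | zero => simp [h.zero]
  | succ n ih =>
    have h1 := h.conc n
    have h2 : (n : ℝ) * (g (n + 2) - g (n + 1)) ≤ n * (g (n + 1) - g n) :=
      mul_le_mul_of_nonneg_left (by linarith) n.cast_nonneg
    push_cast
    show ((n : ℝ) + 1) * (g (n + 2) - g (n + 1)) ≤ g (n + 1)
    nlinarith

theorem diff_le (h : Conc D g) (n : ℕ) : g (n + 1) - g n ≤ D := by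
  have h1 := h.diff_anti (Nat.zero_le n)
  have h2 := h.zero
  have h3 := h.one
  simp only [zero_add] at h1
  linarith

theorem le_mul (h : Conc D g) (n : ℕ) : g n ≤ n * D := by
  induction n with
  | zero => simp [h.zero]
  | succ n ih =>
    have := h.diff_le n
    push_cast
    linarith

theorem D_nonneg (h : Conc D g) : 0 ≤ D := (h.nonneg 1).trans h.one

end Conc

/-- Limits of concave sequences. -/
theorem conc_of_tendsto {ι : Type*} {𝓤 : Filter ι} [𝓤.NeBot] {D : ℝ} {G : ι → ℕ → ℝ} {g : ℕ → ℝ}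
    (hG : ∀ n, ∀ᶠ i in 𝓤, G i 0 = 0 ∧ G i 1 ≤ D ∧ G i n ≤ G i (n + 1) ∧
      G i (n + 2) + G i n ≤ 2 * G i (n + 1))
    (hg : ∀ n, Tendsto (fun i => G i n) 𝓤 (𝓝 (g n))) : Conc D g where
  zero := by
    refine tendsto_nhds_unique (hg 0) (Tendsto.congr' ?_ tendsto_const_nhds)
    filter_upwards [hG 0] with i hi
    exact hi.1.symm
  one := le_of_tendsto (hg 1) (by
    filter_upwards [hG 0] with i hi
    exact hi.2.1)
  mono := fun n => le_of_tendsto_of_tendsto (hg n) (hg (n + 1)) (by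
    filter_upwards [hG n] with i hi
    exact hi.2.2.1)
  conc := fun n => le_of_tendsto_of_tendsto ((hg (n + 2)).add (hg n))
    ((hg (n + 1)).const_mul 2) (by
    filter_upwards [hG n] with i hi
    exact hi.2.2.2)

/-- Bounded functions converge along ultrafilters. -/
theorem exists_ultralim {ι : Type*} (𝓤 : Ultrafilter ι) {f : ι → ℝ} {a b : ℝ}
    (h : ∀ᶠ i in (𝓤 : Filter ι), a ≤ f i ∧ f i ≤ b) :
    ∃ x, Tendsto f 𝓤 (𝓝 x) := by
  obtain ⟨x, -, hx⟩ := (isCompact_Icc (a := a) (b := b)).ultrafilter_le_nhds (𝓤.map f) (by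
    rw [Filter.le_principal_iff]
    exact h)
  exact ⟨x, hx⟩

/-- The properties of the information profile. -/
structure Profile (D : ℝ) (Φ : ℕ → ℕ → ℕ → ℝ) : Prop where
  conc : ∀ s t, Conc D fun n => Φ n s t
  P2 : ∀ q n s t t', t ≤ t' → Φ q s t' ≤ Φ n s t + q * (Φ (n + 1) s t - Φ n s t)
  P3 : ∀ n s₁ s t, s₁ ≤ s → Φ n s₁ (s - s₁ + t) ≤ Φ n s t

/-- The choice of the parameters. -/
theorem Profile.params {D : ℝ} {Φ : ℕ → ℕ → ℕ → ℝ} (hΦ : Profile D Φ) {η : ℝ} (hη : 0 < η)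
    (s₀ : ℕ) : ∃ (C : ℝ) (K q N n p s₁ n₀ t₀ t : ℕ), 0 ≤ C ∧ C ≤ D ∧ 0 < K ∧ 0 < q ∧ 0 < N ∧
      0 < n ∧ 0 < p ∧ s₀ ≤ s₁ ∧ 0 < s₁ ∧
      Φ n₀ (100 * s₁) t₀ + (K + 1) * (Φ (n₀ + 1) (100 * s₁) t₀ - Φ n₀ (100 * s₁) t₀) <
        K * (C + η) ∧
      Φ (q + 1) (100 * s₁) t - Φ q (100 * s₁) t < C + η / (K + 1) ∧
      (∀ t', (C - η / (K + 1)) * N < Φ N (100 * s₁) t') ∧
      (∀ t', (C - η) * p < Φ p (100 * s₁) t') ∧
      (∀ t', (C - η) * p < Φ p s₁ t') ∧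
      Φ q (100 * s₁) t - Φ q s₁ (99 * s₁ + t) < η ∧
      (q + K + 1) * D ≤ η / (K + 1) * N ∧ q * D ≤ η * n ∧ (q + 2 * n) * D ≤ η * p := by
  have hD : 0 ≤ D := (hΦ.conc 0 0).D_nonneg
  -- the limit over the total size
  have h1 : ∀ n s, ∃ x, Tendsto (fun T => Φ n s (T - s)) (hyperfilter ℕ) (𝓝 x) := fun n s =>
    exists_ultralim (a := 0) (b := n * D) _ (Eventually.of_forall fun T =>
      ⟨(hΦ.conc s (T - s)).nonneg n, (hΦ.conc s (T - s)).le_mul n⟩)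
  choose Ψ hΨ using h1
  have hΨc : ∀ s, Conc D fun n => Ψ n s := fun s =>
    conc_of_tendsto (𝓤 := (hyperfilter ℕ : Filter ℕ)) (G := fun T n => Φ n s (T - s))
      (fun n => Eventually.of_forall fun T => by
        have := hΦ.conc s (T - s)
        exact ⟨this.zero, this.one, this.mono n, this.conc n⟩) (fun n => hΨ n s)
  have hev : ∀ a : ℕ, ∀ᶠ T in (hyperfilter ℕ : Filter ℕ), a ≤ T := fun a => by
    have h := Nat.hyperfilter_le_atTop (eventually_ge_atTop a)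
    exact h
  have hΨ3 : ∀ n s₁ s, s₁ ≤ s → Ψ n s₁ ≤ Ψ n s := fun n s₁ s hs =>
    le_of_tendsto_of_tendsto (hΨ n s₁) (hΨ n s) (by
      filter_upwards [hev s] with T hT
      have := hΦ.P3 n s₁ s (T - s) hs
      have e : s - s₁ + (T - s) = T - s₁ := by omega
      rwa [e] at this)
  have hΨ2 : ∀ q n s t, Ψ q s ≤ Φ n s t + q * (Φ (n + 1) s t - Φ n s t) := fun q n s t =>
    le_of_tendsto (hΨ q s) (by
      filter_upwards [hev (s + t)] with T hT
      exact hΦ.P2 q n s t (T - s) (by omega))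
  -- the limit over `s`
  have h2 : ∀ n, ∃ x, Tendsto (fun s => Ψ n s) atTop (𝓝 x) := fun n =>
    ⟨_, tendsto_atTop_ciSup (fun a b hab => hΨ3 n a b hab)
      ⟨n * D, by rintro _ ⟨s, rfl⟩; exact (hΨc s).le_mul n⟩⟩
  choose Θ hΘ using h2
  have hΘc : Conc D Θ :=
    conc_of_tendsto (𝓤 := atTop) (G := fun s n => Ψ n s) (fun n => Eventually.of_forall fun s =>
      ⟨(hΨc s).zero, (hΨc s).one, (hΨc s).mono n, (hΨc s).conc n⟩) hΘ
  have hΨΘ : ∀ n s, Ψ n s ≤ Θ n := fun n s =>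
    ge_of_tendsto (hΘ n) (by
      filter_upwards [eventually_ge_atTop s] with s' hs'
      exact hΨ3 n s s' hs')
  -- the slope at infinity
  set C : ℝ := ⨅ n : ℕ, Θ (n + 1) / ((n : ℝ) + 1) with hC
  have hbdd : BddBelow (Set.range fun n : ℕ => Θ (n + 1) / ((n : ℝ) + 1)) :=
    ⟨0, by
      rintro _ ⟨n, rfl⟩
      have := hΘc.nonneg (n + 1)
      positivity⟩
  have hC0 : 0 ≤ C := le_ciInf fun n => by
    have := hΘc.nonneg (n + 1)
    positivity
  have hCle : ∀ n : ℕ, 0 < n → C * n ≤ Θ n := by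
    intro n hn
    obtain ⟨k, rfl⟩ : ∃ k, n = k + 1 := ⟨n - 1, by omega⟩
    have := ciInf_le hbdd k
    have h3 : (0 : ℝ) < (k : ℝ) + 1 := by positivity
    rw [← hC, le_div_iff₀ h3] at this
    push_cast
    exact this
  have hCD : C ≤ D := by
    have h3 := hCle 1 one_pos
    have h4 := hΘc.one
    push_cast at h3
    linarith
  have hCex : ∀ ε : ℝ, 0 < ε → ∃ n : ℕ, 0 < n ∧ Θ n < (C + ε) * n := by
    intro ε hε
    obtain ⟨k, hk⟩ := exists_lt_of_ciInf_lt (show C < C + ε by linarith)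
    refine ⟨k + 1, Nat.succ_pos k, ?_⟩
    have h3 : (0 : ℝ) < (k : ℝ) + 1 := by positivity
    rw [div_lt_iff₀ h3] at hk
    push_cast
    exact hk
  -- `n₀`
  obtain ⟨n₀, hn₀, hn₀'⟩ := hCex (η / 4) (by linarith)
  -- `K`
  obtain ⟨K, hK⟩ := exists_nat_gt ((n₀ * D + D + η) / (η / 4))
  have hKpos : 0 < K := by
    rcases Nat.eq_zero_or_pos K with h | h
    · subst h
      exfalso
      have : 0 ≤ (n₀ * D + D + η) / (η / 4) := by positivity
      simp only [Nat.cast_zero] at hK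
      linarith
    · exact h
  have hK' : n₀ * D + D + η < K * (η / 4) := by
    rw [div_lt_iff₀ (by linarith)] at hK
    exact hK
  have hKr : (0 : ℝ) < (K : ℝ) + 1 := by positivity
  have hηK : 0 < η / (K + 1) := by positivity
  have hηK' : η / (K + 1) ≤ η := by
    rw [div_le_iff₀ hKr]
    nlinarith [(K.cast_nonneg : (0 : ℝ) ≤ K)]
  set δ : ℝ := η / (K + 1) with hδ
  -- `q`
  obtain ⟨q, hq, hq'⟩ := hCex (δ / 4) (by linarith)
  -- `N`, `n`, `p`
  obtain ⟨N, hN⟩ := exists_nat_gt ((q + K + 1) * D / δ)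
  obtain ⟨n, hn⟩ := exists_nat_gt (q * D / η)
  obtain ⟨p, hp⟩ := exists_nat_gt ((q + 2 * n) * D / η)
  have hNpos : 0 < N := by
    have h3 : 0 ≤ (q + K + 1) * D / δ := by positivity
    have h4 : (0 : ℝ) < N := lt_of_le_of_lt h3 hN
    exact_mod_cast h4
  have hnpos : 0 < n := by
    have h3 : 0 ≤ q * D / η := by positivity
    have h4 : (0 : ℝ) < n := lt_of_le_of_lt h3 hn
    exact_mod_cast h4
  have hppos : 0 < p := by
    have h3 : 0 ≤ (q + 2 * n) * D / η := by positivity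
    have h4 : (0 : ℝ) < p := lt_of_le_of_lt h3 hp
    exact_mod_cast h4
  -- `P`
  obtain ⟨P, hP⟩ := exists_nat_gt ((N + p) * D / (δ / 2))
  have hPpos : 0 < P := by
    have h3 : 0 ≤ (N + p) * D / (δ / 2) := by positivity
    have h4 : (0 : ℝ) < P := lt_of_le_of_lt h3 hP
    exact_mod_cast h4
  have hPr : (0 : ℝ) < P := by exact_mod_cast hPpos
  have hP' : (N + p) * D < P * (δ / 2) := by
    rwa [div_lt_iff₀ (by linarith)] at hP
  -- `s₁`
  have h3 : ∀ᶠ s in atTop, Θ P - P * (δ / 2) < Ψ P s := (hΘ P).eventually_const_lt (by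
    have : 0 < P * (δ / 2) := by positivity
    linarith)
  have h4 : ∀ᶠ s in atTop, Θ q - η / 4 < Ψ q s := (hΘ q).eventually_const_lt (by linarith)
  obtain ⟨s₁, hs1, hs2, hs3⟩ := (h3.and (h4.and (eventually_ge_atTop (s₀ + 1)))).exists
  -- lower bounds
  have hlow : ∀ x : ℕ, 0 < x → x ≤ N + p → ∀ s, s₁ ≤ s → ∀ t', (C - δ) * x < Φ x s t' := by
    intro x hx hxN s hs t'
    have e1 := hΨ2 P x s t'
    have e2 := (hΦ.conc s t').mul_diff_le x
    have e3 := (hΦ.conc s t').le_mul x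
    have e4 := hΨ3 P s₁ s hs
    have e5 := hCle P hPpos
    have hxr : (0 : ℝ) < x := by exact_mod_cast hx
    have hxN' : (x : ℝ) ≤ N + p := by exact_mod_cast hxN
    have e6 : (C - δ / 2) * P < Ψ P s := by linarith
    have e7 : (C - δ / 2) * P * x < x * Φ x s t' + P * Φ x s t' := by
      have : x * (P * (Φ (x + 1) s t' - Φ x s t')) ≤ P * Φ x s t' := by
        have := mul_le_mul_of_nonneg_left e2 hPr.le
        linarith
      have e8 : Ψ P s * x ≤ (Φ x s t' + P * (Φ (x + 1) s t' - Φ x s t')) * x :=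
        mul_le_mul_of_nonneg_right e1 hxr.le
      have e9 : (C - δ / 2) * P * x < Ψ P s * x := mul_lt_mul_of_pos_right e6 hxr
      linarith
    have e10 : x * Φ x s t' ≤ x * (P * (δ / 2)) := by
      refine mul_le_mul_of_nonneg_left ?_ hxr.le
      refine e3.trans ?_
      have : x * D ≤ (N + p) * D := mul_le_mul_of_nonneg_right hxN' hD
      linarith
    have e11 : (C - δ) * x * P < Φ x s t' * P := by
      linarith
    exact lt_of_mul_lt_mul_right e11 hPr.le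
  -- `t₀`
  have hΨn₀ : Ψ n₀ (100 * s₁) < (C + η / 4) * n₀ := lt_of_le_of_lt (hΨΘ _ _) hn₀'
  obtain ⟨T₀, hT₀⟩ := ((hΨ n₀ (100 * s₁)).eventually_lt_const hΨn₀).exists
  -- `t`
  have hΨq : Ψ q (100 * s₁) < (C + δ / 4) * q := lt_of_le_of_lt (hΨΘ _ _) hq'
  have h5 : Θ q - η / 4 < Ψ q s₁ := hs2
  have h6 := (hΨ q (100 * s₁)).eventually_lt_const hΨq
  have h7 := (hΨ q (100 * s₁)).eventually_lt_const
    (show Ψ q (100 * s₁) < Θ q + η / 4 from by
      have := hΨΘ q (100 * s₁)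
      linarith)
  have h8 := (hΨ q s₁).eventually_const_lt h5
  obtain ⟨T, hT1, hT2, hT3, hT4⟩ := (h6.and (h7.and (h8.and (hev (100 * s₁))))).exists
  refine ⟨C, K, q, N, n, p, s₁, n₀, T₀ - 100 * s₁, T - 100 * s₁, hC0, hCD, hKpos, hq, hNpos,
    hnpos, hppos, by omega, by omega, ?_, ?_, ?_, ?_, ?_, ?_, ?_, ?_, ?_⟩
  · have e1 := (hΦ.conc (100 * s₁) (T₀ - 100 * s₁)).mul_diff_le n₀
    have e2 := (hΦ.conc (100 * s₁) (T₀ - 100 * s₁)).le_mul n₀
    have hn₀r : (0 : ℝ) < n₀ := by exact_mod_cast hn₀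
    have e3 : Φ (n₀ + 1) (100 * s₁) (T₀ - 100 * s₁) - Φ n₀ (100 * s₁) (T₀ - 100 * s₁) <
        C + η / 4 := by
      have : (n₀ : ℝ) * (Φ (n₀ + 1) (100 * s₁) (T₀ - 100 * s₁) -
          Φ n₀ (100 * s₁) (T₀ - 100 * s₁)) < n₀ * (C + η / 4) := by linarith
      exact lt_of_mul_lt_mul_left this hn₀r.le
    have e4 : ((K : ℝ) + 1) * (Φ (n₀ + 1) (100 * s₁) (T₀ - 100 * s₁) -
        Φ n₀ (100 * s₁) (T₀ - 100 * s₁)) < (K + 1) * (C + η / 4) :=
      mul_lt_mul_of_pos_left e3 hKr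
    have e5 : 0 ≤ (K : ℝ) * η := by positivity
    linarith
  · have e1 := (hΦ.conc (100 * s₁) (T - 100 * s₁)).mul_diff_le q
    have hqr : (0 : ℝ) < q := by exact_mod_cast hq
    have : (q : ℝ) * (Φ (q + 1) (100 * s₁) (T - 100 * s₁) -
        Φ q (100 * s₁) (T - 100 * s₁)) < q * (C + δ) := by
      have : 0 < q * δ := by positivity
      linarith
    exact lt_of_mul_lt_mul_left this hqr.le
  · intro t'
    exact hlow N hNpos (by omega) _ (by omega) t'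
  · intro t'
    refine lt_of_le_of_lt ?_ (hlow p hppos (by omega) _ (show s₁ ≤ 100 * s₁ by omega) t')
    exact mul_le_mul_of_nonneg_right (by linarith) (by positivity)
  · intro t'
    refine lt_of_le_of_lt ?_ (hlow p hppos (by omega) _ le_rfl t')
    exact mul_le_mul_of_nonneg_right (by linarith) (by positivity)
  · have e : 99 * s₁ + (T - 100 * s₁) = T - s₁ := by omega
    rw [e]
    linarith
  · rw [div_lt_iff₀ hηK] at hN
    linarith
  · rw [div_lt_iff₀ hη] at hn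
    linarith
  · rw [div_lt_iff₀ hη] at hp
    linarith

/-- The averaged inequalities along a sequence of counterexamples to the key lemma. `Φ i n s t` is
the averaged information profile, `κ i s y z q`, `pn i s y z`, `ν i s y z n` and `Λ i s z q` are the
averages of the quantities with the same names. -/
structure Asym (𝓤 : Filter ℕ) (D : ℝ) (s₀ : ℕ) (Φ : ℕ → ℕ → ℕ → ℕ → ℝ)
    (κ ν : ℕ → ℕ → ℕ → ℕ → ℕ → ℝ) (pn Λ : ℕ → ℕ → ℕ → ℕ → ℝ) : Prop where
  conc : ∀ n s t, ∀ᶠ i in 𝓤, Φ i 0 s t = 0 ∧ Φ i 1 s t ≤ D ∧ Φ i n s t ≤ Φ i (n + 1) s t ∧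
    Φ i (n + 2) s t + Φ i n s t ≤ 2 * Φ i (n + 1) s t
  P2 : ∀ q n s t t', t ≤ t' → ∀ᶠ i in 𝓤,
    Φ i q s t' ≤ Φ i n s t + q * (Φ i (n + 1) s t - Φ i n s t)
  P3 : ∀ n s₁ s t, s₁ ≤ s → ∀ᶠ i in 𝓤, Φ i n s₁ (s - s₁ + t) ≤ Φ i n s t
  comb : ∀ K N q n₀ s t₀ t, 0 < N → ∀ ε : ℝ, 0 < ε → ∀ᶠ i in 𝓤,
    ∑ j ∈ Finset.range K, κ i s (t₀ + j * t) t q ≤
      Φ i n₀ s t₀ + (K + 1) * (Φ i (n₀ + 1) s t₀ - Φ i n₀ s t₀) +
      ∑ j ∈ Finset.range K, ∑ l ∈ Finset.Ioc j K, (Φ i (q + 1) s t - Φ i q s t -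
        (Φ i N s (t₀ + l * t) - (q + K + 1) * D) / N) + ε
  h3a : ∀ s y z q n p, s₀ ≤ s → 0 < n → 0 < p → ∀ ε : ℝ, 0 < ε → ∀ᶠ i in 𝓤,
    (1 - pn i s y z) - Λ i s z q - (1 / 20 + ν i s y z n) - 1 / 20 +
      2 * ((Φ i p s y - (q + 2 * n) * D) / p) ≤ 2 * κ i s y z q + ε
  h3b : ∀ s₁ y z q n p, s₀ ≤ s₁ → 0 < s₁ → 0 < n → 0 < p → ∀ ε : ℝ, 0 < ε → ∀ᶠ i in 𝓤,
    99 / 100 * (n * ν i (100 * s₁) y z n * (19 / 20)) +
      2 * n * ((Φ i p s₁ (99 * s₁ + y) - 2 * n * D) / p) ≤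
      q * D + 2 * n * κ i (100 * s₁) y z q + ε
  h3c : ∀ s₁ z q, s₀ ≤ s₁ → 0 < s₁ → ∀ ε : ℝ, 0 < ε → ∀ᶠ i in 𝓤,
    Λ i (100 * s₁) z q ≤ 100 / 99 * (Φ i q (100 * s₁) z - Φ i q s₁ (99 * s₁ + z)) + ε
  h4 : ∀ s y z, s₀ ≤ s → ∀ ε : ℝ, 0 < ε → ∀ᶠ i in 𝓤, pn i s y z ≤ 1 / 10 + 1 / 40 + ε

/-- Such a sequence does not exist. -/
theorem Asym.false {𝓤 : Ultrafilter ℕ} {D : ℝ} {s₀ : ℕ} {Φ : ℕ → ℕ → ℕ → ℕ → ℝ}
    {κ ν : ℕ → ℕ → ℕ → ℕ → ℕ → ℝ} {pn Λ : ℕ → ℕ → ℕ → ℕ → ℝ}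
    (h : Asym (𝓤 : Filter ℕ) D s₀ Φ κ ν pn Λ) : False := by
  -- elementary bounds
  have hb : ∀ n s t, ∀ᶠ i in (𝓤 : Filter ℕ), 0 ≤ Φ i n s t ∧ Φ i n s t ≤ n * D := by
    intro n s t
    have h1 : ∀ᶠ i in (𝓤 : Filter ℕ), ∀ m ∈ Finset.range (n + 1), Φ i 0 s t = 0 ∧
        Φ i 1 s t ≤ D ∧ Φ i m s t ≤ Φ i (m + 1) s t ∧
        Φ i (m + 2) s t + Φ i m s t ≤ 2 * Φ i (m + 1) s t :=
      (Filter.eventually_all_finset _).2 fun m _ => h.conc m s t
    filter_upwards [h1] with i hi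
    have h2 : ∀ m ≤ n, 0 ≤ Φ i m s t ∧ Φ i m s t ≤ m * D ∧ Φ i (m + 1) s t - Φ i m s t ≤ D := by
      intro m
      induction m with
      | zero =>
        intro _
        obtain ⟨e1, e2, -, -⟩ := hi 0 (by simp)
        simp only [zero_add, Nat.cast_zero, zero_mul]
        rw [e1]
        refine ⟨le_rfl, le_rfl, by linarith⟩
      | succ m ih =>
        intro hm
        obtain ⟨e1, e2, e3⟩ := ih (by omega)
        obtain ⟨-, -, e4, e5⟩ := hi m (by simp; omega)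
        push_cast
        refine ⟨by linarith, by linarith, ?_⟩
        show Φ i (m + 2) s t - Φ i (m + 1) s t ≤ D
        linarith
    exact ⟨(h2 n le_rfl).1, (h2 n le_rfl).2.1⟩
  -- the limit profile
  have hl : ∀ n s t, ∃ x, Tendsto (fun i => Φ i n s t) 𝓤 (𝓝 x) := fun n s t =>
    exists_ultralim 𝓤 (hb n s t)
  choose Ξ hΞ using hl
  have hprof : Profile D Ξ := by
    refine ⟨fun s t => conc_of_tendsto (𝓤 := (𝓤 : Filter ℕ)) (G := fun i n => Φ i n s t)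
      (fun n => h.conc n s t) (fun n => hΞ n s t), ?_, ?_⟩
    · intro q n s t t' htt
      exact le_of_tendsto_of_tendsto (hΞ q s t') ((hΞ n s t).add
        (((hΞ (n + 1) s t).sub (hΞ n s t)).const_mul (q : ℝ))) (h.P2 q n s t t' htt)
    · intro n s₁ s t hs
      exact le_of_tendsto_of_tendsto (hΞ n s₁ _) (hΞ n s t) (h.P3 n s₁ s t hs)
  obtain ⟨η, hη⟩ : ∃ η : ℝ, η = 1 / 1000 := ⟨_, rfl⟩
  have hηpos : 0 < η := by norm_num [hη]
  obtain ⟨C, K, q, N, n, p, s₁, n₀, t₀, t, hC0, hCD, hK, hq, hN, hn, hp, hs₀, hs₁, c1, c2, c3, c4,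
    c5, c6, c7, c8, c9⟩ := hprof.params hηpos s₀
  obtain ⟨s, hs⟩ : ∃ s, s = 100 * s₁ := ⟨_, rfl⟩
  rw [← hs] at c1 c2 c3 c4 c6
  have hKr : (0 : ℝ) < (K : ℝ) + 1 := by positivity
  have hK1 : (1 : ℝ) ≤ K := by exact_mod_cast hK
  have hNr : (0 : ℝ) < N := by exact_mod_cast hN
  have hnr : (1 : ℝ) ≤ n := by exact_mod_cast hn
  have hpr : (0 : ℝ) < p := by exact_mod_cast hp
  have hs₀s : s₀ ≤ s := by omega
  -- the finitely many conditions on the index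
  have g1 : ∀ᶠ i in (𝓤 : Filter ℕ), Φ i n₀ s t₀ + (K + 1) * (Φ i (n₀ + 1) s t₀ - Φ i n₀ s t₀) <
      K * (C + η) :=
    ((hΞ n₀ s t₀).add (((hΞ (n₀ + 1) s t₀).sub (hΞ n₀ s t₀)).const_mul
      ((K : ℝ) + 1))).eventually_lt_const c1
  have g2 : ∀ᶠ i in (𝓤 : Filter ℕ), Φ i (q + 1) s t - Φ i q s t < C + η / (K + 1) :=
    ((hΞ (q + 1) s t).sub (hΞ q s t)).eventually_lt_const c2
  have g3 : ∀ᶠ i in (𝓤 : Filter ℕ), ∀ j ∈ Finset.range (K + 1),
      (C - η / (K + 1)) * N < Φ i N s (t₀ + j * t) :=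
    (Filter.eventually_all_finset _).2 fun j _ => (hΞ N s _).eventually_const_lt (c3 _)
  have g4 : ∀ᶠ i in (𝓤 : Filter ℕ), ∀ j ∈ Finset.range (K + 1),
      (C - η) * p < Φ i p s (t₀ + j * t) :=
    (Filter.eventually_all_finset _).2 fun j _ => (hΞ p s _).eventually_const_lt (c4 _)
  have g5 : ∀ᶠ i in (𝓤 : Filter ℕ), ∀ j ∈ Finset.range (K + 1),
      (C - η) * p < Φ i p s₁ (99 * s₁ + (t₀ + j * t)) :=
    (Filter.eventually_all_finset _).2 fun j _ => (hΞ p s₁ _).eventually_const_lt (c5 _)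
  have g6 : ∀ᶠ i in (𝓤 : Filter ℕ), Φ i q s t - Φ i q s₁ (99 * s₁ + t) < η :=
    ((hΞ q s t).sub (hΞ q s₁ (99 * s₁ + t))).eventually_lt_const c6
  have g7 := h.comb K N q n₀ s t₀ t hN η hηpos
  have g8 : ∀ᶠ i in (𝓤 : Filter ℕ), ∀ j ∈ Finset.range (K + 1),
      (1 - pn i s (t₀ + j * t) t) - Λ i s t q - (1 / 20 + ν i s (t₀ + j * t) t n) - 1 / 20 +
      2 * ((Φ i p s (t₀ + j * t) - (q + 2 * n) * D) / p) ≤ 2 * κ i s (t₀ + j * t) t q + η :=
    (Filter.eventually_all_finset _).2 fun j _ => h.h3a s _ t q n p hs₀s hn hp η hηpos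
  have g9 : ∀ᶠ i in (𝓤 : Filter ℕ), ∀ j ∈ Finset.range (K + 1),
      99 / 100 * (n * ν i s (t₀ + j * t) t n * (19 / 20)) +
      2 * n * ((Φ i p s₁ (99 * s₁ + (t₀ + j * t)) - 2 * n * D) / p) ≤
      q * D + 2 * n * κ i s (t₀ + j * t) t q + η :=
    (Filter.eventually_all_finset _).2 fun j _ => by
      rw [hs]
      exact h.h3b s₁ _ t q n p hs₀ hs₁ hn hp η hηpos
  have g10 := h.h3c s₁ t q hs₀ hs₁ η hηpos
  rw [← hs] at g10
  have g11 : ∀ᶠ i in (𝓤 : Filter ℕ), ∀ j ∈ Finset.range (K + 1),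
      pn i s (t₀ + j * t) t ≤ 1 / 10 + 1 / 40 + η :=
    (Filter.eventually_all_finset _).2 fun j _ => h.h4 s _ t hs₀s η hηpos
  obtain ⟨i, k1, k2, k3, k4, k5, k6, k7, k8, k9, k10, k11⟩ := (g1.and (g2.and (g3.and (g4.and
    (g5.and (g6.and (g7.and (g8.and (g9.and (g10.and g11)))))))))).exists
  -- a good tooth
  have hterm : ∀ j ∈ Finset.range K, ∑ l ∈ Finset.Ioc j K, (Φ i (q + 1) s t - Φ i q s t -
        (Φ i N s (t₀ + l * t) - (q + K + 1) * D) / N) ≤ 3 * η := by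
    intro j hj
    have e1 : ∀ l ∈ Finset.Ioc j K, (Φ i (q + 1) s t - Φ i q s t -
        (Φ i N s (t₀ + l * t) - (q + K + 1) * D) / N) ≤ 3 * (η / (K + 1)) := by
      intro l hl
      rw [Finset.mem_Ioc] at hl
      have e2 := k3 l (by simp; omega)
      have e3 : C - 2 * (η / (K + 1)) ≤ (Φ i N s (t₀ + l * t) - (q + K + 1) * D) / N := by
        rw [le_div_iff₀ hNr]
        nlinarith
      linarith
    refine (Finset.sum_le_sum e1).trans ?_
    rw [Finset.sum_const, nsmul_eq_mul, Nat.card_Ioc]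
    have e4 : ((K - j : ℕ) : ℝ) ≤ K + 1 := by
      have : ((K - j : ℕ) : ℝ) ≤ K := by exact_mod_cast Nat.sub_le K j
      linarith
    have e5 : 0 < η / (K + 1) := by positivity
    calc ((K - j : ℕ) : ℝ) * (3 * (η / (K + 1))) ≤ (K + 1) * (3 * (η / (K + 1))) :=
          mul_le_mul_of_nonneg_right e4 (by positivity)
      _ = 3 * η := by field_simp
  have hsum : ∑ j ∈ Finset.range K, κ i s (t₀ + j * t) t q ≤
      ∑ _j ∈ Finset.range K, (C + 5 * η) := by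
    refine k7.trans ?_
    have e1 := Finset.sum_le_sum hterm
    rw [Finset.sum_const, nsmul_eq_mul, Finset.card_range] at e1
    rw [Finset.sum_const, nsmul_eq_mul, Finset.card_range]
    have e2 : η ≤ K * η := by
      have := mul_le_mul_of_nonneg_right hK1 hηpos.le
      linarith
    have e3 : K * (C + η) + K * (3 * η) + K * η ≤ K * (C + 5 * η) := by
      have : K * (C + η) + K * (3 * η) + K * η = K * (C + 5 * η) := by ring
      exact this.le
    refine le_trans ?_ e3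
    exact add_le_add (add_le_add k1.le e1) e2
  obtain ⟨j, hj, hκ⟩ := Finset.exists_le_of_sum_le (Finset.nonempty_range_iff.2 hK.ne') hsum
  have hj' : j ∈ Finset.range (K + 1) := by
    rw [Finset.mem_range] at hj ⊢
    omega
  have m4 := k4 j hj'
  have m5 := k5 j hj'
  have m8 := k8 j hj'
  have m9 := k9 j hj'
  have m11 := k11 j hj'
  have d1 : C - 2 * η ≤ (Φ i p s (t₀ + j * t) - (q + 2 * n) * D) / p := by
    rw [le_div_iff₀ hpr]
    nlinarith
  have hDn : 0 ≤ D := hC0.trans hCD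
  have d2 : C - 2 * η ≤ (Φ i p s₁ (99 * s₁ + (t₀ + j * t)) - 2 * n * D) / p := by
    rw [le_div_iff₀ hpr]
    have : 0 ≤ (q : ℝ) * D := by positivity
    nlinarith
  have d3 : ν i s (t₀ + j * t) t n ≤ 20 * η := by
    have e1 : 2 * n * (C - 2 * η) ≤
        2 * n * ((Φ i p s₁ (99 * s₁ + (t₀ + j * t)) - 2 * n * D) / p) :=
      mul_le_mul_of_nonneg_left d2 (by positivity)
    have e2 : 2 * n * κ i s (t₀ + j * t) t q ≤ 2 * n * (C + 5 * η) :=
      mul_le_mul_of_nonneg_left hκ (by positivity)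
    have e5 : η ≤ n * η := by
      have := mul_le_mul_of_nonneg_right hnr hηpos.le
      linarith
    have e3 : n * (99 / 100 * (19 / 20) * ν i s (t₀ + j * t) t n) ≤ n * (16 * η) := by
      linarith
    have e4 := le_of_mul_le_mul_left e3 (by linarith)
    linarith
  simp only [hη] at *
  linarith

end RFold
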