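import Mathlib

/-!
# The comb lemma in abstract form

A system of random variables (`V`), with the entropies `h S` of the finite sets of variables, some
of which are *copies*: the copy `j` is sampled from the fibre of `(W, typ j)`. Everything below is
a consequence of the Shannon inequalities, conditional independence (`ci`), determination (`det`)
and equality of laws (`eq0`, `eq1`).
-/

namespace Pool.Agent.MP3581

open Finset

variable {V : Type*} [DecidableEq V]

/-- A system of copies. `E` is the entropy of the base point, `A Z n` the entropy of `Z` together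
with `n` copies of type `Z`. -/
structure CopySys (h : Finset V → ℝ) (W : Finset V) (E : ℝ) (A : Finset V → ℕ → ℝ)
    (Cp : V → Prop) (typ : V → Finset V) : Prop where
  mono : ∀ {S T : Finset V}, S ⊆ T → h S ≤ h T
  submod : ∀ S T : Finset V, h (S ∪ T) + h (S ∩ T) ≤ h S + h T
  base : ∀ i j, Cp i → Cp j → i ∉ W ∪ typ j
  ci : ∀ j, Cp j → ∀ S : Finset V, j ∉ S → W ∪ typ j ⊆ S →
    h (insert j S) = h S + (E - h (W ∪ typ j))
  det : ∀ j, Cp j → ∀ S : Finset V, j ∈ S → h (S ∪ typ j) = h S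
  eq0 : ∀ Z R : Finset V, (∀ r ∈ R, Cp r ∧ typ r = Z) → h (Z ∪ R) = A Z R.card
  eq1 : ∀ (Z R : Finset V) (j : V), (∀ r ∈ R, Cp r ∧ typ r = Z) → j ∉ R → Cp j → Z ⊆ typ j →
    h (Z ∪ insert j R) = A Z (R.card + 1)
  exch : ∀ i j, Cp i → Cp j → typ i = typ j → ∀ S : Finset V, i ∉ S → j ∉ S →
    h (insert i S) = h (insert j S)
  empty : h ∅ = 0

namespace CopySys

variable {h : Finset V → ℝ} {W : Finset V} {E : ℝ} {A : Finset V → ℕ → ℝ} {Cp : V → Prop}
  {typ : V → Finset V}

/-- The entropy of a copy of type `Z` given `(W, Z)`. -/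
def h0 (h : Finset V → ℝ) (W : Finset V) (E : ℝ) (Z : Finset V) : ℝ := E - h (W ∪ Z)

/-- The information about `W` in `n` copies of type `Z`, given `Z`. -/
def F (h : Finset V → ℝ) (W : Finset V) (E : ℝ) (A : Finset V → ℕ → ℝ) (Z : Finset V) (n : ℕ) :
    ℝ := A Z n - h Z - n * h0 h W E Z

/-- The increment of `F`. -/
def dF (h : Finset V → ℝ) (W : Finset V) (E : ℝ) (A : Finset V → ℕ → ℝ) (Z : Finset V) (n : ℕ) :
    ℝ := F h W E A Z (n + 1) - F h W E A Z n

theorem dF_eq (Z : Finset V) (n : ℕ) :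
    dF h W E A Z n = A Z (n + 1) - A Z n - h0 h W E Z := by
  unfold dF F
  push_cast
  ring

/-- Conditioning reduces entropy. -/
theorem cond (s : CopySys h W E A Cp typ) {S T : Finset V} (X : Finset V) (hST : S ⊆ T) :
    h (T ∪ X) + h S ≤ h T + h (S ∪ X) := by
  have h1 := s.submod T (S ∪ X)
  have h2 : h S ≤ h (T ∩ (S ∪ X)) := s.mono (by
    intro x hx
    simp [hx, hST hx])
  have h3 : T ∪ (S ∪ X) = T ∪ X := by
    ext x
    simp only [mem_union]
    have := @hST x
    tauto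
  rw [h3] at h1
  linarith

theorem det' (s : CopySys h W E A Cp typ) {j : V} (hj : Cp j) {S T : Finset V} (hjS : j ∈ S)
    (hST : S ⊆ T) (hT : T ⊆ S ∪ typ j) : h T = h S :=
  le_antisymm ((s.mono hT).trans (s.det j hj S hjS).le) (s.mono hST)

theorem ci_set (s : CopySys h W E A Cp typ) {Z R : Finset V} (hR : ∀ r ∈ R, Cp r ∧ typ r = Z)
    {S : Finset V} (hS : W ∪ Z ⊆ S) (hd : Disjoint R S) :
    h (S ∪ R) = h S + R.card * h0 h W E Z := by
  induction R using Finset.induction_on with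
  | empty => simp
  | insert r R hr ih =>
    obtain ⟨h1, h2⟩ := hR r (by simp)
    rw [Finset.disjoint_insert_left] at hd
    have h3 := ih (fun r' hr' => hR r' (by simp [hr'])) hd.2
    rw [union_insert, s.ci r h1 (S ∪ R) (by simp [hd.1, hr])
      (by rw [h2]; exact hS.trans subset_union_left), h2, h3, card_insert_of_notMem hr]
    unfold h0
    push_cast
    ring

theorem ci_one (s : CopySys h W E A Cp typ) {j : V} (hj : Cp j) {S : Finset V} (hjS : j ∉ S)
    (hS : W ∪ typ j ⊆ S) : h (S ∪ {j}) = h S + h0 h W E (typ j) := by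
  have := s.ci j hj S hjS hS
  rw [union_comm, ← insert_eq, this]
  rfl

/-- `(P2)`: specialisation. -/
theorem special (s : CopySys h W E A Cp typ) {Z Z' R R' : Finset V} (hZ : Z ⊆ Z')
    (hR : ∀ r ∈ R, Cp r ∧ typ r = Z) (hR' : ∀ r ∈ R', Cp r ∧ typ r = Z') (hd : Disjoint R R')
    (hne : R'.Nonempty) :
    F h W E A Z' R'.card ≤ F h W E A Z R.card + R'.card * dF h W E A Z R.card := by
  obtain ⟨r₀, hr₀⟩ := hne
  have hbase : ∀ r ∈ R, r ∉ W ∪ Z' := fun r hr => by
    have := s.base r r₀ (hR r hr).1 (hR' r₀ hr₀).1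
    rwa [(hR' r₀ hr₀).2] at this
  have hbase' : ∀ r ∈ R', r ∉ W ∪ Z' := fun r hr => by
    have := s.base r r₀ (hR' r hr).1 (hR' r₀ hr₀).1
    rwa [(hR' r₀ hr₀).2] at this
  -- `T ≥ A' + n h0`
  have h1 : A Z' R'.card + R.card * h0 h W E Z ≤ h (Z' ∪ R' ∪ R) := by
    have e1 := s.cond (S := Z' ∪ R') (T := W ∪ Z' ∪ R') R (by
      intro x hx
      simp only [mem_union] at hx ⊢
      tauto)
    have e2 : h (W ∪ Z' ∪ R' ∪ R) = h (W ∪ Z' ∪ R') + R.card * h0 h W E Z :=
      s.ci_set hR (by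
        intro x hx
        have := @hZ x
        simp only [mem_union] at hx ⊢
        tauto) (by
        rw [Finset.disjoint_union_right]
        exact ⟨Finset.disjoint_left.2 hbase, hd⟩)
    have e3 := s.eq0 Z' R' hR'
    rw [e2, e3] at e1
    linarith
  -- the upper bound
  have hβ : A Z R.card + h (W ∪ Z') - h (W ∪ Z) ≤ h (Z' ∪ R) := by
    have e1 := s.cond (S := Z ∪ R) (T := W ∪ Z ∪ R) Z' (by
      intro x hx
      simp only [mem_union] at hx ⊢
      tauto)
    have e2 : h (W ∪ Z ∪ R) = h (W ∪ Z) + R.card * h0 h W E Z :=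
      s.ci_set hR Subset.rfl (Finset.disjoint_left.2 fun r hr hr' => hbase r hr (by
        have := @hZ r
        simp only [mem_union] at hr' ⊢
        tauto))
    have e3 : h (W ∪ Z' ∪ R) = h (W ∪ Z') + R.card * h0 h W E Z :=
      s.ci_set hR (by
        intro x hx
        have := @hZ x
        simp only [mem_union] at hx ⊢
        tauto) (Finset.disjoint_left.2 hbase)
    have e4 : W ∪ Z ∪ R ∪ Z' = W ∪ Z' ∪ R := by
      ext x
      have := @hZ x
      simp only [mem_union]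
      tauto
    have e5 : Z ∪ R ∪ Z' = Z' ∪ R := by
      ext x
      have := @hZ x
      simp only [mem_union]
      tauto
    rw [e4, e3, e2, e5, s.eq0 Z R hR] at e1
    linarith
  have h2 : ∀ Q : Finset V, Q ⊆ R' →
      h (Z' ∪ R ∪ Q) ≤ h (Z' ∪ R) + Q.card * (A Z (R.card + 1) - h (Z' ∪ R)) := by
    intro Q
    induction Q using Finset.induction_on with
    | empty => simp
    | insert r Q hr ih =>
      intro hQ
      have hrR' : r ∈ R' := hQ (by simp)
      obtain ⟨hr1, hr2⟩ := hR' r hrR'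
      have e1 := ih (fun x hx => hQ (by simp [hx]))
      have e2 := s.cond (S := Z' ∪ R) (T := Z' ∪ R ∪ Q) {r} subset_union_left
      have hrR : r ∉ R := fun hh => (Finset.disjoint_left.1 hd hh) hrR'
      have e3 : h (Z' ∪ R ∪ {r}) = A Z (R.card + 1) := by
        rw [← s.eq1 Z R r hR hrR hr1 (by rw [hr2]; exact hZ)]
        refine s.det' hr1 (by simp) ?_ ?_
        · intro x hx
          have := @hZ x
          simp only [mem_union, mem_insert, mem_singleton] at hx ⊢
          tauto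
        · intro x hx
          rw [hr2]
          simp only [mem_union, mem_insert, mem_singleton] at hx ⊢
          tauto
      have e4 : Z' ∪ R ∪ insert r Q = Z' ∪ R ∪ Q ∪ {r} := by
        ext x
        simp only [mem_union, mem_insert, mem_singleton]
        tauto
      rw [e4, card_insert_of_notMem hr]
      rw [e3] at e2
      push_cast
      linarith
  have h3 := h2 R' Subset.rfl
  have e5 : Z' ∪ R ∪ R' = Z' ∪ R' ∪ R := by
    ext x
    simp only [mem_union]
    tauto
  rw [e5] at h3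
  have hq : (1 : ℝ) ≤ R'.card := by
    have : 0 < R'.card := card_pos.2 ⟨r₀, hr₀⟩
    exact_mod_cast this
  have h4 : h (Z' ∪ R) + R'.card * (A Z (R.card + 1) - h (Z' ∪ R)) ≤
      R'.card * A Z (R.card + 1) -
        (R'.card - 1) * (A Z R.card + h (W ∪ Z') - h (W ∪ Z)) := by
    nlinarith
  have h5 : h (W ∪ Z') + h Z ≤ h (W ∪ Z) + h Z' := by
    have e1 := s.cond (S := Z) (T := W ∪ Z) Z' subset_union_right
    have e2 : W ∪ Z ∪ Z' = W ∪ Z' := by
      ext x
      have := @hZ x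
      simp only [mem_union]
      tauto
    have e3 : Z ∪ Z' = Z' := union_eq_right.2 hZ
    rw [e2, e3] at e1
    exact e1
  rw [dF_eq]
  unfold F
  unfold h0 at *
  nlinarith

/-- The information on `W` contained in copies. -/
theorem info_le (s : CopySys h W E A Cp typ) {S Z : Finset V} {D : ℝ}
    (hS : ∀ x ∈ S, Cp x ∧ typ x ⊆ Z ∧ x ∉ W ∪ Z ∧ F h W E A (typ x) 1 ≤ D) :
    h (Z ∪ S) - h (W ∪ Z ∪ S) ≤ h Z - h (W ∪ Z) + S.card * D := by
  induction S using Finset.induction_on with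
  | empty => simp
  | insert x S hx ih =>
    obtain ⟨h1, h2, h3, h4⟩ := hS x (by simp)
    have ih' := ih (fun y hy => hS y (by simp [hy]))
    have e1 := s.cond (S := typ x) (T := Z ∪ S) {x} (h2.trans subset_union_left)
    have e2 : h (typ x ∪ {x}) = A (typ x) 1 := by
      have := s.eq1 (typ x) ∅ x (by simp) (by simp) h1 Subset.rfl
      simpa using this
    have e3 := s.ci_one h1 (S := W ∪ Z ∪ S) (by
      intro hh
      rcases mem_union.1 hh with hh | hh
      · exact h3 hh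
      · exact hx hh) (by
      intro y hy
      have := @h2 y
      simp only [mem_union] at hy ⊢
      tauto)
    have e4 : Z ∪ insert x S = Z ∪ S ∪ {x} := by
      ext y
      simp only [mem_union, mem_insert, mem_singleton]
      tauto
    have e5 : W ∪ Z ∪ insert x S = W ∪ Z ∪ S ∪ {x} := by
      ext y
      simp only [mem_union, mem_insert, mem_singleton]
      tauto
    have e6 : F h W E A (typ x) 1 = A (typ x) 1 - h (typ x) - h0 h W E (typ x) := by
      unfold F
      push_cast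
      ring
    rw [e4, e5, e3, card_insert_of_notMem hx]
    rw [e2] at e1
    push_cast
    linarith

/-- Fresh information: a lower bound for the entropy of a copy. -/
theorem fresh (s : CopySys h W E A Cp typ) {S Z Z' C : Finset V} {c : V} {D : ℝ}
    (hC : ∀ x ∈ C, Cp x ∧ typ x = Z) (hc : c ∈ C) (hZ : Z ⊆ Z')
    (hS : ∀ x ∈ S, Cp x ∧ typ x ⊆ Z' ∧ x ∉ W ∪ Z' ∧ F h W E A (typ x) 1 ≤ D)
    (hd : Disjoint C S) :
    F h W E A Z C.card + C.card * h0 h W E Z - (h W + h Z' - h (W ∪ Z')) - S.card * D ≤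
      C.card * (h (S ∪ Z ∪ {c}) - h (S ∪ Z)) := by
  have hb : ∀ x ∈ C, x ∉ W ∪ Z := fun x hx => by
    have := s.base x x (hC x hx).1 (hC x hx).1
    rwa [(hC x hx).2] at this
  have hnS : ∀ x ∈ C, x ∉ S ∪ Z := fun x hx hh => by
    rcases mem_union.1 hh with hh | hh
    · exact Finset.disjoint_left.1 hd hx hh
    · exact hb x hx (mem_union_right _ hh)
  -- subadditivity
  have h1 : ∀ Q : Finset V, Q ⊆ C →
      h (S ∪ Z ∪ Q) ≤ h (S ∪ Z) + Q.card * (h (S ∪ Z ∪ {c}) - h (S ∪ Z)) := by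
    intro Q
    induction Q using Finset.induction_on with
    | empty => simp
    | insert x Q hx ih =>
      intro hQ
      have hxC : x ∈ C := hQ (by simp)
      have e1 := ih (fun y hy => hQ (by simp [hy]))
      have e2 := s.cond (S := S ∪ Z) (T := S ∪ Z ∪ Q) {x} subset_union_left
      have e3 : h (S ∪ Z ∪ {x}) = h (S ∪ Z ∪ {c}) := by
        have := s.exch x c (hC x hxC).1 (hC c hc).1 ((hC x hxC).2.trans (hC c hc).2.symm)
          (S ∪ Z) (hnS x hxC) (hnS c hc)
        have ex : ∀ y, S ∪ Z ∪ {y} = insert y (S ∪ Z) := fun y => by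
          rw [insert_eq, union_comm]
        rw [ex, ex]
        exact this
      have e4 : S ∪ Z ∪ insert x Q = S ∪ Z ∪ Q ∪ {x} := by
        ext y
        simp only [mem_union, mem_insert, mem_singleton]
        tauto
      rw [e4, card_insert_of_notMem hx]
      rw [e3] at e2
      push_cast
      linarith
  have h2 := h1 C Subset.rfl
  -- lower bound
  have h3 := s.cond (S := Z ∪ C) (T := W ∪ Z ∪ C) S (by
    intro x hx
    simp only [mem_union] at hx ⊢
    tauto)
  have e1 : h (W ∪ Z ∪ C) = h (W ∪ Z) + C.card * h0 h W E Z :=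
    s.ci_set hC Subset.rfl (Finset.disjoint_left.2 hb)
  have e2 : h (W ∪ Z ∪ S ∪ C) = h (W ∪ Z ∪ S) + C.card * h0 h W E Z :=
    s.ci_set hC subset_union_left (Finset.disjoint_left.2 fun x hx hh => by
      rcases mem_union.1 hh with hh | hh
      · exact hb x hx hh
      · exact Finset.disjoint_left.1 hd hx hh)
  have e3 : W ∪ Z ∪ C ∪ S = W ∪ Z ∪ S ∪ C := by
    ext y
    simp only [mem_union]
    tauto
  have e4 : Z ∪ C ∪ S = S ∪ Z ∪ C := by
    ext y
    simp only [mem_union]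
    tauto
  rw [e3, e4, e2, e1, s.eq0 Z C hC] at h3
  -- information
  have h4 := s.info_le hS
  have h5 := s.cond (S := Z ∪ S) (T := Z' ∪ S) W (by
    intro x hx
    have := @hZ x
    simp only [mem_union] at hx ⊢
    tauto)
  have h6 := s.cond (S := ∅) (T := Z) W (empty_subset _)
  have e5 : Z' ∪ S ∪ W = W ∪ Z' ∪ S := by
    ext y
    simp only [mem_union]
    tauto
  have e6 : Z ∪ S ∪ W = W ∪ Z ∪ S := by
    ext y
    simp only [mem_union]
    tauto
  have e7 : Z ∪ W = W ∪ Z := union_comm _ _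
  have e8 : S ∪ Z = Z ∪ S := union_comm _ _
  rw [e5, e6] at h5
  rw [e7, s.empty, empty_union] at h6
  unfold F
  rw [e8] at h2 h3 ⊢
  linarith

/-! ### The comb lemma -/

section comb

variable (ζ : ℕ → Finset V)

/-- The levels. -/
def lev (i : ℕ) : Finset V := (Finset.range (i + 1)).biUnion ζ

theorem lev_mono {i j : ℕ} (hij : i ≤ j) : lev ζ i ⊆ lev ζ j :=
  Finset.biUnion_subset_biUnion_of_subset_left _ (Finset.range_mono (by omega))

theorem subset_lev {i j : ℕ} (hij : i ≤ j) : ζ i ⊆ lev ζ j :=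
  Finset.subset_biUnion_of_mem ζ (Finset.mem_range.2 (by omega))

theorem lev_zero : lev ζ 0 = ζ 0 := by simp [lev]

theorem lev_succ (i : ℕ) : lev ζ (i + 1) = lev ζ i ∪ ζ (i + 1) := by
  ext x
  simp only [lev, mem_biUnion, mem_range, mem_union]
  constructor
  · rintro ⟨a, ha, hx⟩
    rcases Nat.lt_or_ge a (i + 1) with h | h
    · exact Or.inl ⟨a, h, hx⟩
    · have : a = i + 1 := by omega
      exact Or.inr (this ▸ hx)
  · rintro (⟨a, ha, hx⟩ | hx)
    · exact ⟨a, by omega, hx⟩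
    · exact ⟨i + 1, by omega, hx⟩

/-- Teeth `a, …, K` of the comb. -/
def teeth (c : ℕ → V) (K a : ℕ) : Finset V := (Finset.Icc a K).image c

theorem teeth_succ (c : ℕ → V) {K a : ℕ} (ha : a ≤ K) :
    teeth c K a = insert (c a) (teeth c K (a + 1)) := by
  ext x
  simp only [teeth, mem_image, mem_Icc, mem_insert]
  constructor
  · rintro ⟨i, hi, rfl⟩
    rcases Nat.eq_or_lt_of_le hi.1 with h | h
    · exact Or.inl (by rw [h])
    · exact Or.inr ⟨i, ⟨h, hi.2⟩, rfl⟩
  · rintro (rfl | ⟨i, hi, rfl⟩)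
    · exact ⟨a, ⟨le_rfl, ha⟩, rfl⟩
    · exact ⟨i, ⟨by omega, hi.2⟩, rfl⟩

theorem teeth_self (c : ℕ → V) (K : ℕ) : teeth c K K = {c K} := by
  simp [teeth]

/-- The data of the comb lemma. -/
structure CombData (Cp : V → Prop) (typ : V → Finset V) (K N q n₀ : ℕ) (c : ℕ → V)
    (C R : ℕ → Finset V) (R₀ : Finset V) : Prop where
  hC : ∀ i ≤ K, ∀ x ∈ C i, Cp x ∧ typ x = lev ζ i
  hc : ∀ i ≤ K, c i ∈ C i
  hCN : ∀ i ≤ K, (C i).card = N
  hR : ∀ j ≤ K, ∀ x ∈ R j, Cp x ∧ typ x = ζ j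
  hRq : ∀ j ≤ K, (R j).card = q
  hR₀ : ∀ x ∈ R₀, Cp x ∧ typ x = ζ 0
  hR₀n : R₀.card = n₀
  dCC : ∀ i ≤ K, ∀ j ≤ K, i ≠ j → Disjoint (C i) (C j)
  dCR : ∀ i ≤ K, ∀ j ≤ K, Disjoint (C i) (R j)
  dCR₀ : ∀ i ≤ K, Disjoint (C i) R₀

variable {ζ} {K N q n₀ : ℕ} {c : ℕ → V} {C R : ℕ → Finset V} {R₀ : Finset V}

theorem CombData.cp (d : CombData ζ Cp typ K N q n₀ c C R R₀) {i : ℕ} (hi : i ≤ K) :
    Cp (c i) := (d.hC i hi _ (d.hc i hi)).1

theorem CombData.ty (d : CombData ζ Cp typ K N q n₀ c C R R₀) {i : ℕ} (hi : i ≤ K) :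
    typ (c i) = lev ζ i := (d.hC i hi _ (d.hc i hi)).2

theorem CombData.ne (d : CombData ζ Cp typ K N q n₀ c C R R₀) {i j : ℕ} (hi : i ≤ K)
    (hj : j ≤ K) (hij : i ≠ j) : c i ≠ c j := fun h =>
  Finset.disjoint_left.1 (d.dCC i hi j hj hij) (d.hc i hi) (h ▸ d.hc j hj)

theorem CombData.notMem_teeth (d : CombData ζ Cp typ K N q n₀ c C R R₀) {i a : ℕ}
    (hi : i ≤ K) (ha : i < a) : ∀ x ∈ C i, x ∉ teeth c K a := by
  intro x hx hh
  simp only [teeth, mem_image, mem_Icc] at hh
  obtain ⟨b, hb, rfl⟩ := hh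
  exact Finset.disjoint_left.1 (d.dCC i hi b hb.2 (by omega)) hx (d.hc b hb.2)

theorem CombData.notMem_base (s : CopySys h W E A Cp typ)
    (d : CombData ζ Cp typ K N q n₀ c C R R₀) {x : V} (hx : Cp x) {i : ℕ} (hi : i ≤ K) :
    x ∉ W ∪ lev ζ i := by
  have := s.base x (c i) hx (d.cp hi)
  rwa [d.ty hi] at this

/-- Upper bound for the entropy of teeth together with a family of copies of type `ζ j`. -/
theorem teeth_upper (s : CopySys h W E A Cp typ) (d : CombData ζ Cp typ K N q n₀ c C R R₀)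
    {j : ℕ} {Q : Finset V} (hj : j ≤ K) (hQ : ∀ x ∈ Q, Cp x ∧ typ x = ζ j)
    (dQ : ∀ i ≤ K, Disjoint (C i) Q) :
    ∀ (m a : ℕ), a + m = K → j ≤ a →
      h (ζ j ∪ Q ∪ teeth c K a) ≤ A (ζ j) Q.card + (m + 1) * dF h W E A (ζ j) Q.card +
        h0 h W E (ζ j) + ∑ i ∈ Finset.Ico a K, h0 h W E (lev ζ i) := by
  intro m
  induction m with
  | zero =>
    intro a ha hja
    have haK : a = K := by omega
    subst haK
    have hcQ : c a ∉ Q := fun hh => Finset.disjoint_left.1 (dQ a le_rfl) (d.hc a le_rfl) hh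
    have e1 := s.eq1 (ζ j) Q (c a) hQ hcQ (d.cp le_rfl)
      (by rw [d.ty le_rfl]; exact subset_lev ζ hja)
    have e2 : ζ j ∪ Q ∪ teeth c a a = ζ j ∪ insert (c a) Q := by
      rw [teeth_self]
      ext y
      simp only [mem_union, mem_insert, mem_singleton]
      tauto
    rw [e2, e1, Finset.Ico_self, Finset.sum_empty, dF_eq]
    push_cast
    linarith
  | succ m ih =>
    intro a ha hja
    have ih' := ih (a + 1) (by omega) (by omega)
    have haK : a ≤ K := by omega
    have haK' : a < K := by omega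
    have hcK : c K ∈ ζ j ∪ Q ∪ teeth c K (a + 1) := by
      simp only [teeth, mem_union, mem_image, mem_Icc]
      exact Or.inr ⟨K, ⟨by omega, le_rfl⟩, rfl⟩
    -- the teeth determine the level `a`
    have e1 : h (ζ j ∪ Q ∪ teeth c K (a + 1) ∪ lev ζ a) = h (ζ j ∪ Q ∪ teeth c K (a + 1)) :=
      s.det' (d.cp le_rfl) hcK subset_union_left (by
        rw [d.ty le_rfl]
        exact union_subset_union_right (lev_mono ζ haK))
    have e2 := s.cond (S := ζ j ∪ Q ∪ lev ζ a) (T := ζ j ∪ Q ∪ teeth c K (a + 1) ∪ lev ζ a)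
      {c a} (by
        intro x hx
        simp only [mem_union] at hx ⊢
        tauto)
    have hcQ : c a ∉ Q := fun hh => Finset.disjoint_left.1 (dQ a haK) (d.hc a haK) hh
    have hjl : ζ j ⊆ lev ζ a := subset_lev ζ hja
    have e3 : h (ζ j ∪ Q ∪ lev ζ a ∪ {c a}) = A (ζ j) (Q.card + 1) := by
      rw [← s.eq1 (ζ j) Q (c a) hQ hcQ (d.cp haK) (by rw [d.ty haK]; exact hjl)]
      refine s.det' (d.cp haK) (by simp) ?_ ?_
      · intro x hx
        simp only [mem_union, mem_insert, mem_singleton] at hx ⊢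
        tauto
      · intro x hx
        rw [d.ty haK]
        simp only [mem_union, mem_insert, mem_singleton] at hx ⊢
        tauto
    -- lower bound for the entropy of the family and the level
    have e4 := s.cond (S := ζ j ∪ Q) (T := W ∪ ζ j ∪ Q) (lev ζ a) (by
      intro x hx
      simp only [mem_union] at hx ⊢
      tauto)
    have hQb : ∀ x ∈ Q, x ∉ W ∪ lev ζ a := fun x hx => CombData.notMem_base s d (hQ x hx).1 haK
    have e5 : h (W ∪ ζ j ∪ Q) = h (W ∪ ζ j) + Q.card * h0 h W E (ζ j) :=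
      s.ci_set hQ Subset.rfl (Finset.disjoint_left.2 fun x hx hh => hQb x hx (by
        have := @hjl x
        simp only [mem_union] at hh ⊢
        tauto))
    have e6 : h (W ∪ lev ζ a ∪ Q) = h (W ∪ lev ζ a) + Q.card * h0 h W E (ζ j) :=
      s.ci_set hQ (by
        intro x hx
        have := @hjl x
        simp only [mem_union] at hx ⊢
        tauto) (Finset.disjoint_left.2 hQb)
    have e7 : W ∪ ζ j ∪ Q ∪ lev ζ a = W ∪ lev ζ a ∪ Q := by
      ext x
      have := @hjl x
      simp only [mem_union]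
      tauto
    have e8 : ζ j ∪ Q ∪ teeth c K a ⊆ ζ j ∪ Q ∪ teeth c K (a + 1) ∪ lev ζ a ∪ {c a} := by
      rw [teeth_succ c haK]
      intro x hx
      simp only [mem_union, mem_insert, mem_singleton] at hx ⊢
      tauto
    have e9 := s.mono e8
    rw [e7, e6, e5, s.eq0 (ζ j) Q hQ] at e4
    rw [e1, e3] at e2
    rw [← Finset.sum_Ioo_add_eq_sum_Ico haK'] at *
    have e10 : Finset.Ioo a K = Finset.Ico (a + 1) K := by
      ext x
      simp only [mem_Ioo, mem_Ico]
      omega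
    rw [e10, dF_eq] at *
    unfold h0 at *
    push_cast
    linarith

/-- Step 1 of the comb lemma. -/
theorem comb_step1 (s : CopySys h W E A Cp typ) (d : CombData ζ Cp typ K N q n₀ c C R R₀) :
    ∑ j ∈ Finset.range K, (h (teeth c K j) - h (teeth c K (j + 1)) - h0 h W E (lev ζ j)) ≤
      F h W E A (ζ 0) n₀ + (K + 1) * dF h W E A (ζ 0) n₀ := by
  have h1 := teeth_upper s d (j := 0) (Q := R₀) (Nat.zero_le _) d.hR₀ d.dCR₀ K 0 (by omega) le_rfl
  rw [d.hR₀n] at h1
  have hRb : ∀ x ∈ R₀, x ∉ W ∪ lev ζ K ∪ teeth c K 0 := by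
    intro x hx hh
    rcases mem_union.1 hh with hh | hh
    · exact CombData.notMem_base s d (d.hR₀ x hx).1 le_rfl hh
    · simp only [teeth, mem_image, mem_Icc] at hh
      obtain ⟨b, hb, rfl⟩ := hh
      exact Finset.disjoint_left.1 (d.dCR₀ b hb.2) (d.hc b hb.2) hx
  have h0K : ζ 0 ⊆ lev ζ K := subset_lev ζ (Nat.zero_le _)
  have e1 : h (W ∪ lev ζ K ∪ teeth c K 0 ∪ R₀) =
      h (W ∪ lev ζ K ∪ teeth c K 0) + n₀ * h0 h W E (ζ 0) := by
    rw [← d.hR₀n]
    refine s.ci_set d.hR₀ ?_ (Finset.disjoint_left.2 hRb)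
    intro x hx
    have := @h0K x
    simp only [mem_union] at hx ⊢
    tauto
  have e2 := s.cond (S := ζ 0 ∪ teeth c K 0) (T := W ∪ lev ζ K ∪ teeth c K 0) R₀ (by
    intro x hx
    have := @h0K x
    simp only [mem_union] at hx ⊢
    tauto)
  have e3 : ζ 0 ∪ teeth c K 0 ∪ R₀ = ζ 0 ∪ R₀ ∪ teeth c K 0 := by
    ext x
    simp only [mem_union]
    tauto
  have e4 : h (teeth c K 0) ≤ h (ζ 0 ∪ teeth c K 0) := s.mono subset_union_right
  rw [e3, e1] at e2
  -- the top tooth
  have e5 : h ({c K} ∪ lev ζ K) = h {c K} :=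
    s.det' (d.cp le_rfl) (mem_singleton_self _) subset_union_left (by rw [d.ty le_rfl])
  have e6 := s.cond (S := lev ζ K) (T := W ∪ lev ζ K) {c K} subset_union_right
  have e7 : h (W ∪ lev ζ K ∪ {c K}) = h (W ∪ lev ζ K) + h0 h W E (lev ζ K) := by
    have := s.ci_one (d.cp le_rfl) (S := W ∪ lev ζ K)
      (CombData.notMem_base s d (d.cp le_rfl) le_rfl) (by rw [d.ty le_rfl])
    rw [this, d.ty le_rfl]
  have e8 : lev ζ K ∪ {c K} = {c K} ∪ lev ζ K := union_comm _ _
  rw [e7, e8, e5] at e6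
  have e9 := s.cond (S := ζ 0) (T := lev ζ K) W h0K
  have e10 : lev ζ K ∪ W = W ∪ lev ζ K := union_comm _ _
  have e11 : ζ 0 ∪ W = W ∪ ζ 0 := union_comm _ _
  rw [e10, e11] at e9
  -- telescoping
  have e12 : ∑ j ∈ Finset.range K, (h (teeth c K j) - h (teeth c K (j + 1)) - h0 h W E (lev ζ j)) =
      h (teeth c K 0) - h {c K} - ∑ j ∈ Finset.range K, h0 h W E (lev ζ j) := by
    rw [Finset.sum_sub_distrib, Finset.sum_range_sub', teeth_self]
  have e13 : Finset.Ico 0 K = Finset.range K := by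
    ext x
    simp
  rw [e12]
  rw [e13] at h1
  unfold F
  unfold h0 at *
  linarith

/-- The parameter `κ j` of the comb lemma. -/
def kap (h : Finset V → ℝ) (W : Finset V) (E : ℝ) (ζ : ℕ → Finset V) (c : ℕ → V)
    (R : ℕ → Finset V) (j : ℕ) : ℝ :=
  h (ζ (j + 1) ∪ R (j + 1) ∪ {c j}) - h (ζ (j + 1) ∪ R (j + 1)) -
    (h (W ∪ lev ζ (j + 1)) - h (W ∪ ζ (j + 1))) - h0 h W E (lev ζ j)

/-- A lower bound for one tooth. -/
theorem tooth_lower (s : CopySys h W E A Cp typ) (d : CombData ζ Cp typ K N q n₀ c C R R₀)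
    (hN : 0 < N) {D ε : ℝ} (hD : 0 ≤ D) (hDζ : ∀ i ≤ K, F h W E A (ζ i) 1 ≤ D)
    (hDl : ∀ i ≤ K, F h W E A (lev ζ i) 1 ≤ D)
    (hε : h W + h (lev ζ K) - h (W ∪ lev ζ K) ≤ ε) {j i : ℕ} (hji : j < i) (hiK : i ≤ K)
    {T : Finset V} (hT : T ⊆ teeth c K (i + 1)) :
    h0 h W E (lev ζ i) + (F h W E A (lev ζ i) N - ε - (q + K + 1) * D) / N ≤
      h (R (j + 1) ∪ {c j} ∪ T ∪ lev ζ i ∪ {c i}) - h (R (j + 1) ∪ {c j} ∪ T ∪ lev ζ i) := by
  have hjK : j ≤ K := by omega
  have hj1K : j + 1 ≤ K := by omega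
  have key := s.fresh (S := R (j + 1) ∪ {c j} ∪ T) (Z := lev ζ i) (Z' := lev ζ K) (C := C i)
    (c := c i) (D := D) (d.hC i hiK) (d.hc i hiK) (lev_mono ζ hiK) (by
      intro x hx
      simp only [mem_union, mem_singleton] at hx
      rcases hx with (hx | rfl) | hx
      · obtain ⟨h1, h2⟩ := d.hR (j + 1) hj1K x hx
        refine ⟨h1, h2 ▸ subset_lev ζ hj1K, CombData.notMem_base s d h1 le_rfl, ?_⟩
        rw [h2]
        exact hDζ _ hj1K
      · refine ⟨d.cp hjK, d.ty hjK ▸ lev_mono ζ hjK, CombData.notMem_base s d (d.cp hjK) le_rfl,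
          ?_⟩
        rw [d.ty hjK]
        exact hDl _ hjK
      · have hx' := hT hx
        simp only [teeth, mem_image, mem_Icc] at hx'
        obtain ⟨b, hb, rfl⟩ := hx'
        refine ⟨d.cp hb.2, d.ty hb.2 ▸ lev_mono ζ hb.2,
          CombData.notMem_base s d (d.cp hb.2) le_rfl, ?_⟩
        rw [d.ty hb.2]
        exact hDl _ hb.2) (by
      rw [Finset.disjoint_left]
      intro x hx hh
      simp only [mem_union, mem_singleton] at hh
      rcases hh with (hh | rfl) | hh
      · exact Finset.disjoint_left.1 (d.dCR i hiK (j + 1) hj1K) hx hh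
      · exact Finset.disjoint_left.1 (d.dCC i hiK j hjK (by omega)) hx (d.hc j hjK)
      · exact d.notMem_teeth hiK (Nat.lt_succ_self i) x hx (hT hh))
  have hcard : ((R (j + 1) ∪ {c j} ∪ T).card : ℝ) ≤ q + K + 1 := by
    have h1 : (R (j + 1) ∪ {c j} ∪ T).card ≤ q + 1 + K := by
      refine (card_union_le _ _).trans ?_
      refine add_le_add ((card_union_le _ _).trans ?_) ?_
      · rw [d.hRq _ hj1K, card_singleton]
      · refine (card_le_card hT).trans ?_
        unfold teeth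
        refine card_image_le.trans ?_
        rw [Nat.card_Icc]
        omega
    have h2 : ((R (j + 1) ∪ {c j} ∪ T).card : ℝ) ≤ ((q + 1 + K : ℕ) : ℝ) := by exact_mod_cast h1
    push_cast at h2
    linarith
  rw [d.hCN i hiK] at key
  have hN' : (0 : ℝ) < N := by exact_mod_cast hN
  have h3 : ((R (j + 1) ∪ {c j} ∪ T).card : ℝ) * D ≤ (q + K + 1) * D :=
    mul_le_mul_of_nonneg_right hcard hD
  rw [← le_sub_iff_add_le', div_le_iff₀ hN']
  linarith

/-- Lower bound for all the teeth above `j`. -/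
theorem teeth_lower (s : CopySys h W E A Cp typ) (d : CombData ζ Cp typ K N q n₀ c C R R₀)
    (hN : 0 < N) {D ε : ℝ} (hD : 0 ≤ D) (hDζ : ∀ i ≤ K, F h W E A (ζ i) 1 ≤ D)
    (hDl : ∀ i ≤ K, F h W E A (lev ζ i) 1 ≤ D)
    (hε : h W + h (lev ζ K) - h (W ∪ lev ζ K) ≤ ε) {j : ℕ} :
    ∀ (m a : ℕ), a + m = K → j < a →
      h (ζ (j + 1) ∪ R (j + 1) ∪ {c j}) + (h (W ∪ lev ζ K) - h (W ∪ lev ζ (j + 1))) +
        ∑ i ∈ Finset.Icc a K, (h0 h W E (lev ζ i) +
          (F h W E A (lev ζ i) N - ε - (q + K + 1) * D) / N) ≤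
      h (ζ (j + 1) ∪ R (j + 1) ∪ {c j} ∪ teeth c K a) := by
  intro m
  induction m with
  | zero =>
    intro a ha hja
    have haK : a = K := by omega
    subst haK
    have hjK : j ≤ a := hja.le
    have hj1K : j + 1 ≤ a := hja
    have key := tooth_lower s d hN hD hDζ hDl hε hja le_rfl (T := ∅) (empty_subset _)
    rw [union_empty] at key
    have hjl : ζ (j + 1) ⊆ lev ζ a := subset_lev ζ hj1K
    have hjl' : ζ (j + 1) ⊆ lev ζ (j + 1) := subset_lev ζ le_rfl
    have hll : lev ζ (j + 1) ⊆ lev ζ a := lev_mono ζ hj1K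
    have hljj : lev ζ j ⊆ lev ζ (j + 1) := lev_mono ζ (Nat.le_succ j)
    have e1 : h (ζ (j + 1) ∪ R (j + 1) ∪ {c j} ∪ teeth c a a) =
        h (R (j + 1) ∪ {c j} ∪ lev ζ a ∪ {c a}) := by
      symm
      refine s.det' (d.cp le_rfl) (S := ζ (j + 1) ∪ R (j + 1) ∪ {c j} ∪ teeth c a a) ?_ ?_ ?_
      · rw [teeth_self]
        simp
      · rw [teeth_self]
        intro x hx
        have := @hjl x
        simp only [mem_union, mem_singleton] at hx ⊢
        tauto
      · rw [teeth_self, d.ty le_rfl]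
        intro x hx
        simp only [mem_union, mem_singleton] at hx ⊢
        tauto
    have e2 := s.cond (S := ζ (j + 1) ∪ R (j + 1) ∪ {c j})
      (T := W ∪ lev ζ (j + 1) ∪ R (j + 1) ∪ {c j}) (lev ζ a) (by
        intro x hx
        have := @hjl' x
        simp only [mem_union] at hx ⊢
        tauto)
    have hcR : c j ∉ R (j + 1) := fun hh =>
      Finset.disjoint_left.1 (d.dCR j hjK (j + 1) hj1K) (d.hc j hjK) hh
    have hcb : c j ∉ W ∪ lev ζ a := CombData.notMem_base s d (d.cp hjK) le_rfl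
    have hRb : ∀ x ∈ R (j + 1), x ∉ W ∪ lev ζ a := fun x hx =>
      CombData.notMem_base s d (d.hR (j + 1) hj1K x hx).1 le_rfl
    have e3 : h (W ∪ lev ζ (j + 1) ∪ R (j + 1) ∪ {c j}) =
        h (W ∪ lev ζ (j + 1)) + q * h0 h W E (ζ (j + 1)) + h0 h W E (lev ζ j) := by
      rw [s.ci_one (d.cp hjK) (S := W ∪ lev ζ (j + 1) ∪ R (j + 1)) (by
        intro hh
        have := @hll (c j)
        simp only [mem_union] at hh hcb
        tauto) (by
        rw [d.ty hjK]
        intro x hx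
        have := @hljj x
        simp only [mem_union] at hx ⊢
        tauto), d.ty hjK]
      rw [s.ci_set (d.hR (j + 1) hj1K) (S := W ∪ lev ζ (j + 1)) (by
        intro x hx
        have := @hjl' x
        simp only [mem_union] at hx ⊢
        tauto) (Finset.disjoint_left.2 fun x hx hh => hRb x hx (by
        have := @hll x
        simp only [mem_union] at hh ⊢
        tauto)), d.hRq _ hj1K]
    have e4 : h (W ∪ lev ζ a ∪ R (j + 1) ∪ {c j}) =
        h (W ∪ lev ζ a) + q * h0 h W E (ζ (j + 1)) + h0 h W E (lev ζ j) := by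
      rw [s.ci_one (d.cp hjK) (S := W ∪ lev ζ a ∪ R (j + 1)) (by
        intro hh
        simp only [mem_union] at hh hcb
        tauto) (by
        rw [d.ty hjK]
        intro x hx
        have := @hljj x
        have := @hll x
        simp only [mem_union] at hx ⊢
        tauto), d.ty hjK]
      rw [s.ci_set (d.hR (j + 1) hj1K) (S := W ∪ lev ζ a) (by
        intro x hx
        have := @hjl x
        simp only [mem_union] at hx ⊢
        tauto) (Finset.disjoint_left.2 hRb), d.hRq _ hj1K]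
    have e5 : W ∪ lev ζ (j + 1) ∪ R (j + 1) ∪ {c j} ∪ lev ζ a =
        W ∪ lev ζ a ∪ R (j + 1) ∪ {c j} := by
      ext x
      have := @hll x
      simp only [mem_union]
      tauto
    have e6 : ζ (j + 1) ∪ R (j + 1) ∪ {c j} ∪ lev ζ a = R (j + 1) ∪ {c j} ∪ lev ζ a := by
      ext x
      have := @hjl x
      simp only [mem_union]
      tauto
    rw [e5, e6, e4, e3] at e2
    rw [e1, Finset.Icc_self, Finset.sum_singleton]
    linarith
  | succ m ih =>
    intro a ha hja
    have haK : a ≤ K := by omega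
    have haK' : a < K := by omega
    have ih' := ih (a + 1) (by omega) (by omega)
    have key := tooth_lower s d hN hD hDζ hDl hε hja haK (T := teeth c K (a + 1)) Subset.rfl
    have hjl : ζ (j + 1) ⊆ lev ζ a := subset_lev ζ hja
    have hcK : c K ∈ teeth c K (a + 1) := by
      simp only [teeth, mem_image, mem_Icc]
      exact ⟨K, ⟨by omega, le_rfl⟩, rfl⟩
    have e1 : h (R (j + 1) ∪ {c j} ∪ teeth c K (a + 1) ∪ lev ζ a) =
        h (ζ (j + 1) ∪ R (j + 1) ∪ {c j} ∪ teeth c K (a + 1)) := by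
      refine s.det' (d.cp le_rfl) (S := ζ (j + 1) ∪ R (j + 1) ∪ {c j} ∪ teeth c K (a + 1))
        (by simp [hcK]) ?_ ?_
      · intro x hx
        have := @hjl x
        simp only [mem_union] at hx ⊢
        tauto
      · rw [d.ty le_rfl]
        have hl := lev_mono ζ haK
        intro x hx
        have := @hl x
        simp only [mem_union] at hx ⊢
        tauto
    have e2 : h (R (j + 1) ∪ {c j} ∪ teeth c K (a + 1) ∪ lev ζ a ∪ {c a}) =
        h (ζ (j + 1) ∪ R (j + 1) ∪ {c j} ∪ teeth c K a) := by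
      rw [teeth_succ c haK]
      refine s.det' (d.cp le_rfl)
        (S := ζ (j + 1) ∪ R (j + 1) ∪ {c j} ∪ insert (c a) (teeth c K (a + 1)))
        (by simp [hcK]) ?_ ?_
      · intro x hx
        have := @hjl x
        simp only [mem_union, mem_insert, mem_singleton] at hx ⊢
        tauto
      · rw [d.ty le_rfl]
        have hl := lev_mono ζ haK
        intro x hx
        have := @hl x
        simp only [mem_union, mem_insert, mem_singleton] at hx ⊢
        tauto
    rw [e1, e2] at key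
    have e3 : Finset.Icc a K = insert a (Finset.Icc (a + 1) K) := by
      ext x
      simp only [mem_Icc, mem_insert]
      omega
    rw [e3, Finset.sum_insert (by simp)]
    linarith

/-- Step 2 of the comb lemma. -/
theorem comb_step2 (s : CopySys h W E A Cp typ) (d : CombData ζ Cp typ K N q n₀ c C R R₀)
    (hN : 0 < N) {D ε : ℝ} (hD : 0 ≤ D) (hDζ : ∀ i ≤ K, F h W E A (ζ i) 1 ≤ D)
    (hDl : ∀ i ≤ K, F h W E A (lev ζ i) 1 ≤ D)
    (hε : h W + h (lev ζ K) - h (W ∪ lev ζ K) ≤ ε) {j : ℕ} (hj : j < K) :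
    kap h W E ζ c R j ≤ h (teeth c K j) - h (teeth c K (j + 1)) - h0 h W E (lev ζ j) +
      ∑ i ∈ Finset.Ioc j K, (dF h W E A (ζ (j + 1)) q -
        (F h W E A (lev ζ i) N - ε - (q + K + 1) * D) / N) := by
  have hjK : j ≤ K := hj.le
  have hj1K : j + 1 ≤ K := hj
  have h1 := teeth_lower s d hN hD hDζ hDl hε (j := j) (K - (j + 1)) (j + 1) (by omega) (by omega)
  have h2 := teeth_upper s d (j := j + 1) (Q := R (j + 1)) hj1K (d.hR _ hj1K)
    (fun i hi => d.dCR i hi _ hj1K) (K - (j + 1)) (j + 1) (by omega) le_rfl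
  have h3 := s.cond (S := teeth c K (j + 1)) (T := ζ (j + 1) ∪ R (j + 1) ∪ teeth c K (j + 1))
    {c j} subset_union_right
  have e1 : teeth c K (j + 1) ∪ {c j} = teeth c K j := by
    rw [teeth_succ c hjK]
    ext x
    simp only [mem_union, mem_insert, mem_singleton]
    tauto
  have e2 : ζ (j + 1) ∪ R (j + 1) ∪ teeth c K (j + 1) ∪ {c j} =
      ζ (j + 1) ∪ R (j + 1) ∪ {c j} ∪ teeth c K (j + 1) := by
    ext x
    simp only [mem_union]
    tauto
  rw [e1, e2] at h3
  rw [d.hRq _ hj1K] at h2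
  have e3 : Finset.Icc (j + 1) K = Finset.Ioc j K := by
    ext x
    simp only [mem_Icc, mem_Ioc]
    omega
  have e4 : ∑ i ∈ Finset.Ioc j K, h0 h W E (lev ζ i) =
      ∑ i ∈ Finset.Ico (j + 1) K, h0 h W E (lev ζ i) + h0 h W E (lev ζ K) := by
    have : Finset.Ioc j K = insert K (Finset.Ico (j + 1) K) := by
      ext x
      simp only [mem_Ioc, mem_insert, mem_Ico]
      omega
    rw [this, Finset.sum_insert (by simp)]
    ring
  have e5 : ((K - (j + 1) : ℕ) : ℝ) + 1 = (Finset.Ioc j K).card := by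
    rw [Nat.card_Ioc]
    have : K - j = K - (j + 1) + 1 := by omega
    rw [this]
    push_cast
    ring
  rw [e5] at h2
  rw [e3, Finset.sum_add_distrib, e4] at h1
  rw [Finset.sum_sub_distrib, Finset.sum_const, nsmul_eq_mul]
  have e6 := s.eq0 (ζ (j + 1)) (R (j + 1)) (d.hR _ hj1K)
  rw [d.hRq _ hj1K] at e6
  unfold kap
  have e7 : h0 h W E (lev ζ K) = E - h (W ∪ lev ζ K) := rfl
  have e8 : h0 h W E (ζ (j + 1)) = E - h (W ∪ ζ (j + 1)) := rfl
  rw [e7] at h1
  rw [e8] at h2
  linarith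

/-- The comb lemma. -/
theorem comb (s : CopySys h W E A Cp typ) (d : CombData ζ Cp typ K N q n₀ c C R R₀)
    (hN : 0 < N) {D ε : ℝ} (hD : 0 ≤ D) (hDζ : ∀ i ≤ K, F h W E A (ζ i) 1 ≤ D)
    (hDl : ∀ i ≤ K, F h W E A (lev ζ i) 1 ≤ D)
    (hε : h W + h (lev ζ K) - h (W ∪ lev ζ K) ≤ ε) :
    ∑ j ∈ Finset.range K, kap h W E ζ c R j ≤
      F h W E A (ζ 0) n₀ + (K + 1) * dF h W E A (ζ 0) n₀ +
      ∑ j ∈ Finset.range K, ∑ i ∈ Finset.Ioc j K, (dF h W E A (ζ (j + 1)) q -
        (F h W E A (lev ζ i) N - ε - (q + K + 1) * D) / N) := by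
  have h1 := comb_step1 s d
  have h2 : ∑ j ∈ Finset.range K, kap h W E ζ c R j ≤
      ∑ j ∈ Finset.range K, (h (teeth c K j) - h (teeth c K (j + 1)) - h0 h W E (lev ζ j) +
      ∑ i ∈ Finset.Ioc j K, (dF h W E A (ζ (j + 1)) q -
        (F h W E A (lev ζ i) N - ε - (q + K + 1) * D) / N)) :=
    Finset.sum_le_sum fun j hj => comb_step2 s d hN hD hDζ hDl hε (Finset.mem_range.1 hj)
  rw [Finset.sum_add_distrib] at h2
  linarith

end comb

end CopySys

end Pool.Agent.MP3581
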