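import Pool.Agent.Lib.MP_3581cd_co.Ent

/-!
# MP_3581cd_co: the copies model

Base type `Ω` (finite, nonempty) with the uniform law.  A kernel is `κ : Ω → Ω → ℝ`.  Given a family
`κ : ι → Ω → Ω → ℝ` of kernels, `jt κ` is the weight on `Ω × (ι → Ω)` of `(x, (e_i)_i)` where `x` is
uniform and, given `x`, the `e_i ~ κ i x` are independent.
-/

namespace RFold

open Finset

section Copies

variable {Ω : Type*} [Fintype Ω] {α β γ δ : Type*}
variable {ι ι' τ : Type*} [Fintype ι] [DecidableEq ι] [Fintype ι'] [DecidableEq ι']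
  [Fintype τ] [DecidableEq τ]

/-- Markov kernels. -/
def IsKer (κ : Ω → Ω → ℝ) : Prop := ∀ x, IsPr (κ x)

/-- `κ` preserves the uniform law. -/
def Stat (κ : Ω → Ω → ℝ) : Prop := ∀ y, ∑ x, κ x y = 1

/-- `κ x` depends only on `φ x`. -/
def Dep (φ : Ω → α) (κ : Ω → Ω → ℝ) : Prop := ∀ x x', φ x = φ x' → κ x = κ x'

open Classical in
/-- The fibre kernel `K_φ`: the uniform law on `{y : φ y = φ x}`. -/
noncomputable def fk (φ : Ω → α) (x y : Ω) : ℝ :=
  if φ y = φ x then ((univ.filter fun z => φ z = φ x).card : ℝ)⁻¹ else 0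

/-- Composition of kernels: `y ~ κ x`, `z ~ κ' y`. -/
noncomputable def comp (κ κ' : Ω → Ω → ℝ) (x z : Ω) : ℝ := ∑ y, κ x y * κ' y z

/-- The joint weight of the base point and its copies. -/
noncomputable def jt (κ : ι → Ω → Ω → ℝ) (ω : Ω × (ι → Ω)) : ℝ :=
  (Fintype.card Ω : ℝ)⁻¹ * ∏ i, κ i ω.1 (ω.2 i)

/-- The entropy of `g` of a fresh sample of `κ x`, averaged over `x`. -/
noncomputable def hk (κ : Ω → Ω → ℝ) (g : Ω → β) : ℝ :=
  (Fintype.card Ω : ℝ)⁻¹ * ∑ x, ent (κ x) g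

/-! ### kernels -/

open Classical in
theorem card_fib_eq {φ : Ω → α} {x y : Ω} (h : φ y = φ x) :
    (univ.filter fun z => φ z = φ y).card = (univ.filter fun z => φ z = φ x).card := by
  congr 1
  ext z
  simp [h]

theorem fk_symm (φ : Ω → α) (x y : Ω) : fk φ x y = fk φ y x := by
  unfold fk
  by_cases h : φ y = φ x
  · rw [if_pos h, if_pos h.symm, card_fib_eq h]
  · rw [if_neg h, if_neg (fun h' => h h'.symm)]

theorem fk_ne_zero {φ : Ω → α} {x y : Ω} (h : fk φ x y ≠ 0) : φ y = φ x := by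
  unfold fk at h
  by_contra h'
  rw [if_neg h'] at h
  exact h rfl

theorem isKer_fk (φ : Ω → α) : IsKer (fk φ) := by
  classical
  intro x
  refine ⟨fun y => ?_, ?_⟩
  · unfold fk
    split_ifs
    · positivity
    · exact le_rfl
  · unfold fk
    rw [← sum_filter, sum_const, nsmul_eq_mul]
    have hc : (0 : ℝ) < (univ.filter fun z => φ z = φ x).card := by
      exact_mod_cast card_pos.mpr ⟨x, by simp⟩
    exact mul_inv_cancel₀ hc.ne'

theorem stat_fk (φ : Ω → α) : Stat (fk φ) := by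
  intro y
  rw [sum_congr rfl fun x _ => fk_symm φ x y]
  exact (isKer_fk φ y).sum_eq

theorem isKer_comp {κ κ' : Ω → Ω → ℝ} (h : IsKer κ) (h' : IsKer κ') : IsKer (comp κ κ') := by
  intro x
  refine ⟨fun z => sum_nonneg fun y _ => mul_nonneg ((h x).nonneg y) ((h' y).nonneg z), ?_⟩
  unfold comp
  rw [sum_comm]
  simp_rw [← mul_sum]
  rw [← (h x).sum_eq]
  exact sum_congr rfl fun y _ => by rw [(h' y).sum_eq, mul_one]

theorem stat_comp {κ κ' : Ω → Ω → ℝ} (h : Stat κ) (h' : Stat κ') : Stat (comp κ κ') := by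
  intro z
  unfold comp
  rw [sum_comm]
  simp_rw [← sum_mul]
  rw [← h' z]
  exact sum_congr rfl fun y _ => by rw [h y, one_mul]

/-- `K_φ` depends only on any `φ'` refining `φ`. -/
theorem dep_fk {φ' : Ω → α} {φ : Ω → β} (h : ∀ x x', φ' x = φ' x' → φ x = φ x') :
    Dep φ' (fk φ) := by
  intro x x' e
  funext y
  have h1 := h x x' e
  unfold fk
  by_cases h2 : φ y = φ x
  · rw [if_pos h2, if_pos (h2.trans h1), card_fib_eq h1]
  · rw [if_neg h2, if_neg fun h3 => h2 (h3.trans h1.symm)]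

theorem dep_fk_self (φ : Ω → α) : Dep φ (fk φ) := dep_fk fun _ _ h => h

theorem dep_comp {φ : Ω → α} {κ κ' : Ω → Ω → ℝ} (h : Dep φ κ) : Dep φ (comp κ κ') := by
  intro x x' e
  funext z
  unfold comp
  rw [h x x' e]

omit [Fintype Ω] in
theorem Dep.mono {φ : Ω → α} {φ' : Ω → β} {κ : Ω → Ω → ℝ} (h : Dep φ κ)
    (h' : ∀ x x', φ' x = φ' x' → φ x = φ x') : Dep φ' κ := fun x x' e => h x x' (h' x x' e)

theorem comp_ne_zero {κ κ' : Ω → Ω → ℝ} {x z : Ω} (h : comp κ κ' x z ≠ 0) :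
    ∃ y, κ x y ≠ 0 ∧ κ' y z ≠ 0 := by
  unfold comp at h
  obtain ⟨y, _, hy⟩ := exists_ne_zero_of_sum_ne_zero h
  exact ⟨y, left_ne_zero_of_mul hy, right_ne_zero_of_mul hy⟩

theorem comp_fk_of_dep {φ : Ω → α} {κ : Ω → Ω → ℝ} (h : Dep φ κ) : comp (fk φ) κ = κ := by
  funext x z
  unfold comp
  have h1 : ∀ y, fk φ x y * κ y z = fk φ x y * κ x z := by
    intro y
    by_cases h0 : fk φ x y = 0
    · simp [h0]
    · rw [h y x (fk_ne_zero h0)]
  rw [sum_congr rfl fun y _ => h1 y, ← sum_mul, (isKer_fk φ x).sum_eq, one_mul]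

/-- averaging over fibres against a `φ`-measurable function -/
theorem sum_fk_mul (φ : Ω → α) (f R : Ω → ℝ) (hR : ∀ x x', φ x = φ x' → R x = R x') :
    ∑ x, (∑ y, fk φ x y * f y) * R x = ∑ x, f x * R x := by
  have h1 : ∀ x, (∑ y, fk φ x y * f y) * R x = ∑ y, fk φ x y * (f y * R y) := by
    intro x
    rw [sum_mul]
    refine sum_congr rfl fun y _ => ?_
    by_cases h0 : fk φ x y = 0
    · simp [h0]
    · rw [hR x y (fk_ne_zero h0).symm]; ring
  rw [sum_congr rfl fun x _ => h1 x, sum_comm]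
  refine sum_congr rfl fun y _ => ?_
  rw [← sum_mul, stat_fk φ y, one_mul]

/-- `K_φ ∘ K_ψ = K_φ` if `ψ` refines `φ`. -/
theorem comp_fk_fk {φ : Ω → α} {ψ : Ω → β} (h : ∀ x x', ψ x = ψ x' → φ x = φ x') :
    comp (fk φ) (fk ψ) = fk φ := by
  have h1 : comp (fk ψ) (fk φ) = fk φ := comp_fk_of_dep (dep_fk h)
  funext x z
  have h2 : comp (fk φ) (fk ψ) x z = comp (fk ψ) (fk φ) z x := by
    unfold comp
    refine sum_congr rfl fun y _ => ?_
    rw [fk_symm φ x y, fk_symm ψ y z, mul_comm]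
  rw [h2, h1, fk_symm]

/-! ### the joint space -/

variable {κ : ι → Ω → Ω → ℝ} {κ' : ι' → Ω → Ω → ℝ}

theorem sum_prod_ker {κ : ι → Ω → Ω → ℝ} (hκ : ∀ i, IsKer (κ i)) (x : Ω) :
    ∑ e : ι → Ω, ∏ i, κ i x (e i) = 1 := by
  have h := Finset.prod_univ_sum (fun _ : ι => (univ : Finset Ω)) (fun i z => κ i x z)
  rw [Fintype.piFinset_univ] at h
  rw [← h]
  exact prod_eq_one fun i _ => (hκ i x).sum_eq

theorem isPr_jt [Nonempty Ω] (hκ : ∀ i, IsKer (κ i)) : IsPr (jt κ) := by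
  refine ⟨fun ω => mul_nonneg (by positivity)
    (prod_nonneg fun i _ => (hκ i ω.1).nonneg _), ?_⟩
  rw [Fintype.sum_prod_type]
  unfold jt
  simp_rw [← mul_sum]
  rw [sum_congr rfl fun x _ => sum_prod_ker hκ x, sum_const, card_univ, nsmul_eq_mul, mul_one]
  exact inv_mul_cancel₀ (by exact_mod_cast Fintype.card_ne_zero)

omit [DecidableEq ι] in
theorem jt_ne_zero {ω : Ω × (ι → Ω)} (h : jt κ ω ≠ 0) (i : ι) : κ i ω.1 (ω.2 i) ≠ 0 := by
  unfold jt at h
  exact (prod_ne_zero_iff.mp (right_ne_zero_of_mul h)) i (mem_univ i)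

omit [DecidableEq ι] in
/-- (DET) a `K_φ`-copy agrees with `x` in every function of `φ`. -/
theorem jt_fk {φ : Ω → α} {ω : Ω × (ι → Ω)} (h : jt κ ω ≠ 0) {i : ι} (hi : κ i = fk φ) :
    φ (ω.2 i) = φ ω.1 := by
  have := jt_ne_zero h i
  rw [hi] at this
  exact fk_ne_zero this

/-- Resampling the `i`-th copy. -/
theorem sum_jt_update (hκ : ∀ i, IsKer (κ i)) (i : ι) (f : Ω × (ι → Ω) → ℝ) :
    ∑ ω, jt κ ω * f ω =
      ∑ ω, jt κ ω * ∑ z, κ i ω.1 z * f (ω.1, Function.update ω.2 i z) := by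
  rw [Fintype.sum_prod_type, Fintype.sum_prod_type]
  refine sum_congr rfl fun x _ => ?_
  simp only
  -- the involution `(e, z) ↦ (update e i z, e i)`
  have h1 : ∑ e : ι → Ω, jt κ (x, e) * ∑ z, κ i x z * f (x, Function.update e i z) =
      ∑ q : (ι → Ω) × Ω, jt κ (x, q.1) * (κ i x q.2 * f (x, Function.update q.1 i q.2)) := by
    rw [Fintype.sum_prod_type]
    refine sum_congr rfl fun e _ => ?_
    rw [mul_sum]
  have h2 : ∑ e : ι → Ω, jt κ (x, e) * f (x, e) =
      ∑ q : (ι → Ω) × Ω, jt κ (x, q.1) * (κ i x q.2 * f (x, q.1)) := by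
    rw [Fintype.sum_prod_type]
    refine sum_congr rfl fun e _ => ?_
    simp only
    rw [← mul_sum, ← sum_mul, (hκ i x).sum_eq, one_mul]
  rw [h1, h2]
  refine Finset.sum_bij' (fun q _ => (Function.update q.1 i q.2, q.1 i))
    (fun q _ => (Function.update q.1 i q.2, q.1 i)) (fun _ _ => mem_univ _)
    (fun _ _ => mem_univ _) ?_ ?_ ?_
  · intro q _
    simp
  · intro q _
    simp
  · intro q _
    simp only [Function.update_idem, Function.update_eq_self]
    have h3 : ∀ e : ι → Ω, jt κ (x, e) =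
        (Fintype.card Ω : ℝ)⁻¹ * (κ i x (e i) * ∏ j ∈ univ.erase i, κ j x (e j)) := by
      intro e
      unfold jt
      rw [mul_prod_erase univ (fun j => κ j x (e j)) (mem_univ i)]
    rw [h3, h3]
    have h4 : ∏ j ∈ univ.erase i, κ j x (Function.update q.1 i q.2 j) =
        ∏ j ∈ univ.erase i, κ j x (q.1 j) := by
      refine prod_congr rfl fun j hj => ?_
      rw [Function.update_of_ne (ne_of_mem_erase hj)]
    rw [h4, Function.update_self]
    ring

theorem pr_eq_sum_mul (p : Ω → ℝ) (A : Ω → Prop) [DecidablePred A] :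
    pr p A = ∑ ω, p ω * (if A ω then 1 else 0) := by
  unfold pr
  refine sum_congr rfl fun ω _ => ?_
  by_cases h : A ω <;> simp [h]

theorem pr_jt_update (hκ : ∀ i, IsKer (κ i)) (i : ι) (A : Ω × (ι → Ω) → Prop) :
    pr (jt κ) A =
      ∑ ω, jt κ ω * pr (κ i ω.1) (fun z => A (ω.1, Function.update ω.2 i z)) := by
  classical
  rw [pr_eq_sum_mul, sum_jt_update hκ i]
  refine sum_congr rfl fun ω _ => ?_
  rw [pr_eq_sum_mul]

/-- An event which has probability at most `c` given the base point and all copies but the `i`-th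
one has probability at most `c`. -/
theorem pr_jt_le [Nonempty Ω] (hκ : ∀ i, IsKer (κ i)) (i : ι) (A : Ω × (ι → Ω) → Prop) (c : ℝ)
    (h : ∀ ω, jt κ ω ≠ 0 → pr (κ i ω.1) (fun z => A (ω.1, Function.update ω.2 i z)) ≤ c) :
    pr (jt κ) A ≤ c := by
  rw [pr_jt_update hκ i]
  calc ∑ ω, jt κ ω * pr (κ i ω.1) (fun z => A (ω.1, Function.update ω.2 i z))
      ≤ ∑ ω, jt κ ω * c := by
        refine sum_le_sum fun ω _ => ?_
        by_cases h0 : jt κ ω = 0
        · simp [h0]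
        · exact mul_le_mul_of_nonneg_left (h ω h0) ((isPr_jt hκ).nonneg ω)
    _ = c := by rw [← sum_mul, (isPr_jt hκ).sum_eq, one_mul]

/-! ### (MARG) and (EQ) -/

/-- marginalisation for a fixed base point -/
theorem sum_prod_marg {κ : ι → Ω → Ω → ℝ} (hκ : ∀ i, IsKer (κ i)) {s : τ → ι}
    (hs : Function.Injective s) (x : Ω) (G : (τ → Ω) → ℝ) :
    ∑ e : ι → Ω, (∏ i, κ i x (e i)) * G (fun t => e (s t)) =
      ∑ e : τ → Ω, (∏ t, κ (s t) x (e t)) * G e := by
  classical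
  have h1 : ∀ e : ι → Ω, (∏ i, κ i x (e i)) * G (fun t => e (s t)) =
      ∑ e' : τ → Ω, (∏ i, κ i x (e i)) * ((∏ t, if e (s t) = e' t then 1 else 0) * G e') := by
    intro e
    rw [sum_eq_single (fun t => e (s t))]
    · simp
    · intro e' _ he'
      have : ∃ t, e (s t) ≠ e' t := by
        by_contra hcon
        push Not at hcon
        exact he' (funext fun t => (hcon t).symm)
      obtain ⟨t, ht⟩ := this
      have : (∏ t, if e (s t) = e' t then (1 : ℝ) else 0) = 0 :=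
        prod_eq_zero (mem_univ t) (by simp [ht])
      rw [this]; ring
    · intro h; exact absurd (mem_univ _) h
  rw [sum_congr rfl fun e _ => h1 e, sum_comm]
  refine sum_congr rfl fun e' _ => ?_
  have h2 : ∀ e : ι → Ω, (∏ i, κ i x (e i)) * ((∏ t, if e (s t) = e' t then (1 : ℝ) else 0) * G e')
      = (∏ i, κ i x (e i) * (if ∃ t, s t = i ∧ e i ≠ e' t then 0 else 1)) * G e' := by
    intro e
    rw [prod_mul_distrib, mul_assoc]
    congr 2
    by_cases h : ∀ t, e (s t) = e' t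
    · rw [prod_eq_one (fun t _ => by simp [h t])]
      symm
      refine prod_eq_one fun i _ => ?_
      rw [if_neg]
      rintro ⟨t, rfl, ht⟩
      exact ht (h t)
    · push Not at h
      obtain ⟨t, ht⟩ := h
      rw [prod_eq_zero (mem_univ t) (by simp [ht]), prod_eq_zero (mem_univ (s t))]
      rw [if_pos ⟨t, rfl, ht⟩]
  rw [sum_congr rfl fun e _ => h2 e, ← sum_mul]
  congr 1
  have h3 := Finset.prod_univ_sum (fun _ : ι => (univ : Finset Ω))
    (fun i z => κ i x z * (if ∃ t, s t = i ∧ z ≠ e' t then 0 else 1))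
  rw [Fintype.piFinset_univ] at h3
  rw [← h3]
  have h4 : ∀ i, i ∉ Set.range s →
      ∑ z, κ i x z * (if ∃ t, s t = i ∧ z ≠ e' t then 0 else 1) = 1 := by
    intro i hi
    refine Eq.trans (sum_congr rfl fun z _ => ?_) (hκ i x).sum_eq
    rw [if_neg, mul_one]
    rintro ⟨t, ht, _⟩
    exact hi ⟨t, ht⟩
  have h5 : ∀ t, ∑ z, κ (s t) x z * (if ∃ t', s t' = s t ∧ z ≠ e' t' then 0 else 1) =
      κ (s t) x (e' t) := by
    intro t
    rw [sum_eq_single (e' t)]
    · rw [if_neg, mul_one]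
      rintro ⟨t', ht', hne⟩
      exact hne (by rw [hs ht'])
    · intro z _ hz
      rw [if_pos ⟨t, rfl, hz⟩, mul_zero]
    · intro h; exact absurd (mem_univ _) h
  rw [← prod_congr rfl fun t _ => h5 t]
  rw [← Finset.prod_subset (subset_univ (univ.image s)), prod_image fun a _ b _ h => hs h]
  intro i _ hi
  apply h4
  rintro ⟨t, rfl⟩
  exact hi (mem_image_of_mem _ (mem_univ t))

theorem pr_jt (κ : ι → Ω → Ω → ℝ) (A : Ω × (ι → Ω) → Prop) [DecidablePred A] :
    pr (jt κ) A = (Fintype.card Ω : ℝ)⁻¹ *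
      ∑ x, ∑ e : ι → Ω, (∏ i, κ i x (e i)) * (if A (x, e) then 1 else 0) := by
  rw [pr_eq_sum_mul, Fintype.sum_prod_type, mul_sum]
  refine sum_congr rfl fun x _ => ?_
  rw [mul_sum]
  refine sum_congr rfl fun e _ => ?_
  unfold jt
  ring

/-- (MARG) for events -/
theorem pr_jt_marg (hκ : ∀ i, IsKer (κ i)) (hκ' : ∀ i, IsKer (κ' i)) {s : τ → ι} {s' : τ → ι'}
    (hs : Function.Injective s) (hs' : Function.Injective s') (h : ∀ t, κ (s t) = κ' (s' t))
    (A : Ω → (τ → Ω) → Prop) :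
    pr (jt κ) (fun ω => A ω.1 fun t => ω.2 (s t)) =
      pr (jt κ') (fun ω => A ω.1 fun t => ω.2 (s' t)) := by
  classical
  rw [pr_jt, pr_jt]
  congr 1
  refine sum_congr rfl fun x _ => ?_
  have h1 := sum_prod_marg hκ hs x (fun e => if A x e then 1 else 0)
  have h2 := sum_prod_marg hκ' hs' x (fun e => if A x e then 1 else 0)
  simp only at h1 h2 ⊢
  rw [h1, h2]
  simp_rw [h]

/-- (MARG) the law of a function of the base point and some of the copies does not depend on the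
ambient space. -/
theorem law_jt_marg (hκ : ∀ i, IsKer (κ i)) (hκ' : ∀ i, IsKer (κ' i)) {s : τ → ι} {s' : τ → ι'}
    (hs : Function.Injective s) (hs' : Function.Injective s') (h : ∀ t, κ (s t) = κ' (s' t))
    (F : Ω → (τ → Ω) → β) (b : β) :
    law (jt κ) (fun ω => F ω.1 fun t => ω.2 (s t)) b =
      law (jt κ') (fun ω => F ω.1 fun t => ω.2 (s' t)) b :=
  pr_jt_marg hκ hκ' hs hs' h fun x e => F x e = b

theorem ent_jt_marg (hκ : ∀ i, IsKer (κ i)) (hκ' : ∀ i, IsKer (κ' i)) {s : τ → ι}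
    {s' : τ → ι'} (hs : Function.Injective s) (hs' : Function.Injective s')
    (h : ∀ t, κ (s t) = κ' (s' t)) (F : Ω → (τ → Ω) → β) :
    ent (jt κ) (fun ω => F ω.1 fun t => ω.2 (s t)) =
      ent (jt κ') (fun ω => F ω.1 fun t => ω.2 (s' t)) :=
  ent_of_law' (law_jt_marg hκ hκ' hs hs' h F)

/-- (EQ) for events: if the event and all kernels but the one of `t₀` depend on `x` only through
`φ x`, then the kernel of `t₀` can be averaged over the fibres of `φ`. -/
theorem pr_jt_eq (hκ : ∀ i, IsKer (κ i)) (hκ' : ∀ i, IsKer (κ' i)) {s : τ → ι} {s' : τ → ι'}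
    (hs : Function.Injective s) (hs' : Function.Injective s') (φ : Ω → α) (t₀ : τ)
    (h : ∀ t, t ≠ t₀ → κ (s t) = κ' (s' t)) (hdep : ∀ t, t ≠ t₀ → Dep φ (κ (s t)))
    (h₀ : κ' (s' t₀) = comp (fk φ) (κ (s t₀)))
    (A : Ω → (τ → Ω) → Prop) (hA : ∀ x x' e, φ x = φ x' → (A x e ↔ A x' e)) :
    pr (jt κ) (fun ω => A ω.1 fun t => ω.2 (s t)) =
      pr (jt κ') (fun ω => A ω.1 fun t => ω.2 (s' t)) := by
  classical
  rw [pr_jt, pr_jt]
  congr 1
  have h1 := fun x => sum_prod_marg hκ hs x (fun e => if A x e then 1 else 0)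
  have h2 := fun x => sum_prod_marg hκ' hs' x (fun e => if A x e then 1 else 0)
  simp only at h1 h2 ⊢
  simp_rw [h1, h2]
  rw [sum_comm, sum_comm (s := univ (α := Ω))]
  refine sum_congr rfl fun e _ => ?_
  have e1 : ∀ x, (∏ t, κ (s t) x (e t)) * (if A x e then (1 : ℝ) else 0) =
      κ (s t₀) x (e t₀) * ((∏ t ∈ univ.erase t₀, κ (s t) x (e t)) *
        (if A x e then (1 : ℝ) else 0)) := by
    intro x
    rw [← mul_prod_erase univ (fun t => κ (s t) x (e t)) (mem_univ t₀)]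
    ring
  have e2 : ∀ x, (∏ t, κ' (s' t) x (e t)) * (if A x e then (1 : ℝ) else 0) =
      (∑ y, fk φ x y * κ (s t₀) y (e t₀)) * ((∏ t ∈ univ.erase t₀, κ (s t) x (e t)) *
        (if A x e then (1 : ℝ) else 0)) := by
    intro x
    rw [← mul_prod_erase univ (fun t => κ' (s' t) x (e t)) (mem_univ t₀), h₀]
    rw [prod_congr rfl fun t ht => by rw [← h t (ne_of_mem_erase ht)]]
    unfold comp
    ring
  rw [sum_congr rfl fun x _ => e1 x, sum_congr rfl fun x _ => e2 x]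
  symm
  apply sum_fk_mul φ (fun x => κ (s t₀) x (e t₀))
  intro x x' hx
  have h3 : (∏ t ∈ univ.erase t₀, κ (s t) x (e t)) = ∏ t ∈ univ.erase t₀, κ (s t) x' (e t) :=
    prod_congr rfl fun t ht => by rw [hdep t (ne_of_mem_erase ht) x x' hx]
  rw [h3]
  simp only [hA x x' e hx]

/-- (EQ) if the function and all kernels but the one of `t₀` depend on `x` only through `φ x`, then
the kernel of `t₀` can be averaged over the fibres of `φ`. -/
theorem law_jt_eq (hκ : ∀ i, IsKer (κ i)) (hκ' : ∀ i, IsKer (κ' i)) {s : τ → ι} {s' : τ → ι'}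
    (hs : Function.Injective s) (hs' : Function.Injective s') (φ : Ω → α) (t₀ : τ)
    (h : ∀ t, t ≠ t₀ → κ (s t) = κ' (s' t)) (hdep : ∀ t, t ≠ t₀ → Dep φ (κ (s t)))
    (h₀ : κ' (s' t₀) = comp (fk φ) (κ (s t₀)))
    (F : Ω → (τ → Ω) → β) (hF : ∀ x x' e, φ x = φ x' → F x e = F x' e) (b : β) :
    law (jt κ) (fun ω => F ω.1 fun t => ω.2 (s t)) b =
      law (jt κ') (fun ω => F ω.1 fun t => ω.2 (s' t)) b :=
  pr_jt_eq hκ hκ' hs hs' φ t₀ h hdep h₀ (fun x e => F x e = b)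
    fun x x' e hx => by rw [hF x x' e hx]

theorem ent_jt_eq (hκ : ∀ i, IsKer (κ i)) (hκ' : ∀ i, IsKer (κ' i)) {s : τ → ι}
    {s' : τ → ι'} (hs : Function.Injective s) (hs' : Function.Injective s') (φ : Ω → α) (t₀ : τ)
    (h : ∀ t, t ≠ t₀ → κ (s t) = κ' (s' t)) (hdep : ∀ t, t ≠ t₀ → Dep φ (κ (s t)))
    (h₀ : κ' (s' t₀) = comp (fk φ) (κ (s t₀)))
    (F : Ω → (τ → Ω) → β) (hF : ∀ x x' e, φ x = φ x' → F x e = F x' e) :
    ent (jt κ) (fun ω => F ω.1 fun t => ω.2 (s t)) =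
      ent (jt κ') (fun ω => F ω.1 fun t => ω.2 (s' t)) :=
  ent_of_law' (law_jt_eq hκ hκ' hs hs' φ t₀ h hdep h₀ F hF)

/-! ### special cases -/

theorem pr_jt_base (hκ : ∀ i, IsKer (κ i)) (A : Ω → Prop) :
    pr (jt κ) (fun ω => A ω.1) = pr (uni Ω) A := by
  classical
  rw [pr_jt, pr_eq_sum_mul, mul_sum]
  refine sum_congr rfl fun x _ => ?_
  by_cases h : A x
  · simp only [h, if_true, mul_one]
    rw [sum_prod_ker hκ, mul_one]
    rfl
  · simp [h]

/-- functions of the base point -/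
theorem ent_jt_base (hκ : ∀ i, IsKer (κ i)) (φ : Ω → α) :
    ent (jt κ) (fun ω => φ ω.1) = ent (uni Ω) φ :=
  ent_of_law' fun b => pr_jt_base hκ fun x => φ x = b

/-- the pair of the base point and one copy -/
theorem pr_jt_one (hκ : ∀ i, IsKer (κ i)) (i : ι) (A : Ω → Ω → Prop) [DecidableRel A] :
    pr (jt κ) (fun ω => A ω.1 (ω.2 i)) =
      (Fintype.card Ω : ℝ)⁻¹ * ∑ x, ∑ z, κ i x z * (if A x z then 1 else 0) := by
  classical
  rw [pr_jt]
  congr 1
  refine sum_congr rfl fun x _ => ?_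
  have h1 := sum_prod_marg hκ (s := fun _ : Fin 1 => i) (fun a b _ => Subsingleton.elim a b) x
    (fun e => if A x (e 0) then 1 else 0)
  simp only at h1 ⊢
  rw [h1]
  rw [← (Equiv.funUnique (Fin 1) Ω).symm.sum_comp]
  refine sum_congr rfl fun z _ => ?_
  simp

theorem pr_jt_copy (hκ : ∀ i, IsKer (κ i)) {i : ι} (hi : Stat (κ i)) (A : Ω → Prop) :
    pr (jt κ) (fun ω => A (ω.2 i)) = pr (uni Ω) A := by
  classical
  rw [pr_jt_one hκ i (fun _ z => A z), sum_comm, pr_eq_sum_mul, mul_sum]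
  refine sum_congr rfl fun z _ => ?_
  rw [← sum_mul, hi z, one_mul]
  rfl

/-- a copy under a stationary kernel is uniform -/
theorem ent_jt_copy (hκ : ∀ i, IsKer (κ i)) {i : ι} (hi : Stat (κ i)) (g : Ω → β) :
    ent (jt κ) (fun ω => g (ω.2 i)) = ent (uni Ω) g :=
  ent_of_law' fun b => pr_jt_copy hκ hi fun x => g x = b

/-! ### (CI) -/

/-- the average of the entropies of the `i`-th copy -/
theorem hk_eq_sum_jt (hκ : ∀ i, IsKer (κ i)) (i : ι) (g : Ω → γ) :
    hk (κ i) g = ∑ ω, jt κ ω * (-Real.log (law (κ i ω.1) g (g (ω.2 i)))) := by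
  classical
  rw [sum_jt_update hκ i]
  simp only [Function.update_self]
  rw [Fintype.sum_prod_type]
  unfold hk
  rw [mul_sum]
  refine sum_congr rfl fun x _ => ?_
  simp only
  rw [← sum_mul]
  unfold jt
  simp only
  rw [← mul_sum, sum_prod_ker hκ, mul_one]
  rfl

/-- (CI) if `A` does not depend on the `i`-th copy and determines `φ x`, and `κ i` depends only on
`φ x`, then `H(g(e_i) | A) = hk (κ i) g`. -/
theorem cent_ci [Nonempty Ω] (hκ : ∀ i, IsKer (κ i)) (i : ι) (φ : Ω → α) (hdep : Dep φ (κ i))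
    (A : Ω × (ι → Ω) → β) (hA : ∀ x e z, A (x, Function.update e i z) = A (x, e))
    (hφ : Det (jt κ) A (fun ω => φ ω.1)) (g : Ω → γ) :
    cent (jt κ) (fun ω => g (ω.2 i)) A = hk (κ i) g := by
  classical
  rw [cent_eq, hk_eq_sum_jt hκ]
  refine sum_congr rfl fun ω _ => ?_
  by_cases h0 : jt κ ω = 0
  · simp [h0]
  have h1 : law (jt κ) (fun ω => (g (ω.2 i), A ω)) (g (ω.2 i), A ω) =
      law (jt κ) A (A ω) * law (κ i ω.1) g (g (ω.2 i)) := by
    have e1 : law (jt κ) (fun ω => (g (ω.2 i), A ω)) (g (ω.2 i), A ω) =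
        ∑ ω', jt κ ω' * pr (κ i ω'.1) (fun z => A ω' = A ω ∧ g z = g (ω.2 i)) := by
      unfold law
      rw [pr_jt_update hκ i]
      refine sum_congr rfl fun ω' _ => ?_
      congr 2
      funext z
      simp only [Function.update_self, Prod.mk.injEq, hA, eq_iff_iff]
      exact and_comm
    rw [e1]
    unfold law
    rw [pr_eq_sum_mul (jt κ), sum_mul]
    refine sum_congr rfl fun ω' _ => ?_
    by_cases h2 : jt κ ω' = 0
    · simp [h2]
    by_cases h3 : A ω' = A ω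
    · simp only [h3, true_and, if_true, mul_one]
      rw [hdep _ _ (hφ ω' ω h2 h0 h3)]
    · simp [h3, pr]
  rw [h1]
  have hp := isPr_jt hκ
  have h4 := law_pos hp A h0
  have h5 : 0 < law (κ i ω.1) g (g (ω.2 i)) := law_pos (hκ i ω.1) g (jt_ne_zero h0 i)
  rw [Real.log_mul h4.ne' h5.ne']
  ring

/-- lower bound without the assumption that the condition determines `φ x` -/
theorem hk_le_cent [Nonempty Ω] (hκ : ∀ i, IsKer (κ i)) (i : ι)
    (A : Ω × (ι → Ω) → β) (hA : ∀ x e z, A (x, Function.update e i z) = A (x, e)) (g : Ω → γ) :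
    hk (κ i) g ≤ cent (jt κ) (fun ω => g (ω.2 i)) A := by
  have h1 := cent_ci hκ i (fun x => x) (fun x x' e => congrArg _ e) (fun ω => (A ω, ω.1))
    (fun x e z => by simp only [hA]) (fun ω ω' _ _ e => (Prod.ext_iff.mp e).2) g
  rw [← h1]
  exact cent_anti (isPr_jt hκ) _ (Det.fst (Det.refl A))

omit [Fintype τ] in
/-- (CI) for several copies. -/
theorem cent_ci_finset [Nonempty Ω] {γ : τ → Type*} (hκ : ∀ i, IsKer (κ i)) {s : τ → ι}
    (hs : Function.Injective s) (φ : Ω → α) (hdep : ∀ t, Dep φ (κ (s t)))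
    (A : Ω × (ι → Ω) → β) (hA : ∀ x e t z, A (x, Function.update e (s t) z) = A (x, e))
    (hφ : Det (jt κ) A (fun ω => φ ω.1)) (g : (t : τ) → Ω → γ t) (S : Finset τ) :
    cent (jt κ) (fun ω (t : {t // t ∈ S}) => g t (ω.2 (s t))) A =
      ∑ t ∈ S, hk (κ (s t)) (g t) := by
  have hp := isPr_jt hκ
  induction S using Finset.induction_on with
  | empty =>
    rw [sum_empty]
    apply cent_zero_of_det hp
    intro ω ω' _ _ _
    funext t
    exact absurd t.2 (Finset.notMem_empty _)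
  | insert a S ha ih =>
    rw [sum_insert ha, ← ih]
    have h1 := cent_ci hκ (s a) φ (hdep a)
      (fun ω => ((fun t : {t // t ∈ S} => g t (ω.2 (s t))), A ω)) ?_ (Det.snd hφ) (g a)
    · rw [← h1, add_comm, ← cent_chain hp]
      refine cent_congr hp (Det.refl _) (Det.refl _) ?_ ?_
      · intro ω ω' _ _ e
        simp only [Prod.mk.injEq] at e ⊢
        refine ⟨?_, ?_⟩
        · funext t
          exact congrFun e.1 ⟨t.1, mem_insert_of_mem t.2⟩
        · exact congrFun e.1 ⟨a, mem_insert_self a S⟩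
      · intro ω ω' _ _ e
        simp only [Prod.mk.injEq] at e ⊢
        funext t
        rcases Finset.mem_insert.mp t.2 with h | h
        · obtain ⟨t, ht⟩ := t
          simp only at h
          subst h
          exact e.1.2
        · exact congrFun e.1.1 ⟨t.1, h⟩
    · intro x e z
      simp only [hA, Prod.mk.injEq, and_true]
      funext t
      rw [Function.update_of_ne]
      intro h
      have := hs h
      exact ha (this ▸ t.2)

/-- (CI) for several copies. -/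
theorem cent_ci_family [Nonempty Ω] {γ : τ → Type*} (hκ : ∀ i, IsKer (κ i)) {s : τ → ι}
    (hs : Function.Injective s) (φ : Ω → α) (hdep : ∀ t, Dep φ (κ (s t)))
    (A : Ω × (ι → Ω) → β) (hA : ∀ x e t z, A (x, Function.update e (s t) z) = A (x, e))
    (hφ : Det (jt κ) A (fun ω => φ ω.1)) (g : (t : τ) → Ω → γ t) :
    cent (jt κ) (fun ω t => g t (ω.2 (s t))) A = ∑ t, hk (κ (s t)) (g t) := by
  rw [← cent_ci_finset hκ hs φ hdep A hA hφ g univ]
  refine cent_congr (isPr_jt hκ) (Det.refl _) (Det.refl _) ?_ ?_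
  · intro ω ω' _ _ e
    simp only [Prod.mk.injEq] at e
    funext t
    exact congrFun e.1 t.1
  · intro ω ω' _ _ e
    simp only [Prod.mk.injEq] at e
    funext t
    exact congrFun e.1 ⟨t, mem_univ t⟩

theorem sum_hk_le_cent_family [Nonempty Ω] {γ : τ → Type*} (hκ : ∀ i, IsKer (κ i)) {s : τ → ι}
    (hs : Function.Injective s)
    (A : Ω × (ι → Ω) → β) (hA : ∀ x e t z, A (x, Function.update e (s t) z) = A (x, e))
    (g : (t : τ) → Ω → γ t) :
    ∑ t, hk (κ (s t)) (g t) ≤ cent (jt κ) (fun ω t => g t (ω.2 (s t))) A := by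
  have h1 := cent_ci_family hκ hs (fun x => x) (fun t x x' e => congrArg _ e) (fun ω => (A ω, ω.1))
    (fun x e t z => by simp only [hA]) (fun ω ω' _ _ e => (Prod.ext_iff.mp e).2) g
  rw [← h1]
  exact cent_anti (isPr_jt hκ) _ (Det.fst (Det.refl A))

/-! ### entropies of kernels -/

/-- `hk K_φ g = H(g | φ)`. -/
theorem hk_fk [Nonempty Ω] (φ : Ω → α) (g : Ω → β) : hk (fk φ) g = cent (uni Ω) g φ := by
  classical
  have hκ : ∀ i : Fin 1, IsKer ((fun _ => fk φ) i) := fun _ => isKer_fk φ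
  have hp := isPr_jt (ι := Fin 1) (κ := fun _ => fk φ) hκ
  have h1 := cent_ci (ι := Fin 1) (κ := fun _ => fk φ) hκ 0 φ (dep_fk_self φ)
    (fun ω => φ ω.1) (fun _ _ _ => rfl) (Det.refl _) g
  rw [← h1]
  unfold cent
  rw [ent_jt_base hκ φ]
  congr 1
  have h2 := ent_jt_copy (ι := Fin 1) (κ := fun _ => fk φ) hκ (i := 0) (stat_fk φ)
    (fun x => (g x, φ x))
  rw [← h2]
  refine ent_congr hp ?_ ?_
  · intro ω ω' a b e
    simp only [Prod.mk.injEq] at e ⊢
    refine ⟨e.1, ?_⟩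
    rw [jt_fk a (i := 0) rfl, jt_fk b (i := 0) rfl]
    exact e.2
  · intro ω ω' a b e
    simp only [Prod.mk.injEq] at e ⊢
    refine ⟨e.1, ?_⟩
    rw [← jt_fk a (i := 0) rfl, ← jt_fk b (i := 0) rfl]
    exact e.2

/-- a mixture: `y ~ p`, `z ~ κ' y`, where `κ'` depends only on `ψ y` and `g z` determines `ψ y`. -/
theorem ent_mix {p : Ω → ℝ} {κ' : Ω → Ω → ℝ} (hp : IsPr p) (hκ' : IsKer κ')
    (ψ : Ω → α) (hdep : Dep ψ κ') (g : Ω → β)
    (hdet : ∀ y z y' z', p y ≠ 0 → κ' y z ≠ 0 → p y' ≠ 0 → κ' y' z' ≠ 0 →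
      g z = g z' → ψ y = ψ y') :
    ent (fun z => ∑ y, p y * κ' y z) g = ent p ψ + ∑ y, p y * ent (κ' y) g := by
  classical
  have h1 : ∀ y z, p y ≠ 0 → κ' y z ≠ 0 →
      law (fun z => ∑ y, p y * κ' y z) g (g z) = law p ψ (ψ y) * law (κ' y) g (g z) := by
    intro y z hy hz
    unfold law
    rw [pr_eq_sum_mul]
    simp_rw [sum_mul]
    rw [sum_comm, pr_eq_sum_mul p, sum_mul]
    refine sum_congr rfl fun y' _ => ?_
    by_cases h0 : p y' = 0
    · simp [h0]
    by_cases h2 : ψ y' = ψ y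
    · rw [if_pos h2, hdep y' y h2, pr_eq_sum_mul (κ' y), mul_one, mul_sum]
      refine sum_congr rfl fun z' _ => ?_
      ring
    · rw [if_neg h2, mul_zero, zero_mul]
      refine sum_eq_zero fun z' _ => ?_
      by_cases h3 : κ' y' z' = 0
      · simp [h3]
      · rw [if_neg, mul_zero]
        intro h4
        exact h2 (hdet y' z' y z h0 h3 hy hz h4)
  have h2 : ent (fun z => ∑ y, p y * κ' y z) g =
      ∑ y, p y * ∑ z, κ' y z * (-Real.log (law (fun z => ∑ y, p y * κ' y z) g (g z))) := by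
    conv_lhs => unfold ent
    simp_rw [sum_mul]
    rw [sum_comm]
    refine sum_congr rfl fun y _ => ?_
    rw [mul_sum]
    refine sum_congr rfl fun z _ => ?_
    ring
  rw [h2]
  have h3 : ∀ y, p y * ∑ z, κ' y z * (-Real.log (law (fun z => ∑ y, p y * κ' y z) g (g z))) =
      p y * (-Real.log (law p ψ (ψ y))) + p y * ent (κ' y) g := by
    intro y
    by_cases h0 : p y = 0
    · simp [h0]
    rw [← mul_add]
    congr 1
    have h4 : ∀ z, κ' y z * (-Real.log (law (fun z => ∑ y, p y * κ' y z) g (g z))) =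
        κ' y z * (-Real.log (law p ψ (ψ y))) + κ' y z * (-Real.log (law (κ' y) g (g z))) := by
      intro z
      by_cases h5 : κ' y z = 0
      · simp [h5]
      rw [h1 y z h0 h5, Real.log_mul (law_pos hp ψ h0).ne' (law_pos (hκ' y) g h5).ne']
      ring
    rw [sum_congr rfl fun z _ => h4 z, sum_add_distrib, ← sum_mul, (hκ' y).sum_eq, one_mul]
    rfl
  rw [sum_congr rfl fun y _ => h3 y, sum_add_distrib]
  rfl

/-- entropy of a composition: `y ~ κ x`, `z ~ κ' y`; if `ψ y` is a function of `x` and `g z`, then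
the entropy of `g z` is the entropy of `ψ y` plus the entropy of `g z` given `y`. -/
theorem hk_comp {κ κ' : Ω → Ω → ℝ} (hκ : IsKer κ) (hκ' : IsKer κ') (hst : Stat κ)
    (ψ : Ω → α) (hdep : Dep ψ κ') (g : Ω → β)
    (hdet : ∀ x y z y' z', κ x y ≠ 0 → κ' y z ≠ 0 → κ x y' ≠ 0 → κ' y' z' ≠ 0 →
      g z = g z' → ψ y = ψ y') :
    hk (comp κ κ') g = hk κ ψ + hk κ' g := by
  unfold hk
  rw [← mul_add]
  congr 1
  have h1 : ∀ x, ent (comp κ κ' x) g = ent (κ x) ψ + ∑ y, κ x y * ent (κ' y) g :=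
    fun x => ent_mix (hκ x) hκ' ψ hdep g (hdet x)
  rw [sum_congr rfl fun x _ => h1 x, sum_add_distrib]
  congr 1
  rw [sum_comm]
  refine sum_congr rfl fun y _ => ?_
  rw [← sum_mul, hst y, one_mul]

end Copies

/-! ### the quantities `A_n(ζ)`, `h_0(ζ)` and `F_ζ(n)` -/

section Outer

variable {Ω : Type*} [Fintype Ω] {W O Z : Type*}

/-- `h_0(ζ) = H(o | w, ζ)`. -/
noncomputable def h0 (w : Ω → W) (o : Ω → O) (ζ : Ω → Z) : ℝ :=
  cent (uni Ω) o (fun x => (w x, ζ x))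

/-- `A_n(ζ) = H(ζ(x), o(x'_1), ..., o(x'_n))`, `x'_t` independent `(w, ζ)`-copies of `x`. -/
noncomputable def AA (w : Ω → W) (o : Ω → O) (ζ : Ω → Z) (n : ℕ) : ℝ :=
  ent (jt (fun _ : Fin n => fk (fun x => (w x, ζ x)))) (fun ω => (ζ ω.1, fun t => o (ω.2 t)))

/-- `F_ζ(n) = A_n(ζ) - H(ζ) - n h_0(ζ)`. -/
noncomputable def FF (w : Ω → W) (o : Ω → O) (ζ : Ω → Z) (n : ℕ) : ℝ :=
  AA w o ζ n - ent (uni Ω) ζ - n * h0 w o ζ

end Outer

end RFold
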