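import Pool.Agent.Lib.MP_3581cd_co.Rs
import Pool.Agent.Lib.MP_3581cd_co.Copies
import Pool.Agent.Lib.MP_3581cd_co.Comb

/-!
# MP_3581cd_co: the concrete quantities for a set `H` of points
-/

namespace RFold

open Finset

variable {I : Type} [Fintype I] [DecidableEq I] {m : ℕ}

/-- `F^U_Z(n)`. -/
noncomputable def FU (H : Finset (I → Fin m)) (U Z : Finset I) (n : ℕ) : ℝ :=
  FF (fun x : {x // x ∈ H} => rs U x.1) (fun x : {x // x ∈ H} => rs Uᶜ x.1)
    (fun x : {x // x ∈ H} => rs Z x.1) n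

/-- The kernel `K_{(w,z)}`. -/
noncomputable def kz (H : Finset (I → Fin m)) (U Z : Finset I) :
    {x // x ∈ H} → {x // x ∈ H} → ℝ :=
  fk (fun x : {x // x ∈ H} => (rs U x.1, rs Z x.1))

/-- The kernel of `ρ`. -/
noncomputable def kr (H : Finset (I → Fin m)) (U Y Z : Finset I) :
    {x // x ∈ H} → {x // x ∈ H} → ℝ :=
  comp (kz H U Z) (kz H U Y)

/-- `κ = H(ρ | z, R') - h_ρ` with `q` copies `R'`. -/
noncomputable def KU (H : Finset (I → Fin m)) (U Y Z : Finset I) (q : ℕ) : ℝ :=
  cent (jt (fun t : Option (Fin q) => if t = none then kr H U Y Z else kz H U Z))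
    (fun ω => rs Uᶜ (ω.2 none).1)
    (fun ω => (rs Z ω.1.1, fun t : Fin q => rs Uᶜ (ω.2 (some t)).1)) -
  hk (kr H U Y Z) (fun x => rs Uᶜ x.1)

/-- `I(w_u ; R' | z)`, `R'` = `q` copies of type `(w,z)`. -/
noncomputable def IR (H : Finset (I → Fin m)) (U Z : Finset I) (q : ℕ) (u : I) : ℝ :=
  cent (uni {x // x ∈ H}) (fun x => x.1 u) (fun x => rs Z x.1) -
  cent (jt (fun _ : Fin q => kz H U Z)) (fun ω => ω.1.1 u)
    (fun ω => (rs Z ω.1.1, fun t : Fin q => rs Uᶜ (ω.2 t).1))

/-- `Λ = ∑_u (L - H(w_u | z, R'))`. -/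
noncomputable def LamU (H : Finset (I → Fin m)) (U Z : Finset I) (q : ℕ) : ℝ :=
  ∑ u ∈ U, (Real.log m - cent (jt (fun _ : Fin q => kz H U Z)) (fun ω => ω.1.1 u)
    (fun ω => (rs Z ω.1.1, fun t : Fin q => rs Uᶜ (ω.2 t).1)))

/-- `I(w_u ; Q | z)`, `Q` = `2 n` copies `ρ`. -/
noncomputable def IQ (H : Finset (I → Fin m)) (U Y Z : Finset I) (n : ℕ) (u : I) : ℝ :=
  cent (uni {x // x ∈ H}) (fun x => x.1 u) (fun x => rs Z x.1) -
  cent (jt (fun _ : Fin n × Bool => kr H U Y Z)) (fun ω => ω.1.1 u)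
    (fun ω => (rs Z ω.1.1, fun t : Fin n × Bool => rs Uᶜ (ω.2 t).1))

/-- The probability that the index of the pair `(ρ_1, ρ_2)` does not exist. -/
noncomputable def pnU (H : Finset (I → Fin m)) (U Y Z : Finset I)
    (Idx : (I → Option (Fin m)) → (I → Option (Fin m)) → (I → Option (Fin m)) → Option I) : ℝ :=
  pr (jt (fun _ : Bool => kr H U Y Z)) fun ω =>
    Idx (rs U ω.1.1) (rs Uᶜ (ω.2 false).1) (rs Uᶜ (ω.2 true).1) = none

/-- The average over `j < n` of the probability that the index of the pair `j` exists and is not the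
index of any other pair. -/
noncomputable def nuU (H : Finset (I → Fin m)) (U Y Z : Finset I) (n : ℕ)
    (Idx : (I → Option (Fin m)) → (I → Option (Fin m)) → (I → Option (Fin m)) → Option I) : ℝ :=
  (n : ℝ)⁻¹ * ∑ j : Fin n, pr (jt (fun _ : Fin n × Bool => kr H U Y Z)) fun ω =>
    ∃ u, Idx (rs U ω.1.1) (rs Uᶜ (ω.2 (j, false)).1) (rs Uᶜ (ω.2 (j, true)).1) = some u ∧
      ∀ l, l ≠ j →
        Idx (rs U ω.1.1) (rs Uᶜ (ω.2 (l, false)).1) (rs Uᶜ (ω.2 (l, true)).1) ≠ some u

/-! ### the variables: coordinates of the base point, and copies -/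

variable {ι : Type} [Fintype ι] [DecidableEq ι]

/-- The entropy of a set of variables: coordinates of the base point, and outer parts of copies of
types `T j`. -/
noncomputable def hv (H : Finset (I → Fin m)) (U : Finset I) (T : ι → Finset I)
    (S : Finset (I ⊕ ι)) : ℝ :=
  ent (jt fun j => kz H U (T j)) fun ω =>
    ((fun i : I => if Sum.inl i ∈ S then some (ω.1.1 i) else none),
      (fun j : ι => if Sum.inr j ∈ S then some (rs Uᶜ (ω.2 j).1) else none))

/-- A set of coordinates as a set of variables. -/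
def bs (S : Finset I) : Finset (I ⊕ ι) := S.map Function.Embedding.inl

/-- The coordinates in a set of variables. -/
def ub (Z : Finset (I ⊕ ι)) : Finset I := univ.filter fun i => Sum.inl i ∈ Z

/-- `A_n(Z)`; for sets `Z` containing copies the value does not matter. -/
noncomputable def Av (H : Finset (I → Fin m)) (U : Finset I) (T : ι → Finset I)
    (Z : Finset (I ⊕ ι)) (n : ℕ) : ℝ :=
  if Z = bs (ub Z) then AA (fun x : {x // x ∈ H} => rs U x.1) (fun x : {x // x ∈ H} => rs Uᶜ x.1)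
    (fun x : {x // x ∈ H} => rs (ub Z) x.1) n else hv H U T Z

/-- The variables which are copies. -/
def isCp (v : I ⊕ ι) : Prop := v.isRight = true

/-- The types of the copies. -/
def tyv (T : ι → Finset I) (v : I ⊕ ι) : Finset (I ⊕ ι) :=
  Sum.elim (fun _ => ∅) (fun j => bs (T j)) v

/-- The instance of the abstract system (helper20, file ModelInst). -/
def CopySysStatement (H : Finset (I → Fin m)) : Prop :=
  ∀ (U : Finset I) (ι : Type) [Fintype ι] [DecidableEq ι] (T : ι → Finset I),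
    (∀ j, Disjoint U (T j)) → Pool.Agent.MP3581.CopySys (hv H U T) (bs U) (Real.log H.card)
      (Av H U T) isCp (tyv T)

end RFold
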