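import Pool.Agent.Lib.MP_3581cd_co.Sect3d
import Pool.Agent.Lib.MP_3581cd_co.ModelDefs

/-!
# MP_3581cd_co, section 3 for a set `H` of points
-/

namespace RFold

open Finset

variable {I : Type} [Fintype I] [DecidableEq I] {m : ℕ} {H : Finset (I → Fin m)}

/-- The setting of section 3 for a set `H` of points. -/
theorem s3_model (hne : H.Nonempty) {U Y Z : Finset I} (hUY : Disjoint U Y) (hUZ : Disjoint U Z)
    (hYZ : Disjoint Y Z) :
    S3 (fun x : {x // x ∈ H} => x.1) U (fun x => rs U x.1) (fun x => rs Uᶜ x.1)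
      (fun x => rs Y x.1) (fun x => rs Z x.1) (dS H (U ∪ Y ∪ Z)) (dS H univ) := by
  have : Nonempty {x // x ∈ H} := hne.to_subtype
  have hp : IsPr (uni {x // x ∈ H}) := isPr_uni
  have hpair : ∀ A B : Finset I, ent (uni {x // x ∈ H}) (fun x => (rs A x.1, rs B x.1)) =
      hS H (A ∪ B) := by
    intro A B
    unfold hS
    refine ent_congr hp ?_ ?_
    · intro x x' _ _ e
      simp only [Prod.mk.injEq] at e
      exact rs_union.2 e
    · intro x x' _ _ e
      simp only [Prod.mk.injEq]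
      exact rs_union.1 e
  have hsub : ∀ {A : Finset I}, Disjoint U A → A ⊆ Uᶜ := fun {A} h i hi => by
    rw [mem_compl]
    exact fun hU => (Finset.disjoint_left.1 h) hU hi
  refine ⟨?_, ?_, ?_, ?_, ?_, ?_, ?_⟩
  · intro x x'
    exact rs_eq_iff
  · intro x x' h1 h2
    refine Subtype.ext (funext fun i => ?_)
    by_cases hi : i ∈ U
    · exact rs_eq_iff.1 h1 i hi
    · exact rs_eq_iff.1 h2 i (mem_compl.2 hi)
  · intro x x' h
    exact rs_of_subset (hsub hUY) h
  · intro x x' h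
    exact rs_of_subset (hsub hUZ) h
  · -- E1
    rw [Fintype.card_fin]
    unfold cent
    rw [hpair U Z]
    have h1 : dS H (U ∪ Z) ≤ dS H (U ∪ Y ∪ Z) := dS_mono hne (by
      intro i hi
      simp only [mem_union] at hi ⊢
      tauto)
    have h2 := dS_nonneg hne Z
    have h3 : ((U ∪ Z).card : ℝ) = U.card + Z.card := by
      exact_mod_cast card_union_of_disjoint hUZ
    have h4 : ent (uni {x // x ∈ H}) (fun x => rs Z x.1) = hS H Z := rfl
    rw [h4]
    unfold dS at h1 h2 ⊢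
    rw [h3] at h1
    linarith
  · -- E2
    unfold cent
    have e1 : ent (uni {x // x ∈ H}) (fun x => (rs Y x.1, rs U x.1, rs Z x.1)) =
        hS H (U ∪ Y ∪ Z) := by
      rw [show U ∪ Y ∪ Z = Y ∪ (U ∪ Z) by
        ext i
        simp only [mem_union]
        tauto]
      unfold hS
      refine ent_congr hp ?_ ?_
      · intro x x' _ _ e
        simp only [Prod.mk.injEq] at e
        exact rs_union.2 ⟨e.1, rs_union.2 e.2⟩
      · intro x x' _ _ e
        simp only [Prod.mk.injEq]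
        exact ⟨(rs_union.1 e).1, rs_union.1 (rs_union.1 e).2⟩
    rw [hpair Y U, e1, hpair U Z]
    have h0 : ent (uni {x // x ∈ H}) (fun x => rs U x.1) = hS H U := rfl
    rw [h0]
    have h1 : dS H U ≤ dS H (Y ∪ U) := dS_mono hne subset_union_right
    have h2 := dS_nonneg hne (U ∪ Z)
    have h3 : ((U ∪ Z).card : ℝ) = U.card + Z.card := by
      exact_mod_cast card_union_of_disjoint hUZ
    have h4 : ((Y ∪ U).card : ℝ) = Y.card + U.card := by
      exact_mod_cast card_union_of_disjoint hUY.symm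
    have h5 : ((U ∪ Y ∪ Z).card : ℝ) = U.card + Y.card + Z.card := by
      have : Disjoint (U ∪ Y) Z := by
        rw [disjoint_union_left]
        exact ⟨hUZ, hYZ⟩
      rw [card_union_of_disjoint this, card_union_of_disjoint hUY]
      push_cast
      ring
    unfold dS at h1 h2 ⊢
    rw [h3] at h2
    rw [h4] at h1
    rw [h5]
    nlinarith [h1, h2]
  · -- D2
    have h1 := hS_univ hne
    have h2 := dS_nonneg hne U
    have h3 := dS_nonneg hne Uᶜ
    have h4 : ((univ : Finset I).card : ℝ) = U.card + Uᶜ.card := by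
      exact_mod_cast (card_add_card_compl U).symm
    have h5 : ent (uni {x // x ∈ H}) (fun x => rs Uᶜ x.1) = hS H Uᶜ := rfl
    have h6 : ent (uni {x // x ∈ H}) (fun x => rs U x.1) = hS H U := rfl
    rw [h5, h6, Fintype.card_coe, ← h1]
    unfold dS at h2 h3 ⊢
    rw [h4]
    linarith

/-- Splitting `U` into two parts. -/
theorem split_model (hne : H.Nonempty) {U U₁ Y Z : Finset I} (hUY : Disjoint U Y)
    (hUZ : Disjoint U Z) (hYZ : Disjoint Y Z) (hU₁ : U₁ ⊆ U) :
    (s3_model hne hUY hUZ hYZ).Split U₁ (U \ U₁) (fun x => rs U₁ x.1)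
      (fun x => rs (U \ U₁) x.1) where
  hU := fun u => by
    rw [mem_sdiff]
    constructor
    · intro h
      by_cases h1 : u ∈ U₁
      · exact Or.inl h1
      · exact Or.inr ⟨h, h1⟩
    · rintro (h | h)
      · exact hU₁ h
      · exact h.1
  card := by
    rw [add_comm]
    exact card_sdiff_add_card_eq_card hU₁
  h1 := fun x x' => rs_eq_iff
  h2 := fun x x' => rs_eq_iff

theorem FF_split (hne : H.Nonempty) {U U₁ : Finset I} (Z : Finset I) (hU₁ : U₁ ⊆ U) (n : ℕ) :
    FF (fun x : {x // x ∈ H} => rs U₁ x.1) (fun x => (rs (U \ U₁) x.1, rs Uᶜ x.1))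
      (fun x => (rs (U \ U₁) x.1, rs Z x.1)) n = FU H U₁ ((U \ U₁) ∪ Z) n := by
  have : Nonempty {x // x ∈ H} := hne.to_subtype
  unfold FU
  have hc : U₁ᶜ = (U \ U₁) ∪ Uᶜ := by
    ext i
    simp only [mem_compl, mem_union, mem_sdiff]
    have := @hU₁ i
    tauto
  refine FF_congr ?_ ?_ ?_ n
  · intro x x'
    rw [rs_union]
    simp only [Prod.mk.injEq]
  · intro x x'
    rw [hc, rs_union]
    simp only [Prod.mk.injEq]
  · intro x x'
    rw [rs_union]
    simp only [Prod.mk.injEq]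

/-- The two forms of `κ`. -/
theorem KU_eq (hne : H.Nonempty) {U Y Z : Finset I} (hUY : Disjoint U Y) (hUZ : Disjoint U Z)
    (hYZ : Disjoint Y Z) (q : ℕ) :
    KU H U Y Z q = kp (fun x : {x // x ∈ H} => rs U x.1) (fun x => rs Uᶜ x.1)
      (fun x => rs Y x.1) (fun x => rs Z x.1) q := by
  have : Nonempty {x // x ∈ H} := hne.to_subtype
  have s := s3_model hne hUY hUZ hYZ
  have h1 := cent_rho (B := Unit) (w := fun x : {x // x ∈ H} => rs U x.1)
    (o := fun x => rs Uᶜ x.1) (y := fun x => rs Y x.1) (z := fun x => rs Z x.1) q ()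
  have h2 : hk (kr H U Y Z) (fun x => rs Uᶜ x.1) = _ :=
    hk_rk (fun x : {x // x ∈ H} => rs U x.1) (fun x => rs Y x.1) (fun x => rs Z x.1)
      (fun x => rs Uᶜ x.1) s.hy
  rw [← h2] at h1
  unfold KU
  rw [sub_eq_iff_eq_add, ← h1]
  set κ1 : Option (Fin q) → {x // x ∈ H} → {x // x ∈ H} → ℝ :=
    fun t : Option (Fin q) => if t = none then kr H U Y Z else kz H U Z with hκ1
  have hk1 : ∀ t, IsKer (κ1 t) := by
    rintro (_ | t)
    · exact isKer_rk _ _ _
    · exact isKer_fk _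
  set s' : Option (Fin q) → Fin q ⊕ Unit := fun t => t.elim (Sum.inr ()) Sum.inl with hs'
  have hinj : Function.Injective s' := by
    rintro (_ | a) (_ | b) h
    · rfl
    · simp [hs'] at h
    · simp [hs'] at h
    · simpa [hs'] using h
  have hκeq : ∀ t, κ1 (id t) = K3 (Fin q) Unit (fun x : {x // x ∈ H} => rs U x.1)
      (fun x => rs Y x.1) (fun x => rs Z x.1) (s' t) := by
    rintro (_ | t)
    · rfl
    · rfl
  have e1 := ent_jt_marg (κ := κ1) (κ' := K3 (Fin q) Unit (fun x : {x // x ∈ H} => rs U x.1)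
      (fun x => rs Y x.1) (fun x => rs Z x.1)) (s := id) (s' := s') hk1 isKer_K3
      Function.injective_id hinj hκeq
      (fun x e => (rs Uᶜ (e none).1, rs Z x.1, fun t : Fin q => rs Uᶜ (e (some t)).1))
  have e2 := ent_jt_marg (κ := κ1) (κ' := K3 (Fin q) Unit (fun x : {x // x ∈ H} => rs U x.1)
      (fun x => rs Y x.1) (fun x => rs Z x.1)) (s := id) (s' := s') hk1 isKer_K3
      Function.injective_id hinj hκeq
      (fun x e => (rs Z x.1, fun t : Fin q => rs Uᶜ (e (some t)).1))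
  unfold cent
  exact congrArg₂ (· - ·) e1 e2

/-- (3.a) -/
theorem KU_lower (hne : H.Nonempty) {U Y Z : Finset I} (hUY : Disjoint U Y) (hUZ : Disjoint U Z)
    (hYZ : Disjoint Y Z) (hU : U.Nonempty) (q n p : ℕ) (hn : 0 < n) (hp : 0 < p) (M : ℝ)
    (V : (I → Option (Fin m)) → (I → Option (Fin m)) → Finset (I × Fin m))
    (hV : ∀ a b, ((V a b).card : ℝ) ≤ M)
    (Idx : (I → Option (Fin m)) → (I → Option (Fin m)) → (I → Option (Fin m)) → Option I)
    (hIdx : ∀ x ∈ H, ∀ a b u, Idx (rs U x) a b = some u → u ∈ U ∧ (u, x u) ∈ V a b) :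
    (1 - pnU H U Y Z Idx) * Real.log m - LamU H U Z q - U.card * Real.log 2 -
      (Real.log 2 + Real.log (1 + n * M) + nuU H U Y Z n Idx * Real.log (U.card * m)) -
      Real.log (1 + M) +
      2 * ((FU H U Y p - dS H (U ∪ Y ∪ Z) - (q + 2 * n) * (dS H univ + dS H (U ∪ Y ∪ Z))) / p) ≤
    2 * KU H U Y Z q := by
  have : Nonempty {x // x ∈ H} := hne.to_subtype
  have : Nonempty (Fin n) := ⟨⟨0, hn⟩⟩
  have l : (s3_model hne hUY hUZ hYZ).Lists V M
      (fun x a b => Idx (rs U x.1) a b) :=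
    ⟨hV, fun x a b u h => (hIdx x.1 x.2 a b u h).1, fun x a b u h => (hIdx x.1 x.2 a b u h).2⟩
  have h := l.a (N := Fin n) hU q p hp
  rw [KU_eq hne hUY hUZ hYZ]
  refine le_trans (le_of_eq ?_) h
  rw [Fintype.card_fin, Fintype.card_fin]
  have e1 : nuU H U Y Z n Idx = (∑ j : Fin n, nu (fun x : {x // x ∈ H} => rs U x.1)
      (fun x => rs Uᶜ x.1) (fun x => rs Y x.1) (fun x => rs Z x.1)
      (fun x a b => Idx (rs U x.1) a b) j) / n := by
    rw [div_eq_inv_mul]
    rfl
  rw [← e1]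
  rfl

/-- (3.b), first half -/
theorem sum_IQ_le (hne : H.Nonempty) {U U₁ Y Z : Finset I} (hUY : Disjoint U Y)
    (hUZ : Disjoint U Z) (hYZ : Disjoint Y Z) (hU₁ : U₁ ⊆ U) (q n p : ℕ) (hp : 0 < p) :
    ∑ u ∈ U \ U₁, IQ H U Y Z n u - dS H (U ∪ Y ∪ Z) +
      2 * n * ((FU H U₁ ((U \ U₁) ∪ Y) p - dS H (U ∪ Y ∪ Z) -
        2 * n * (dS H univ + dS H (U ∪ Y ∪ Z))) / p) ≤
    q * dS H univ + 2 * n * KU H U Y Z q := by
  have : Nonempty {x // x ∈ H} := hne.to_subtype
  have h := (split_model hne hUY hUZ hYZ hU₁).b1 (B := Fin n × Bool) q p hp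
  rw [KU_eq hne hUY hUZ hYZ, ← FF_split hne Y hU₁]
  rw [Fintype.card_prod, Fintype.card_fin, Fintype.card_bool] at h
  push_cast at h
  rw [mul_comm (n : ℝ) 2] at h
  have e1 : ∑ u ∈ U \ U₁, IQ H U Y Z n u = ∑ u ∈ U \ U₁,
      (cent (uni {x // x ∈ H}) (fun x => x.1 u) (fun x => rs Z x.1) -
        hQ (fun x : {x // x ∈ H} => rs U x.1) (fun x => rs Uᶜ x.1) (fun x => rs Y x.1)
          (fun x => rs Z x.1) (fun x => x.1 u) (Fin n × Bool)) := rfl
  rw [e1]
  rw [mul_sub] at h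
  linarith

/-- (3.b), second half -/
theorem le_sum_IQ (hne : H.Nonempty) {U Y Z : Finset I} (hUY : Disjoint U Y) (hUZ : Disjoint U Z)
    (hYZ : Disjoint Y Z) (n : ℕ) (M : ℝ)
    (V : (I → Option (Fin m)) → (I → Option (Fin m)) → Finset (I × Fin m))
    (hV : ∀ a b, ((V a b).card : ℝ) ≤ M)
    (Idx : (I → Option (Fin m)) → (I → Option (Fin m)) → (I → Option (Fin m)) → Option I)
    (hIdx : ∀ x ∈ H, ∀ a b u, Idx (rs U x) a b = some u → u ∈ U ∧ (u, x u) ∈ V a b) :
    n * nuU H U Y Z n Idx * (Real.log m - Real.log (1 + n * M)) - U.card * Real.log 2 -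
      dS H (U ∪ Y ∪ Z) ≤ ∑ u ∈ U, IQ H U Y Z n u := by
  have : Nonempty {x // x ∈ H} := hne.to_subtype
  have l : (s3_model hne hUY hUZ hYZ).Lists V M
      (fun x a b => Idx (rs U x.1) a b) :=
    ⟨hV, fun x a b u h => (hIdx x.1 x.2 a b u h).1, fun x a b u h => (hIdx x.1 x.2 a b u h).2⟩
  have h := l.b2 (N := Fin n)
  rw [Fintype.card_fin, Fintype.card_fin] at h
  refine le_trans (le_of_eq ?_) h
  congr 3
  rcases Nat.eq_zero_or_pos n with rfl | hn
  · simp
  · have hn' : (n : ℝ) ≠ 0 := by exact_mod_cast hn.ne'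
    unfold nuU
    rw [← mul_assoc, mul_inv_cancel₀ hn', one_mul]
    rfl

/-- (3.c), first half -/
theorem LamU_le (hne : H.Nonempty) {U Z : Finset I} (hUZ : Disjoint U Z) (q : ℕ) :
    LamU H U Z q ≤ dS H (U ∪ Z) + ∑ u ∈ U, IR H U Z q u := by
  have : Nonempty {x // x ∈ H} := hne.to_subtype
  have h := (s3_model hne (Y := ∅) (disjoint_empty_right U) hUZ (disjoint_empty_left Z)).c1 q
  rw [union_empty, Fintype.card_fin] at h
  exact h

/-- (3.c), second half -/
theorem sum_IR_le (hne : H.Nonempty) {U U₁ Z : Finset I} (hUZ : Disjoint U Z) (hU₁ : U₁ ⊆ U)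
    (q : ℕ) : ∑ u ∈ U \ U₁, IR H U Z q u ≤
      FU H U Z q - FU H U₁ ((U \ U₁) ∪ Z) q + dS H (U ∪ Z) := by
  have : Nonempty {x // x ∈ H} := hne.to_subtype
  have h := (split_model hne (Y := ∅) (disjoint_empty_right U) hUZ (disjoint_empty_left Z)
    hU₁).c2 q
  rw [union_empty] at h
  rw [← FF_split hne Z hU₁]
  exact h

end RFold
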