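import Pool.Agent.Lib.MP_3581cd_co.CEx
import Pool.Agent.Lib.MP_3581cd_co.ModelInst
import Pool.Agent.Lib.MP_3581cd_co.Sect3Model
import Pool.Agent.Lib.MP_3581cd_co.Params

/-!
# MP_3581cd_co: averages over all permutations of the coordinates
-/

set_option linter.unusedSectionVars false

namespace RFold

open Finset

section segs

variable (I : Type) [Fintype I] [DecidableEq I]

/-- The coordinates with numbers in `[a, b)`. -/
noncomputable def seg (a b : ℕ) : Finset I :=
  univ.filter fun x => a ≤ (Fintype.equivFin I x).val ∧ (Fintype.equivFin I x).val < b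

variable {I}

theorem mem_seg {a b : ℕ} {x : I} :
    x ∈ seg I a b ↔ a ≤ (Fintype.equivFin I x).val ∧ (Fintype.equivFin I x).val < b := by
  simp [seg]

theorem card_seg {a b : ℕ} (hb : b ≤ Fintype.card I) : (seg I a b).card = b - a := by
  have h1 : (seg I a b).image (fun x => (Fintype.equivFin I x).val) = Finset.Ico a b := by
    ext j
    simp only [mem_image, mem_seg, mem_Ico]
    constructor
    · rintro ⟨x, hx, rfl⟩
      exact hx
    · intro hj
      refine ⟨(Fintype.equivFin I).symm ⟨j, by omega⟩, ?_, ?_⟩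
      · simpa using hj
      · simp
  rw [← Nat.card_Ico a b, ← h1, card_image_of_injective]
  intro x y hxy
  exact (Fintype.equivFin I).injective (Fin.ext hxy)

theorem disjoint_seg {a b c d : ℕ} (h : b ≤ c) : Disjoint (seg I a b) (seg I c d) := by
  rw [Finset.disjoint_left]
  intro x hx hx'
  rw [mem_seg] at hx hx'
  omega

theorem seg_union {a b c : ℕ} (h : a ≤ b) (h' : b ≤ c) : seg I a b ∪ seg I b c = seg I a c := by
  ext x
  simp only [mem_union, mem_seg]
  omega

theorem seg_mono {a b c : ℕ} (h : b ≤ c) : seg I a b ⊆ seg I a c := by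
  intro x hx
  rw [mem_seg] at hx ⊢
  omega

theorem seg_sdiff {a b c : ℕ} (h : a ≤ b) : seg I a c \ seg I a b = seg I b c := by
  ext x
  simp only [mem_sdiff, mem_seg]
  omega

theorem map_union' (S T : Finset I) (σ : Equiv.Perm I) :
    (S ∪ T).map σ.toEmbedding = S.map σ.toEmbedding ∪ T.map σ.toEmbedding := map_union _ _

theorem map_sdiff' (S T : Finset I) (σ : Equiv.Perm I) :
    (S \ T).map σ.toEmbedding = S.map σ.toEmbedding \ T.map σ.toEmbedding := by
  ext x
  simp only [mem_map_equiv, mem_sdiff]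

/-! ### averages -/

theorem fact_pos : (0 : ℝ) < ((Fintype.card I).factorial : ℝ) := by
  exact_mod_cast Nat.factorial_pos _

theorem avg_mono {f g : Equiv.Perm I → ℝ} (h : ∀ σ, f σ ≤ g σ) : avg f ≤ avg g := by
  unfold avg
  exact div_le_div_of_nonneg_right (sum_le_sum fun σ _ => h σ) fact_pos.le

theorem avg_add (f g : Equiv.Perm I → ℝ) : avg (fun σ => f σ + g σ) = avg f + avg g := by
  unfold avg
  rw [sum_add_distrib, add_div]

theorem avg_sub (f g : Equiv.Perm I → ℝ) : avg (fun σ => f σ - g σ) = avg f - avg g := by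
  unfold avg
  rw [sum_sub_distrib, sub_div]

theorem avg_mul (c : ℝ) (f : Equiv.Perm I → ℝ) : avg (fun σ => c * f σ) = c * avg f := by
  unfold avg
  rw [← mul_sum, mul_div_assoc]

theorem avg_div (c : ℝ) (f : Equiv.Perm I → ℝ) : avg (fun σ => f σ / c) = avg f / c := by
  unfold avg
  rw [← sum_div, div_right_comm]

theorem avg_const (c : ℝ) : avg (fun _ : Equiv.Perm I => c) = c := by
  unfold avg
  rw [sum_const, nsmul_eq_mul, card_univ, Fintype.card_perm]
  exact mul_div_cancel_left₀ _ (fact_pos (I := I)).ne'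

theorem avg_sum {τ : Type*} (s : Finset τ) (f : τ → Equiv.Perm I → ℝ) :
    avg (fun σ => ∑ t ∈ s, f t σ) = ∑ t ∈ s, avg (f t) := by
  unfold avg
  rw [sum_comm, sum_div]

theorem avg_three {U Y Z U' Y' Z' : Finset I} (h1 : Disjoint U Y) (h2 : Disjoint U Z)
    (h3 : Disjoint Y Z) (h1' : Disjoint U' Y') (h2' : Disjoint U' Z') (h3' : Disjoint Y' Z')
    (c1 : U.card = U'.card) (c2 : Y.card = Y'.card) (c3 : Z.card = Z'.card)
    (f : Finset I → Finset I → Finset I → ℝ) :
    avg (fun σ : Equiv.Perm I => f (U.map σ.toEmbedding) (Y.map σ.toEmbedding)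
      (Z.map σ.toEmbedding)) =
      avg (fun σ : Equiv.Perm I => f (U'.map σ.toEmbedding) (Y'.map σ.toEmbedding)
        (Z'.map σ.toEmbedding)) := by
  unfold avg
  rw [sum_perm_three h1 h2 h3 h1' h2' h3' c1 c2 c3 f]

theorem avg_two {U Z U' Z' : Finset I} (h1 : Disjoint U Z) (h1' : Disjoint U' Z')
    (c1 : U.card = U'.card) (c2 : Z.card = Z'.card) (f : Finset I → Finset I → ℝ) :
    avg (fun σ : Equiv.Perm I => f (U.map σ.toEmbedding) (Z.map σ.toEmbedding)) =
      avg (fun σ : Equiv.Perm I => f (U'.map σ.toEmbedding) (Z'.map σ.toEmbedding)) := by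
  unfold avg
  rw [sum_perm_two h1 h1' c1 c2 f]

end segs

section CE

variable {D δ : ℝ} {K' i : ℕ}

namespace CEx

variable (X : CEx D δ K' i)

/-- The averaged profile. -/
noncomputable def Φ (n s t : ℕ) : ℝ :=
  avg fun σ => FU X.H ((seg X.I 0 s).map σ.toEmbedding)
    ((seg X.I s (s + t)).map σ.toEmbedding) n / X.L

/-- The averaged `κ`. -/
noncomputable def κ (s y z q : ℕ) : ℝ :=
  avg fun σ => KU X.H ((seg X.I 0 s).map σ.toEmbedding)
    ((seg X.I s (s + y)).map σ.toEmbedding) ((seg X.I (s + y) (s + y + z)).map σ.toEmbedding) q /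
      X.L

/-- The averaged `Λ`. -/
noncomputable def Λ (s z q : ℕ) : ℝ :=
  avg fun σ => LamU X.H ((seg X.I 0 s).map σ.toEmbedding)
    ((seg X.I s (s + z)).map σ.toEmbedding) q / X.L

/-- The averaged probability that the index does not exist. -/
noncomputable def pn (Idx : Finset X.I → Finset X.I → Finset X.I → (X.I → Option (Fin X.m)) →
    (X.I → Option (Fin X.m)) → (X.I → Option (Fin X.m)) → Option X.I) (s y z : ℕ) : ℝ :=
  avg fun σ => pnU X.H ((seg X.I 0 s).map σ.toEmbedding)
    ((seg X.I s (s + y)).map σ.toEmbedding) ((seg X.I (s + y) (s + y + z)).map σ.toEmbedding)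
    (Idx ((seg X.I 0 s).map σ.toEmbedding)
      ((seg X.I s (s + y)).map σ.toEmbedding) ((seg X.I (s + y) (s + y + z)).map σ.toEmbedding))

/-- The averaged `ν`. -/
noncomputable def ν (Idx : Finset X.I → Finset X.I → Finset X.I → (X.I → Option (Fin X.m)) →
    (X.I → Option (Fin X.m)) → (X.I → Option (Fin X.m)) → Option X.I) (s y z n : ℕ) : ℝ :=
  avg fun σ => nuU X.H ((seg X.I 0 s).map σ.toEmbedding)
    ((seg X.I s (s + y)).map σ.toEmbedding) ((seg X.I (s + y) (s + y + z)).map σ.toEmbedding) n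
    (Idx ((seg X.I 0 s).map σ.toEmbedding)
      ((seg X.I s (s + y)).map σ.toEmbedding) ((seg X.I (s + y) (s + y + z)).map σ.toEmbedding))

variable {X}

theorem disj (σ : Equiv.Perm X.I) {S T : Finset X.I} (h : Disjoint S T) :
    Disjoint (S.map σ.toEmbedding) (T.map σ.toEmbedding) := (disjoint_map _).2 h

theorem Φ_zero (s t : ℕ) : X.Φ 0 s t = 0 := by
  unfold Φ
  have : (fun σ : Equiv.Perm X.I => FU X.H ((seg X.I 0 s).map σ.toEmbedding)
    ((seg X.I s (s + t)).map σ.toEmbedding) 0 / X.L) = fun _ => 0 := by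
    funext σ
    rw [FU_zero X.hne (disj σ (disjoint_seg le_rfl)), zero_div]
  rw [this, avg_const]

theorem Φ_one (s t : ℕ) : X.Φ 1 s t ≤ D := by
  unfold Φ
  refine le_trans (avg_mono (g := fun _ => D) fun σ => ?_) (avg_const D).le
  rw [div_le_iff₀ X.L_pos]
  exact (FU_one_le X.hne (disj σ (disjoint_seg le_rfl))).trans X.dS_univ_le

theorem Φ_mono (n s t : ℕ) : X.Φ n s t ≤ X.Φ (n + 1) s t := by
  unfold Φ
  refine avg_mono fun σ => ?_
  exact div_le_div_of_nonneg_right (FU_mono X.hne (disj σ (disjoint_seg le_rfl)) n) X.L_pos.le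

theorem Φ_conc (n s t : ℕ) : X.Φ (n + 2) s t + X.Φ n s t ≤ 2 * X.Φ (n + 1) s t := by
  unfold Φ
  rw [← avg_add, ← avg_mul]
  refine avg_mono fun σ => ?_
  rw [← add_div, ← mul_div_assoc]
  exact div_le_div_of_nonneg_right (FU_conc X.hne (disj σ (disjoint_seg le_rfl)) n) X.L_pos.le

theorem Φ_P2 (q n s : ℕ) {t t' : ℕ} (ht : t ≤ t') :
    X.Φ q s t' ≤ X.Φ n s t + q * (X.Φ (n + 1) s t - X.Φ n s t) := by
  unfold Φ
  rw [← avg_sub, ← avg_mul, ← avg_add]
  refine avg_mono fun σ => ?_
  have h := FU_P2 X.hne (H := X.H) (U := (seg X.I 0 s).map σ.toEmbedding)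
    (Z := (seg X.I s (s + t)).map σ.toEmbedding) (Z' := (seg X.I s (s + t')).map σ.toEmbedding)
    (disj σ (disjoint_seg le_rfl)) (map_subset_map.2 (seg_mono (by omega))) q n
  have h2 := div_le_div_of_nonneg_right h X.L_pos.le
  refine h2.trans (le_of_eq ?_)
  ring

theorem Φ_P3 (n : ℕ) {s₁ s t : ℕ} (hs : s₁ ≤ s) : X.Φ n s₁ (s - s₁ + t) ≤ X.Φ n s t := by
  unfold Φ
  refine avg_mono fun σ => ?_
  have h := FU_P3 X.hne (H := X.H) (U₁ := (seg X.I 0 s₁).map σ.toEmbedding)
    (U := (seg X.I 0 s).map σ.toEmbedding)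
    (Z := (seg X.I s (s + t)).map σ.toEmbedding)
    (disj σ (disjoint_seg le_rfl)) (map_subset_map.2 (seg_mono hs)) n
  rw [← map_sdiff', ← map_union', seg_sdiff (Nat.zero_le _), seg_union hs (by omega)] at h
  have e : s₁ + (s - s₁ + t) = s + t := by omega
  rw [e]
  exact div_le_div_of_nonneg_right h X.L_pos.le

/-- The averaged deficiency of the first `a` coordinates. -/
noncomputable def er (X : CEx D δ K' i) (a : ℕ) : ℝ :=
  avg fun σ => dS X.H ((seg X.I 0 a).map σ.toEmbedding) / X.L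

theorem er_nonneg (a : ℕ) : 0 ≤ X.er a := by
  unfold er
  rw [← avg_const (I := X.I) 0]
  exact avg_mono fun σ => div_nonneg (dS_nonneg X.hne _) X.L_pos.le

end CEx

end CE

end RFold
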