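import Pool.Agent.Lib.MP_3581cd_co.Lists
import Pool.Agent.Lib.MP_3581cd_co.ModelDefs

/-!
# MP_3581cd_co: the error terms of the averaged inequalities
-/

namespace RFold

open Filter Topology

theorem tendsto_log_nat : Tendsto (fun m : ℕ => Real.log (m : ℝ)) atTop atTop :=
  Real.tendsto_log_atTop.comp tendsto_natCast_atTop_atTop

/-- The lists are short. -/
theorem log_MV_le {D'' : ℝ} (hD : 0 < D'') (n : ℕ) {ε : ℝ} (he : 0 < ε) :
    ∃ m0 : ℕ, ∀ m : ℕ, m0 ≤ m →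
      Real.log (1 + n * MV m D'') ≤ (1 / 20 + ε) * Real.log m := by
  -- `1 + n MV ≤ m ^ (1/20 + ε)` for large `m`
  have h1 : ∀ᶠ m : ℕ in atTop, 1 + n * MV m D'' ≤ (m : ℝ) ^ (1 / 20 + ε) := by
    have a1 : (fun m : ℕ => Real.log (m : ℝ)) =o[atTop] fun m : ℕ => (m : ℝ) ^ (ε / 2) :=
      (isLittleO_log_rpow_atTop (half_pos he)).comp_tendsto tendsto_natCast_atTop_atTop
    have a2 : ∀ᶠ m : ℕ in atTop, Real.log (m : ℝ) ≤ (m : ℝ) ^ (ε / 2) := by
      filter_upwards [a1.bound (c := 1) one_pos, eventually_ge_atTop 1] with m hm hm1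
      have h0 : 0 ≤ Real.log (m : ℝ) := Real.log_nonneg (by exact_mod_cast hm1)
      rw [Real.norm_eq_abs, Real.norm_eq_abs, abs_of_nonneg h0, one_mul,
        abs_of_nonneg (by positivity)] at hm
      exact hm
    have a3 : ∀ᶠ m : ℕ in atTop, (1 + n * (D'' + 1) : ℝ) ≤ (m : ℝ) ^ (ε / 2) := by
      have := (tendsto_rpow_atTop (half_pos he)).comp tendsto_natCast_atTop_atTop
        (f := fun m : ℕ => (m : ℝ)) (x := atTop)
      exact this.eventually_ge_atTop _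
    filter_upwards [a2, a3, eventually_ge_atTop 1] with m h2 h3 hm1
    have hm : (1 : ℝ) ≤ m := by exact_mod_cast hm1
    have hm0 : (0 : ℝ) < m := by linarith
    have e1 : (1 : ℝ) ≤ (m : ℝ) ^ (1 / 20 : ℝ) := Real.one_le_rpow hm (by norm_num)
    have e2 : (1 : ℝ) ≤ (m : ℝ) ^ (ε / 2) := Real.one_le_rpow hm (by linarith)
    have e3 : (m : ℝ) ^ (1 / 20 + ε) = (m : ℝ) ^ (1 / 20 : ℝ) * (m : ℝ) ^ (ε / 2) *
        (m : ℝ) ^ (ε / 2) := by
      rw [← Real.rpow_add hm0, ← Real.rpow_add hm0]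
      congr 1
      ring
    rw [e3]
    unfold MV
    set A := (m : ℝ) ^ (1 / 20 : ℝ) with hA
    set B := (m : ℝ) ^ (ε / 2) with hB
    have hn : (0 : ℝ) ≤ n := Nat.cast_nonneg n
    have e4 : A * (D'' * Real.log m) + 1 ≤ (D'' + 1) * (A * B) := by
      have f1 : A * (D'' * Real.log m) ≤ A * (D'' * B) :=
        mul_le_mul_of_nonneg_left (mul_le_mul_of_nonneg_left h2 hD.le) (by linarith)
      have f2 : 1 ≤ A * B := one_le_mul_of_one_le_of_one_le e1 e2
      nlinarith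
    have e5 : (n : ℝ) * (A * (D'' * Real.log m) + 1) ≤ n * ((D'' + 1) * (A * B)) :=
      mul_le_mul_of_nonneg_left e4 hn
    have f2 : 1 ≤ A * B := one_le_mul_of_one_le_of_one_le e1 e2
    have e6 : (1 + n * (D'' + 1)) * (A * B) ≤ B * (A * B) :=
      mul_le_mul_of_nonneg_right h3 (by linarith)
    nlinarith
  obtain ⟨m0, hm0⟩ := eventually_atTop.1 (h1.and (eventually_ge_atTop 1))
  refine ⟨m0, fun m hm => ?_⟩
  obtain ⟨h2, h3⟩ := hm0 m hm
  have hm : (1 : ℝ) ≤ m := by exact_mod_cast h3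
  have hmp : (0 : ℝ) < m := by linarith
  have hMV : 0 ≤ MV m D'' := by
    unfold MV
    have := Real.log_nonneg hm
    positivity
  have h4 : (0 : ℝ) < 1 + n * MV m D'' := by positivity
  have h5 := Real.log_le_log h4 h2
  rwa [Real.log_rpow hmp] at h5

/-- The choice of `m` in the sequence of counterexamples. -/
theorem exists_M {δ : ℝ} (hd : 0 < δ) (i K : ℕ) : ∃ m0 : ℕ, ∀ m : ℕ, m0 ≤ m →
    2 ≤ m ∧ (i : ℝ) ≤ Real.log m ∧ Real.log K ≤ δ / 4 * Real.log m ∧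
      40 * (K : ℝ) ^ 2 * (m : ℝ) ^ (-(δ / 2)) ≤ 1 / (i + 1) := by
  have h1 : ∀ᶠ m : ℕ in atTop, (i : ℝ) ≤ Real.log m := tendsto_log_nat.eventually_ge_atTop _
  have h2 : ∀ᶠ m : ℕ in atTop, Real.log K ≤ δ / 4 * Real.log m :=
    (tendsto_log_nat.const_mul_atTop (by positivity : 0 < δ / 4)).eventually_ge_atTop _
  have h3 : Tendsto (fun m : ℕ => 40 * (K : ℝ) ^ 2 * (m : ℝ) ^ (-(δ / 2))) atTop (𝓝 0) := by
    have := ((tendsto_rpow_neg_atTop (half_pos hd)).comp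
      (tendsto_natCast_atTop_atTop (R := ℝ))).const_mul (40 * (K : ℝ) ^ 2)
    rw [mul_zero] at this
    exact this
  have h4 : ∀ᶠ m : ℕ in atTop, 40 * (K : ℝ) ^ 2 * (m : ℝ) ^ (-(δ / 2)) ≤ 1 / (i + 1) :=
    (h3.eventually_lt_const (by positivity)).mono fun _ h => h.le
  obtain ⟨m0, hm0⟩ := eventually_atTop.1 (((eventually_ge_atTop 2).and (h1.and (h2.and h4))))
  exact ⟨m0, hm0⟩

section Nu

variable {I : Type} [Fintype I] [DecidableEq I] {m : ℕ} {H : Finset (I → Fin m)}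
  {U Y Z : Finset I} {n : ℕ}
  {Idx : (I → Option (Fin m)) → (I → Option (Fin m)) → (I → Option (Fin m)) → Option I}

omit [Fintype I] in
theorem isPr_kr_family (hne : H.Nonempty) (U Y Z : Finset I) {ι : Type*} [Fintype ι]
    [DecidableEq ι] : IsPr (jt (fun _ : ι => kr H U Y Z)) := by
  have : Nonempty {x // x ∈ H} := hne.to_subtype
  exact isPr_jt fun _ => isKer_comp (isKer_fk _) (isKer_fk _)

theorem nuU_nonneg (hne : H.Nonempty) : 0 ≤ nuU H U Y Z n Idx := by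
  unfold nuU
  exact mul_nonneg (by positivity) (Finset.sum_nonneg fun j _ =>
    pr_nonneg (isPr_kr_family hne U Y Z) _)

theorem nuU_le_one (hne : H.Nonempty) : nuU H U Y Z n Idx ≤ 1 := by
  unfold nuU
  rcases Nat.eq_zero_or_pos n with rfl | hn
  · simp
  · have hn' : (0 : ℝ) < n := by exact_mod_cast hn
    rw [inv_mul_le_iff₀ hn', mul_one]
    refine (Finset.sum_le_sum fun j _ => pr_le_one (isPr_kr_family hne U Y Z) _).trans
      (le_of_eq ?_)
    simp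

theorem pnU_nonneg (hne : H.Nonempty) : 0 ≤ pnU H U Y Z Idx := pr_nonneg (isPr_kr_family hne U Y Z) _

theorem pnU_le_one (hne : H.Nonempty) : pnU H U Y Z Idx ≤ 1 := pr_le_one (isPr_kr_family hne U Y Z) _

end Nu

end RFold
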