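import Pool.Agent.Lib.MP_3581cd_co.AvgDefs
import Pool.Agent.Lib.MP_3581cd_co.AvgErr

/-!
# MP_3581cd_co: the averaged inequalities of section 3
-/

set_option linter.unusedSectionVars false

namespace RFold

open Finset

variable {D δ : ℝ} {K' : ℕ}

/-- all indices come from section 4 -/
def AllGood {i : ℕ} (X : CEx D δ K' i)
    (Idx : Finset X.I → Finset X.I → Finset X.I → (X.I → Option (Fin X.m)) →
      (X.I → Option (Fin X.m)) → (X.I → Option (Fin X.m)) → Option X.I) : Prop :=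
  ∀ U Y Z : Finset X.I, Disjoint U Y → Disjoint U Z → Disjoint Y Z → K' ≤ U.card →
    U ≠ Finset.univ → GoodIdx X U Y Z (Idx U Y Z)

theorem CEx.i_le_m {i : ℕ} (X : CEx D δ K' i) : i ≤ X.m := by
  have h1 := X.log_ge
  have hm : (0 : ℝ) < X.m := by
    have := X.m_ge
    have : (2 : ℝ) ≤ X.m := by exact_mod_cast this
    linarith
  have h2 := Real.log_le_sub_one_of_pos hm
  have h3 : (i : ℝ) ≤ X.m := by linarith
  exact_mod_cast h3

theorem CEx.i_le_L {i : ℕ} (X : CEx D δ K' i) : (i : ℝ) ≤ X.L := X.log_ge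

/-- the segments are proper -/
theorem CEx.seg_map_ne_univ {i : ℕ} (X : CEx D δ K' i) {s : ℕ} (hs : s < Fintype.card X.I)
    (σ : Equiv.Perm X.I) : (seg X.I 0 s).map σ.toEmbedding ≠ Finset.univ := by
  intro h
  have h1 := congrArg Finset.card h
  rw [card_map, card_seg hs.le, card_univ] at h1
  omega

/-- small error terms -/
theorem exists_err (D : ℝ) (hD : 1 ≤ D) (n : ℕ) (c : ℝ) {ε : ℝ} (hε : 0 < ε) : ∃ i₀ : ℕ,
    ∀ i, i₀ ≤ i → ∀ X : CEx D δ K' i,
      Real.log (1 + n * MV X.m (20 * (D + 1))) ≤ (1 / 20 + ε) * X.L ∧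
      Real.log (1 + MV X.m (20 * (D + 1))) ≤ (1 / 20 + ε) * X.L ∧
      c ≤ ε * X.L := by
  have hD' : 0 < 20 * (D + 1) := by linarith
  obtain ⟨m1, h1⟩ := log_MV_le hD' n hε
  obtain ⟨m2, h2⟩ := log_MV_le hD' 1 hε
  obtain ⟨i₁, hi₁⟩ := exists_nat_ge (c / ε)
  refine ⟨m1 + m2 + i₁, fun i hi X => ?_⟩
  have hm := X.i_le_m
  have hL := X.i_le_L
  refine ⟨h1 X.m (by omega), ?_, ?_⟩
  · have := h2 X.m (by omega)
    rw [Nat.cast_one, one_mul] at this
    exact this
  · rw [div_le_iff₀ hε] at hi₁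
    have h3 : (i₁ : ℝ) ≤ X.L := le_trans (by exact_mod_cast (by omega : i₁ ≤ i)) hL
    calc c ≤ i₁ * ε := hi₁
      _ ≤ X.L * ε := mul_le_mul_of_nonneg_right h3 hε.le
      _ = ε * X.L := mul_comm _ _

theorem CEx.h3a_small (hD : 1 ≤ D) {s y z q n p : ℕ} (hs : 0 < s) (hK : K' ≤ s) (hn : 0 < n)
    (hp : 0 < p) {ε : ℝ} (hε : 0 < ε) : ∃ i₀, ∀ i, i₀ ≤ i → ∀ X : CEx D δ K' i, ∀ Idx,
      AllGood X Idx →
    (1 - X.pn Idx s y z) - X.Λ s z q - (1 / 20 + X.ν Idx s y z n) - 1 / 20 +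
      2 * ((X.Φ p s y - (q + 2 * n) * D) / p) ≤ 2 * X.κ s y z q + ε := by
  -- the errors
  have hε4 : 0 < ε / 4 := by linarith
  have hε8 : 0 < ε / 8 := by linarith
  obtain ⟨i₁, hi₁⟩ := exists_err (δ := δ) (K' := K') D hD n
    (((s : ℝ) + 1) * Real.log 2 + Real.log s) hε8
  have hc : (0 : ℝ) < 2 * (1 + q + 2 * n) := by positivity
  obtain ⟨i₂, hi₂⟩ := avg_dS_small (δ := δ) (K' := K') hD (s + y + z) (ε / 2 / (2 * (1 + q + 2 * n)))
    (by positivity)
  refine ⟨i₁ + i₂ + (s + y + z + 1), fun i hi X Idx hIdx => ?_⟩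
  obtain ⟨e1, e2, e3⟩ := hi₁ i (by omega) X
  have hcard : s + y + z < Fintype.card X.I := by
    have := X.card_ge
    omega
  have hLpos := X.L_pos
  have hLdef : Real.log X.m = X.L := rfl
  have hpr : (0 : ℝ) < p := by exact_mod_cast hp
  have hp1 : (1 : ℝ) ≤ p := by exact_mod_cast hp
  have hs1 : (1 : ℝ) ≤ s := by exact_mod_cast hs
  -- the deficiency
  have hS := hi₂ i (by omega) X (seg X.I 0 (s + y + z)) (by
    rw [card_seg hcard.le]
    omega)
  -- the pointwise inequality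
  set U0 := seg X.I 0 s with hU0
  set Y0 := seg X.I s (s + y) with hY0
  set Z0 := seg X.I (s + y) (s + y + z) with hZ0
  have hpt : ∀ σ : Equiv.Perm X.I,
      (1 - pnU X.H (U0.map σ.toEmbedding) (Y0.map σ.toEmbedding) (Z0.map σ.toEmbedding)
        (Idx (U0.map σ.toEmbedding) (Y0.map σ.toEmbedding) (Z0.map σ.toEmbedding))) -
      LamU X.H (U0.map σ.toEmbedding) (Z0.map σ.toEmbedding) q / X.L -
      (1 / 20 + nuU X.H (U0.map σ.toEmbedding) (Y0.map σ.toEmbedding) (Z0.map σ.toEmbedding) n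
        (Idx (U0.map σ.toEmbedding) (Y0.map σ.toEmbedding) (Z0.map σ.toEmbedding))) - 1 / 20 +
      2 * ((FU X.H (U0.map σ.toEmbedding) (Y0.map σ.toEmbedding) p / X.L -
        (q + 2 * n) * D) / p) ≤
      2 * (KU X.H (U0.map σ.toEmbedding) (Y0.map σ.toEmbedding) (Z0.map σ.toEmbedding) q / X.L) +
        (ε / 2 + 2 * (1 + q + 2 * n) *
          (dS X.H ((seg X.I 0 (s + y + z)).map σ.toEmbedding) / X.L)) := by
    intro σ
    have dUY := CEx.disj σ (X := X) (disjoint_seg (I := X.I) (a := 0) (b := s) (c := s)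
      (d := s + y) le_rfl)
    have dUZ := CEx.disj σ (X := X) (disjoint_seg (I := X.I) (a := 0) (b := s) (c := s + y)
      (d := s + y + z) (by omega))
    have dYZ := CEx.disj σ (X := X) (disjoint_seg (I := X.I) (a := s) (b := s + y) (c := s + y)
      (d := s + y + z) le_rfl)
    rw [← hU0, ← hY0] at dUY
    rw [← hU0, ← hZ0] at dUZ
    rw [← hY0, ← hZ0] at dYZ
    have hUc : (U0.map σ.toEmbedding).card = s := by
      rw [card_map, hU0, card_seg (by omega)]
      omega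
    obtain ⟨V, hV, hIV, -⟩ := hIdx _ _ _ dUY dUZ dYZ (by rw [hUc]; exact hK)
      (X.seg_map_ne_univ (by omega) σ)
    have hUne : (U0.map σ.toEmbedding).Nonempty := by
      rw [← card_pos, hUc]
      exact hs
    have key := KU_lower X.hne dUY dUZ dYZ hUne q n p hn hp _ V hV _ hIV
    have hun : U0.map σ.toEmbedding ∪ Y0.map σ.toEmbedding ∪ Z0.map σ.toEmbedding =
        (seg X.I 0 (s + y + z)).map σ.toEmbedding := by
      rw [← map_union', ← map_union', hU0, hY0, hZ0, seg_union (by omega) (by omega),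
        seg_union (by omega) (by omega)]
    rw [hun, hUc, hLdef] at key
    have hν0 := nuU_nonneg (U := U0.map σ.toEmbedding) (Y := Y0.map σ.toEmbedding)
      (Z := Z0.map σ.toEmbedding) (n := n)
      (Idx := Idx (U0.map σ.toEmbedding) (Y0.map σ.toEmbedding) (Z0.map σ.toEmbedding)) X.hne
    have hν1 := nuU_le_one (U := U0.map σ.toEmbedding) (Y := Y0.map σ.toEmbedding)
      (Z := Z0.map σ.toEmbedding) (n := n)
      (Idx := Idx (U0.map σ.toEmbedding) (Y0.map σ.toEmbedding) (Z0.map σ.toEmbedding)) X.hne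
    have hdS0 := dS_nonneg X.hne ((seg X.I 0 (s + y + z)).map σ.toEmbedding)
    have hDL := X.dS_univ_le
    set pnv := pnU X.H (U0.map σ.toEmbedding) (Y0.map σ.toEmbedding) (Z0.map σ.toEmbedding)
        (Idx (U0.map σ.toEmbedding) (Y0.map σ.toEmbedding) (Z0.map σ.toEmbedding)) with hpnv
    set nuv := nuU X.H (U0.map σ.toEmbedding) (Y0.map σ.toEmbedding) (Z0.map σ.toEmbedding) n
        (Idx (U0.map σ.toEmbedding) (Y0.map σ.toEmbedding) (Z0.map σ.toEmbedding)) with hnuv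
    set Lamv := LamU X.H (U0.map σ.toEmbedding) (Z0.map σ.toEmbedding) q with hLamv
    set Fv := FU X.H (U0.map σ.toEmbedding) (Y0.map σ.toEmbedding) p with hFv
    set Kv := KU X.H (U0.map σ.toEmbedding) (Y0.map σ.toEmbedding) (Z0.map σ.toEmbedding) q
      with hKv
    set dv := dS X.H ((seg X.I 0 (s + y + z)).map σ.toEmbedding) with hdv
    set dU := dS X.H Finset.univ with hdU
    -- the logarithm of `s m`
    have hmpos : (0 : ℝ) < X.m := by
      have := X.m_ge
      have : (2 : ℝ) ≤ X.m := by exact_mod_cast this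
      linarith
    have hlog : Real.log (s * X.m) = Real.log s + X.L := by
      rw [Real.log_mul (by positivity) hmpos.ne', hLdef]
    have hlogs : 0 ≤ Real.log s := Real.log_nonneg hs1
    rw [hlog] at key
    -- all error terms
    have k1 : nuv * (Real.log s + X.L) ≤ Real.log s + nuv * X.L := by nlinarith
    have k2 : (Fv - dv - (q + 2 * n) * (dU + dv)) / p ≥
        (Fv - (q + 2 * n) * (D * X.L)) / p - (1 + q + 2 * n) * dv := by
      have a1 : Fv - (q + 2 * n) * (D * X.L) - (1 + q + 2 * n) * dv ≤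
          Fv - dv - (q + 2 * n) * (dU + dv) := by
        have : (0 : ℝ) ≤ q + 2 * n := by positivity
        nlinarith
      have a2 := div_le_div_of_nonneg_right a1 hpr.le
      have a3 : (1 + q + 2 * n) * dv / p ≤ (1 + q + 2 * n) * dv :=
        div_le_self (by positivity) hp1
      rw [sub_div] at a2
      linarith
    have key2 : (1 - pnv) * X.L - Lamv - (1 / 20 * X.L + nuv * X.L) - 1 / 20 * X.L +
        2 * ((Fv - (q + 2 * n) * (D * X.L)) / p) ≤
        2 * Kv + (ε / 2 * X.L + 2 * (1 + q + 2 * n) * dv) := by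
      have : ((s : ℝ) + 1) * Real.log 2 + Real.log s ≤ ε / 8 * X.L := e3
      nlinarith [key, k1, k2, e1, e2, this]
    have key3 := div_le_div_of_nonneg_right key2 hLpos.le
    refine le_trans (le_of_eq ?_) (key3.trans (le_of_eq ?_))
    · field_simp
    · field_simp
  have havg := avg_mono hpt
  have hΛ : X.Λ s z q = avg fun σ => LamU X.H (U0.map σ.toEmbedding) (Z0.map σ.toEmbedding) q /
      X.L := by
    unfold CEx.Λ
    refine avg_two (disjoint_seg le_rfl) (disjoint_seg (by omega)) rfl ?_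
      (fun U Z => LamU X.H U Z q / X.L)
    rw [card_seg (by omega), card_seg (by omega)]
    omega
  have l1 : avg (fun σ : Equiv.Perm X.I =>
      (1 - pnU X.H (U0.map σ.toEmbedding) (Y0.map σ.toEmbedding) (Z0.map σ.toEmbedding)
        (Idx (U0.map σ.toEmbedding) (Y0.map σ.toEmbedding) (Z0.map σ.toEmbedding))) -
      LamU X.H (U0.map σ.toEmbedding) (Z0.map σ.toEmbedding) q / X.L -
      (1 / 20 + nuU X.H (U0.map σ.toEmbedding) (Y0.map σ.toEmbedding) (Z0.map σ.toEmbedding) n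
        (Idx (U0.map σ.toEmbedding) (Y0.map σ.toEmbedding) (Z0.map σ.toEmbedding))) - 1 / 20 +
      2 * ((FU X.H (U0.map σ.toEmbedding) (Y0.map σ.toEmbedding) p / X.L -
        (q + 2 * n) * D) / p)) =
      (1 - X.pn Idx s y z) - X.Λ s z q - (1 / 20 + X.ν Idx s y z n) - 1 / 20 +
      2 * ((X.Φ p s y - (q + 2 * n) * D) / p) := by
    rw [hΛ]
    unfold CEx.Φ CEx.pn CEx.ν
    simp only [avg_add, avg_sub, avg_mul, avg_div, avg_const]
    rfl
  have l2 : avg (fun σ : Equiv.Perm X.I =>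
      2 * (KU X.H (U0.map σ.toEmbedding) (Y0.map σ.toEmbedding) (Z0.map σ.toEmbedding) q / X.L) +
        (ε / 2 + 2 * (1 + q + 2 * n) *
          (dS X.H ((seg X.I 0 (s + y + z)).map σ.toEmbedding) / X.L))) =
      2 * X.κ s y z q + (ε / 2 + 2 * (1 + q + 2 * n) *
        avg (fun σ => dS X.H ((seg X.I 0 (s + y + z)).map σ.toEmbedding) / X.L)) := by
    simp only [avg_add, avg_mul, avg_const]
    rfl
  rw [l1, l2] at havg
  refine havg.trans ?_
  have l3 : 2 * (1 + q + 2 * n) *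
        avg (fun σ => dS X.H ((seg X.I 0 (s + y + z)).map σ.toEmbedding) / X.L) ≤ ε / 2 := by
    have := mul_le_mul_of_nonneg_left hS hc.le
    refine this.trans (le_of_eq ?_)
    field_simp
  linarith

theorem CEx.h3b_small (hD : 1 ≤ D) {s₁ y z q n p : ℕ} (hs : 0 < s₁) (hK : K' ≤ s₁) (hn : 0 < n)
    (hp : 0 < p) {ε : ℝ} (hε : 0 < ε) : ∃ i₀, ∀ i, i₀ ≤ i → ∀ X : CEx D δ K' i, ∀ Idx,
      AllGood X Idx →
    99 / 100 * (n * X.ν Idx (100 * s₁) y z n * (19 / 20)) +
      2 * n * ((X.Φ p s₁ (99 * s₁ + y) - 2 * n * D) / p) ≤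
      q * D + 2 * n * X.κ (100 * s₁) y z q + ε := by
  have hnr : (0 : ℝ) < n := by exact_mod_cast hn
  have hε4 : 0 < ε / 4 / n := by positivity
  obtain ⟨i₁, hi₁⟩ := exists_err (δ := δ) (K' := K') D hD n
    (100 * (s₁ : ℝ) * Real.log 2) hε4
  have hc : (0 : ℝ) < 2 + 2 * n * (1 + 2 * n) := by positivity
  obtain ⟨i₂, hi₂⟩ := avg_dS_small (δ := δ) (K' := K') hD (100 * s₁ + y + z)
    (ε / 2 / (2 + 2 * n * (1 + 2 * n))) (by positivity)
  refine ⟨i₁ + i₂ + (100 * s₁ + y + z + 1), fun i hi X Idx hIdx => ?_⟩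
  obtain ⟨e1, e2, e3⟩ := hi₁ i (by omega) X
  have hcard : 100 * s₁ + y + z < Fintype.card X.I := by
    have := X.card_ge
    omega
  have hLpos := X.L_pos
  have hLdef : Real.log X.m = X.L := rfl
  have hpr : (0 : ℝ) < p := by exact_mod_cast hp
  have hp1 : (1 : ℝ) ≤ p := by exact_mod_cast hp
  have hn1 : (1 : ℝ) ≤ n := by exact_mod_cast hn
  -- the deficiency
  have hS := hi₂ i (by omega) X (seg X.I 0 (100 * s₁ + y + z)) (by
    rw [card_seg hcard.le]
    omega)
  -- the segments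
  set U0 := seg X.I 0 (100 * s₁) with hU0
  set U1 := seg X.I 0 s₁ with hU1
  set W0 := seg X.I s₁ (100 * s₁) with hW0
  set Y0 := seg X.I (100 * s₁) (100 * s₁ + y) with hY0
  set Z0 := seg X.I (100 * s₁ + y) (100 * s₁ + y + z) with hZ0
  set E0 := seg X.I 0 (100 * s₁ + y + z) with hE0
  have dUY0 : Disjoint U0 Y0 := disjoint_seg le_rfl
  have dUZ0 : Disjoint U0 Z0 := disjoint_seg (by omega)
  have dYZ0 : Disjoint Y0 Z0 := disjoint_seg le_rfl
  have hsub0 : U1 ⊆ U0 := seg_mono (by omega)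
  have hWsub : W0 ⊆ U0 := by
    intro x hx
    rw [hW0, mem_seg] at hx
    rw [hU0, mem_seg]
    omega
  have hUcard : U0.card = 100 * s₁ := by
    rw [hU0, card_seg (by omega)]
    omega
  have hWcard : W0.card = 99 * s₁ := by
    rw [hW0, card_seg (by omega)]
    omega
  have hsd : ∀ σ : Equiv.Perm X.I, U0.map σ.toEmbedding \ U1.map σ.toEmbedding =
      W0.map σ.toEmbedding := by
    intro σ
    rw [← map_sdiff', hU0, hU1, hW0, seg_sdiff (Nat.zero_le _)]
  have hun : ∀ σ : Equiv.Perm X.I,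
      U0.map σ.toEmbedding ∪ Y0.map σ.toEmbedding ∪ Z0.map σ.toEmbedding =
        E0.map σ.toEmbedding := by
    intro σ
    rw [← map_union', ← map_union', hU0, hY0, hZ0, hE0, seg_union (by omega) (by omega),
      seg_union (by omega) (by omega)]
  have hWY : ∀ σ : Equiv.Perm X.I, W0.map σ.toEmbedding ∪ Y0.map σ.toEmbedding =
      (seg X.I s₁ (s₁ + (99 * s₁ + y))).map σ.toEmbedding := by
    intro σ
    rw [← map_union', hW0, hY0, seg_union (by omega) (by omega)]
    congr 2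
    omega
  -- the sum over `U` and the sum over `U \ U₁`
  set SU : ℝ := avg (fun σ : Equiv.Perm X.I => (∑ u ∈ U0.map σ.toEmbedding,
    IQ X.H (U0.map σ.toEmbedding) (Y0.map σ.toEmbedding) (Z0.map σ.toEmbedding) n u) / X.L)
    with hSU
  set SW : ℝ := avg (fun σ : Equiv.Perm X.I => (∑ u ∈ W0.map σ.toEmbedding,
    IQ X.H (U0.map σ.toEmbedding) (Y0.map σ.toEmbedding) (Z0.map σ.toEmbedding) n u) / X.L)
    with hSW
  have hpart : SW = 99 / 100 * SU := by
    have h := sum_perm_part hWsub dUY0 dUZ0 (fun U Y Z v => IQ X.H U Y Z n v)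
    rw [hUcard, hWcard] at h
    push_cast at h
    have hs1 : (0 : ℝ) < s₁ := by exact_mod_cast hs
    have h' : ∑ σ : Equiv.Perm X.I, ∑ u ∈ W0.map σ.toEmbedding,
        IQ X.H (U0.map σ.toEmbedding) (Y0.map σ.toEmbedding) (Z0.map σ.toEmbedding) n u =
        99 / 100 * ∑ σ : Equiv.Perm X.I, ∑ u ∈ U0.map σ.toEmbedding,
        IQ X.H (U0.map σ.toEmbedding) (Y0.map σ.toEmbedding) (Z0.map σ.toEmbedding) n u := by
      have h2 : (s₁ : ℝ) * (∑ σ : Equiv.Perm X.I, ∑ u ∈ W0.map σ.toEmbedding,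
        IQ X.H (U0.map σ.toEmbedding) (Y0.map σ.toEmbedding) (Z0.map σ.toEmbedding) n u -
        99 / 100 * ∑ σ : Equiv.Perm X.I, ∑ u ∈ U0.map σ.toEmbedding,
        IQ X.H (U0.map σ.toEmbedding) (Y0.map σ.toEmbedding) (Z0.map σ.toEmbedding) n u) = 0 := by
        linarith
      rcases mul_eq_zero.1 h2 with h3 | h3
      · exact absurd h3 hs1.ne'
      · linarith
    rw [hSU, hSW, avg_div, avg_div]
    unfold avg
    rw [h']
    ring
  -- pointwise inequalities
  have hp1' : ∀ σ : Equiv.Perm X.I,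
      n * nuU X.H (U0.map σ.toEmbedding) (Y0.map σ.toEmbedding) (Z0.map σ.toEmbedding) n
        (Idx (U0.map σ.toEmbedding) (Y0.map σ.toEmbedding) (Z0.map σ.toEmbedding)) * (19 / 20) -
        (ε / 2 + dS X.H (E0.map σ.toEmbedding) / X.L) ≤
      (∑ u ∈ U0.map σ.toEmbedding,
        IQ X.H (U0.map σ.toEmbedding) (Y0.map σ.toEmbedding) (Z0.map σ.toEmbedding) n u) / X.L := by
    intro σ
    have dUY := CEx.disj σ (X := X) dUY0
    have dUZ := CEx.disj σ (X := X) dUZ0
    have dYZ := CEx.disj σ (X := X) dYZ0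
    have hUc : (U0.map σ.toEmbedding).card = 100 * s₁ := by rw [card_map, hUcard]
    obtain ⟨V, hV, hIV, -⟩ := hIdx _ _ _ dUY dUZ dYZ (by rw [hUc]; omega)
      (X.seg_map_ne_univ (by omega) σ)
    have key := le_sum_IQ X.hne dUY dUZ dYZ n _ V hV _ hIV
    rw [hun, hUc, hLdef] at key
    have hν0 := nuU_nonneg (U := U0.map σ.toEmbedding) (Y := Y0.map σ.toEmbedding)
      (Z := Z0.map σ.toEmbedding) (n := n)
      (Idx := Idx (U0.map σ.toEmbedding) (Y0.map σ.toEmbedding) (Z0.map σ.toEmbedding)) X.hne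
    have hν1 := nuU_le_one (U := U0.map σ.toEmbedding) (Y := Y0.map σ.toEmbedding)
      (Z := Z0.map σ.toEmbedding) (n := n)
      (Idx := Idx (U0.map σ.toEmbedding) (Y0.map σ.toEmbedding) (Z0.map σ.toEmbedding)) X.hne
    set nuv := nuU X.H (U0.map σ.toEmbedding) (Y0.map σ.toEmbedding) (Z0.map σ.toEmbedding) n
        (Idx (U0.map σ.toEmbedding) (Y0.map σ.toEmbedding) (Z0.map σ.toEmbedding)) with hnuv
    set dv := dS X.H (E0.map σ.toEmbedding) with hdv
    rw [le_div_iff₀ hLpos]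
    refine le_trans ?_ key
    push_cast
    have k1 : n * nuv * (19 / 20 - ε / 4 / n) * X.L ≤
        n * nuv * (X.L - Real.log (1 + n * MV X.m (20 * (D + 1)))) := by
      rw [mul_assoc]
      refine mul_le_mul_of_nonneg_left ?_ (by positivity)
      linarith
    have k2 : n * nuv * (19 / 20 - ε / 4 / n) * X.L =
        n * nuv * (19 / 20) * X.L - nuv * (ε / 4) * X.L := by
      field_simp
    have k3 : nuv * (ε / 4) * X.L ≤ ε / 4 * X.L := by
      have : nuv * (ε / 4 * X.L) ≤ 1 * (ε / 4 * X.L) :=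
        mul_le_mul_of_nonneg_right hν1 (by positivity)
      linarith
    have k4 : ε / 4 / n * X.L ≤ ε / 4 * X.L :=
      mul_le_mul_of_nonneg_right (div_le_self (by positivity) hn1) hLpos.le
    have k5 : (n * nuv * (19 / 20) - (ε / 2 + dv / X.L)) * X.L =
        n * nuv * (19 / 20) * X.L - ε / 2 * X.L - dv := by
      field_simp
      ring
    rw [k5]
    linarith
  have hp2' : ∀ σ : Equiv.Perm X.I,
      (∑ u ∈ W0.map σ.toEmbedding,
        IQ X.H (U0.map σ.toEmbedding) (Y0.map σ.toEmbedding) (Z0.map σ.toEmbedding) n u) / X.L +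
      2 * n * ((FU X.H (U1.map σ.toEmbedding)
        ((seg X.I s₁ (s₁ + (99 * s₁ + y))).map σ.toEmbedding) p / X.L - 2 * n * D) / p) ≤
      q * D + 2 * n * (KU X.H (U0.map σ.toEmbedding) (Y0.map σ.toEmbedding)
        (Z0.map σ.toEmbedding) q / X.L) +
        (1 + 2 * n * (1 + 2 * n)) * (dS X.H (E0.map σ.toEmbedding) / X.L) := by
    intro σ
    have dUY := CEx.disj σ (X := X) dUY0
    have dUZ := CEx.disj σ (X := X) dUZ0
    have dYZ := CEx.disj σ (X := X) dYZ0
    have key := sum_IQ_le X.hne dUY dUZ dYZ (U₁ := U1.map σ.toEmbedding)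
      (map_subset_map.2 hsub0) q n p hp
    rw [hsd, hun, hWY] at key
    have hdS0 := dS_nonneg X.hne (E0.map σ.toEmbedding)
    have hDL := X.dS_univ_le
    set S := ∑ u ∈ W0.map σ.toEmbedding,
        IQ X.H (U0.map σ.toEmbedding) (Y0.map σ.toEmbedding) (Z0.map σ.toEmbedding) n u with hSdef
    set Fv := FU X.H (U1.map σ.toEmbedding)
        ((seg X.I s₁ (s₁ + (99 * s₁ + y))).map σ.toEmbedding) p with hFv
    set Kv := KU X.H (U0.map σ.toEmbedding) (Y0.map σ.toEmbedding)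
        (Z0.map σ.toEmbedding) q with hKv
    set dv := dS X.H (E0.map σ.toEmbedding) with hdv
    set dU := dS X.H Finset.univ with hdU
    have k2 : (Fv - 2 * n * (D * X.L)) / p - (1 + 2 * n) * dv ≤
        (Fv - dv - 2 * n * (dU + dv)) / p := by
      have a1 : Fv - 2 * n * (D * X.L) - (1 + 2 * n) * dv ≤
          Fv - dv - 2 * n * (dU + dv) := by
        nlinarith
      have a2 := div_le_div_of_nonneg_right a1 hpr.le
      have a3 : (1 + 2 * n) * dv / p ≤ (1 + 2 * n) * dv :=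
        div_le_self (by positivity) hp1
      rw [sub_div] at a2
      linarith
    have k3 : 2 * n * ((Fv - 2 * n * (D * X.L)) / p - (1 + 2 * n) * dv) ≤
        2 * n * ((Fv - dv - 2 * n * (dU + dv)) / p) :=
      mul_le_mul_of_nonneg_left k2 (by positivity)
    have k4 : (q : ℝ) * dU ≤ q * (D * X.L) := mul_le_mul_of_nonneg_left hDL (Nat.cast_nonneg q)
    have key2 : S + 2 * n * ((Fv - 2 * n * (D * X.L)) / p) ≤
        q * (D * X.L) + 2 * n * Kv + (1 + 2 * n * (1 + 2 * n)) * dv := by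
      nlinarith [key, k3, k4]
    have key3 := div_le_div_of_nonneg_right key2 hLpos.le
    refine le_trans (le_of_eq ?_) (key3.trans (le_of_eq ?_))
    · field_simp
    · field_simp
  have a1 := avg_mono hp1'
  have a2 := avg_mono hp2'
  have l1 : avg (fun σ : Equiv.Perm X.I =>
      n * nuU X.H (U0.map σ.toEmbedding) (Y0.map σ.toEmbedding) (Z0.map σ.toEmbedding) n
        (Idx (U0.map σ.toEmbedding) (Y0.map σ.toEmbedding) (Z0.map σ.toEmbedding)) * (19 / 20) -
        (ε / 2 + dS X.H (E0.map σ.toEmbedding) / X.L)) =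
      n * X.ν Idx (100 * s₁) y z n * (19 / 20) -
        (ε / 2 + avg (fun σ => dS X.H (E0.map σ.toEmbedding) / X.L)) := by
    have : (fun σ : Equiv.Perm X.I =>
      (n : ℝ) * nuU X.H (U0.map σ.toEmbedding) (Y0.map σ.toEmbedding) (Z0.map σ.toEmbedding) n
        (Idx (U0.map σ.toEmbedding) (Y0.map σ.toEmbedding) (Z0.map σ.toEmbedding)) * (19 / 20) -
        (ε / 2 + dS X.H (E0.map σ.toEmbedding) / X.L)) = fun σ : Equiv.Perm X.I =>
      ((n : ℝ) * (19 / 20)) *
        nuU X.H (U0.map σ.toEmbedding) (Y0.map σ.toEmbedding) (Z0.map σ.toEmbedding) n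
        (Idx (U0.map σ.toEmbedding) (Y0.map σ.toEmbedding) (Z0.map σ.toEmbedding)) -
        (ε / 2 + dS X.H (E0.map σ.toEmbedding) / X.L) := by
      funext σ
      ring
    rw [this, avg_sub, avg_mul, avg_add, avg_const]
    unfold CEx.ν
    ring
  have l2 : avg (fun σ : Equiv.Perm X.I => (∑ u ∈ W0.map σ.toEmbedding,
        IQ X.H (U0.map σ.toEmbedding) (Y0.map σ.toEmbedding) (Z0.map σ.toEmbedding) n u) / X.L +
      2 * n * ((FU X.H (U1.map σ.toEmbedding)
        ((seg X.I s₁ (s₁ + (99 * s₁ + y))).map σ.toEmbedding) p / X.L - 2 * n * D) / p)) =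
      SW + 2 * n * ((X.Φ p s₁ (99 * s₁ + y) - 2 * n * D) / p) := by
    rw [hSW]
    unfold CEx.Φ
    simp only [avg_add, avg_mul, avg_sub, avg_div, avg_const]
    rfl
  have l3 : avg (fun σ : Equiv.Perm X.I => q * D + 2 * n * (KU X.H (U0.map σ.toEmbedding)
        (Y0.map σ.toEmbedding) (Z0.map σ.toEmbedding) q / X.L) +
        (1 + 2 * n * (1 + 2 * n)) * (dS X.H (E0.map σ.toEmbedding) / X.L)) =
      q * D + 2 * n * X.κ (100 * s₁) y z q +
        (1 + 2 * n * (1 + 2 * n)) * avg (fun σ => dS X.H (E0.map σ.toEmbedding) / X.L) := by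
    unfold CEx.κ
    simp only [avg_add, avg_mul, avg_const, avg_div]
    rfl
  rw [l1, ← hSU] at a1
  rw [l2, l3] at a2
  have hS' : (2 + 2 * n * (1 + 2 * n)) * avg (fun σ => dS X.H (E0.map σ.toEmbedding) / X.L) ≤
      ε / 2 := by
    have := mul_le_mul_of_nonneg_left hS hc.le
    refine this.trans (le_of_eq ?_)
    field_simp
  have hE : 0 ≤ avg (fun σ => dS X.H (E0.map σ.toEmbedding) / X.L) := by
    rw [← avg_const (I := X.I) 0]
    exact avg_mono fun σ => div_nonneg (dS_nonneg X.hne _) X.L_pos.le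
  rw [hpart] at a2
  nlinarith [a1, a2, hS', hE]

end RFold
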