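import Pool.Agent.Lib.MP_3581cd_co.Boxes

namespace RFold

open Finset

theorem exists_rpow_gt {y : ℝ} (hy : 0 < y) (C : ℝ) : ∃ M : ℕ, 1 ≤ M ∧ ∀ m : ℕ, M ≤ m →
    C < (m : ℝ) ^ y := by
  have h := (tendsto_rpow_atTop hy).comp tendsto_natCast_atTop_atTop (α := ℕ)
  obtain ⟨M, hM⟩ := Filter.eventually_atTop.mp (h.eventually_gt_atTop C)
  exact ⟨max 1 M, le_max_left _ _, fun m hm => hM m (le_trans (le_max_right _ _) hm)⟩

theorem card_slice_univ {I : Type} [Fintype I] [DecidableEq I] {m : ℕ} (i : I) (v : Fin m) :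
    (univ.filter fun x : I → Fin m => x i = v).card = m ^ (Fintype.card I - 1) := by
  have h1 : (univ.filter fun x : I → Fin m => x i = v)
      = Fintype.piFinset (fun j => if j = i then {v} else univ) := by
    ext x
    simp only [mem_filter, mem_univ, true_and, Fintype.mem_piFinset]
    constructor
    · intro h j
      by_cases hj : j = i
      · subst hj; simp [h]
      · simp [hj]
    · intro h
      have := h i
      simpa using this
  rw [h1, Fintype.card_piFinset, ← Finset.mul_prod_erase univ _ (mem_univ i)]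
  have h2 : ∏ x ∈ univ.erase i, (if x = i then ({v} : Finset (Fin m)) else univ).card
      = ∏ x ∈ univ.erase i, m := by
    apply prod_congr rfl
    intro x hx
    rw [if_neg (ne_of_mem_erase hx)]
    simp
  rw [h2, prod_const, card_erase_of_mem (mem_univ i), card_univ]
  simp

theorem card_slice_le {I : Type} [Fintype I] [DecidableEq I] {m : ℕ} (G : Finset (I → Fin m))
    (i : I) (v : Fin m) :
    (G.filter fun x : I → Fin m => x i = v).card ≤ m ^ (Fintype.card I - 1) := by
  rw [← card_slice_univ i v]
  exact card_le_card (filter_subset_filter _ (subset_univ G))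

theorem sum_glue_erase {I : Type} [Fintype I] [DecidableEq I] {m : ℕ} (i0 : I)
    (f : (I → Fin m) → ℝ) :
    ∑ x, f x = ∑ w : ({i // i ∈ univ.erase i0} → Fin m), ∑ v : Fin m,
      f (glue (univ.erase i0) w (fun _ => v)) := by
  rw [← Fintype.sum_prod_type']
  symm
  apply Fintype.sum_bijective (fun p : ({i // i ∈ univ.erase i0} → Fin m) × Fin m =>
    glue (univ.erase i0) p.1 (fun _ => p.2))
  · constructor
    · rintro ⟨w, v⟩ ⟨w', v'⟩ h
      simp only at h
      have h1 : v = v' := by
        have := congrFun h i0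
        simpa [glue] using this
      have h2 : w = w' := by
        funext ⟨i, hi⟩
        have := congrFun h i
        simpa [glue, ne_of_mem_erase hi] using this
      rw [h1, h2]
    · intro x
      refine ⟨(fun i => x i, x i0), ?_⟩
      funext i
      by_cases hi : i = i0
      · subst hi; simp [glue]
      · simp [glue, hi]
  · intro p; rfl

theorem box_lemma (b : ℕ) : ∀ η : ℝ, η < (1 / 2) ^ b → ∀ K : ℕ, b + 1 ≤ K → ∃ M : ℕ, ∀ m : ℕ,
    M ≤ m → ∀ (I : Type) [Fintype I] [DecidableEq I], Fintype.card I = K →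
      ∀ G : Finset (I → Fin m), (m : ℝ) ^ ((K : ℝ) - η) ≤ G.card → HasBox (b + 1) G := by
  induction b with
  | zero =>
    intro η hη K hK
    obtain ⟨M, hM1, hM⟩ := exists_rpow_gt (y := 1 - η) (by norm_num at hη; linarith) K
    refine ⟨M, ?_⟩
    intro m hm I _ _ hI G hG
    have hIne : Nonempty I := Fintype.card_pos_iff.mp (by omega)
    have hmpos : (0 : ℝ) < m := by
      have : 1 ≤ m := hM1.trans hm
      exact_mod_cast this
    have hGpos : (0 : ℝ) < G.card := lt_of_lt_of_le (Real.rpow_pos_of_pos hmpos _) hG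
    obtain ⟨P, hP⟩ := card_pos.mp (by exact_mod_cast hGpos : 0 < G.card)
    apply hasBox_one G P hP
    have h1 : ∑ i : I, (G.filter fun x => x i = P i).card ≤ K * m ^ (K - 1) := by
      calc ∑ i : I, (G.filter fun x => x i = P i).card ≤ ∑ i : I, m ^ (Fintype.card I - 1) :=
            sum_le_sum (fun i _ => card_slice_le G i (P i))
        _ = K * m ^ (K - 1) := by simp [hI]
    refine lt_of_le_of_lt h1 ?_
    have h2 : ((K * m ^ (K - 1) : ℕ) : ℝ) < (G.card : ℝ) := by
      refine lt_of_lt_of_le ?_ hG
      have h3 : (m : ℝ) ^ ((K : ℝ) - η) = (m : ℝ) ^ (1 - η) * (m : ℝ) ^ (K - 1) := by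
        rw [← Real.rpow_natCast (m : ℝ) (K - 1), ← Real.rpow_add hmpos]
        congr 1
        have : (1 : ℕ) ≤ K := by omega
        push_cast [this]
        ring
      rw [h3]
      push_cast
      exact mul_lt_mul_of_pos_right (hM m hm) (by positivity)
    exact_mod_cast h2
  | succ b ih =>
    intro η hη K hK
    have hη1 : η < 1 := by
      refine lt_of_lt_of_le hη ?_
      exact pow_le_one₀ (by norm_num) (by norm_num)
    have hgap : 0 < (1 / 2 : ℝ) ^ (b + 1) - η := by linarith
    obtain ⟨M1, hM1⟩ := ih (η + (1 / 2) ^ (b + 1)) (by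
      have : (1 / 2 : ℝ) ^ (b + 1) = (1 / 2) ^ b / 2 := by rw [pow_succ]; ring
      rw [this] at hη ⊢
      linarith) (K - 1) (by omega)
    obtain ⟨M2, hM2, hM2'⟩ := exists_rpow_gt (y := 1 - η) (by linarith) 2
    obtain ⟨M3, hM3, hM3'⟩ := exists_rpow_gt hgap 2
    refine ⟨max M1 (max M2 M3), ?_⟩
    intro m hm I _ _ hI G hG
    have hm1 : M1 ≤ m := le_trans (le_max_left _ _) hm
    have hm2 : M2 ≤ m := le_trans (le_trans (le_max_left _ _) (le_max_right _ _)) hm
    have hm3 : M3 ≤ m := le_trans (le_trans (le_max_right _ _) (le_max_right _ _)) hm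
    have hmone : 1 ≤ m := hM2.trans hm2
    have hmpos : (0 : ℝ) < m := by exact_mod_cast hmone
    have hIne : Nonempty I := Fintype.card_pos_iff.mp (by omega)
    let i0 : I := Classical.arbitrary I
    let U : Finset I := univ.erase i0
    have hUne : U ≠ univ := by
      intro h
      have := mem_univ i0
      rw [← h] at this
      exact (notMem_erase i0 univ) this
    have hUcard : Fintype.card {i // i ∈ U} = K - 1 := by
      rw [Fintype.card_coe, card_erase_of_mem (mem_univ _), card_univ, hI]
    let Gp : Fin m → Fin m → Finset ({i // i ∈ U} → Fin m) := fun v v' =>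
      univ.filter fun w => glue U w (fun _ => v) ∈ G ∧ glue U w (fun _ => v') ∈ G
    by_cases hex : ∃ v v' : Fin m, v ≠ v' ∧
        (m : ℝ) ^ (((K - 1 : ℕ) : ℝ) - (η + (1 / 2) ^ (b + 1))) ≤ (Gp v v').card
    · obtain ⟨v, v', hvv, hbig⟩ := hex
      apply hasBox_extend G U hUne (fun _ => v) (fun _ => v') (fun _ _ => hvv) (Gp v v')
      · intro w hw
        exact (mem_filter.mp hw).2
      · exact hM1 m hm1 _ hUcard _ hbig
    · exfalso
      push Not at hex
      set T : ℝ := (m : ℝ) ^ (((K - 1 : ℕ) : ℝ) - (η + (1 / 2) ^ (b + 1))) with hT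
      let χ : ({i // i ∈ U} → Fin m) → Fin m → ℝ := fun w v =>
        if glue U w (fun _ => v) ∈ G then 1 else 0
      have hχ0 : ∀ w v, χ w v * χ w v = χ w v := by
        intro w v; simp only [χ]; split_ifs <;> norm_num
      have hGsum : (G.card : ℝ) = ∑ w, ∑ v, χ w v := by
        have h1 : (G.card : ℝ) = ∑ x : I → Fin m, (if x ∈ G then (1 : ℝ) else 0) := by
          rw [sum_ite_mem, univ_inter]; simp
        rw [h1, sum_glue_erase i0]
      have hGp : ∀ v v', ((Gp v v').card : ℝ) = ∑ w, χ w v * χ w v' := by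
        intro v v'
        simp only [Gp, card_filter, χ]
        push_cast
        apply sum_congr rfl
        intro w _
        by_cases h1 : glue U w (fun _ => v) ∈ G <;> by_cases h2 : glue U w (fun _ => v') ∈ G <;>
          simp [h1, h2]
      have hsq : ∑ w, (∑ v, χ w v) ^ 2 = ∑ v, ∑ v', ((Gp v v').card : ℝ) := by
        calc ∑ w, (∑ v, χ w v) ^ 2 = ∑ w, ∑ v, ∑ v', χ w v * χ w v' := by
              apply sum_congr rfl
              intro w _
              rw [sq, sum_mul_sum]
          _ = ∑ v, ∑ v', ∑ w, χ w v * χ w v' := by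
              rw [sum_comm]
              apply sum_congr rfl
              intro v _
              rw [sum_comm]
          _ = _ := by
              apply sum_congr rfl
              intro v _
              apply sum_congr rfl
              intro v' _
              rw [hGp]
      have hCS : (G.card : ℝ) ^ 2 ≤ (m : ℝ) ^ (K - 1) * ∑ w, (∑ v, χ w v) ^ 2 := by
        rw [hGsum]
        have := sq_sum_le_card_mul_sum_sq (s := (univ : Finset ({i // i ∈ U} → Fin m)))
          (f := fun w => ∑ v, χ w v)
        refine this.trans (le_of_eq ?_)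
        congr 1
        rw [card_univ, Fintype.card_fun, hUcard, Fintype.card_fin]
        push_cast
        rfl
      have hup : ∑ v, ∑ v', ((Gp v v').card : ℝ) ≤ (G.card : ℝ) + (m : ℝ) ^ 2 * T := by
        have hTpos : 0 < T := Real.rpow_pos_of_pos hmpos _
        calc ∑ v, ∑ v', ((Gp v v').card : ℝ)
            ≤ ∑ v, ∑ v', ((if v = v' then ((Gp v v).card : ℝ) else 0) + T) := by
              apply sum_le_sum
              intro v _
              apply sum_le_sum
              intro v' _
              by_cases h : v = v'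
              · subst h; rw [if_pos rfl]; linarith
              · rw [if_neg h, zero_add]; exact (hex v v' h).le
          _ = ∑ v, ((Gp v v).card : ℝ) + (m : ℝ) ^ 2 * T := by
              simp only [sum_add_distrib, sum_ite_eq, mem_univ, if_true, sum_const, card_univ,
                Fintype.card_fin, nsmul_eq_mul]
              ring
          _ = _ := by
              congr 1
              rw [hGsum, sum_comm]
              apply sum_congr rfl
              intro v _
              rw [hGp]
              apply sum_congr rfl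
              intro w _
              exact hχ0 w v
      have hmK : (0 : ℝ) < (m : ℝ) ^ (K - 1) := by positivity
      have hGpos : (0 : ℝ) < G.card := lt_of_lt_of_le (Real.rpow_pos_of_pos hmpos _) hG
      have hKsub : ((K - 1 : ℕ) : ℝ) = (K : ℝ) - 1 := by
        have : (1 : ℕ) ≤ K := by omega
        push_cast [this]; ring
      -- |G| ≥ 2 m^(K-1)
      have hG2 : 2 * (m : ℝ) ^ (K - 1) ≤ G.card := by
        refine le_trans ?_ hG
        have h3 : (m : ℝ) ^ ((K : ℝ) - η) = (m : ℝ) ^ (1 - η) * (m : ℝ) ^ (K - 1) := by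
          rw [← Real.rpow_natCast (m : ℝ) (K - 1), ← Real.rpow_add hmpos]
          congr 1
          rw [hKsub]
          ring
        rw [h3]
        exact mul_le_mul_of_nonneg_right (hM2' m hm2).le hmK.le
      have h4 : (G.card : ℝ) ^ 2 ≤ 2 * ((m : ℝ) ^ (K - 1) * ((m : ℝ) ^ 2 * T)) := by
        have h5 : (G.card : ℝ) ^ 2 ≤ (m : ℝ) ^ (K - 1) * ((G.card : ℝ) + (m : ℝ) ^ 2 * T) := by
          refine hCS.trans ?_
          rw [hsq]
          exact mul_le_mul_of_nonneg_left hup hmK.le
        have h6 : 2 * ((m : ℝ) ^ (K - 1) * G.card) ≤ (G.card : ℝ) ^ 2 := by nlinarith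
        nlinarith
      have h7 : (m : ℝ) ^ (K - 1) * ((m : ℝ) ^ 2 * T)
          = (m : ℝ) ^ (2 * (K : ℝ) - (η + (1 / 2) ^ (b + 1))) := by
        rw [hT, ← Real.rpow_natCast (m : ℝ) (K - 1), ← Real.rpow_natCast (m : ℝ) 2,
          ← Real.rpow_add hmpos, ← Real.rpow_add hmpos]
        congr 1
        rw [hKsub]
        push_cast
        ring
      have h8 : (m : ℝ) ^ (2 * (K : ℝ) - 2 * η) ≤ (G.card : ℝ) ^ 2 := by
        have : (m : ℝ) ^ (2 * (K : ℝ) - 2 * η) = ((m : ℝ) ^ ((K : ℝ) - η)) ^ 2 := by
          rw [← Real.rpow_natCast _ 2, ← Real.rpow_mul hmpos.le]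
          congr 1
          push_cast
          ring
        rw [this]
        exact pow_le_pow_left₀ (Real.rpow_nonneg hmpos.le _) hG 2
      have h9 : (m : ℝ) ^ (2 * (K : ℝ) - 2 * η) = (m : ℝ) ^ ((1 / 2 : ℝ) ^ (b + 1) - η)
          * (m : ℝ) ^ (2 * (K : ℝ) - (η + (1 / 2) ^ (b + 1))) := by
        rw [← Real.rpow_add hmpos]
        congr 1
        ring
      have h10 := hM3' m hm3
      have h11 : 0 < (m : ℝ) ^ (2 * (K : ℝ) - (η + (1 / 2) ^ (b + 1))) :=
        Real.rpow_pos_of_pos hmpos _
      rw [h7] at h4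
      rw [h9] at h8
      nlinarith

end RFold
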