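import Pool.Agent.Lib.MP_3581cd_co.Defs

namespace RFold

open Finset

/-- Extending a box on `U` by a new colour outside `U`. -/
theorem hasBox_extend {I : Type} [Fintype I] [DecidableEq I] {m b : ℕ} (H : Finset (I → Fin m))
    (U : Finset I) (hU : U ≠ univ) (A0 A1 : I → Fin m) (hA : ∀ i, i ∉ U → A0 i ≠ A1 i)
    (G : Finset ({i // i ∈ U} → Fin m)) (hG : ∀ w ∈ G, glue U w A0 ∈ H ∧ glue U w A1 ∈ H)
    (hbox : HasBox b G) : HasBox (b + 1) H := by
  obtain ⟨P, Q, hPQ, c, hc, hmix⟩ := hbox
  refine ⟨glue U P A0, glue U Q A1, ?_, fun i => if h : i ∈ U then (c ⟨i, h⟩).castSucc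
    else Fin.last b, ?_, ?_⟩
  · intro i
    unfold glue
    by_cases h : i ∈ U
    · simp [h, hPQ]
    · simp [h, hA]
  · intro j
    induction j using Fin.lastCases with
    | last =>
      have : ∃ i, i ∉ U := by
        by_contra hcon
        push Not at hcon
        exact hU (Finset.eq_univ_iff_forall.mpr hcon)
      obtain ⟨i, hi⟩ := this
      exact ⟨i, by simp [hi]⟩
    | cast j =>
      obtain ⟨⟨i, hi⟩, hij⟩ := hc j
      exact ⟨i, by simp [hi, hij]⟩
  · intro s
    have hw := hG _ (hmix (fun j => s j.castSucc))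
    by_cases hs : s (Fin.last b) = true
    · have : mix (glue U P A0) (glue U Q A1) (fun i => if h : i ∈ U then (c ⟨i, h⟩).castSucc
        else Fin.last b) s = glue U (mix P Q c (fun j => s j.castSucc)) A0 := by
        funext i
        unfold mix glue
        by_cases h : i ∈ U
        · simp [h]
        · simp [h, hs]
      rw [this]
      exact hw.1
    · have : mix (glue U P A0) (glue U Q A1) (fun i => if h : i ∈ U then (c ⟨i, h⟩).castSucc
        else Fin.last b) s = glue U (mix P Q c (fun j => s j.castSucc)) A1 := by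
        funext i
        unfold mix glue
        by_cases h : i ∈ U
        · simp [h]
        · simp [h, hs]
      rw [this]
      exact hw.2

/-- If few points of `H` meet a given one, there is a `1`-box. -/
theorem hasBox_one {I : Type} [Fintype I] [DecidableEq I] [Nonempty I] {m : ℕ}
    (H : Finset (I → Fin m)) (P : I → Fin m) (hP : P ∈ H)
    (h : ∑ i : I, (H.filter fun x => x i = P i).card < H.card) : HasBox 1 H := by
  have : ∃ Q ∈ H, ∀ i, P i ≠ Q i := by
    by_contra hcon
    push Not at hcon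
    have hsub : H ⊆ univ.biUnion (fun i : I => H.filter fun x => x i = P i) := by
      intro x hx
      obtain ⟨i, hi⟩ := hcon x hx
      rw [mem_biUnion]
      exact ⟨i, mem_univ _, mem_filter.mpr ⟨hx, hi.symm⟩⟩
    have := (card_le_card hsub).trans card_biUnion_le
    omega
  obtain ⟨Q, hQ, hPQ⟩ := this
  refine ⟨P, Q, hPQ, fun _ => 0, fun j => ⟨Classical.arbitrary I, (Subsingleton.elim _ _)⟩, ?_⟩
  intro s
  by_cases hs : s 0 = true
  · have : mix P Q (fun _ => (0 : Fin 1)) s = P := by funext i; simp [mix, hs]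
    rw [this]; exact hP
  · have : mix P Q (fun _ => (0 : Fin 1)) s = Q := by funext i; simp [mix, hs]
    rw [this]; exact hQ

theorem thmB_one : ThmB 1 := by
  intro D δ hδ
  refine ⟨1, fun K => max 2 (⌈((K : ℝ) + 1) ^ (1 / δ)⌉₊ + 1), ?_⟩
  intro I _ _ hK m hm H hS hH
  have hI : Nonempty I := Fintype.card_pos_iff.mp (by omega)
  have hm2 : 2 ≤ m := le_trans (le_max_left _ _) hm
  have hm3 : ⌈((Fintype.card I : ℝ) + 1) ^ (1 / δ)⌉₊ + 1 ≤ m := le_trans (le_max_right _ _) hm
  have hmpos : (0 : ℝ) < m := by positivity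
  have hHpos : (0 : ℝ) < H.card := lt_of_lt_of_le (Real.rpow_pos_of_pos hmpos _) hH
  have hHne : H.Nonempty := by
    rw [← card_pos]
    exact_mod_cast hHpos
  obtain ⟨P, hP⟩ := hHne
  apply hasBox_one H P hP
  have h1 : (((Fintype.card I : ℝ) + 1) ^ (1 / δ)) < m := by
    have := Nat.le_ceil (((Fintype.card I : ℝ) + 1) ^ (1 / δ))
    have h2 : ((⌈((Fintype.card I : ℝ) + 1) ^ (1 / δ)⌉₊ : ℝ)) + 1 ≤ m := by exact_mod_cast hm3
    linarith
  have h2 : (Fintype.card I : ℝ) * (m : ℝ) ^ (-δ) < 1 := by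
    have h3 : (Fintype.card I : ℝ) + 1 < (m : ℝ) ^ δ := by
      have h4 := Real.rpow_lt_rpow (by positivity) h1 hδ
      rw [← Real.rpow_mul (by positivity), one_div, inv_mul_cancel₀ hδ.ne', Real.rpow_one] at h4
      exact h4
    rw [Real.rpow_neg hmpos.le]
    rw [← div_eq_mul_inv, div_lt_one (Real.rpow_pos_of_pos hmpos _)]
    linarith
  have h3 : ((∑ i : I, (H.filter fun x => x i = P i).card : ℕ) : ℝ) < H.card := by
    push_cast
    calc ∑ i : I, ((H.filter fun x => x i = P i).card : ℝ)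
        ≤ ∑ i : I, (m : ℝ) ^ (-δ) * H.card := sum_le_sum (fun i _ => hS i (P i))
      _ = (Fintype.card I : ℝ) * (m : ℝ) ^ (-δ) * H.card := by
          rw [sum_const, card_univ, nsmul_eq_mul]; ring
      _ < 1 * H.card := by
          apply mul_lt_mul_of_pos_right h2 hHpos
      _ = H.card := one_mul _
  exact_mod_cast h3

theorem thmB_mono {D D' : ℝ} (hD : D ≤ D') {K m : ℕ} (hm : 1 ≤ m) (N : ℝ)
    (h : (m : ℝ) ^ ((K : ℝ) - D) ≤ N) : (m : ℝ) ^ ((K : ℝ) - D') ≤ N := by
  refine le_trans (Real.rpow_le_rpow_of_exponent_le ?_ (by linarith)) h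
  exact_mod_cast hm

theorem thmB_succ (KL : KeyLemma) {b : ℕ} (hb : ThmB b) : ThmB (b + 1) := by
  intro D δ hδ
  obtain ⟨K', M', hB⟩ := hb (20 * (max D 1 + 1)) (1 / 20) (by norm_num)
  obtain ⟨K₀, M, hKL⟩ := KL (max D 1) δ (le_max_right _ _) hδ K'
  refine ⟨K₀, fun K => max (max 1 (M K)) ((range (K + 1)).sup M'), ?_⟩
  intro I _ _ hK m hm H hS hH
  have hm1 : 1 ≤ m := le_trans (le_trans (le_max_left _ _) (le_max_left _ _)) hm
  have hmM : M (Fintype.card I) ≤ m := le_trans (le_trans (le_max_right _ _) (le_max_left _ _)) hm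
  have hmM' : (range (Fintype.card I + 1)).sup M' ≤ m := le_trans (le_max_right _ _) hm
  obtain ⟨U, hU, hUne, A0, A1, hA, G, hG, hGcard, hGS⟩ :=
    hKL I hK m hmM H hS (thmB_mono (le_max_left _ _) hm1 _ hH)
  apply hasBox_extend H U hUne A0 A1 hA G hG
  apply hB {i // i ∈ U} (by simpa using hU) m
  · refine le_trans ?_ hmM'
    apply le_sup (f := M')
    rw [mem_range, Fintype.card_coe]
    have := card_le_univ U
    omega
  · exact hGS
  · rw [Fintype.card_coe]
    exact hGcard

theorem thmB_of_keyLemma (KL : KeyLemma) : ∀ b : ℕ, 1 ≤ b → ThmB b := by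
  intro b hb
  induction b, hb using Nat.le_induction with
  | base => exact thmB_one
  | succ b _ ih => exact thmB_succ KL ih

end RFold
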