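import Pool.Agent.Lib.MP_3581cd_co.Lists
import Pool.Agent.Lib.MP_3581cd_co.ModelDefs

/-!
# MP_3581cd_co: section 4 in the notation of `ModelDefs`
-/

namespace RFold

open Finset

variable {I : Type} [Fintype I] [DecidableEq I] {m : ℕ}

omit [Fintype I] in
theorem kr_eq_rhoK (H : Finset (I → Fin m)) (U Y Z : Finset I) :
    kr H U Y Z = rhoK H U Y Z := rfl

open Classical in
/-- Section 4: if the key lemma fails for `U`, there are short lists, and the index of two
`ρ`-copies rarely fails to exist. -/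
theorem exists_Idx {H : Finset (I → Fin m)} (hne : H.Nonempty) (hm : 2 ≤ m) {U Y Z : Finset I}
    (hUY : Disjoint U Y) (hUZ : Disjoint U Z) (hYZ : Disjoint Y Z) {D'' : ℝ} (hD : 0 < D'')
    (hfail : KLFail H U D'') (c : ℝ) (hc : 0 ≤ c) :
    ∃ (V : (I → Option (Fin m)) → (I → Option (Fin m)) → Finset (I × Fin m))
      (Idx : (I → Option (Fin m)) → (I → Option (Fin m)) → (I → Option (Fin m)) → Option I),
      (∀ a b, ((V a b).card : ℝ) ≤ MV m D'') ∧
      (∀ x ∈ H, ∀ a b u, Idx (rs U x) a b = some u → u ∈ U ∧ (u, x u) ∈ V a b) ∧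
      pnU H U Y Z Idx ≤
        (Real.log 2 + 3 * dS H (U ∪ Y ∪ Z) + 2 * dS H univ) / (D'' * Real.log m) +
          (Y.card * ((Real.log 2 + dS H (U ∪ Y ∪ Z)) / Real.log m) + Fintype.card I * c +
            ((H.filter fun x => TBad c H (U ∪ Y) x).card : ℝ) / H.card) := by
  obtain ⟨V, Idx, h1, h2, h3⟩ := section4 hne hm hUY hUZ hYZ hD hfail c hc
  refine ⟨V, Idx, h1, fun x _ a b u hu => h2 x a b u hu, ?_⟩
  have h4 := h3 (ι := Bool) (κ := fun _ => kr H U Y Z) (fun _ => isKer_rhoK H U Y Z)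
    (i₀ := false) (i₁ := true) (by decide) rfl rfl
  rw [pr_uni_le_filter] at h4
  exact h4

/-- The negation of the conclusion of the key lemma gives `KLFail` for all `U` which are large
enough. -/
theorem klFail_of_not {H : Finset (I → Fin m)} {D : ℝ} {K' : ℕ}
    (h : ¬ ∃ U : Finset I, K' ≤ U.card ∧ U ≠ Finset.univ ∧ ∃ A0 A1 : I → Fin m,
            (∀ i, i ∉ U → A0 i ≠ A1 i) ∧ ∃ G : Finset ({i // i ∈ U} → Fin m),
              (∀ w ∈ G, glue U w A0 ∈ H ∧ glue U w A1 ∈ H) ∧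
                (m : ℝ) ^ ((U.card : ℝ) - 20 * (D + 1)) ≤ G.card ∧ Spread (1 / 20) G)
    (U : Finset I) (hK : K' ≤ U.card) (hU : U ≠ Finset.univ) : KLFail H U (20 * (D + 1)) := by
  intro A0 A1 hA G hG hcard hS
  exact h ⟨U, hK, hU, A0, A1, hA, G, hG, hcard, hS⟩

end RFold
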