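import Pool.Agent.Lib.MP_3581cd_co.AvgBasics
import Pool.Agent.Lib.MP_3581cd_co.AvgErr
import Pool.Agent.Lib.MP_3581cd_co.Sec4
import Pool.Agent.Lib.MP_3581cd_co.LemmaA

/-!
# MP_3581cd_co: counterexamples to the key lemma, and the averages of the deficiency and of `pnU`
-/

namespace RFold

open Finset

/-- A counterexample to the key lemma, number `i`. -/
structure CEx (D δ : ℝ) (K' i : ℕ) where
  I : Type
  [fI : Fintype I]
  [dI : DecidableEq I]
  m : ℕ
  H : Finset (I → Fin m)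
  card_ge : i ≤ Fintype.card I
  m_ge : 2 ≤ m
  log_ge : (i : ℝ) ≤ Real.log m
  logcard : Real.log (Fintype.card I) ≤ δ / 4 * Real.log m
  pw : 40 * (Fintype.card I : ℝ) ^ 2 * (m : ℝ) ^ (-(δ / 2)) ≤ 1 / (i + 1)
  spread : Spread δ H
  big : (m : ℝ) ^ ((Fintype.card I : ℝ) - D) ≤ H.card
  fail : ∀ U : Finset I, K' ≤ U.card → U ≠ Finset.univ → KLFail H U (20 * (D + 1))

attribute [instance] CEx.fI CEx.dI

variable {D δ : ℝ} {K' i : ℕ}

noncomputable def CEx.L (X : CEx D δ K' i) : ℝ := Real.log X.m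

theorem CEx.L_pos (X : CEx D δ K' i) : 0 < X.L :=
  Real.log_pos (by exact_mod_cast (lt_of_lt_of_le one_lt_two X.m_ge : 1 < X.m))

theorem CEx.hne (X : CEx D δ K' i) : X.H.Nonempty := by
  have hm : (0 : ℝ) < X.m := by exact_mod_cast (lt_of_lt_of_le two_pos X.m_ge : 0 < X.m)
  rw [← card_pos]
  have : (0 : ℝ) < X.H.card := lt_of_lt_of_le (Real.rpow_pos_of_pos hm _) X.big
  exact_mod_cast this

theorem CEx.dS_univ_le (X : CEx D δ K' i) : dS X.H Finset.univ ≤ D * X.L :=
  RFold.dS_univ_le (le_trans one_le_two X.m_ge) X.big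

theorem keyLemma_of (h : ∀ (D δ : ℝ) (K' : ℕ), 1 ≤ D → 0 < δ →
    (∀ i : ℕ, Nonempty (CEx D δ K' i)) → False) : KeyLemma := by
  intro D δ hD hδ K'
  by_contra hno
  refine h D δ K' hD hδ fun i => ?_
  by_contra hem
  apply hno
  choose m0 hm0 using fun k => exists_M hδ i k
  refine ⟨i, m0, ?_⟩
  intro I _ _ hI m hm H hsp hbig
  by_contra hfail
  apply hem
  obtain ⟨h1, h2, h3, h4⟩ := hm0 (Fintype.card I) m hm
  exact ⟨{
    I := I
    m := m
    H := H
    card_ge := hI
    m_ge := h1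
    log_ge := h2
    logcard := h3
    pw := h4
    spread := hsp
    big := hbig
    fail := fun U hK hU => klFail_of_not hfail U hK hU }⟩

noncomputable def avg {I : Type} [Fintype I] [DecidableEq I] (g : Equiv.Perm I → ℝ) : ℝ :=
  (∑ σ, g σ) / (Fintype.card I).factorial

theorem avg_dS_small (hD : 1 ≤ D) (n : ℕ) (ε : ℝ) (hε : 0 < ε) : ∃ i₀, ∀ i, i₀ ≤ i →
    ∀ X : CEx D δ K' i, ∀ S : Finset X.I, S.card ≤ n →
      avg (fun σ => dS X.H (S.map σ.toEmbedding) / X.L) ≤ ε := by
  obtain ⟨l, hl⟩ := exists_nat_gt (D / ε)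
  have hl0 : (0 : ℝ) < l := lt_of_le_of_lt (by positivity) hl
  have hl1 : 0 < l := by exact_mod_cast hl0
  refine ⟨l * n, fun i hi X S hS => ?_⟩
  have h1 : l * S.card ≤ Fintype.card X.I :=
    ((Nat.mul_le_mul_left l hS).trans hi).trans X.card_ge
  have h2 := sum_perm_dS_le X.hne S l hl1 h1
  have hL := X.L_pos
  have hf : (0 : ℝ) < (Fintype.card X.I).factorial := by
    exact_mod_cast Nat.factorial_pos _
  unfold avg
  rw [← Finset.sum_div, div_div, div_le_iff₀ (mul_pos hL hf)]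
  refine h2.trans ?_
  have h3 := X.dS_univ_le
  have h4 : dS X.H univ / l ≤ ε * X.L := by
    rw [div_le_iff₀ hl0]
    rw [div_lt_iff₀ hε] at hl
    nlinarith
  calc (Fintype.card X.I).factorial * (dS X.H univ / l)
      ≤ (Fintype.card X.I).factorial * (ε * X.L) := mul_le_mul_of_nonneg_left h4 hf.le
    _ = ε * (X.L * (Fintype.card X.I).factorial) := by ring

open Classical in
/-- The output of section 4, with `c = 1 / (40 |I|)`. -/
def GoodIdx (X : CEx D δ K' i) (U Y Z : Finset X.I)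
    (Idx : (X.I → Option (Fin X.m)) → (X.I → Option (Fin X.m)) → (X.I → Option (Fin X.m)) →
      Option X.I) : Prop :=
  ∃ V : (X.I → Option (Fin X.m)) → (X.I → Option (Fin X.m)) → Finset (X.I × Fin X.m),
    (∀ a b, ((V a b).card : ℝ) ≤ MV X.m (20 * (D + 1))) ∧
    (∀ x ∈ X.H, ∀ a b u, Idx (rs U x) a b = some u → u ∈ U ∧ (u, x u) ∈ V a b) ∧
    pnU X.H U Y Z Idx ≤ 
        (Real.log 2 + 3 * dS X.H (U ∪ Y ∪ Z) + 2 * dS X.H univ) / (20 * (D + 1) * Real.log X.m) +
          (Y.card * ((Real.log 2 + dS X.H (U ∪ Y ∪ Z)) / Real.log X.m) +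
            Fintype.card X.I * (1 / (40 * Fintype.card X.I)) +
            ((X.H.filter fun x => TBad (1 / (40 * Fintype.card X.I)) X.H (U ∪ Y) x).card : ℝ) /
              X.H.card)

theorem exists_goodIdx (X : CEx D δ K' i) (hD : 1 ≤ D) {U Y Z : Finset X.I} (hUY : Disjoint U Y)
    (hUZ : Disjoint U Z) (hYZ : Disjoint Y Z) (hK : K' ≤ U.card) (hU : U ≠ univ) :
    ∃ Idx, GoodIdx X U Y Z Idx := by
  obtain ⟨V, Idx, h1, h2, h3⟩ := exists_Idx X.hne X.m_ge hUY hUZ hYZ
    (D'' := 20 * (D + 1)) (by linarith) (X.fail U hK hU) (1 / (40 * Fintype.card X.I))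
    (by positivity)
  exact ⟨Idx, V, h1, h2, h3⟩

theorem avg_pn_small (hD : 1 ≤ D) (hδ : 0 < δ) (n : ℕ) (ε : ℝ) (hε : 0 < ε) :
    ∃ i₀, ∀ i, i₀ ≤ i →
    ∀ X : CEx D δ K' i, ∀ U Y Z : Finset X.I, Disjoint U Y → Disjoint U Z → Disjoint Y Z →
      K' ≤ U.card → U.card + Y.card + Z.card ≤ n →
      ∀ Idx : Finset X.I → Finset X.I → Finset X.I →
          (X.I → Option (Fin X.m)) → (X.I → Option (Fin X.m)) → (X.I → Option (Fin X.m)) →
            Option X.I,
        (∀ U Y Z : Finset X.I, Disjoint U Y → Disjoint U Z → Disjoint Y Z → K' ≤ U.card →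
            U ≠ Finset.univ → GoodIdx X U Y Z (Idx U Y Z)) →
        avg (fun σ => pnU X.H (U.map σ.toEmbedding) (Y.map σ.toEmbedding) (Z.map σ.toEmbedding)
          (Idx (U.map σ.toEmbedding) (Y.map σ.toEmbedding) (Z.map σ.toEmbedding))) ≤
          1 / 10 + 1 / 40 + ε := by
  classical
  -- parameters
  have hn0 : (0 : ℝ) ≤ n := Nat.cast_nonneg n
  obtain ⟨i₁, hi₁⟩ := avg_dS_small (δ := δ) (K' := K') hD n (ε / (4 * (n + 3))) (by positivity)
  obtain ⟨l, hl⟩ := exists_nat_gt (32 * D / (δ * ε))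
  have hl0 : (0 : ℝ) < l := lt_of_le_of_lt (by positivity) hl
  have hl1 : 1 ≤ l := by
    have : 0 < l := by exact_mod_cast hl0
    omega
  obtain ⟨i₂, hi₂⟩ := exists_nat_gt ((2 + n + 8 / δ) * (4 / ε))
  refine ⟨max (max i₁ i₂) (max (2 * (l * n)) (n + 1)), fun i hi X U Y Z hUY hUZ hYZ hK hcard
    Idx hIdx => ?_⟩
  have hia : i₁ ≤ i := (le_max_left _ _).trans ((le_max_left _ _).trans hi)
  have hib : i₂ ≤ i := (le_max_right _ _).trans ((le_max_left _ _).trans hi)
  have hic : 2 * (l * n) ≤ i := (le_max_left _ _).trans ((le_max_right _ _).trans hi)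
  have hid : n + 1 ≤ i := (le_max_right _ _).trans ((le_max_right _ _).trans hi)
  have hL := X.L_pos
  have hLe : X.L = Real.log X.m := rfl
  have hf : (0 : ℝ) < (Fintype.card X.I).factorial := by
    exact_mod_cast Nat.factorial_pos _
  have hI1 : n + 1 ≤ Fintype.card X.I := hid.trans X.card_ge
  have hIpos : (0 : ℝ) < Fintype.card X.I := by
    have : 0 < Fintype.card X.I := by omega
    exact_mod_cast this
  have hH : (0 : ℝ) < X.H.card := by exact_mod_cast X.hne.card_pos
  set S := U ∪ Y ∪ Z with hS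
  have hScard : S.card ≤ n := by
    have h1 := card_union_le (U ∪ Y) Z
    have h2 := card_union_le U Y
    rw [hS]
    omega
  -- the average of the deficiency
  have hd := hi₁ i hia X S hScard
  -- Lemma A
  have hA := lemmaA D δ (1 / (40 * Fintype.card X.I)) hδ (by positivity) X.m_ge X.H X.hne X.spread
    X.big (U ∪ Y) l hl1 (by
      have h1 : (U ∪ Y).card ≤ n := by
        have h2 := card_union_le U Y
        omega
      have h2 : 2 * (l * (U ∪ Y).card) ≤ 2 * (l * n) := by gcongr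
      exact (h2.trans hic).trans X.card_ge)
    (lt_of_le_of_lt X.logcard (by rw [← hLe]; nlinarith))
  rw [← hLe] at hA
  -- the error term of Lemma A
  have hlog2 : Real.log 2 ≤ 1 := by
    have := Real.log_two_lt_d9
    linarith
  have hlog2' : 0 ≤ Real.log 2 := Real.log_nonneg one_le_two
  have hiL : (i : ℝ) ≤ X.L := X.log_ge
  have hi0 : (0 : ℝ) < i := by
    have : 0 < i := by omega
    exact_mod_cast this
  have hE1 : 2 * (D * X.L + l * Real.log 2) / (l * (δ / 2 * X.L - Real.log (Fintype.card X.I))) ≤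
      ε / 4 + 8 / δ / i := by
    have h1 : δ / 4 * X.L ≤ δ / 2 * X.L - Real.log (Fintype.card X.I) := by
      have := X.logcard
      rw [← hLe] at this
      linarith
    have h2 : 0 < δ / 4 * X.L := by positivity
    calc 2 * (D * X.L + l * Real.log 2) / (l * (δ / 2 * X.L - Real.log (Fintype.card X.I)))
        ≤ 2 * (D * X.L + l * Real.log 2) / (l * (δ / 4 * X.L)) := by gcongr
      _ = 8 * D / (l * δ) + 8 / δ * (Real.log 2 / X.L) := by
          field_simp
          ring
      _ ≤ ε / 4 + 8 / δ * (1 / i) := by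
          gcongr ?_ + 8 / δ * ?_
          · rw [div_lt_iff₀ (by positivity)] at hl
            rw [div_le_iff₀ (by positivity)]
            nlinarith
          · exact div_le_div₀ zero_le_one hlog2 hi0 hiL
      _ = ε / 4 + 8 / δ / i := by ring
  have hE2 : Fintype.card X.I / (1 / (40 * Fintype.card X.I)) * (X.m : ℝ) ^ (-(δ / 2)) ≤ 1 / i := by
    have h1 : (Fintype.card X.I : ℝ) / (1 / (40 * Fintype.card X.I)) =
        40 * (Fintype.card X.I : ℝ) ^ 2 := by
      field_simp
    rw [h1]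
    refine X.pw.trans ?_
    gcongr
    linarith
  have hA' : avg (fun σ : Equiv.Perm X.I =>
      ((X.H.filter fun x => TBad (1 / (40 * Fintype.card X.I)) X.H
        ((U ∪ Y).map σ.toEmbedding) x).card : ℝ) / X.H.card) ≤ ε / 4 + 8 / δ / i + 1 / i := by
    unfold avg
    rw [div_le_iff₀ hf]
    refine hA.trans ?_
    rw [mul_comm]
    gcongr
  -- the pointwise bound
  have hpt : ∀ σ : Equiv.Perm X.I,
      pnU X.H (U.map σ.toEmbedding) (Y.map σ.toEmbedding) (Z.map σ.toEmbedding)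
          (Idx (U.map σ.toEmbedding) (Y.map σ.toEmbedding) (Z.map σ.toEmbedding)) ≤
        (1 / 10 + 1 / 40 + (1 + n) / i) + (n + 3) * (dS X.H (S.map σ.toEmbedding) / X.L) +
          ((X.H.filter fun x => TBad (1 / (40 * Fintype.card X.I)) X.H
            ((U ∪ Y).map σ.toEmbedding) x).card : ℝ) / X.H.card := by
    intro σ
    have hUσ : U.map σ.toEmbedding ≠ univ := by
      intro h
      have h1 := congrArg Finset.card h
      rw [card_map, card_univ] at h1
      omega
    obtain ⟨V, -, -, h3⟩ := hIdx (U.map σ.toEmbedding) (Y.map σ.toEmbedding) (Z.map σ.toEmbedding)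
      ((disjoint_map _).mpr hUY) ((disjoint_map _).mpr hUZ) ((disjoint_map _).mpr hYZ)
      (by rw [card_map]; exact hK) hUσ
    rw [← map_union, ← map_union, ← hS, ← hLe] at h3
    refine h3.trans ?_
    have hdn : 0 ≤ dS X.H (S.map σ.toEmbedding) / X.L :=
      div_nonneg (dS_nonneg X.hne _) hL.le
    set d := dS X.H (S.map σ.toEmbedding) / X.L with hdd
    have hdd' : dS X.H (S.map σ.toEmbedding) = d * X.L := by
      rw [hdd]; field_simp
    have hu := X.dS_univ_le
    have hlL : Real.log 2 / X.L ≤ 1 / i := div_le_div₀ zero_le_one hlog2 hi0 hiL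
    have hlL0 : 0 ≤ Real.log 2 / X.L := by positivity
    have t1 : (Real.log 2 + 3 * dS X.H (S.map σ.toEmbedding) + 2 * dS X.H univ) /
        (20 * (D + 1) * X.L) ≤ 1 / i + 3 * d + 1 / 10 := by
      have e1 : (Real.log 2 + 3 * dS X.H (S.map σ.toEmbedding) + 2 * dS X.H univ) /
          (20 * (D + 1) * X.L) ≤ (Real.log 2 + 3 * (d * X.L) + 2 * (D * X.L)) /
          (20 * (D + 1) * X.L) := by
        rw [hdd']
        gcongr
      have e2 : (Real.log 2 + 3 * (d * X.L) + 2 * (D * X.L)) / (20 * (D + 1) * X.L) =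
          (Real.log 2 / X.L + 3 * d + 2 * D) / (20 * (D + 1)) := by
        field_simp
      refine e1.trans ?_
      rw [e2, div_le_iff₀ (by positivity)]
      have h20 : (1 : ℝ) ≤ 20 * (D + 1) := by linarith
      have e3 : (1 / (i : ℝ) + 3 * d) * 1 ≤ (1 / (i : ℝ) + 3 * d) * (20 * (D + 1)) := by
        apply mul_le_mul_of_nonneg_left h20
        positivity
      nlinarith
    have t2 : ((Y.map σ.toEmbedding).card : ℝ) *
        ((Real.log 2 + dS X.H (S.map σ.toEmbedding)) / X.L) ≤ n / i + n * d := by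
      have e1 : (Real.log 2 + dS X.H (S.map σ.toEmbedding)) / X.L = Real.log 2 / X.L + d := by
        rw [add_div]
      have e2 : ((Y.map σ.toEmbedding).card : ℝ) ≤ n := by
        rw [card_map]
        have : Y.card ≤ n := by omega
        exact_mod_cast this
      rw [e1]
      calc ((Y.map σ.toEmbedding).card : ℝ) * (Real.log 2 / X.L + d)
          ≤ n * (1 / i + d) := by
            apply mul_le_mul e2 (by linarith) (by positivity) hn0
        _ = n / i + n * d := by ring
    have t3 : (Fintype.card X.I : ℝ) * (1 / (40 * Fintype.card X.I)) = 1 / 40 := by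
      field_simp
    rw [t3]
    have t4 : ((1 : ℝ) + n) / i = 1 / i + n / i := by ring
    rw [t4]
    linarith
  -- sum up
  unfold avg at hd hA' ⊢
  have hsum := sum_le_sum fun (σ : Equiv.Perm X.I) (_ : σ ∈ univ) => hpt σ
  rw [sum_add_distrib, sum_add_distrib, ← mul_sum, sum_const, card_univ, Fintype.card_perm,
    nsmul_eq_mul] at hsum
  rw [div_le_iff₀ hf] at hd hA' ⊢
  have hn3 : (0 : ℝ) < n + 3 := by positivity
  have h5 : ((n : ℝ) + 3) * ∑ σ : Equiv.Perm X.I, dS X.H (S.map σ.toEmbedding) / X.L ≤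
      ε / 4 * (Fintype.card X.I).factorial := by
    calc ((n : ℝ) + 3) * ∑ σ : Equiv.Perm X.I, dS X.H (S.map σ.toEmbedding) / X.L
        ≤ ((n : ℝ) + 3) * (ε / (4 * (n + 3)) * (Fintype.card X.I).factorial) :=
          mul_le_mul_of_nonneg_left hd hn3.le
      _ = ε / 4 * (Fintype.card X.I).factorial := by
          field_simp
  have h6 : (2 + n + 8 / δ) / i ≤ ε / 4 := by
    rw [div_le_iff₀ hi0]
    have h7 : (2 + (n : ℝ) + 8 / δ) * (4 / ε) < i :=
      lt_of_lt_of_le hi₂ (by exact_mod_cast hib)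
    rw [mul_div_assoc', div_lt_iff₀ hε] at h7
    linarith
  have h8 : ((2 : ℝ) + n + 8 / δ) / i = (1 + n) / i + 8 / δ / i + 1 / i := by ring
  rw [h8] at h6
  have h9 : ((1 : ℝ) + n) / i + 8 / δ / i + 1 / i ≤ ε / 4 := h6
  nlinarith

end RFold
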