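import Pool.Agent.Lib.MP_3581cd_co.Copies

/-!
# MP_3581cd_co: (4.1) the bad remainder and (4.2) collisions
-/

namespace RFold

open Finset

section General

variable {Ω : Type*} [Fintype Ω] {α β γ δ : Type*} {p : Ω → ℝ}

theorem pr_eq_ite (p : Ω → ℝ) (A : Ω → Prop) [DecidablePred A] :
    pr p A = ∑ ω, if A ω then p ω else 0 := by
  unfold pr
  apply sum_congr rfl
  intro ω _
  by_cases h : A ω <;> simp [h]

/-- A Fano type inequality: if `f` is in a list of at most `b` values (depending on `g`) with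
probability `P`, then `H(f | g) ≤ log 2 + (1 - P) log N + P log b`. -/
theorem cent_le_of_list [Fintype β] (hp : IsPr p) (f : Ω → β) (g : Ω → γ) (B : γ → Finset β)
    (b : ℝ) (hb : 0 < b) (hB : ∀ c, ((B c).card : ℝ) ≤ b) (N : ℝ) (hN : 1 ≤ N)
    (hN' : (Fintype.card β : ℝ) ≤ N) :
    cent p f g ≤ Real.log 2 + (1 - pr p (fun ω => f ω ∈ B (g ω))) * Real.log N
      + pr p (fun ω => f ω ∈ B (g ω)) * Real.log b := by
  classical
  have hNpos : 0 < N := by linarith
  let q : γ → β → ℝ := fun c v => 1 / (2 * N) + if v ∈ B c then 1 / (2 * b) else 0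
  have hq0 : ∀ c v, 1 / (2 * N) ≤ q c v := by
    intro c v
    simp only [q]
    split_ifs
    · have : 0 < 1 / (2 * b) := by positivity
      linarith
    · linarith
  have hqpos : ∀ c v, 0 < q c v := fun c v => lt_of_lt_of_le (by positivity) (hq0 c v)
  have h1 := cent_le_gibbs hp f g q (hq := fun ω _ => hqpos _ _) (S := fun _ => univ)
    (hS := fun ω _ => mem_univ _) (hq0 := by intros; exact (hqpos _ _).le) (hqS := by
      intro ω _
      simp only [q]
      rw [sum_add_distrib, sum_const, card_univ, nsmul_eq_mul, ← sum_filter, sum_const,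
        nsmul_eq_mul]
      have h2 : ((univ.filter fun v => v ∈ B (g ω)).card : ℝ) ≤ b := by
        have : (univ.filter fun v => v ∈ B (g ω)) = B (g ω) := by ext; simp
        rw [this]; exact hB _
      have h3 : (Fintype.card β : ℝ) * (1 / (2 * N)) ≤ 1 / 2 := by
        calc (Fintype.card β : ℝ) * (1 / (2 * N)) ≤ N * (1 / (2 * N)) :=
              mul_le_mul_of_nonneg_right hN' (by positivity)
          _ = 1 / 2 := by field_simp
      have h4 : ((univ.filter fun v => v ∈ B (g ω)).card : ℝ) * (1 / (2 * b)) ≤ 1 / 2 := by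
        calc _ ≤ b * (1 / (2 * b)) := mul_le_mul_of_nonneg_right h2 (by positivity)
          _ = 1 / 2 := by field_simp
      linarith)
  refine h1.trans ?_
  have h5 : ∀ ω, p ω * (-Real.log (q (g ω) (f ω))) ≤
      p ω * (Real.log 2 + Real.log N) +
        (if f ω ∈ B (g ω) then p ω else 0) * (Real.log b - Real.log N) := by
    intro ω
    by_cases hω : f ω ∈ B (g ω)
    · rw [if_pos hω]
      have h6 : Real.log (1 / (2 * b)) ≤ Real.log (q (g ω) (f ω)) := by
        apply Real.log_le_log (by positivity)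
        simp only [q, if_pos hω]
        have : 0 < 1 / (2 * N) := by positivity
        linarith
      rw [one_div, Real.log_inv, Real.log_mul (by norm_num) hb.ne'] at h6
      have h7 := mul_le_mul_of_nonneg_left (neg_le_neg h6) (hp.nonneg ω)
      linarith
    · rw [if_neg hω]
      have h6 : Real.log (1 / (2 * N)) ≤ Real.log (q (g ω) (f ω)) :=
        Real.log_le_log (by positivity) (hq0 _ _)
      rw [one_div, Real.log_inv, Real.log_mul (by norm_num) hNpos.ne'] at h6
      have h7 := mul_le_mul_of_nonneg_left (neg_le_neg h6) (hp.nonneg ω)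
      linarith
  calc ∑ ω, p ω * (-Real.log (q (g ω) (f ω)))
      ≤ ∑ ω, (p ω * (Real.log 2 + Real.log N) +
        (if f ω ∈ B (g ω) then p ω else 0) * (Real.log b - Real.log N)) :=
        sum_le_sum (fun ω _ => h5 ω)
    _ = _ := by
        rw [sum_add_distrib, ← sum_mul, ← sum_mul, hp.sum_eq]
        have : ∑ ω, (if f ω ∈ B (g ω) then p ω else 0) = pr p (fun ω => f ω ∈ B (g ω)) := by
          unfold pr
          apply sum_congr rfl
          intro ω _
          by_cases h : f ω ∈ B (g ω) <;> simp [h]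
        rw [this]
        ring

end General

section Collide

variable {Ω : Type*} [Fintype Ω] [Nonempty Ω] {α β γ δ : Type*}
variable {ι : Type*} [Fintype ι] [DecidableEq ι] {κ : ι → Ω → Ω → ℝ}

open Classical in
/-- `x` is bad: some coordinate `g j` is popular in the fibre `φ = φ x` at the value `g j x`. -/
def BadPt {J : Type*} (φ : Ω → α) (g : J → Ω → β) (c : ℝ) (x : Ω) : Prop :=
  ∃ j, c * ((univ.filter fun x' => φ x' = φ x).card : ℝ) ≤
    ((univ.filter fun x' => φ x' = φ x ∧ g j x' = g j x).card : ℝ)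

omit [Nonempty Ω] in
theorem pr_fk_le (φ : Ω → α) {J : Type*} (g : J → Ω → β) (c : ℝ) (hc : 0 ≤ c) (j : J) (v : β)
    (y : Ω) : pr (fk φ y) (fun z => g j z = v ∧ ¬ BadPt φ g c z) ≤ c := by
  classical
  by_cases hex : ∃ z, φ z = φ y ∧ g j z = v ∧ ¬ BadPt φ g c z
  · obtain ⟨z0, hz0, hgz, hbad⟩ := hex
    unfold BadPt at hbad
    push Not at hbad
    have h1 := hbad j
    have h2 : (univ.filter fun x' => φ x' = φ z0) = (univ.filter fun x' => φ x' = φ y) := by
      rw [hz0]
    have h3 : ((univ.filter fun x' => φ x' = φ z0 ∧ g j x' = g j z0).card : ℝ) <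
        c * ((univ.filter fun x' => φ x' = φ z0).card : ℝ) := by
      convert h1 using 2
    rw [h2, hz0, hgz] at h3
    have hpos : (0 : ℝ) < ((univ.filter fun x' => φ x' = φ y).card : ℝ) := by
      have : 0 < (univ.filter fun x' => φ x' = φ y).card :=
        card_pos.mpr ⟨y, by simp⟩
      exact_mod_cast this
    rw [pr_eq_ite]
    unfold fk
    calc ∑ z, (if g j z = v ∧ ¬ BadPt φ g c z then
          (if φ z = φ y then ((univ.filter fun z => φ z = φ y).card : ℝ)⁻¹ else 0) else 0)
        ≤ ∑ z, (if φ z = φ y ∧ g j z = v then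
            ((univ.filter fun z => φ z = φ y).card : ℝ)⁻¹ else 0) := by
          apply sum_le_sum
          intro z _
          by_cases h4 : g j z = v ∧ ¬ BadPt φ g c z
          · rw [if_pos h4]
            by_cases h5 : φ z = φ y
            · rw [if_pos h5, if_pos ⟨h5, h4.1⟩]
            · rw [if_neg h5, if_neg (fun h => h5 h.1)]
          · rw [if_neg h4]
            split_ifs
            · positivity
            · exact le_rfl
      _ = ((univ.filter fun x' => φ x' = φ y ∧ g j x' = v).card : ℝ) *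
            ((univ.filter fun z => φ z = φ y).card : ℝ)⁻¹ := by
          rw [← sum_filter, sum_const, nsmul_eq_mul]
      _ ≤ c := by
          rw [← div_eq_mul_inv, div_le_iff₀ hpos]
          exact h3.le
  · have : pr (fk φ y) (fun z => g j z = v ∧ ¬ BadPt φ g c z) = 0 := by
      unfold pr
      apply sum_eq_zero
      intro z _
      by_cases h4 : g j z = v ∧ ¬ BadPt φ g c z
      · rw [if_pos h4]
        unfold fk
        rw [if_neg]
        intro h5
        exact hex ⟨z, h5, h4.1, h4.2⟩
      · rw [if_neg h4]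
    rw [this]
    exact hc

omit [Nonempty Ω] in
theorem pr_comp_le {κ₁ κ₂ : Ω → Ω → ℝ} (h₁ : IsKer κ₁) (A : Ω → Prop) (c : ℝ)
    (h : ∀ y, pr (κ₂ y) A ≤ c) (x : Ω) : pr (comp κ₁ κ₂ x) A ≤ c := by
  classical
  have h1 : pr (comp κ₁ κ₂ x) A = ∑ y, κ₁ x y * pr (κ₂ y) A := by
    unfold pr comp
    simp only [mul_sum]
    rw [sum_comm]
    apply sum_congr rfl
    intro z _
    by_cases hz : A z
    · simp [hz]
    · simp [hz]
  rw [h1]
  calc ∑ y, κ₁ x y * pr (κ₂ y) A ≤ ∑ y, κ₁ x y * c :=
        sum_le_sum (fun y _ => mul_le_mul_of_nonneg_left (h y) ((h₁ x).nonneg y))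
    _ = c := by rw [← sum_mul, (h₁ x).sum_eq, one_mul]

/-- (4.2), coordinates outside `U + Y`. -/
theorem collision_outer {J : Type*} [Fintype J] (hκ : ∀ i, IsKer (κ i)) {i₀ i₁ : ι} (hne : i₁ ≠ i₀)
    (φ : Ω → α) (ψ : Ω → δ) (hi : κ i₀ = comp (fk ψ) (fk φ)) (g : J → Ω → β) (c : ℝ)
    (hc : 0 ≤ c) :
    pr (jt κ) (fun ω => ∃ j, g j (ω.2 i₀) = g j (ω.2 i₁)) ≤
      Fintype.card J * c + pr (uni Ω) (BadPt φ g c) := by
  have hp := isPr_jt hκ
  have hst : Stat (κ i₀) := by
    rw [hi]; exact stat_comp (stat_fk _) (stat_fk _)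
  have h1 : pr (jt κ) (fun ω => ∃ j, g j (ω.2 i₀) = g j (ω.2 i₁)) ≤
      pr (jt κ) (fun ω => (∃ j, (g j (ω.2 i₀) = g j (ω.2 i₁) ∧ ¬ BadPt φ g c (ω.2 i₀))) ∨
        BadPt φ g c (ω.2 i₀)) := by
    apply pr_mono hp
    rintro ω _ ⟨j, hj⟩
    by_cases hb : BadPt φ g c (ω.2 i₀)
    · exact Or.inr hb
    · exact Or.inl ⟨j, hj, hb⟩
  refine h1.trans ((pr_or_le hp _ _).trans ?_)
  rw [pr_jt_copy hκ hst (BadPt φ g c)]
  apply add_le_add _ le_rfl
  refine (pr_exists_le hp _).trans ?_
  calc ∑ j, pr (jt κ) (fun ω => g j (ω.2 i₀) = g j (ω.2 i₁) ∧ ¬ BadPt φ g c (ω.2 i₀))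
      ≤ ∑ _j : J, c := by
        apply sum_le_sum
        intro j _
        apply pr_jt_le hκ i₀
        intro ω _
        simp only [Function.update_self, Function.update_of_ne hne]
        rw [hi]
        apply pr_comp_le (isKer_fk ψ)
        intro y
        exact pr_fk_le φ g c hc j _ y
    _ = _ := by rw [sum_const, card_univ, nsmul_eq_mul]

/-- (4.2), coordinates in `Y`. -/
theorem collision_inner {m : ℕ} (hm : 1 ≤ m) (hκ : ∀ i, IsKer (κ i)) {i₀ i₁ : ι} (hne : i₁ ≠ i₀)
    (φ : Ω → α) (ψ : Ω → δ) (hi : κ i₀ = comp (fk ψ) (fk φ)) (g : Ω → Fin m)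
    (hg : ∀ x x', φ x = φ x' → g x = g x') :
    pr (jt κ) (fun ω => g (ω.2 i₀) = g (ω.2 i₁)) * Real.log m ≤
      Real.log 2 + Real.log m - cent (uni Ω) g ψ := by
  classical
  have hp := isPr_jt hκ
  have hmR : (1 : ℝ) ≤ m := by exact_mod_cast hm
  -- upper bound
  have h1 := cent_le_of_list hp (fun ω => g (ω.2 i₀)) (fun ω => g (ω.2 i₁))
    (fun v => ({v} : Finset (Fin m))) 1 one_pos (fun c => by simp) m hmR (by simp)
  simp only [mem_singleton, Real.log_one, mul_zero, add_zero] at h1
  -- lower bound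
  have h2 : hk (κ i₀) g ≤ cent (jt κ) (fun ω => g (ω.2 i₀)) (fun ω => g (ω.2 i₁)) := by
    apply hk_le_cent hκ i₀
    intro x e z
    simp [Function.update_of_ne hne]
  have h3 : hk (κ i₀) g = cent (uni Ω) g ψ := by
    rw [hi, ← hk_fk ψ g]
    unfold hk
    congr 1
    apply sum_congr rfl
    intro x _
    have hk1 : IsPr (comp (fk ψ) (fk φ) x) := isKer_comp (isKer_fk ψ) (isKer_fk φ) x
    have hk2 : IsPr (fk ψ x) := isKer_fk ψ x
    apply ent_of_law hk1 hk2
    intro b
    unfold law
    rw [pr_eq_ite, pr_eq_ite]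
    unfold comp
    calc ∑ z, (if g z = b then ∑ y, fk ψ x y * fk φ y z else 0)
        = ∑ z, ∑ y, (if g y = b then fk ψ x y * fk φ y z else 0) := by
          apply sum_congr rfl
          intro z _
          by_cases hz : g z = b
          · rw [if_pos hz]
            apply sum_congr rfl
            intro y _
            by_cases hy : g y = b
            · rw [if_pos hy]
            · rw [if_neg hy]
              by_cases h0 : fk φ y z = 0
              · rw [h0, mul_zero]
              · exact absurd ((hg _ _ (fk_ne_zero h0)).symm.trans hz) hy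
          · rw [if_neg hz]
            symm
            apply sum_eq_zero
            intro y _
            by_cases hy : g y = b
            · rw [if_pos hy]
              by_cases h0 : fk φ y z = 0
              · rw [h0, mul_zero]
              · exact absurd ((hg _ _ (fk_ne_zero h0)).trans hy) hz
            · rw [if_neg hy]
      _ = ∑ y, (if g y = b then fk ψ x y else 0) := by
          rw [sum_comm]
          apply sum_congr rfl
          intro y _
          by_cases hy : g y = b
          · simp only [if_pos hy]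
            rw [← mul_sum, (isKer_fk φ y).sum_eq, mul_one]
          · simp [hy]
  rw [h3] at h2
  linarith

end Collide

end RFold
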