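import Mathlib

/-!
# MP_3581cd_co: basic definitions

Points are functions `I → Fin m`, `I` a finite set of coordinates; `H` is a finite set of points.
-/

namespace RFold

/-- No coordinate hyperplane slice `{x ∈ H : x i = v}` contains more than `m ^ (-δ) * |H|` points. -/
def Spread {I : Type} {m : ℕ} (δ : ℝ) (H : Finset (I → Fin m)) : Prop :=
  ∀ (i : I) (v : Fin m), ((H.filter fun x => x i = v).card : ℝ) ≤ (m : ℝ) ^ (-δ) * H.card

/-- The mixture of `P` and `Q` along the colouring `c` with the signs `s`. -/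
def mix {I : Type} {m b : ℕ} (P Q : I → Fin m) (c : I → Fin b) (s : Fin b → Bool) : I → Fin m :=
  fun i => if s (c i) then P i else Q i

/-- `H` contains a `b`-box: two points `P, Q` different in all coordinates and a surjective colouring
`c` of the coordinates with `b` colours such that all `2 ^ b` mixtures are in `H`. -/
def HasBox {I : Type} {m : ℕ} (b : ℕ) (H : Finset (I → Fin m)) : Prop :=
  ∃ P Q : I → Fin m, (∀ i, P i ≠ Q i) ∧ ∃ c : I → Fin b, Function.Surjective c ∧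
    ∀ s : Fin b → Bool, mix P Q c s ∈ H

/-- `w` on `U`, `A` outside. -/
def glue {I : Type} [DecidableEq I] {m : ℕ} (U : Finset I) (w : {i // i ∈ U} → Fin m)
    (A : I → Fin m) : I → Fin m :=
  fun i => if h : i ∈ U then w ⟨i, h⟩ else A i

/-- Theorem B for `b`: big spread sets of points contain `b`-boxes. -/
def ThmB (b : ℕ) : Prop :=
  ∀ D δ : ℝ, 0 < δ → ∃ K₀ : ℕ, ∃ M : ℕ → ℕ, ∀ (I : Type) [Fintype I] [DecidableEq I],
    K₀ ≤ Fintype.card I → ∀ m : ℕ, M (Fintype.card I) ≤ m → ∀ H : Finset (I → Fin m),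
      Spread δ H → (m : ℝ) ^ ((Fintype.card I : ℝ) - D) ≤ H.card → HasBox b H

/-- The key lemma. -/
def KeyLemma : Prop :=
  ∀ D δ : ℝ, 1 ≤ D → 0 < δ → ∀ K' : ℕ, ∃ K₀ : ℕ, ∃ M : ℕ → ℕ,
    ∀ (I : Type) [Fintype I] [DecidableEq I], K₀ ≤ Fintype.card I →
      ∀ m : ℕ, M (Fintype.card I) ≤ m → ∀ H : Finset (I → Fin m),
        Spread δ H → (m : ℝ) ^ ((Fintype.card I : ℝ) - D) ≤ H.card →
          ∃ U : Finset I, K' ≤ U.card ∧ U ≠ Finset.univ ∧ ∃ A0 A1 : I → Fin m,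
            (∀ i, i ∉ U → A0 i ≠ A1 i) ∧ ∃ G : Finset ({i // i ∈ U} → Fin m),
              (∀ w ∈ G, glue U w A0 ∈ H ∧ glue U w A1 ∈ H) ∧
                (m : ℝ) ^ ((U.card : ℝ) - 20 * (D + 1)) ≤ G.card ∧ Spread (1 / 20) G

/-- An `r`-fold split in a family of finite sets: `2 r` pairwise distinct members
`A i, B i` with `A i ∩ B i = ∅` and all unions `A i ∪ B i` equal. -/
def HasSplit {V : Type} [DecidableEq V] (r : ℕ) (H : Finset (Finset V)) : Prop :=
  ∃ A B : Fin r → Finset V, (∀ i, A i ∈ H ∧ B i ∈ H ∧ Disjoint (A i) (B i)) ∧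
    (∀ i j, A i ∪ B i = A j ∪ B j) ∧ Function.Injective (Sum.elim A B)

/-- The main theorem. -/
def Main : Prop :=
  ∀ r : ℕ, 1 ≤ r → ∀ g : ℝ, 1 < g → ∃ k₀ : ℕ, ∀ k : ℕ, k₀ ≤ k → ∃ n₀ : ℕ, ∀ n : ℕ, n₀ ≤ n →
    ∀ H : Finset (Finset (Fin n)), (∀ e ∈ H, e.card = k) →
      g * ((n - 1).choose (k - 1) : ℝ) < (H.card : ℝ) → HasSplit r H

end RFold
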