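import Pool.Agent.Lib.MP_3581cd_co.Partite

namespace RFold

open Finset

/-- the `k`-set attached to a point of `[m]^k` and an embedding of `[k] × [m]` -/
def edge {n k m : ℕ} (f : Fin k × Fin m ↪ Fin n) (x : Fin k → Fin m) : Finset (Fin n) :=
  univ.map ⟨fun i => f (i, x i), fun _ _ h => congrArg Prod.fst (f.injective h)⟩

theorem mem_edge {n k m : ℕ} (f : Fin k × Fin m ↪ Fin n) (x : Fin k → Fin m) (a : Fin n) :
    a ∈ edge f x ↔ ∃ i, f (i, x i) = a := by
  simp [edge]

theorem card_edge {n k m : ℕ} (f : Fin k × Fin m ↪ Fin n) (x : Fin k → Fin m) :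
    (edge f x).card = k := by
  simp [edge]

theorem edge_injective {n k m : ℕ} (f : Fin k × Fin m ↪ Fin n) :
    Function.Injective (edge f : (Fin k → Fin m) → Finset (Fin n)) := by
  intro x y h
  funext i
  have h1 : f (i, x i) ∈ edge f y := by
    rw [← h, mem_edge]
    exact ⟨i, rfl⟩
  rw [mem_edge] at h1
  obtain ⟨j, hj⟩ := h1
  have h2 := f.injective hj
  have h3 : j = i := congrArg Prod.fst h2
  subst h3
  exact (congrArg Prod.snd h2).symm

theorem hasSplit_of_hasBox {n k m b r : ℕ} (hr : r ≤ 2 ^ b) (f : Fin k × Fin m ↪ Fin n)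
    (H : Finset (Finset (Fin n))) (G : Finset (Fin k → Fin m)) (hG : ∀ x ∈ G, edge f x ∈ H)
    (hbox : HasBox (b + 1) G) : HasSplit r H := by
  obtain ⟨P, Q, hPQ, c, hc, hmix⟩ := hbox
  -- `r` different signs
  have hcard : Fintype.card (Fin r) ≤ Fintype.card (Fin b → Bool) := by simpa using hr
  obtain ⟨e⟩ := Function.Embedding.nonempty_of_card_le hcard
  let S : Fin r → Fin (b + 1) → Bool := fun j => Fin.snoc (e j) true
  have hSlast : ∀ j, S j (Fin.last b) = true := fun j => by simp [S]
  have hSinj : Function.Injective S := by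
    intro i j h
    apply e.injective
    funext a
    have := congrFun h a.castSucc
    simpa [S] using this
  have hmixinj : ∀ s t : Fin (b + 1) → Bool, mix P Q c s = mix P Q c t → s = t := by
    intro s t h
    funext a
    obtain ⟨i, hi⟩ := hc a
    have := congrFun h i
    unfold mix at this
    rw [hi] at this
    cases hs : s a <;> cases ht : t a <;> simp [hs, ht, hPQ i, (hPQ i).symm] at this ⊢
  refine ⟨fun j => edge f (mix P Q c (S j)), fun j => edge f (mix P Q c (fun a => !(S j a))),
    ?_, ?_, ?_⟩
  · intro j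
    refine ⟨hG _ (hmix _), hG _ (hmix _), ?_⟩
    rw [disjoint_left]
    intro a h1 h2
    rw [mem_edge] at h1 h2
    obtain ⟨i, hi⟩ := h1
    obtain ⟨i', hi'⟩ := h2
    have h3 := f.injective (hi.trans hi'.symm)
    have h4 : i = i' := congrArg Prod.fst h3
    subst h4
    have h5 : mix P Q c (S j) i = mix P Q c (fun a => !(S j a)) i := congrArg Prod.snd h3
    unfold mix at h5
    cases hs : S j (c i) <;> simp [hs, hPQ i, (hPQ i).symm] at h5
  · have : ∀ j, edge f (mix P Q c (S j)) ∪ edge f (mix P Q c (fun a => !(S j a)))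
        = edge f P ∪ edge f Q := by
      intro j
      ext a
      simp only [mem_union, mem_edge]
      constructor
      · rintro (⟨i, hi⟩ | ⟨i, hi⟩)
        · cases hs : S j (c i)
          · simp [mix, hs] at hi; right; exact ⟨i, hi⟩
          · simp [mix, hs] at hi; left; exact ⟨i, hi⟩
        · cases hs : S j (c i)
          · simp [mix, hs] at hi; left; exact ⟨i, hi⟩
          · simp [mix, hs] at hi; right; exact ⟨i, hi⟩
      · rintro (⟨i, hi⟩ | ⟨i, hi⟩)
        · cases hs : S j (c i)
          · right; exact ⟨i, by simp [mix, hs, hi]⟩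
          · left; exact ⟨i, by simp [mix, hs, hi]⟩
        · cases hs : S j (c i)
          · left; exact ⟨i, by simp [mix, hs, hi]⟩
          · right; exact ⟨i, by simp [mix, hs, hi]⟩
    intro i j
    rw [this i, this j]
  · rintro (i | i) (j | j) h
    · simp only [Sum.elim_inl] at h
      rw [hSinj (hmixinj _ _ (edge_injective f h))]
    · simp only [Sum.elim_inl, Sum.elim_inr] at h
      have := congrFun (hmixinj _ _ (edge_injective f h)) (Fin.last b)
      simp [hSlast] at this
    · simp only [Sum.elim_inl, Sum.elim_inr] at h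
      have := congrFun (hmixinj _ _ (edge_injective f h)) (Fin.last b)
      simp [hSlast] at this
    · simp only [Sum.elim_inr] at h
      have h1 := hmixinj _ _ (edge_injective f h)
      have h2 : S i = S j := by
        funext a
        have := congrFun h1 a
        simpa using this
      rw [hSinj h2]

/-- Averaging over all permutations: some copy of the complete `k`-partite hypergraph contains
many edges of `H`. -/
theorem exists_embedding {n k m : ℕ} (hkm : k * m ≤ n)
    (H : Finset (Finset (Fin n))) (hH : ∀ e ∈ H, e.card = k) :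
    ∃ f : Fin k × Fin m ↪ Fin n,
      m ^ k * H.card ≤ n.choose k * (univ.filter fun x : Fin k → Fin m => edge f x ∈ H).card := by
  have hcard : Fintype.card (Fin k × Fin m) ≤ Fintype.card (Fin n) := by simpa using hkm
  obtain ⟨f0⟩ := Function.Embedding.nonempty_of_card_le hcard
  -- number of permutations mapping a set into `H`
  let N : Finset (Fin n) → ℕ := fun e =>
    (univ.filter fun σ : Equiv.Perm (Fin n) => e.map σ.toEmbedding ∈ H).card
  have hN : ∀ e e' : Finset (Fin n), e.card = e'.card → N e = N e' := by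
    intro e e' hee
    let τ0 := Finset.equivOfCardEq hee
    let τ : Equiv.Perm (Fin n) := Equiv.extendSubtype τ0
    have hτ : e.map τ.toEmbedding = e' := by
      apply eq_of_subset_of_card_le
      · intro a ha
        rw [mem_map] at ha
        obtain ⟨b, hb, rfl⟩ := ha
        exact Equiv.extendSubtype_mem τ0 b hb
      · rw [card_map, hee]
    refine card_bij' (fun σ _ => σ * τ⁻¹) (fun σ _ => σ * τ) ?_ ?_ ?_ ?_
    · intro σ hσ
      rw [mem_filter] at hσ ⊢
      refine ⟨mem_univ _, ?_⟩
      rw [← hτ, map_map]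
      have : τ.toEmbedding.trans (σ * τ⁻¹).toEmbedding = σ.toEmbedding := by
        ext a; simp
      rw [this]
      exact hσ.2
    · intro σ hσ
      rw [mem_filter] at hσ ⊢
      refine ⟨mem_univ _, ?_⟩
      have : (σ * τ).toEmbedding = τ.toEmbedding.trans σ.toEmbedding := by
        ext a; simp
      rw [this, ← map_map, hτ]
      exact hσ.2
    · intro σ _; simp
    · intro σ _; simp
  -- double counting over all `k`-sets
  have hdc : ∀ e : Finset (Fin n), e.card = k → n.choose k * N e = n.factorial * H.card := by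
    intro e he
    have h1 : ∑ e' ∈ powersetCard k (univ : Finset (Fin n)), N e' = n.choose k * N e := by
      rw [sum_congr rfl (g := fun _ => N e)]
      · simp
      · intro e' he'
        exact hN _ _ ((mem_powersetCard.mp he').2.trans he.symm)
    rw [← h1]
    simp only [N, card_filter]
    rw [sum_comm]
    have h2 : ∀ σ : Equiv.Perm (Fin n), ∑ e' ∈ powersetCard k (univ : Finset (Fin n)),
        (if e'.map σ.toEmbedding ∈ H then 1 else 0) = H.card := by
      intro σ
      rw [← card_filter]
      refine card_bij' (fun e' _ => e'.map σ.toEmbedding) (fun e' _ => e'.map σ.symm.toEmbedding)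
        ?_ ?_ ?_ ?_
      · intro e' he'
        exact (mem_filter.mp he').2
      · intro e' he'
        rw [mem_filter, mem_powersetCard]
        refine ⟨⟨subset_univ _, ?_⟩, ?_⟩
        · rw [card_map]; exact hH _ he'
        · rw [map_map]
          have : σ.symm.toEmbedding.trans σ.toEmbedding = Function.Embedding.refl _ := by
            ext a; simp
          rw [this]
          simpa using he'
      · intro e' _
        rw [map_map]
        have : σ.toEmbedding.trans σ.symm.toEmbedding = Function.Embedding.refl _ := by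
          ext a; simp
        rw [this]
        simp
      · intro e' _
        rw [map_map]
        have : σ.symm.toEmbedding.trans σ.toEmbedding = Function.Embedding.refl _ := by
          ext a; simp
        rw [this]
        simp
    rw [sum_congr rfl (fun σ _ => h2 σ)]
    simp [Fintype.card_perm]
  -- averaging
  by_contra hcon
  push Not at hcon
  have h3 : ∑ σ : Equiv.Perm (Fin n), n.choose k *
      (univ.filter fun x : Fin k → Fin m => edge (f0.trans σ.toEmbedding) x ∈ H).card
      < ∑ σ : Equiv.Perm (Fin n), m ^ k * H.card := by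
    apply sum_lt_sum_of_nonempty univ_nonempty
    intro σ _
    exact hcon _
  have h4 : ∑ σ : Equiv.Perm (Fin n), n.choose k *
      (univ.filter fun x : Fin k → Fin m => edge (f0.trans σ.toEmbedding) x ∈ H).card
      = ∑ x : Fin k → Fin m, n.choose k * N (edge f0 x) := by
    rw [← mul_sum, ← mul_sum]
    congr 1
    simp only [N, card_filter]
    rw [sum_comm]
    apply sum_congr rfl
    intro x _
    apply sum_congr rfl
    intro σ _
    have : edge (f0.trans σ.toEmbedding) x = (edge f0 x).map σ.toEmbedding := by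
      unfold edge
      rw [map_map]
      rfl
    rw [this]
  rw [h4, sum_congr rfl (fun x _ => hdc _ (card_edge f0 x))] at h3
  simp only [sum_const, card_univ, smul_eq_mul, Fintype.card_perm, Fintype.card_fin,
    Fintype.card_fun] at h3
  have h5 : m ^ k * (n.factorial * H.card) = n.factorial * (m ^ k * H.card) := by ring
  rw [h5] at h3
  exact lt_irrefl _ h3

theorem main_of_thmB (hB : ∀ b : ℕ, 1 ≤ b → ThmB b) : Main := by
  intro r hr g hg
  obtain ⟨k₀, hk₀⟩ := partite_main r (hB (r + 2) (by omega)) ((g - 1) / 2) (by linarith)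
  refine ⟨max k₀ 1, ?_⟩
  intro k hk
  have hk1 : 1 ≤ k := le_trans (le_max_right _ _) hk
  obtain ⟨m₀, hm₀⟩ := hk₀ k (le_trans (le_max_left _ _) hk)
  -- `g * m ≥ (1 + ε) (m + 1)` for large `m`
  obtain ⟨m₁, hm₁⟩ := exists_nat_gt ((1 + g) / (g - 1))
  refine ⟨k * (max (max m₀ m₁) 1), ?_⟩
  intro n hn H hH hcard
  set m := n / k with hm
  have hmge : max (max m₀ m₁) 1 ≤ m := by
    rw [hm, Nat.le_div_iff_mul_le hk1, mul_comm]
    exact hn
  have hmm0 : m₀ ≤ m := le_trans (le_trans (le_max_left _ _) (le_max_left _ _)) hmge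
  have hmm1 : m₁ ≤ m := le_trans (le_trans (le_max_right _ _) (le_max_left _ _)) hmge
  have hm1 : 1 ≤ m := le_trans (le_max_right _ _) hmge
  have hkm : k * m ≤ n := Nat.mul_div_le n k
  have hkn : k ≤ n := le_trans (Nat.le_mul_of_pos_right k hm1) hkm
  have hn1 : 1 ≤ n := hk1.trans hkn
  obtain ⟨f, hf⟩ := exists_embedding hkm H hH
  apply hasSplit_of_hasBox (b := r + 1) (r := r) _ f H
    (univ.filter fun x : Fin k → Fin m => edge f x ∈ H) (fun x hx => (mem_filter.mp hx).2)
  · apply hm₀ m hmm0
    set N : ℝ := ((univ.filter fun x : Fin k → Fin m => edge f x ∈ H).card : ℝ) with hN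
    have hf' : (m : ℝ) ^ k * H.card ≤ n.choose k * N := by
      rw [hN]; exact_mod_cast hf
    have hch : (n.choose k : ℝ) * k = n * ((n - 1).choose (k - 1) : ℝ) := by
      have h := Nat.add_one_mul_choose_eq (n - 1) (k - 1)
      rw [Nat.sub_add_cancel hn1, Nat.sub_add_cancel hk1] at h
      exact_mod_cast h.symm
    have hCpos : (0 : ℝ) < (n.choose k : ℝ) := by exact_mod_cast Nat.choose_pos hkn
    have hmpos : (0 : ℝ) < m := by exact_mod_cast hm1
    have hnpos : (0 : ℝ) < n := by exact_mod_cast hn1
    have hkpos : (0 : ℝ) < k := by exact_mod_cast hk1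
    have hnlt : (n : ℝ) < k * (m + 1) := by
      have : n < k * (m + 1) := by
        have := Nat.lt_mul_div_succ n hk1
        simpa [hm] using this
      exact_mod_cast this
    -- `m ^ k * g * C(n-1,k-1) < C(n,k) * N`
    have h1 : (m : ℝ) ^ k * (g * ((n - 1).choose (k - 1) : ℝ)) < n.choose k * N :=
      lt_of_lt_of_le (mul_lt_mul_of_pos_left hcard (by positivity)) hf'
    -- multiply by `n`
    have h2 : (m : ℝ) ^ k * g * k < n * N := by
      have h3 : ((m : ℝ) ^ k * g * k) * (n.choose k : ℝ) < (n * N) * (n.choose k : ℝ) := by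
        calc ((m : ℝ) ^ k * g * k) * (n.choose k : ℝ)
            = (m : ℝ) ^ k * g * ((n.choose k : ℝ) * k) := by ring
          _ = n * ((m : ℝ) ^ k * (g * ((n - 1).choose (k - 1) : ℝ))) := by rw [hch]; ring
          _ < n * (n.choose k * N) := mul_lt_mul_of_pos_left h1 hnpos
          _ = (n * N) * (n.choose k : ℝ) := by ring
      exact lt_of_mul_lt_mul_right h3 hCpos.le
    have hNnn : 0 ≤ N := by rw [hN]; positivity
    have h4 : (m : ℝ) ^ k * g < (m + 1) * N := by
      have h5 : (m : ℝ) ^ k * g * k < (m + 1) * N * k := by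
        calc (m : ℝ) ^ k * g * k < n * N := h2
          _ ≤ (k * (m + 1)) * N := mul_le_mul_of_nonneg_right hnlt.le hNnn
          _ = (m + 1) * N * k := by ring
      exact lt_of_mul_lt_mul_right h5 hkpos.le
    have h6 : (1 + g) / (g - 1) < m := lt_of_lt_of_le hm₁ (by exact_mod_cast hmm1)
    have h7 : 1 + g < m * (g - 1) := by
      rwa [div_lt_iff₀ (by linarith)] at h6
    have h8 : (m : ℝ) ^ k = m * (m : ℝ) ^ (k - 1) := by
      rw [← pow_succ']
      congr 1
      omega
    have h9 : (0 : ℝ) < (m : ℝ) ^ (k - 1) := by positivity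
    have h10 : (m + 1) * ((1 + (g - 1) / 2) * (m : ℝ) ^ (k - 1)) ≤ (m + 1) * N := by
      refine le_trans ?_ h4.le
      rw [h8]
      have h11 : (m + 1) * (1 + (g - 1) / 2) ≤ m * g := by nlinarith
      nlinarith
    exact le_of_mul_le_mul_left h10 (by positivity)
  · calc r ≤ 2 ^ r := Nat.lt_two_pow_self.le
      _ ≤ 2 ^ (r + 1) := Nat.pow_le_pow_right (by norm_num) (by omega)

theorem main_of_keyLemma (KL : KeyLemma) : Main := main_of_thmB (thmB_of_keyLemma KL)

end RFold
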