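import Pool.Agent.Lib.MP_3581cd_co.AvgComb
import Pool.Agent.Lib.MP_3581cd_co.AvgH3
import Pool.Agent.Lib.MP_3581cd_co.Boxes
import Pool.Agent.Lib.MP_3581cd_co.Reduction

/-!
# MP_3581cd_co: the key lemma and the main theorem
-/

namespace RFold

open Finset Filter

theorem ev_of_ge {P : ℕ → Prop} (h : ∃ i₀, ∀ i, i₀ ≤ i → P i) :
    ∀ᶠ i in (hyperfilter ℕ : Filter ℕ), P i := by
  obtain ⟨i₀, hi₀⟩ := h
  exact Nat.hyperfilter_le_atTop (eventually_atTop.2 ⟨i₀, hi₀⟩)

theorem keyLemma : KeyLemma := by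
  apply keyLemma_of
  intro D δ K' hD hδ hex
  have X : ∀ i, CEx D δ K' i := fun i => Classical.choice (hex i)
  have hI : ∀ i (U Y Z : Finset (X i).I), ∃ Idx : ((X i).I → Option (Fin (X i).m)) →
      ((X i).I → Option (Fin (X i).m)) → ((X i).I → Option (Fin (X i).m)) → Option (X i).I,
      (Disjoint U Y → Disjoint U Z → Disjoint Y Z → K' ≤ U.card → U ≠ univ →
        GoodIdx (X i) U Y Z Idx) := by
    intro i U Y Z
    by_cases h : Disjoint U Y ∧ Disjoint U Z ∧ Disjoint Y Z ∧ K' ≤ U.card ∧ U ≠ univ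
    · obtain ⟨Idx, hIdx⟩ := exists_goodIdx (X i) hD h.1 h.2.1 h.2.2.1 h.2.2.2.1 h.2.2.2.2
      exact ⟨Idx, fun _ _ _ _ _ => hIdx⟩
    · exact ⟨fun _ _ _ => none, fun h1 h2 h3 h4 h5 => absurd ⟨h1, h2, h3, h4, h5⟩ h⟩
  choose Idx hIdx using hI
  have hg : ∀ i, AllGood (X i) (Idx i) := fun i U Y Z h1 h2 h3 h4 h5 =>
    hIdx i U Y Z h1 h2 h3 h4 h5
  have key : Asym (hyperfilter ℕ : Filter ℕ) D (max K' 1) (fun i => (X i).Φ) (fun i => (X i).κ)
      (fun i => (X i).ν (Idx i)) (fun i => (X i).pn (Idx i)) (fun i => (X i).Λ) := by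
    refine ⟨?_, ?_, ?_, ?_, ?_, ?_, ?_, ?_⟩
    · intro n s t
      exact Eventually.of_forall fun i => ⟨CEx.Φ_zero s t, CEx.Φ_one s t, CEx.Φ_mono n s t,
        CEx.Φ_conc n s t⟩
    · intro q n s t t' h
      exact Eventually.of_forall fun i => CEx.Φ_P2 q n s h
    · intro n s₁ s t h
      exact Eventually.of_forall fun i => CEx.Φ_P3 n h
    · intro K N q n₀ s t₀ t hN ε hε
      obtain ⟨i₀, hi₀⟩ := CEx.comb_small (δ := δ) (K' := K') hD (K := K) (N := N) (q := q)
        (n₀ := n₀) (s := s) (t₀ := t₀) (t := t) hN hε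
      exact ev_of_ge ⟨i₀, fun i hi => hi₀ i hi (X i)⟩
    · intro s y z q n p hs hn hp ε hε
      obtain ⟨i₀, hi₀⟩ := CEx.h3a_small (δ := δ) (K' := K') hD (s := s) (y := y) (z := z) (q := q)
        (n := n) (p := p) (lt_of_lt_of_le one_pos ((le_max_right _ _).trans hs))
        ((le_max_left _ _).trans hs) hn hp hε
      exact ev_of_ge ⟨i₀, fun i hi => hi₀ i hi (X i) (Idx i) (hg i)⟩
    · intro s₁ y z q n p hs hs₁ hn hp ε hε
      obtain ⟨i₀, hi₀⟩ := CEx.h3b_small (δ := δ) (K' := K') hD (s₁ := s₁) (y := y) (z := z)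
        (q := q) (n := n) (p := p) hs₁ ((le_max_left _ _).trans hs) hn hp hε
      exact ev_of_ge ⟨i₀, fun i hi => hi₀ i hi (X i) (Idx i) (hg i)⟩
    · intro s₁ z q hs hs₁ ε hε
      obtain ⟨i₀, hi₀⟩ := CEx.h3c_small (δ := δ) (K' := K') hD (s₁ := s₁) (z := z) (q := q) hs₁ hε
      exact ev_of_ge ⟨i₀, fun i hi => hi₀ i hi (X i)⟩
    · intro s y z hs ε hε
      obtain ⟨i₀, hi₀⟩ := avg_pn_small (δ := δ) (K' := K') hD hδ (s + y + z) ε hε
      refine ev_of_ge ⟨max i₀ (s + y + z), fun i hi => ?_⟩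
      have h1 : i₀ ≤ i := (le_max_left _ _).trans hi
      have h2 : s + y + z ≤ Fintype.card (X i).I :=
        ((le_max_right _ _).trans hi).trans (X i).card_ge
      refine hi₀ i h1 (X i) (seg (X i).I 0 s) (seg (X i).I s (s + y))
        (seg (X i).I (s + y) (s + y + z)) (disjoint_seg le_rfl) (disjoint_seg (by omega))
        (disjoint_seg le_rfl) ?_ ?_ (Idx i) (hg i)
      · rw [card_seg (by omega)]
        have := (le_max_left _ _).trans hs
        omega
      · rw [card_seg (by omega), card_seg (by omega), card_seg (by omega)]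
        omega
  exact key.false

/-- The main theorem. -/
theorem main : Main := main_of_keyLemma keyLemma

end RFold
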