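import Pool.Agent.Lib.MP_3581cd_co.Copies

/-!
# MP_3581cd_co, section 3, inequality (3.0)

`ρ`-copies: first `(w, y)` is resampled given `(w, z)`, then the point is resampled given `(w, y)`.
The entropy of a fresh `ρ`-copy, given `z`, `w₂` and some other copies, is almost at least the
average of the entropies of `(w, y)`-copies.
-/

namespace RFold

open Finset

section Fresh

variable {Ω : Type*} [Fintype Ω] {W W1 W2 O Y Z : Type*}

/-- Fibre kernels only depend on the fibres. -/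
theorem fk_congr {α β : Type*} {φ : Ω → α} {ψ : Ω → β} (h : ∀ x y, φ x = φ y ↔ ψ x = ψ y) :
    fk φ = fk ψ := by
  classical
  funext x y
  unfold fk
  have h1 : (univ.filter fun z => φ z = φ x) = univ.filter fun z => ψ z = ψ x := by
    ext z
    simp [h z x]
  by_cases h2 : φ y = φ x
  · rw [if_pos h2, if_pos ((h y x).1 h2), h1]
  · rw [if_neg h2, if_neg (fun hh => h2 ((h y x).2 hh))]

/-- The kernel of the `ρ`-copies. -/
noncomputable def rk (w : Ω → W) (y : Ω → Y) (z : Ω → Z) : Ω → Ω → ℝ :=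
  comp (fk fun x => (w x, z x)) (fk fun x => (w x, y x))

theorem isKer_rk (w : Ω → W) (y : Ω → Y) (z : Ω → Z) : IsKer (rk w y z) :=
  isKer_comp (isKer_fk _) (isKer_fk _)

theorem stat_rk (w : Ω → W) (y : Ω → Y) (z : Ω → Z) : Stat (rk w y z) :=
  stat_comp (stat_fk _) (stat_fk _)

theorem dep_rk (w : Ω → W) (y : Ω → Y) (z : Ω → Z) : Dep (fun x => (w x, z x)) (rk w y z) :=
  dep_comp (dep_fk_self _)

variable [Nonempty Ω]

/-- `h_ρ = H(y | w, z) + H(o | w, y)`. -/
theorem hk_rk (w : Ω → W) (y : Ω → Y) (z : Ω → Z) (o : Ω → O)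
    (hy : ∀ x x', o x = o x' → y x = y x') :
    hk (rk w y z) o = cent (uni Ω) y (fun x => (w x, z x)) +
      cent (uni Ω) o (fun x => (w x, y x)) := by
  unfold rk
  rw [hk_comp (isKer_fk _) (isKer_fk _) (stat_fk _) (fun x => (w x, y x)) (dep_fk_self _) o,
    hk_fk, hk_fk]
  · congr 1
    exact cent_congr isPr_uni (Det.refl _) (Det.refl _)
      (fun ω ω' _ _ e => by simp only [Prod.mk.injEq] at e ⊢; tauto)
      (fun ω ω' _ _ e => by simp only [Prod.mk.injEq] at e ⊢; tauto)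
  · intro x a b a' b' h1 h2 h3 h4 h5
    have e1 := fk_ne_zero h1
    have e2 := fk_ne_zero h2
    have e3 := fk_ne_zero h3
    have e4 := fk_ne_zero h4
    simp only [Prod.mk.injEq] at e1 e2 e3 e4 ⊢
    exact ⟨e1.1.trans e3.1.symm, by rw [← e2.2, ← e4.2, hy _ _ h5]⟩

variable {J : Type*} [Fintype J] [DecidableEq J]

/-- **(3.0)**, with the information of `w` in the condition kept explicitly. -/
theorem fresh (w : Ω → W) (w1 : Ω → W1) (w2 : Ω → W2) (o : Ω → O) (y : Ω → Y) (z : Ω → Z)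
    (h12 : ∀ x x', w x = w x' ↔ w1 x = w1 x' ∧ w2 x = w2 x')
    (hy : ∀ x x', o x = o x' → y x = y x')
    (κ : J → Ω → Ω → ℝ) (hκ : ∀ t, IsKer (κ t)) (hdep : ∀ t, Dep (fun x => (w x, z x)) (κ t))
    (j : J) (hj : κ j = rk w y z) (T : Finset J) (hjT : j ∉ T) (P : ℕ) (hP : 1 ≤ P) :
    FF w1 (fun x => (w2 x, o x)) (fun x => (w2 x, y x)) P
      - (cent (uni Ω) w1 (fun x => (w2 x, y x)) - cent (uni Ω) w1 (fun x => (w2 x, z x)))
      - (cent (jt κ) (fun ω (t : {t // t ∈ T}) => o (ω.2 t.1)) (fun ω => (z ω.1, w2 ω.1))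
          - ∑ t : {t // t ∈ T}, hk (κ t.1) o) ≤
      P * (cent (jt κ) (fun ω => o (ω.2 j))
        (fun ω => (z ω.1, w2 ω.1, fun t : {t // t ∈ T} => o (ω.2 t.1))) - hk (rk w y z) o) := by
  classical
  have hw2 : ∀ x x', w x = w x' → w2 x = w2 x' := fun x x' h => ((h12 x x').1 h).2
  set κ1 : J ⊕ Fin P → Ω → Ω → ℝ := Sum.elim κ (fun _ => fk fun x => (w x, y x)) with hκ1
  have hk1 : ∀ t, IsKer (κ1 t) := by
    rintro (t | t)
    · exact hκ t
    · exact isKer_fk _
  have hp1 : IsPr (jt κ1) := isPr_jt hk1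
  have hpU : IsPr (uni Ω) := isPr_uni
  -- the functions on the big space
  set S : Ω × (J ⊕ Fin P → Ω) → {t // t ∈ T} → O := fun ω t => o (ω.2 (Sum.inl t.1)) with hS
  set R : Ω × (J ⊕ Fin P → Ω) → Fin P → O := fun ω i => o (ω.2 (Sum.inr i)) with hR
  set C : Ω × (J ⊕ Fin P → Ω) → Z × W2 × ({t // t ∈ T} → O) :=
    fun ω => (z ω.1, w2 ω.1, S ω) with hC
  -- marginalisation from the small space
  have m0 : ent (jt κ) (fun ω => ((fun t : {t // t ∈ T} => o (ω.2 t.1)), z ω.1, w2 ω.1)) =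
      ent (jt κ1) (fun ω => (S ω, z ω.1, w2 ω.1)) :=
    ent_jt_marg (s := (id : J → J)) (s' := (Sum.inl : J → J ⊕ Fin P)) hκ hk1
      Function.injective_id Sum.inl_injective (fun t => rfl)
      (fun x e => ((fun t : {t // t ∈ T} => o (e t.1)), z x, w2 x))
  have m1 : cent (jt κ) (fun ω (t : {t // t ∈ T}) => o (ω.2 t.1)) (fun ω => (z ω.1, w2 ω.1)) =
      cent (jt κ1) S (fun ω => (z ω.1, w2 ω.1)) := by
    unfold cent
    rw [m0, ent_jt_base hκ (fun x => (z x, w2 x)), ent_jt_base hk1 (fun x => (z x, w2 x))]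
  have m2 : ent (jt κ) (fun ω => (z ω.1, w2 ω.1, fun t : {t // t ∈ T} => o (ω.2 t.1))) =
      ent (jt κ1) C :=
    ent_jt_marg (s := (id : J → J)) (s' := (Sum.inl : J → J ⊕ Fin P)) hκ hk1
      Function.injective_id Sum.inl_injective (fun t => rfl)
      (fun x e => (z x, w2 x, fun t : {t // t ∈ T} => o (e t.1)))
  -- (EQ): the `ρ`-copy looks like an `r`-copy
  have eqr : ∀ i : Fin P, cent (jt κ1) (fun ω => R ω i) C = cent (jt κ) (fun ω => o (ω.2 j))
      (fun ω => (z ω.1, w2 ω.1, fun t : {t // t ∈ T} => o (ω.2 t.1))) := by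
    intro i
    have e := ent_jt_eq (κ := κ1) (κ' := κ)
      (s := fun t : Option {t // t ∈ T} => t.elim (Sum.inr i) fun t => Sum.inl t.1)
      (s' := fun t : Option {t // t ∈ T} => t.elim j fun t => t.1) hk1 hκ
      (by
        rintro (_ | a) (_ | b) h
        · rfl
        · simp at h
        · simp at h
        · simp only [Option.elim_some, Sum.inl.injEq] at h
          rw [Subtype.ext h])
      (by
        rintro (_ | a) (_ | b) h
        · rfl
        · simp only [Option.elim_none, Option.elim_some] at h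
          exact absurd (h ▸ b.2) hjT
        · simp only [Option.elim_none, Option.elim_some] at h
          exact absurd (h ▸ a.2) hjT
        · simp only [Option.elim_some] at h
          rw [Subtype.ext h])
      (fun x => (w x, z x)) none
      (by
        rintro (_ | a) h
        · exact absurd rfl h
        · rfl)
      (by
        rintro (_ | a) h
        · exact absurd rfl h
        · exact hdep a.1)
      (by
        simp only [Option.elim_none]
        rw [hj]
        rfl)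
      (fun x e => (o (e none), z x, w2 x, fun t : {t // t ∈ T} => o (e (some t))))
      (by
        intro x x' e h
        simp only [Prod.mk.injEq] at h ⊢
        exact ⟨trivial, h.2, hw2 _ _ h.1, trivial⟩)
    unfold cent
    rw [m2]
    congr 1
  -- `y` is a function of each `R i`
  have detR : ∀ i : Fin P, Det (jt κ1) (fun ω => R ω i) (fun ω => y ω.1) := by
    intro i ω ω' h h' e
    have e1 := jt_fk (κ := κ1) h (i := Sum.inr i) (φ := fun x => (w x, y x)) rfl
    have e2 := jt_fk (κ := κ1) h' (i := Sum.inr i) (φ := fun x => (w x, y x)) rfl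
    simp only [Prod.mk.injEq] at e1 e2
    show y ω.1 = y ω'.1
    rw [← e1.2, ← e2.2]
    exact hy _ _ e
  have detRw : ∀ i : Fin P, ∀ ω, jt κ1 ω ≠ 0 → w (ω.2 (Sum.inr i)) = w ω.1 := by
    intro i ω h
    have e1 := jt_fk (κ := κ1) h (i := Sum.inr i) (φ := fun x => (w x, y x)) rfl
    simp only [Prod.mk.injEq] at e1
    exact e1.1
  -- step B
  have stepB1 : ∀ i : Fin P, cent (jt κ1) (fun ω => R ω i) C =
      cent (jt κ1) (fun ω => y ω.1) C + cent (jt κ1) (fun ω => R ω i) (fun ω => (y ω.1, C ω)) := by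
    intro i
    rw [← cent_chain hp1]
    refine cent_congr hp1 (Det.refl _) (Det.refl _) ?_ ?_
    · exact Det.fst (Det.pair (detR i) (Det.refl _))
    · exact Det.fst (Det.snd (Det.refl _))
  have stepB2 : cent (jt κ1) R (fun ω => (y ω.1, C ω)) ≤
      ∑ i, cent (jt κ1) (fun ω => R ω i) (fun ω => (y ω.1, C ω)) :=
    cent_family_le hp1 (fun ω => (y ω.1, C ω)) (fun i ω => R ω i)
  have stepB3 : ∀ c : ℝ, c = cent (jt κ) (fun ω => o (ω.2 j))
      (fun ω => (z ω.1, w2 ω.1, fun t : {t // t ∈ T} => o (ω.2 t.1))) →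
      cent (jt κ1) R (fun ω => (y ω.1, C ω)) + P * cent (jt κ1) (fun ω => y ω.1) C ≤ P * c := by
    intro c hc
    have h1 : ∑ i : Fin P, cent (jt κ1) (fun ω => R ω i) C = P * c := by
      rw [Finset.sum_congr rfl fun i _ => eqr i, Finset.sum_const, Finset.card_univ,
        Fintype.card_fin, nsmul_eq_mul, hc]
    have h2 : ∑ i : Fin P, cent (jt κ1) (fun ω => R ω i) C = P * cent (jt κ1) (fun ω => y ω.1) C +
        ∑ i, cent (jt κ1) (fun ω => R ω i) (fun ω => (y ω.1, C ω)) := by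
      rw [Finset.sum_congr rfl fun i _ => stepB1 i, Finset.sum_add_distrib, Finset.sum_const,
        Finset.card_univ, Fintype.card_fin, nsmul_eq_mul]
    linarith
  -- step G
  have stepG : cent (uni Ω) y (fun x => (w x, z x)) ≤ cent (jt κ1) (fun ω => y ω.1) C := by
    have h1 : cent (jt κ1) (fun ω => y ω.1) (fun ω => ((w ω.1, z ω.1), S ω)) ≤
        cent (jt κ1) (fun ω => y ω.1) C :=
      cent_anti hp1 _ (by
        intro ω ω' _ _ e
        simp only [hC, Prod.mk.injEq] at e ⊢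
        exact ⟨e.1.2, hw2 _ _ e.1.1, e.2⟩)
    have h2 : cent (jt κ1) (fun ω (t : {t // t ∈ T}) => o (ω.2 (Sum.inl t.1)))
        (fun ω => (w ω.1, z ω.1)) = ∑ t : {t // t ∈ T}, hk (κ1 (Sum.inl t.1)) o :=
      cent_ci_family hk1 (s := fun t : {t // t ∈ T} => Sum.inl t.1)
        (fun a b h => Subtype.ext (Sum.inl_injective h)) (fun x => (w x, z x))
        (fun t => hdep t.1) _ (fun _ _ _ _ => rfl) (Det.refl _) (fun _ => o)
    have h3 : cent (jt κ1) (fun ω (t : {t // t ∈ T}) => o (ω.2 (Sum.inl t.1)))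
        (fun ω => (y ω.1, w ω.1, z ω.1)) = ∑ t : {t // t ∈ T}, hk (κ1 (Sum.inl t.1)) o :=
      cent_ci_family hk1 (s := fun t : {t // t ∈ T} => Sum.inl t.1)
        (fun a b h => Subtype.ext (Sum.inl_injective h)) (fun x => (w x, z x))
        (fun t => hdep t.1) _ (fun _ _ _ _ => rfl) (Det.snd (Det.refl _)) (fun _ => o)
    have h4 : cent (jt κ1) (fun ω => y ω.1) (fun ω => ((w ω.1, z ω.1), S ω)) =
        cent (uni Ω) y (fun x => (w x, z x)) := by
      have e1 : ent (jt κ1) (fun ω => (y ω.1, (w ω.1, z ω.1), S ω)) =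
          ent (jt κ1) (fun ω => (S ω, y ω.1, w ω.1, z ω.1)) :=
        ent_congr hp1 (fun _ _ _ _ e => by simp only [Prod.mk.injEq] at e ⊢; tauto)
          (fun _ _ _ _ e => by simp only [Prod.mk.injEq] at e ⊢; tauto)
      have e2 : ent (jt κ1) (fun ω => ((w ω.1, z ω.1), S ω)) =
          ent (jt κ1) (fun ω => (S ω, w ω.1, z ω.1)) :=
        ent_congr hp1 (fun _ _ _ _ e => by simp only [Prod.mk.injEq] at e ⊢; tauto)
          (fun _ _ _ _ e => by simp only [Prod.mk.injEq] at e ⊢; tauto)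
      have e3 := ent_jt_base hk1 (fun x => (y x, w x, z x))
      have e4 := ent_jt_base hk1 (fun x => (w x, z x))
      unfold cent at h2 h3 ⊢
      rw [e1, e2, ← e3, ← e4]
      linarith
    linarith
  -- step D
  have stepD : ∑ t : {t // t ∈ T}, hk (κ t.1) o ≤
      cent (jt κ1) S (fun ω => (R ω, y ω.1, z ω.1, w2 ω.1)) :=
    sum_hk_le_cent_family hk1 (s := fun t : {t // t ∈ T} => Sum.inl t.1)
      (fun a b h => Subtype.ext (Sum.inl_injective h)) _
      (fun x e t v => by
        have : R (x, Function.update e (Sum.inl t.1) v) = R (x, e) := by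
          funext i
          simp [hR]
        rw [this]) (fun _ => o)
  -- step F
  have stepF : cent (uni Ω) z (fun x => (w x, y x)) ≤
      cent (jt κ1) (fun ω => z ω.1) (fun ω => (R ω, y ω.1, w2 ω.1)) := by
    have h1 : cent (jt κ1) (fun ω => z ω.1) (fun ω => ((w ω.1, y ω.1), R ω)) ≤
        cent (jt κ1) (fun ω => z ω.1) (fun ω => (R ω, y ω.1, w2 ω.1)) :=
      cent_anti hp1 _ (by
        intro ω ω' _ _ e
        simp only [Prod.mk.injEq] at e ⊢
        exact ⟨e.2, e.1.2, hw2 _ _ e.1.1⟩)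
    have h2 : cent (jt κ1) (fun ω (t : Fin P) => o (ω.2 (Sum.inr t)))
        (fun ω => (w ω.1, y ω.1)) = ∑ t : Fin P, hk (κ1 (Sum.inr t)) o :=
      cent_ci_family hk1 (s := fun t : Fin P => Sum.inr t)
        Sum.inr_injective (fun x => (w x, y x))
        (fun t => dep_fk_self _) _ (fun _ _ _ _ => rfl) (Det.refl _) (fun _ => o)
    have h3 : cent (jt κ1) (fun ω (t : Fin P) => o (ω.2 (Sum.inr t)))
        (fun ω => (z ω.1, w ω.1, y ω.1)) = ∑ t : Fin P, hk (κ1 (Sum.inr t)) o :=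
      cent_ci_family hk1 (s := fun t : Fin P => Sum.inr t)
        Sum.inr_injective (fun x => (w x, y x))
        (fun t => dep_fk_self _) _ (fun _ _ _ _ => rfl) (Det.snd (Det.refl _)) (fun _ => o)
    have h4 : cent (jt κ1) (fun ω => z ω.1) (fun ω => ((w ω.1, y ω.1), R ω)) =
        cent (uni Ω) z (fun x => (w x, y x)) := by
      have e1 : ent (jt κ1) (fun ω => (z ω.1, (w ω.1, y ω.1), R ω)) =
          ent (jt κ1) (fun ω => (R ω, z ω.1, w ω.1, y ω.1)) :=
        ent_congr hp1 (fun _ _ _ _ e => by simp only [Prod.mk.injEq] at e ⊢; tauto)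
          (fun _ _ _ _ e => by simp only [Prod.mk.injEq] at e ⊢; tauto)
      have e2 : ent (jt κ1) (fun ω => ((w ω.1, y ω.1), R ω)) =
          ent (jt κ1) (fun ω => (R ω, w ω.1, y ω.1)) :=
        ent_congr hp1 (fun _ _ _ _ e => by simp only [Prod.mk.injEq] at e ⊢; tauto)
          (fun _ _ _ _ e => by simp only [Prod.mk.injEq] at e ⊢; tauto)
      have e3 := ent_jt_base hk1 (fun x => (z x, w x, y x))
      have e4 := ent_jt_base hk1 (fun x => (w x, y x))
      unfold cent at h2 h3 ⊢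
      rw [e1, e2, ← e3, ← e4]
      linarith
    linarith
  -- step H
  have stepH : ent (jt κ1) (fun ω => (R ω, y ω.1, w2 ω.1)) =
      AA w1 (fun x => (w2 x, o x)) (fun x => (w2 x, y x)) P := by
    have hfk : (fk fun x => (w1 x, (w2 x, y x))) = fk fun x => (w x, y x) :=
      fk_congr fun x x' => by
        simp only [Prod.mk.injEq]
        rw [h12 x x']
        tauto
    unfold AA
    rw [hfk]
    have e := ent_jt_marg (κ := fun _ : Fin P => fk fun x => (w x, y x)) (κ' := κ1)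
      (s := (id : Fin P → Fin P)) (s' := (Sum.inr : Fin P → J ⊕ Fin P)) (fun _ => isKer_fk _) hk1
      Function.injective_id Sum.inr_injective (fun t => rfl)
      (fun x e => ((w2 x, y x), fun t : Fin P => (w2 (e t), o (e t))))
    simp only [id] at e
    rw [e]
    refine ent_congr hp1 ?_ ?_
    · intro ω ω' h h' e
      simp only [Prod.mk.injEq] at e ⊢
      refine ⟨⟨e.2.2, e.2.1⟩, funext fun t => ?_⟩
      rw [hw2 _ _ (detRw t ω h), hw2 _ _ (detRw t ω' h'), e.2.2]
      exact congrArg (Prod.mk _) (congrFun e.1 t)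
    · intro ω ω' h h' e
      simp only [Prod.mk.injEq] at e ⊢
      refine ⟨funext fun t => ?_, e.1.2, e.1.1⟩
      exact (Prod.ext_iff.mp (congrFun e.2 t)).2
  -- the pieces
  have p1 : cent (jt κ1) R (fun ω => (y ω.1, C ω)) =
      ent (jt κ1) (fun ω => (R ω, y ω.1, w2 ω.1))
        + cent (jt κ1) (fun ω => z ω.1) (fun ω => (R ω, y ω.1, w2 ω.1))
        + cent (jt κ1) S (fun ω => (R ω, y ω.1, z ω.1, w2 ω.1))
        - cent (jt κ1) (fun ω => y ω.1) C - cent (jt κ1) S (fun ω => (z ω.1, w2 ω.1))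
        - ent (uni Ω) (fun x => (z x, w2 x)) := by
    have e1 : ent (jt κ1) (fun ω => (S ω, R ω, y ω.1, z ω.1, w2 ω.1)) =
        ent (jt κ1) (fun ω => (R ω, y ω.1, C ω)) :=
      ent_congr hp1 (fun _ _ _ _ e => by simp only [hC, Prod.mk.injEq] at e ⊢; tauto)
        (fun _ _ _ _ e => by simp only [hC, Prod.mk.injEq] at e ⊢; tauto)
    have e2 : ent (jt κ1) (fun ω => (R ω, y ω.1, z ω.1, w2 ω.1)) =
        ent (jt κ1) (fun ω => (z ω.1, R ω, y ω.1, w2 ω.1)) :=
      ent_congr hp1 (fun _ _ _ _ e => by simp only [Prod.mk.injEq] at e ⊢; tauto)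
        (fun _ _ _ _ e => by simp only [Prod.mk.injEq] at e ⊢; tauto)
    have e3 : ent (jt κ1) (fun ω => (S ω, z ω.1, w2 ω.1)) = ent (jt κ1) C :=
      ent_congr hp1 (fun _ _ _ _ e => by simp only [hC, Prod.mk.injEq] at e ⊢; tauto)
        (fun _ _ _ _ e => by simp only [hC, Prod.mk.injEq] at e ⊢; tauto)
    have e4 := ent_jt_base hk1 (fun x => (z x, w2 x))
    unfold cent
    rw [e1, e2, e3, ← e4]
    ring
  have p2 : h0 w1 (fun x => (w2 x, o x)) (fun x => (w2 x, y x)) =
      cent (uni Ω) o (fun x => (w x, y x)) := by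
    unfold h0
    refine cent_congr hpU ?_ ?_ ?_ ?_
    · intro x x' _ _ e
      simp only [Prod.mk.injEq] at e ⊢
      exact ⟨(h12 x x').2 ⟨e.1, e.2.1⟩, e.2.2⟩
    · intro x x' _ _ e
      simp only [Prod.mk.injEq] at e ⊢
      exact ⟨((h12 x x').1 e.1).1, ((h12 x x').1 e.1).2, e.2⟩
    · intro x x' _ _ e
      simp only [Prod.mk.injEq] at e ⊢
      exact e.1.2
    · intro x x' _ _ e
      simp only [Prod.mk.injEq] at e ⊢
      exact ⟨((h12 x x').1 e.2.1).2, e.1⟩
  have p3 := hk_rk w y z o hy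
  have q1 : ent (uni Ω) (fun x => (z x, w x, y x)) = ent (uni Ω) (fun x => (y x, w x, z x)) :=
    ent_congr hpU (fun _ _ _ _ e => by simp only [Prod.mk.injEq] at e ⊢; tauto)
      (fun _ _ _ _ e => by simp only [Prod.mk.injEq] at e ⊢; tauto)
  have q2 : ent (uni Ω) (fun x => (w1 x, w2 x, y x)) = ent (uni Ω) (fun x => (w x, y x)) := by
    refine ent_congr hpU ?_ ?_
    · intro x x' _ _ e
      simp only [Prod.mk.injEq] at e ⊢
      exact ⟨(h12 x x').2 ⟨e.1, e.2.1⟩, e.2.2⟩
    · intro x x' _ _ e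
      simp only [Prod.mk.injEq] at e ⊢
      exact ⟨((h12 x x').1 e.1).1, ((h12 x x').1 e.1).2, e.2⟩
  have q3 : ent (uni Ω) (fun x => (w1 x, w2 x, z x)) = ent (uni Ω) (fun x => (w x, z x)) := by
    refine ent_congr hpU ?_ ?_
    · intro x x' _ _ e
      simp only [Prod.mk.injEq] at e ⊢
      exact ⟨(h12 x x').2 ⟨e.1, e.2.1⟩, e.2.2⟩
    · intro x x' _ _ e
      simp only [Prod.mk.injEq] at e ⊢
      exact ⟨((h12 x x').1 e.1).1, ((h12 x x').1 e.1).2, e.2⟩
  have q4 : ent (uni Ω) (fun x => (z x, w2 x)) = ent (uni Ω) (fun x => (w2 x, z x)) :=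
    ent_swap hpU z w2
  have hB := stepB3 _ rfl
  have hP1 : (1 : ℝ) ≤ P := by exact_mod_cast hP
  have hG' : ((P : ℝ) - 1) * cent (uni Ω) y (fun x => (w x, z x)) ≤
      ((P : ℝ) - 1) * cent (jt κ1) (fun ω => y ω.1) C :=
    mul_le_mul_of_nonneg_left stepG (by linarith)
  have hF' : FF w1 (fun x => (w2 x, o x)) (fun x => (w2 x, y x)) P =
      AA w1 (fun x => (w2 x, o x)) (fun x => (w2 x, y x)) P
        - ent (uni Ω) (fun x => (w2 x, y x)) - P * cent (uni Ω) o (fun x => (w x, y x)) := by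
    unfold FF
    rw [p2]
  have hc1 : cent (uni Ω) w1 (fun x => (w2 x, y x)) =
      ent (uni Ω) (fun x => (w x, y x)) - ent (uni Ω) (fun x => (w2 x, y x)) := by
    unfold cent
    rw [q2]
  have hc2 : cent (uni Ω) w1 (fun x => (w2 x, z x)) =
      ent (uni Ω) (fun x => (w x, z x)) - ent (uni Ω) (fun x => (w2 x, z x)) := by
    unfold cent
    rw [q3]
  have hc3 : cent (uni Ω) z (fun x => (w x, y x)) =
      ent (uni Ω) (fun x => (y x, w x, z x)) - ent (uni Ω) (fun x => (w x, y x)) := by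
    unfold cent
    rw [q1]
  have hc4 : cent (uni Ω) y (fun x => (w x, z x)) =
      ent (uni Ω) (fun x => (y x, w x, z x)) - ent (uni Ω) (fun x => (w x, z x)) := rfl
  rw [m1, hF', hc1, hc2, p3]
  rw [stepH, q4] at p1
  rw [hc3] at stepF
  rw [hc4] at hG' ⊢
  nlinarith [hB, hG', stepF, stepD, p1]

end Fresh

end RFold
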