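import Pool.Agent.Lib.MP_3581cd_co.BoxLemma

namespace RFold

open Finset

theorem HasBox.mono {I : Type} {m b : ℕ} {H H' : Finset (I → Fin m)} (h : H ⊆ H')
    (hb : HasBox b H) : HasBox b H' := by
  obtain ⟨P, Q, hPQ, c, hc, hmix⟩ := hb
  exact ⟨P, Q, hPQ, c, hc, fun s => h (hmix s)⟩

/-- indicator that the point becomes a point of `H` when its `i`-th coordinate is replaced by `x` -/
noncomputable def ind {I : Type} [Fintype I] [DecidableEq I] {m : ℕ} (H : Finset (I → Fin m)) (i : I)
    (x : Fin m) (u : I → Fin m) : ℝ := if Function.update u i x ∈ H then 1 else 0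

theorem ind_nonneg {I : Type} [Fintype I] [DecidableEq I] {m : ℕ} (H : Finset (I → Fin m)) (i : I)
    (x : Fin m) (u : I → Fin m) : 0 ≤ ind H i x u := by
  unfold ind; split_ifs <;> norm_num

theorem update_glue_erase {I : Type} [Fintype I] [DecidableEq I] {m : ℕ} (i0 : I)
    (w : {i // i ∈ univ.erase i0} → Fin m) (v x : Fin m) :
    Function.update (glue (univ.erase i0) w (fun _ => v)) i0 x
      = glue (univ.erase i0) w (fun _ => x) := by
  funext i
  by_cases hi : i = i0
  · subst hi; simp [glue]
  · simp [glue, hi]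

theorem sum_ind {I : Type} [Fintype I] [DecidableEq I] {m : ℕ} (H : Finset (I → Fin m)) (i : I)
    (x : Fin m) : ∑ u, ind H i x u = m * ((H.filter fun z => z i = x).card : ℝ) := by
  have h1 : ((H.filter fun z => z i = x).card : ℝ)
      = ∑ z : I → Fin m, (if z ∈ H ∧ z i = x then (1 : ℝ) else 0) := by
    rw [← sum_filter, sum_const, nsmul_eq_mul, mul_one]
    congr 2
    ext z
    simp
  rw [h1, sum_glue_erase i, sum_glue_erase i, mul_sum]
  apply sum_congr rfl
  intro w _
  have h2 : ∀ v : Fin m, ind H i x (glue (univ.erase i) w (fun _ => v))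
      = if glue (univ.erase i) w (fun _ => x) ∈ H then 1 else 0 := by
    intro v
    unfold ind
    rw [update_glue_erase]
  have h3 : ∀ v : Fin m, (if glue (univ.erase i) w (fun _ => v) ∈ H ∧
      glue (univ.erase i) w (fun _ => v) i = x then (1 : ℝ) else 0)
      = if v = x then (if glue (univ.erase i) w (fun _ => x) ∈ H then 1 else 0) else 0 := by
    intro v
    have h4 : glue (univ.erase i) w (fun _ => v) i = v := by simp [glue]
    rw [h4]
    by_cases hv : v = x
    · subst hv; simp
    · simp [hv]
  simp only [h2, h3]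
  simp

/-- same coordinate -/
theorem box_of_same {β : ℕ} {η : ℝ} (hη : η < (1 / 2) ^ β) {K : ℕ} (hK : β + 2 ≤ K) :
    ∃ M : ℕ, ∀ m : ℕ, M ≤ m → ∀ (I : Type) [Fintype I] [DecidableEq I], Fintype.card I = K →
      ∀ (H : Finset (I → Fin m)) (i : I) (x y : Fin m), x ≠ y →
        (m : ℝ) ^ ((K : ℝ) - η) ≤ ∑ u, ind H i x u * ind H i y u → HasBox (β + 2) H := by
  obtain ⟨M, hM⟩ := box_lemma β η hη (K - 1) (by omega)
  refine ⟨max 1 M, ?_⟩
  intro m hm I _ _ hI H i x y hxy hsum
  have hmpos : (0 : ℝ) < m := by
    have : 1 ≤ m := le_trans (le_max_left _ _) hm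
    exact_mod_cast this
  let U : Finset I := univ.erase i
  have hUne : U ≠ univ := by
    intro h
    have := mem_univ i
    rw [← h] at this
    exact (notMem_erase i univ) this
  have hUcard : Fintype.card {i // i ∈ U} = K - 1 := by
    rw [Fintype.card_coe, card_erase_of_mem (mem_univ _), card_univ, hI]
  let G : Finset ({i // i ∈ U} → Fin m) :=
    univ.filter fun w => glue U w (fun _ => x) ∈ H ∧ glue U w (fun _ => y) ∈ H
  apply hasBox_extend H U hUne (fun _ => x) (fun _ => y) (fun _ _ => hxy) G
  · intro w hw
    exact (mem_filter.mp hw).2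
  · apply hM m (le_trans (le_max_right _ _) hm) _ hUcard
    have h1 : ∑ u, ind H i x u * ind H i y u = m * (G.card : ℝ) := by
      rw [sum_glue_erase i]
      have h2 : ∀ (w : {j // j ∈ univ.erase i} → Fin m) (v : Fin m),
          ind H i x (glue (univ.erase i) w (fun _ => v)) *
            ind H i y (glue (univ.erase i) w (fun _ => v))
          = if glue (univ.erase i) w (fun _ => x) ∈ H ∧ glue (univ.erase i) w (fun _ => y) ∈ H
            then 1 else 0 := by
        intro w v
        unfold ind
        rw [update_glue_erase, update_glue_erase]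
        by_cases h1 : glue (univ.erase i) w (fun _ => x) ∈ H <;>
          by_cases h2 : glue (univ.erase i) w (fun _ => y) ∈ H <;> simp [h1, h2]
      simp only [h2]
      simp only [sum_const, card_univ, Fintype.card_fin, nsmul_eq_mul, ← mul_sum]
      congr 1
      rw [← sum_filter, sum_const, nsmul_eq_mul, mul_one]
    rw [h1] at hsum
    have hKsub : ((K - 1 : ℕ) : ℝ) = (K : ℝ) - 1 := by
      have : (1 : ℕ) ≤ K := by omega
      push_cast [this]; ring
    have h3 : (m : ℝ) ^ ((K : ℝ) - η) = m * (m : ℝ) ^ (((K - 1 : ℕ) : ℝ) - η) := by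
      rw [hKsub]
      nth_rewrite 2 [← Real.rpow_one (m : ℝ)]
      rw [← Real.rpow_add hmpos]
      congr 1
      ring
    rw [h3] at hsum
    exact le_of_mul_le_mul_left hsum hmpos

theorem sum_glue_erase2 {I : Type} [Fintype I] [DecidableEq I] {m : ℕ} {i0 j0 : I} (hij : i0 ≠ j0)
    (f : (I → Fin m) → ℝ) :
    ∑ x, f x = ∑ w : ({i // i ∈ (univ.erase i0).erase j0} → Fin m), ∑ p : Fin m × Fin m,
      f (glue ((univ.erase i0).erase j0) w (Function.update (fun _ => p.2) i0 p.1)) := by
  rw [← Fintype.sum_prod_type']
  symm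
  apply Fintype.sum_bijective (fun q : ({i // i ∈ (univ.erase i0).erase j0} → Fin m) ×
    (Fin m × Fin m) =>
    glue ((univ.erase i0).erase j0) q.1 (Function.update (fun _ => q.2.2) i0 q.2.1))
  · constructor
    · rintro ⟨w, t', t⟩ ⟨w', s', s⟩ h
      simp only at h
      have h1 : t' = s' := by
        have := congrFun h i0
        simpa [glue] using this
      have h3 : t = s := by
        have := congrFun h j0
        simpa [glue, hij.symm] using this
      have h2 : w = w' := by
        funext ⟨i, hi⟩
        have := congrFun h i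
        have h5 : i ≠ j0 := ne_of_mem_erase hi
        have h6 : i ≠ i0 := ne_of_mem_erase (mem_of_mem_erase hi)
        simpa [glue, h5, h6] using this
      rw [h1, h2, h3]
    · intro x
      refine ⟨(fun i => x i, (x i0, x j0)), ?_⟩
      funext i
      by_cases hi : i = i0
      · subst hi; simp [glue]
      · by_cases hj : i = j0
        · subst hj; simp [glue, hi]
        · simp [glue, hi, hj]
  · intro p; rfl

/-- different coordinates -/
theorem box_of_diff {β : ℕ} {K : ℕ} (hK : β + 3 ≤ K) :
    ∃ M : ℕ, ∀ m : ℕ, M ≤ m → ∀ (I : Type) [Fintype I] [DecidableEq I], Fintype.card I = K →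
      ∀ (H : Finset (I → Fin m)) (i j : I) (x y : Fin m), i ≠ j →
        (m : ℝ) ^ ((K : ℝ) - (1 / 2) ^ (β + 2)) ≤ ∑ u, ind H i x u * ind H j y u →
          HasBox (β + 2) H := by
  have hη : (1 / 2 : ℝ) ^ (β + 1) < (1 / 2) ^ β := by
    apply pow_lt_pow_right_of_lt_one₀ <;> norm_num
  have hη2 : (1 / 2 : ℝ) ^ (β + 2) < (1 / 2) ^ (β + 1) := by
    apply pow_lt_pow_right_of_lt_one₀ <;> norm_num
  obtain ⟨M, hM⟩ := box_lemma β _ hη (K - 2) (by omega)
  obtain ⟨M2, hM21, hM2⟩ := exists_rpow_gt (y := (1 / 2 : ℝ) ^ (β + 1) - (1 / 2) ^ (β + 2))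
    (by linarith) 3
  refine ⟨max M M2, ?_⟩
  intro m hm I _ _ hI H i j x y hij hsum
  have hm2 : M2 ≤ m := le_trans (le_max_right _ _) hm
  have hm1 : 1 ≤ m := hM21.trans hm2
  have hm1' : (1 : ℝ) ≤ m := by exact_mod_cast hm1
  have hmpos : (0 : ℝ) < m := by linarith
  let U : Finset I := (univ.erase i).erase j
  have hiU : i ∉ U := fun h => (notMem_erase i univ) (mem_of_mem_erase h)
  have hjU : j ∉ U := notMem_erase j _
  have hUne : U ≠ univ := by
    intro h
    have := mem_univ j
    rw [← h] at this
    exact hjU this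
  have hUcard : Fintype.card {i // i ∈ U} = K - 2 := by
    rw [Fintype.card_coe, card_erase_of_mem (mem_erase.mpr ⟨hij.symm, mem_univ _⟩),
      card_erase_of_mem (mem_univ _), card_univ, hI]
    omega
  let G : Fin m → Fin m → Finset ({i // i ∈ U} → Fin m) := fun t' t =>
    univ.filter fun w => glue U w (Function.update (fun _ => t) i x) ∈ H ∧
      glue U w (Function.update (fun _ => y) i t') ∈ H
  have hKsub : ((K - 2 : ℕ) : ℝ) = (K : ℝ) - 2 := by
    have : (2 : ℕ) ≤ K := by omega
    push_cast [this]; ring
  by_cases hex : ∃ t' t : Fin m, t' ≠ x ∧ t ≠ y ∧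
      (m : ℝ) ^ (((K - 2 : ℕ) : ℝ) - (1 / 2) ^ (β + 1)) ≤ (G t' t).card
  · obtain ⟨t', t, ht', ht, hbig⟩ := hex
    apply hasBox_extend H U hUne (Function.update (fun _ => t) i x)
      (Function.update (fun _ => y) i t') _ (G t' t)
    · intro w hw
      exact (mem_filter.mp hw).2
    · exact hM m (le_trans (le_max_left _ _) hm) _ hUcard _ hbig
    · intro l hl
      have : l = j ∨ l = i := by
        by_contra hcon
        push Not at hcon
        exact hl (mem_erase.mpr ⟨hcon.1, mem_erase.mpr ⟨hcon.2, mem_univ _⟩⟩)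
      rcases this with rfl | rfl
      · simp [hij.symm, ht]
      · simp [ht'.symm]
  · exfalso
    push Not at hex
    set T : ℝ := (m : ℝ) ^ (((K - 2 : ℕ) : ℝ) - (1 / 2) ^ (β + 1)) with hT
    have hTpos : 0 < T := Real.rpow_pos_of_pos hmpos _
    have hGle : ∀ t' t, ((G t' t).card : ℝ) ≤ (m : ℝ) ^ (K - 2) := by
      intro t' t
      have : (G t' t).card ≤ m ^ (K - 2) := by
        refine (card_le_univ _).trans (le_of_eq ?_)
        rw [Fintype.card_fun, hUcard, Fintype.card_fin]
      exact_mod_cast this
    have h1 : ∑ u, ind H i x u * ind H j y u = ∑ p : Fin m × Fin m, ((G p.1 p.2).card : ℝ) := by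
      rw [sum_glue_erase2 hij, sum_comm]
      apply sum_congr rfl
      rintro ⟨t', t⟩ _
      simp only [G, card_filter]
      push_cast
      apply sum_congr rfl
      intro w _
      have h2 : Function.update (glue U w (Function.update (fun _ => t) i t')) i x
          = glue U w (Function.update (fun _ => t) i x) := by
        funext l
        by_cases hl : l = i
        · subst hl; simp [glue, hiU]
        · simp [glue, hl]
      have h3 : Function.update (glue U w (Function.update (fun _ => t) i t')) j y
          = glue U w (Function.update (fun _ => y) i t') := by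
        funext l
        by_cases hl : l = j
        · subst hl; simp [glue, hjU, hij.symm]
        · by_cases hli : l = i
          · subst hli; simp [glue, hiU, hl]
          · have hlU : l ∈ U := mem_erase.mpr ⟨hl, mem_erase.mpr ⟨hli, mem_univ _⟩⟩
            simp [glue, hlU, hl]
      unfold ind
      rw [h2, h3]
      by_cases h4 : glue U w (Function.update (fun _ => t) i x) ∈ H <;>
        by_cases h5 : glue U w (Function.update (fun _ => y) i t') ∈ H <;> simp [h4, h5]
    have h2 : ∑ p : Fin m × Fin m, ((G p.1 p.2).card : ℝ)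
        ≤ (m : ℝ) ^ 2 * T + 2 * m * (m : ℝ) ^ (K - 2) := by
      calc ∑ p : Fin m × Fin m, ((G p.1 p.2).card : ℝ)
          ≤ ∑ p : Fin m × Fin m, (T + (if p.1 = x then (m : ℝ) ^ (K - 2) else 0)
              + (if p.2 = y then (m : ℝ) ^ (K - 2) else 0)) := by
            apply sum_le_sum
            rintro ⟨t', t⟩ _
            simp only
            by_cases h3 : t' = x
            · rw [if_pos h3]
              have := hGle t' t
              split_ifs
              · have h6 : 0 ≤ (m : ℝ) ^ (K - 2) := by positivity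
                linarith
              · linarith
            · by_cases h4 : t = y
              · rw [if_neg h3, if_pos h4]
                have := hGle t' t
                linarith
              · rw [if_neg h3, if_neg h4]
                have := hex t' t h3 h4
                linarith
        _ = _ := by
            have s1 : ∑ _p : Fin m × Fin m, T = (m : ℝ) ^ 2 * T := by
              rw [sum_const, card_univ, Fintype.card_prod, Fintype.card_fin, nsmul_eq_mul]
              push_cast
              ring
            have s2 : ∑ p : Fin m × Fin m, (if p.1 = x then (m : ℝ) ^ (K - 2) else 0)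
                = m * (m : ℝ) ^ (K - 2) := by
              rw [Fintype.sum_prod_type_right]
              simp
            have s3 : ∑ p : Fin m × Fin m, (if p.2 = y then (m : ℝ) ^ (K - 2) else 0)
                = m * (m : ℝ) ^ (K - 2) := by
              rw [Fintype.sum_prod_type]
              simp
            rw [sum_add_distrib, sum_add_distrib, s1, s2, s3]
            ring
    rw [h1] at hsum
    have h3 := hsum.trans h2
    -- all in terms of `m ^ (K - η'')`
    set η' : ℝ := (1 / 2) ^ (β + 2) with hη'
    set η'' : ℝ := (1 / 2) ^ (β + 1) with hη''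
    have e1 : (m : ℝ) ^ 2 * T = (m : ℝ) ^ ((K : ℝ) - η'') := by
      rw [hT, ← Real.rpow_natCast (m : ℝ) 2, ← Real.rpow_add hmpos]
      congr 1
      rw [hKsub]
      push_cast
      ring
    have e2 : (m : ℝ) * (m : ℝ) ^ (K - 2) ≤ (m : ℝ) ^ ((K : ℝ) - η'') := by
      have e3 : (m : ℝ) * (m : ℝ) ^ (K - 2) = (m : ℝ) ^ ((K : ℝ) - 1) := by
        rw [← Real.rpow_natCast (m : ℝ) (K - 2)]
        nth_rewrite 1 [← Real.rpow_one (m : ℝ)]
        rw [← Real.rpow_add hmpos]
        congr 1
        rw [hKsub]
        ring
      rw [e3]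
      apply Real.rpow_le_rpow_of_exponent_le hm1'
      have : η'' ≤ 1 := pow_le_one₀ (by norm_num) (by norm_num)
      linarith
    have e3 : (m : ℝ) ^ ((K : ℝ) - η') = (m : ℝ) ^ (η'' - η') * (m : ℝ) ^ ((K : ℝ) - η'') := by
      rw [← Real.rpow_add hmpos]
      congr 1
      ring
    have e4 := hM2 m hm2
    have e5 : 0 < (m : ℝ) ^ ((K : ℝ) - η'') := Real.rpow_pos_of_pos hmpos _
    rw [e3, e1] at h3
    nlinarith

end RFold
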