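import Mathlib

/-!
# Popular lists

If a set `G` of points of `[m]^J` contains no large subset without popular slices, then greedily
removing popular slices gives a short list `V` of pairs `(u, v)` such that all but few points `w`
of `G` satisfy `w u = v` for some member of the list.
-/

namespace RFold

open Finset

/-- The bound for the length of the list. -/
noncomputable def listBound (x N c : ℝ) : ℝ := if N ≤ c then 1 / x * Real.log (c / N) + 1 else 0

theorem listBound_step {x N c c' : ℝ} (hx : 0 < x) (hN : 0 < N) (hc : N ≤ c)
    (h : c' ≤ (1 - x) * c) : listBound x N c' + 1 ≤ listBound x N c := by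
  have hcpos : 0 < c := lt_of_lt_of_le hN hc
  unfold listBound
  rw [if_pos hc]
  split_ifs with h1
  · have hc'pos : 0 < c' := lt_of_lt_of_le hN h1
    have h2 : Real.log (c' / N) ≤ Real.log (c / N) - x := by
      rw [Real.log_div hc'pos.ne' hN.ne', Real.log_div hcpos.ne' hN.ne']
      have h3 : Real.log c' ≤ Real.log ((1 - x) * c) := Real.log_le_log hc'pos h
      have h1x : 0 < 1 - x := by
        by_contra hneg
        push Not at hneg
        have : (1 - x) * c ≤ 0 := mul_nonpos_of_nonpos_of_nonneg hneg hcpos.le
        linarith
      rw [Real.log_mul h1x.ne' hcpos.ne'] at h3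
      have h4 : Real.log (1 - x) ≤ -x := by
        have := Real.log_le_sub_one_of_pos h1x
        linarith
      linarith
    have h5 : 1 / x * Real.log (c' / N) ≤ 1 / x * (Real.log (c / N) - x) :=
      mul_le_mul_of_nonneg_left h2 (by positivity)
    have h6 : 1 / x * (Real.log (c / N) - x) = 1 / x * Real.log (c / N) - 1 := by
      field_simp
    linarith
  · have h7 : 0 ≤ Real.log (c / N) := Real.log_nonneg (by rw [le_div_iff₀ hN]; linarith)
    have h8 : 0 ≤ 1 / x * Real.log (c / N) := by positivity
    linarith

/-- Greedy removal of popular slices. -/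
theorem exists_popular_list {J : Type} [Fintype J] [DecidableEq J] {m : ℕ} (x N : ℝ) (hx : 0 < x)
    (hN : 0 < N) (G : Finset (J → Fin m))
    (hG : ∀ S : Finset (J → Fin m), S ⊆ G → N ≤ (S.card : ℝ) →
      ∃ (u : J) (v : Fin m), x * S.card < ((S.filter fun w => w u = v).card : ℝ)) :
    ∃ (V : Finset (J × Fin m)) (B : Finset (J → Fin m)), B ⊆ G ∧ (B.card : ℝ) < N ∧
      (∀ w ∈ G, w ∉ B → ∃ u, (u, w u) ∈ V) ∧ (V.card : ℝ) ≤ listBound x N G.card := by
  classical
  induction hn : G.card using Nat.strong_induction_on generalizing G with
  | _ n ih =>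
    by_cases hc : N ≤ (G.card : ℝ)
    · obtain ⟨u, v, huv⟩ := hG G (Finset.Subset.refl _) hc
      set G' := G.filter fun w => ¬ w u = v with hG'
      have hcard : (G.filter fun w => w u = v).card + G'.card = G.card :=
        Finset.card_filter_add_card_filter_not (fun w : J → Fin m => w u = v)
      have hpos : (0 : ℝ) < G.card := lt_of_lt_of_le hN hc
      have hlt : G'.card < n := by
        have : 0 < (G.filter fun w => w u = v).card := by
          have h0 : (0 : ℝ) < ((G.filter fun w => w u = v).card : ℝ) :=
            lt_of_le_of_lt (by positivity) huv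
          exact_mod_cast h0
        omega
      obtain ⟨V, B, hB, hBN, hV, hVc⟩ := ih G'.card hlt G'
        (fun S hS hSN => hG S (hS.trans (Finset.filter_subset _ _)) hSN) rfl
      refine ⟨insert (u, v) V, B, hB.trans (Finset.filter_subset _ _), hBN, ?_, ?_⟩
      · intro w hw hwB
        by_cases hwu : w u = v
        · exact ⟨u, by rw [hwu]; exact Finset.mem_insert_self _ _⟩
        · obtain ⟨u', hu'⟩ := hV w (by rw [hG', Finset.mem_filter]; exact ⟨hw, hwu⟩) hwB
          exact ⟨u', Finset.mem_insert_of_mem hu'⟩
      · have h1 : ((insert (u, v) V).card : ℝ) ≤ V.card + 1 := by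
          exact_mod_cast Finset.card_insert_le _ _
        have h2 : (G'.card : ℝ) ≤ (1 - x) * G.card := by
          have h3 : ((G.filter fun w => w u = v).card : ℝ) + G'.card = G.card := by
            exact_mod_cast hcard
          linarith
        have h4 := listBound_step hx hN hc h2
        rw [← hn]
        linarith
    · refine ⟨∅, G, Finset.Subset.refl _, not_le.mp hc, fun w hw hw' => absurd hw hw', ?_⟩
      rw [← hn]
      unfold listBound
      rw [if_neg hc]
      simp

end RFold
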