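import Pool.Agent.Lib.MP_3581cd_co.Defs
import Pool.Agent.Lib.MP_3581cd_co.Ent

/-!
# MP_3581cd_co: restrictions of the points of `H` to sets of coordinates
-/

namespace RFold

open Finset

variable {I : Type} {m : ℕ}

/-- The restriction of `x` to `S`. -/
def rs [DecidableEq I] (S : Finset I) (x : I → Fin m) : I → Option (Fin m) :=
  fun i => if i ∈ S then some (x i) else none

section

variable [DecidableEq I]

theorem rs_eq_iff {S : Finset I} {x y : I → Fin m} :
    rs S x = rs S y ↔ ∀ i ∈ S, x i = y i := by
  constructor
  · intro h i hi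
    have := congrFun h i
    simpa [rs, hi] using this
  · intro h
    funext i
    by_cases hi : i ∈ S
    · simp [rs, hi, h i hi]
    · simp [rs, hi]

theorem rs_of_subset {S T : Finset I} (hST : S ⊆ T) {x y : I → Fin m} (h : rs T x = rs T y) :
    rs S x = rs S y :=
  rs_eq_iff.mpr fun i hi => rs_eq_iff.mp h i (hST hi)

theorem rs_union {S T : Finset I} {x y : I → Fin m} :
    rs (S ∪ T) x = rs (S ∪ T) y ↔ rs S x = rs S y ∧ rs T x = rs T y := by
  simp only [rs_eq_iff, mem_union]
  constructor
  · intro h
    exact ⟨fun i hi => h i (Or.inl hi), fun i hi => h i (Or.inr hi)⟩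
  · rintro ⟨h1, h2⟩ i (hi | hi)
    · exact h1 i hi
    · exact h2 i hi

theorem rs_univ [Fintype I] {x y : I → Fin m} : rs univ x = rs univ y ↔ x = y := by
  rw [rs_eq_iff]
  constructor
  · intro h; funext i; exact h i (mem_univ i)
  · rintro rfl i _; rfl

end

/-- The entropy of the restriction to `S` of a uniform random point of `H`. -/
noncomputable def hS [DecidableEq I] (H : Finset (I → Fin m)) (S : Finset I) : ℝ :=
  ent (uni {x // x ∈ H}) fun x => rs S x.1

/-- The entropy deficiency of the restriction to `S`. -/
noncomputable def dS [DecidableEq I] (H : Finset (I → Fin m)) (S : Finset I) : ℝ :=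
  S.card * Real.log m - hS H S

section

variable [DecidableEq I] {H : Finset (I → Fin m)}

theorem hS_nonneg (hne : H.Nonempty) (S : Finset I) : 0 ≤ hS H S := by
  have : Nonempty {x // x ∈ H} := hne.to_subtype
  exact ent_nonneg isPr_uni _

theorem hS_empty (hne : H.Nonempty) : hS H ∅ = 0 := by
  have : Nonempty {x // x ∈ H} := hne.to_subtype
  have h := ent_const (p := uni {x // x ∈ H}) isPr_uni (fun _ : I => (none : Option (Fin m)))
  rw [← h]
  unfold hS
  congr 1

theorem hS_mono (hne : H.Nonempty) {S T : Finset I} (hST : S ⊆ T) : hS H S ≤ hS H T := by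
  have : Nonempty {x // x ∈ H} := hne.to_subtype
  exact ent_mono isPr_uni (fun _ _ _ _ h => rs_of_subset hST h)

theorem hS_submod (hne : H.Nonempty) (S T : Finset I) :
    hS H (S ∪ T) + hS H (S ∩ T) ≤ hS H S + hS H T := by
  have : Nonempty {x // x ∈ H} := hne.to_subtype
  apply ent_submod' isPr_uni
  · intro x y _ _ h
    rw [Prod.mk.injEq] at h
    exact rs_union.mpr h
  · intro x y _ _ h
    exact rs_of_subset inter_subset_left h
  · intro x y _ _ h
    exact rs_of_subset inter_subset_right h

theorem hS_le (hne : H.Nonempty) (S : Finset I) : hS H S ≤ S.card * Real.log m := by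
  classical
  have : Nonempty {x // x ∈ H} := hne.to_subtype
  induction S using Finset.induction_on with
  | empty => rw [hS_empty hne]; simp
  | insert i S hi ih =>
    have h1 : hS H (insert i S) ≤ hS H S + hS H {i} := by
      have := hS_submod hne S {i}
      have h2 := hS_nonneg hne (S ∩ {i})
      rw [union_comm, ← insert_eq] at this
      linarith
    have h2 : hS H {i} ≤ Real.log m := by
      have h3 : hS H {i} ≤ ent (uni {x // x ∈ H}) (fun x => x.1 i) := by
        apply ent_mono isPr_uni
        intro x y _ _ h
        rw [rs_eq_iff]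
        intro j hj
        rw [mem_singleton] at hj
        subst hj
        exact h
      have h4 := ent_le_log_card' (p := uni {x // x ∈ H}) isPr_uni (fun x => x.1 i)
      rw [Fintype.card_fin] at h4
      exact h3.trans h4
    rw [card_insert_of_notMem hi]
    push_cast
    linarith

theorem dS_nonneg (hne : H.Nonempty) (S : Finset I) : 0 ≤ dS H S := by
  have := hS_le hne S
  unfold dS
  linarith

theorem dS_empty (hne : H.Nonempty) : dS H ∅ = 0 := by
  unfold dS
  rw [hS_empty hne]
  simp

theorem dS_mono (hne : H.Nonempty) {S T : Finset I} (hST : S ⊆ T) : dS H S ≤ dS H T := by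
  have h1 := hS_submod hne S (T \ S)
  have h2 := hS_nonneg hne (S ∩ (T \ S))
  have h3 := hS_le hne (T \ S)
  rw [union_sdiff_of_subset hST] at h1
  have h4 : ((T \ S).card : ℝ) + S.card = T.card := by
    exact_mod_cast card_sdiff_add_card_eq_card hST
  have h5 : (T.card : ℝ) * Real.log m = (T \ S).card * Real.log m + S.card * Real.log m := by
    rw [← h4]; ring
  unfold dS
  linarith

theorem dS_supermod (hne : H.Nonempty) (S T : Finset I) :
    dS H S + dS H T ≤ dS H (S ∪ T) + dS H (S ∩ T) := by
  have h1 := hS_submod hne S T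
  have h2 : ((S ∪ T).card : ℝ) + (S ∩ T).card = S.card + T.card := by
    exact_mod_cast card_union_add_card_inter S T
  have h3 : ((S ∪ T).card : ℝ) * Real.log m + (S ∩ T).card * Real.log m
      = S.card * Real.log m + T.card * Real.log m := by
    rw [← add_mul, ← add_mul, h2]
  unfold dS
  linarith

theorem hS_univ [Fintype I] (hne : H.Nonempty) : hS H univ = Real.log H.card := by
  have : Nonempty {x // x ∈ H} := hne.to_subtype
  have h := ent_uni_inj (Ω := {x // x ∈ H}) (f := fun x => rs univ x.1)
    (fun x y h => Subtype.ext (rs_univ.mp h))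
  rw [Fintype.card_coe] at h
  exact h

/-- Any set of coordinates which determines the point has full entropy. -/
theorem dS_univ_le [Fintype I] {D : ℝ} (hm : 1 ≤ m)
    (hcard : (m : ℝ) ^ ((Fintype.card I : ℝ) - D) ≤ H.card) : dS H univ ≤ D * Real.log m := by
  have hmpos : (0 : ℝ) < m := by exact_mod_cast hm
  have hpos := Real.rpow_pos_of_pos hmpos ((Fintype.card I : ℝ) - D)
  have hne : H.Nonempty := by
    rw [← card_pos]
    have : (0 : ℝ) < H.card := lt_of_lt_of_le hpos hcard
    exact_mod_cast this
  have h1 := Real.log_le_log hpos hcard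
  rw [Real.log_rpow hmpos] at h1
  unfold dS
  rw [hS_univ hne, card_univ]
  linarith

end

end RFold
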