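import Pool.Agent.Lib.MP_3581cd_co.Collide
import Pool.Agent.Lib.MP_3581cd_co.Rs
import Pool.Agent.Lib.MP_3581cd_co.Popular
import Pool.Agent.Lib.MP_3581cd_co.LemmaA

/-!
# MP_3581cd_co: section 4, bookkeeping

For fixed pairwise disjoint sets `U, Y, Z` of coordinates: if the conclusion of the key lemma fails
for `U`, there are short lists `V a b` of pairs (coordinate, value) such that for two `ρ`-copies of
a random point, with outer parts `a, b`, one of the members of `V a b` is a value of the point with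
probability close to `1`.
-/

namespace RFold

open Finset

variable {I : Type} {m : ℕ}

section rho

variable [Fintype I] [DecidableEq I] {H : Finset (I → Fin m)}

/-- The base functions `(x_U, x_S)`. -/
def pairRs (H : Finset (I → Fin m)) (U S : Finset I) (x : {x // x ∈ H}) :
    (I → Option (Fin m)) × (I → Option (Fin m)) := (rs U x.1, rs S x.1)

/-- The kernel of `ρ`: shares `x_U` with `x`, and `ρ_Y` is a fresh sample given `x_U, x_Z`. -/
noncomputable def rhoK (H : Finset (I → Fin m)) (U Y Z : Finset I) :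
    {x // x ∈ H} → {x // x ∈ H} → ℝ :=
  comp (fk (pairRs H U Z)) (fk (pairRs H U Y))

omit [Fintype I] in
theorem isKer_rhoK (H : Finset (I → Fin m)) (U Y Z : Finset I) : IsKer (rhoK H U Y Z) :=
  isKer_comp (isKer_fk _) (isKer_fk _)

omit [Fintype I] in
theorem stat_rhoK (H : Finset (I → Fin m)) (U Y Z : Finset I) : Stat (rhoK H U Y Z) :=
  stat_comp (stat_fk _) (stat_fk _)

omit [Fintype I] in
theorem dep_rhoK (H : Finset (I → Fin m)) (U Y Z : Finset I) :
    Dep (pairRs H U Z) (rhoK H U Y Z) :=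
  dep_comp (dep_fk_self _)

omit [Fintype I] in
theorem rhoK_ne_zero {U Y Z : Finset I} {x y : {x // x ∈ H}} (h : rhoK H U Y Z x y ≠ 0) :
    rs U y.1 = rs U x.1 := by
  obtain ⟨z, h1, h2⟩ := comp_ne_zero h
  have e1 := congrArg Prod.fst (fk_ne_zero h1)
  have e2 := congrArg Prod.fst (fk_ne_zero h2)
  exact e2.trans e1

omit [Fintype I] in
theorem ent_pairRs (hne : H.Nonempty) (S T : Finset I) :
    ent (uni {x // x ∈ H}) (pairRs H S T) = hS H (S ∪ T) := by
  have : Nonempty {x // x ∈ H} := hne.to_subtype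
  apply ent_congr isPr_uni
  · intro x y _ _ h
    exact rs_union.mpr (Prod.mk.inj h)
  · intro x y _ _ h
    have := rs_union.mp h
    exact Prod.ext this.1 this.2

/-- The entropy of a `ρ`-copy given the base point. -/
theorem hk_rhoK (hne : H.Nonempty) {U Y Z : Finset I} (hUY : Disjoint U Y) :
    hk (rhoK H U Y Z) (fun x => rs Uᶜ x.1) =
      hS H (U ∪ Y ∪ Z) - hS H (U ∪ Z) + (hS H univ - hS H (U ∪ Y)) := by
  have : Nonempty {x // x ∈ H} := hne.to_subtype
  have hYU : Y ⊆ Uᶜ := by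
    intro i hi
    rw [mem_compl]
    exact fun h => (disjoint_left.mp hUY h) hi
  unfold rhoK
  rw [hk_comp (isKer_fk _) (isKer_fk _) (stat_fk _) (pairRs H U Y) (dep_fk_self _)]
  · rw [hk_fk, hk_fk]
    unfold cent
    rw [ent_pairRs hne, ent_pairRs hne]
    congr 2
    · apply ent_congr isPr_uni
      · intro x y _ _ h
        rw [Prod.mk.injEq] at h
        have h1 := Prod.mk.inj h.1
        have h2 := Prod.mk.inj h.2
        exact rs_union.mpr ⟨rs_union.mpr h1, h2.2⟩
      · intro x y _ _ h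
        have h1 := rs_union.mp h
        have h2 := rs_union.mp h1.1
        exact Prod.ext (Prod.ext h2.1 h2.2) (Prod.ext h2.1 h1.2)
    · apply ent_congr isPr_uni
      · intro x y _ _ h
        rw [Prod.mk.injEq] at h
        have h2 := Prod.mk.inj h.2
        have h3 := rs_union.mpr ⟨h2.1, h.1⟩
        rw [union_compl] at h3
        exact h3
      · intro x y _ _ h
        exact Prod.ext (rs_of_subset (subset_univ _) h)
          (Prod.ext (rs_of_subset (subset_univ _) h) (rs_of_subset (subset_univ _) h))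
  · intro x y z y' z' h1 h2 h3 h4 h5
    have e1 : pairRs H U Z y = pairRs H U Z x := fk_ne_zero h1
    have e2 : pairRs H U Y z = pairRs H U Y y := fk_ne_zero h2
    have e3 : pairRs H U Z y' = pairRs H U Z x := fk_ne_zero h3
    have e4 : pairRs H U Y z' = pairRs H U Y y' := fk_ne_zero h4
    have f1 : rs U y.1 = rs U x.1 := congrArg Prod.fst e1
    have f3 : rs U y'.1 = rs U x.1 := congrArg Prod.fst e3
    have f2 : rs Y z.1 = rs Y y.1 := congrArg Prod.snd e2
    have f4 : rs Y z'.1 = rs Y y'.1 := congrArg Prod.snd e4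
    apply Prod.ext
    · exact f1.trans f3.symm
    · exact f2.symm.trans ((rs_of_subset hYU h5).trans f4)

theorem hk_rhoK_ge (hne : H.Nonempty) {U Y Z : Finset I} (hUY : Disjoint U Y)
    (hUZ : Disjoint U Z) (hYZ : Disjoint Y Z) :
    hS H Uᶜ - dS H (U ∪ Y ∪ Z) - dS H univ ≤ hk (rhoK H U Y Z) (fun x => rs Uᶜ x.1) := by
  rw [hk_rhoK hne hUY]
  have h1 : ((U ∪ Y ∪ Z).card : ℝ) = U.card + Y.card + Z.card := by
    rw [card_union_of_disjoint (disjoint_union_left.mpr ⟨hUZ, hYZ⟩),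
      card_union_of_disjoint hUY]
    push_cast
    ring
  have h2 : ((U ∪ Z).card : ℝ) = U.card + Z.card := by
    rw [card_union_of_disjoint hUZ]; push_cast; ring
  have h3 : ((U ∪ Y).card : ℝ) = U.card + Y.card := by
    rw [card_union_of_disjoint hUY]; push_cast; ring
  have h4 : ((univ : Finset I).card : ℝ) = U.card + (Uᶜ).card := by
    rw [card_univ, ← card_add_card_compl U]; push_cast; ring
  have d1 := dS_nonneg hne (U ∪ Z)
  have d2 := dS_nonneg hne (U ∪ Y)
  have d3 := dS_nonneg hne Uᶜ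
  unfold dS at *
  rw [h1, h4]
  rw [h2] at d1
  rw [h3] at d2
  linarith

variable {ι : Type*} [Fintype ι] [DecidableEq ι] {κ : ι → {x // x ∈ H} → {x // x ∈ H} → ℝ}

/-- Two `ρ`-copies carry little information about `x_U`. -/
theorem cent_two_rho (hne : H.Nonempty) {U Y Z : Finset I} (hUY : Disjoint U Y)
    (hUZ : Disjoint U Z) (hYZ : Disjoint Y Z) (hκ : ∀ i, IsKer (κ i)) {i₀ i₁ : ι} (hi : i₀ ≠ i₁)
    (h₀ : κ i₀ = rhoK H U Y Z) (h₁ : κ i₁ = rhoK H U Y Z) :
    U.card * Real.log m - 3 * dS H (U ∪ Y ∪ Z) - 2 * dS H univ ≤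
      cent (jt κ) (fun ω => rs U ω.1.1) (fun ω => (rs Uᶜ (ω.2 i₀).1, rs Uᶜ (ω.2 i₁).1)) := by
  have hneΩ : Nonempty {x // x ∈ H} := hne.to_subtype
  have hp := isPr_jt hκ
  -- `H(o₀ | ψ) = h_ρ`
  have c0 : cent (jt κ) (fun ω => rs Uᶜ (ω.2 i₀).1) (fun ω => pairRs H U Z ω.1)
      = hk (rhoK H U Y Z) (fun x => rs Uᶜ x.1) := by
    rw [← h₀]
    exact cent_ci hκ i₀ (pairRs H U Z) (by rw [h₀]; exact dep_rhoK H U Y Z)
      (fun ω => pairRs H U Z ω.1) (fun _ _ _ => rfl) (Det.refl _) (fun x => rs Uᶜ x.1)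
  have c1 : cent (jt κ) (fun ω => rs Uᶜ (ω.2 i₁).1)
      (fun ω => (rs Uᶜ (ω.2 i₀).1, pairRs H U Z ω.1))
      = hk (rhoK H U Y Z) (fun x => rs Uᶜ x.1) := by
    rw [← h₁]
    apply cent_ci hκ i₁ (pairRs H U Z) (by rw [h₁]; exact dep_rhoK H U Y Z)
      (fun ω => (rs Uᶜ (ω.2 i₀).1, pairRs H U Z ω.1)) _ _ (fun x => rs Uᶜ x.1)
    · intro x e z
      simp [Function.update_of_ne hi]
    · exact Det.snd (Det.refl _)
  have hb : ent (jt κ) (fun ω => pairRs H U Z ω.1) = hS H (U ∪ Z) := by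
    rw [ent_jt_base hκ (pairRs H U Z)]
    exact ent_pairRs hne U Z
  have hZ : ent (jt κ) (fun ω => rs Z ω.1.1) = hS H Z :=
    ent_jt_base hκ (fun x : {x // x ∈ H} => rs Z x.1)
  have ho0 : ent (jt κ) (fun ω => rs Uᶜ (ω.2 i₀).1) = hS H Uᶜ :=
    ent_jt_copy hκ (by rw [h₀]; exact stat_rhoK H U Y Z) (fun x : {x // x ∈ H} => rs Uᶜ x.1)
  have ho1 : ent (jt κ) (fun ω => rs Uᶜ (ω.2 i₁).1) = hS H Uᶜ :=
    ent_jt_copy hκ (by rw [h₁]; exact stat_rhoK H U Y Z) (fun x : {x // x ∈ H} => rs Uᶜ x.1)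
  unfold cent at c0 c1
  -- the joint entropy
  have e1 : ent (jt κ) (fun ω => (rs U ω.1.1, rs Z ω.1.1, rs Uᶜ (ω.2 i₀).1, rs Uᶜ (ω.2 i₁).1))
      = ent (jt κ) (fun ω => (rs Uᶜ (ω.2 i₁).1, rs Uᶜ (ω.2 i₀).1, pairRs H U Z ω.1)) := by
    apply ent_congr hp
    · intro x y _ _ h
      simp only [Prod.mk.injEq, pairRs] at h ⊢
      tauto
    · intro x y _ _ h
      simp only [Prod.mk.injEq, pairRs] at h ⊢
      tauto
  have e2 : ent (jt κ) (fun ω => (rs Z ω.1.1, rs Uᶜ (ω.2 i₀).1, rs Uᶜ (ω.2 i₁).1))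
      ≤ hS H Z + (hS H Uᶜ + hS H Uᶜ) := by
    refine (ent_pair_le hp _ _).trans ?_
    rw [hZ]
    apply add_le_add le_rfl
    refine (ent_pair_le hp _ _).trans ?_
    rw [ho0, ho1]
  have e3 : cent (jt κ) (fun ω => rs U ω.1.1)
      (fun ω => (rs Z ω.1.1, rs Uᶜ (ω.2 i₀).1, rs Uᶜ (ω.2 i₁).1))
      ≤ cent (jt κ) (fun ω => rs U ω.1.1) (fun ω => (rs Uᶜ (ω.2 i₀).1, rs Uᶜ (ω.2 i₁).1)) :=
    cent_anti hp _ (Det.snd (Det.refl _))
  refine le_trans ?_ e3
  unfold cent
  rw [e1]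
  have hρ := hk_rhoK_ge hne hUY hUZ hYZ
  have h2 : ((U ∪ Z).card : ℝ) = U.card + Z.card := by
    rw [card_union_of_disjoint hUZ]; push_cast; ring
  have d1 : dS H (U ∪ Z) ≤ dS H (U ∪ Y ∪ Z) := by
    apply dS_mono hne
    intro i hi
    simp only [mem_union] at hi ⊢
    tauto
  have d2 := dS_nonneg hne Z
  have d3 : hS H (U ∪ Z) = (U.card + Z.card) * Real.log m - dS H (U ∪ Z) := by
    unfold dS; rw [h2]; ring
  have d4 : hS H Z = Z.card * Real.log m - dS H Z := by unfold dS; ring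
  linarith

end rho

section lists

variable [Fintype I] [DecidableEq I]

/-- The conclusion of the key lemma fails for `U` (with `D''` for `20 (D + 1)`). -/
def KLFail (H : Finset (I → Fin m)) (U : Finset I) (D'' : ℝ) : Prop :=
  ∀ A0 A1 : I → Fin m, (∀ i, i ∉ U → A0 i ≠ A1 i) → ∀ G : Finset ({i // i ∈ U} → Fin m),
    (∀ w ∈ G, glue U w A0 ∈ H ∧ glue U w A1 ∈ H) →
      (m : ℝ) ^ ((U.card : ℝ) - D'') ≤ G.card → ¬ Spread (1 / 20) G

/-- The bound for the lengths of the lists. -/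
noncomputable def MV (m : ℕ) (D'' : ℝ) : ℝ := (m : ℝ) ^ (1 / 20 : ℝ) * (D'' * Real.log m) + 1

theorem MV_nonneg (hm : 1 ≤ m) {D'' : ℝ} (hD : 0 ≤ D'') : 0 ≤ MV m D'' := by
  have : 0 ≤ Real.log m := Real.log_nonneg (by exact_mod_cast hm)
  unfold MV
  positivity

theorem exists_list {H : Finset (I → Fin m)} {U : Finset I} {D'' : ℝ} (hm : 1 ≤ m) (hD : 0 ≤ D'')
    (hfail : KLFail H U D'') (A0 A1 : I → Fin m) :
    ∃ (V : Finset ({i // i ∈ U} × Fin m)) (B : Finset ({i // i ∈ U} → Fin m)),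
      (V.card : ℝ) ≤ MV m D'' ∧ (B.card : ℝ) ≤ (m : ℝ) ^ ((U.card : ℝ) - D'') ∧
      ((∀ i, i ∉ U → A0 i ≠ A1 i) → ∀ w : {i // i ∈ U} → Fin m, glue U w A0 ∈ H →
        glue U w A1 ∈ H → w ∉ B → ∃ u, (u, w u) ∈ V) := by
  have hmpos : (0 : ℝ) < m := by exact_mod_cast hm
  by_cases hA : ∀ i, i ∉ U → A0 i ≠ A1 i
  · have hx : (0 : ℝ) < (m : ℝ) ^ (-(1 / 20) : ℝ) := Real.rpow_pos_of_pos hmpos _
    have hN : (0 : ℝ) < (m : ℝ) ^ ((U.card : ℝ) - D'') := Real.rpow_pos_of_pos hmpos _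
    obtain ⟨V, B, hB, hBN, hV, hVc⟩ := exists_popular_list (J := {i // i ∈ U}) (m := m)
      ((m : ℝ) ^ (-(1 / 20) : ℝ)) ((m : ℝ) ^ ((U.card : ℝ) - D'')) hx hN
      (univ.filter fun w => glue U w A0 ∈ H ∧ glue U w A1 ∈ H) (by
        intro S hS hSN
        have := hfail A0 A1 hA S (fun w hw => (mem_filter.mp (hS hw)).2) hSN
        unfold Spread at this
        push Not at this
        exact this)
    refine ⟨V, B, hVc.trans ?_, hBN.le, ?_⟩
    · unfold listBound
      have hL : 0 ≤ Real.log m := Real.log_nonneg (by exact_mod_cast hm)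
      split_ifs with h1
      · unfold MV
        have h2 : 1 / (m : ℝ) ^ (-(1 / 20) : ℝ) = (m : ℝ) ^ (1 / 20 : ℝ) := by
          rw [Real.rpow_neg hmpos.le, one_div, inv_inv]
        rw [h2]
        apply add_le_add _ le_rfl
        apply mul_le_mul_of_nonneg_left _ (by positivity)
        set c : ℝ := ((univ.filter fun w => glue U w A0 ∈ H ∧ glue U w A1 ∈ H).card : ℝ) with hc
        have hcpos : 0 < c := lt_of_lt_of_le hN h1
        rw [Real.log_div hcpos.ne' hN.ne', Real.log_rpow hmpos]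
        have h3 : Real.log c ≤ U.card * Real.log m := by
          have h4 : c ≤ (m : ℝ) ^ (U.card : ℕ) := by
            have h5 : (univ.filter fun w => glue U w A0 ∈ H ∧ glue U w A1 ∈ H).card
                ≤ m ^ U.card := by
              refine (card_le_univ _).trans (le_of_eq ?_)
              rw [Fintype.card_fun, Fintype.card_coe, Fintype.card_fin]
            rw [hc]
            exact_mod_cast h5
          have h6 := Real.log_le_log hcpos h4
          rwa [Real.log_pow] at h6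
        linarith
      · exact MV_nonneg hm hD
    · intro _ w h0 h1 hw
      exact hV w (mem_filter.mpr ⟨mem_univ _, h0, h1⟩) hw
  · exact ⟨∅, ∅, by simpa using MV_nonneg hm hD, by simpa using Real.rpow_nonneg hmpos.le _,
      fun h => absurd h hA⟩

/-- an actual point with outer part `a` -/
def toP (v₀ : Fin m) (a : I → Option (Fin m)) : I → Fin m := fun i => (a i).getD v₀

omit [Fintype I] in
theorem toP_rs (v₀ : Fin m) (S : Finset I) (x : I → Fin m) {i : I} (hi : i ∈ S) :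
    toP v₀ (rs S x) i = x i := by
  simp [toP, rs, hi]

theorem glue_toP (v₀ : Fin m) (U : Finset I) (x : I → Fin m) :
    glue U (fun i => x i) (toP v₀ (rs Uᶜ x)) = x := by
  funext i
  unfold glue
  split_ifs with h
  · rfl
  · exact toP_rs v₀ _ x (mem_compl.mpr h)

open Classical in
/-- the index: a member of the list `V a b` which is a value of the point with restriction `w` -/
noncomputable def idx (U : Finset I)
    (V : (I → Option (Fin m)) → (I → Option (Fin m)) → Finset (I × Fin m))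
    (w a b : I → Option (Fin m)) : Option I :=
  if h : ∃ u, u ∈ U ∧ ∃ v, w u = some v ∧ (u, v) ∈ V a b then some h.choose else none

omit [Fintype I] in
theorem idx_spec {U : Finset I}
    {V : (I → Option (Fin m)) → (I → Option (Fin m)) → Finset (I × Fin m)}
    {w a b : I → Option (Fin m)} {u : I} (h : idx U V w a b = some u) :
    u ∈ U ∧ ∃ v, w u = some v ∧ (u, v) ∈ V a b := by
  unfold idx at h
  split_ifs at h with h1
  rw [Option.some.injEq] at h
  rw [← h]
  exact h1.choose_spec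

omit [Fintype I] in
theorem idx_none {U : Finset I}
    {V : (I → Option (Fin m)) → (I → Option (Fin m)) → Finset (I × Fin m)}
    {w a b : I → Option (Fin m)} (h : idx U V w a b = none) :
    ¬ ∃ u, u ∈ U ∧ ∃ v, w u = some v ∧ (u, v) ∈ V a b := by
  intro h1
  unfold idx at h
  rw [dif_pos h1] at h
  exact absurd h (by simp)

theorem exists_lists {H : Finset (I → Fin m)} {U : Finset I} {D'' : ℝ} (v₀ : Fin m)
    (hD : 0 ≤ D'') (hfail : KLFail H U D'') :
    ∃ (V : (I → Option (Fin m)) → (I → Option (Fin m)) → Finset (I × Fin m))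
      (B : (I → Option (Fin m)) → (I → Option (Fin m)) → Finset ({i // i ∈ U} → Fin m)),
      (∀ a b, ((V a b).card : ℝ) ≤ MV m D'') ∧
      (∀ a b, ((B a b).card : ℝ) ≤ (m : ℝ) ^ ((U.card : ℝ) - D'')) ∧
      ∀ x y : I → Fin m, x ∈ H → y ∈ H → rs U x = rs U y → (∀ i, i ∉ U → x i ≠ y i) →
        (fun i : {i // i ∈ U} => x i) ∉ B (rs Uᶜ x) (rs Uᶜ y) →
        idx U V (rs U x) (rs Uᶜ x) (rs Uᶜ y) ≠ none := by
  have hm : 1 ≤ m := v₀.pos
  choose V B h1 h2 h3 using fun a b : I → Option (Fin m) =>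
    exists_list hm hD hfail (toP v₀ a) (toP v₀ b)
  refine ⟨fun a b => (V a b).image fun p => (p.1.1, p.2), B, ?_, h2, ?_⟩
  · intro a b
    refine le_trans ?_ (h1 a b)
    exact_mod_cast card_image_le
  · intro x y hx hy hxy hne hB hnone
    apply idx_none hnone
    have e1 : (fun i : {i // i ∈ U} => x i) = fun i : {i // i ∈ U} => y i := by
      funext i
      exact rs_eq_iff.mp hxy i i.2
    obtain ⟨u, hu⟩ := h3 (rs Uᶜ x) (rs Uᶜ y) (fun i hi => by
        rw [toP_rs v₀ _ x (mem_compl.mpr hi), toP_rs v₀ _ y (mem_compl.mpr hi)]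
        exact hne i hi) (fun i => x i) (by rw [glue_toP]; exact hx)
      (by rw [e1, glue_toP]; exact hy) hB
    refine ⟨u.1, u.2, x u.1, by simp [rs, u.2], ?_⟩
    rw [mem_image]
    exact ⟨(u, x u), hu, rfl⟩

end lists

section final

variable [Fintype I] [DecidableEq I] {H : Finset (I → Fin m)}
variable {ι : Type*} [Fintype ι] [DecidableEq ι] {κ : ι → {x // x ∈ H} → {x // x ∈ H} → ℝ}

omit [Fintype I] in
open Classical in
theorem badPt_tBad {U Y : Finset I} {c : ℝ} {x : {x // x ∈ H}}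
    (h : BadPt (pairRs H U Y) (fun (j : {i // i ∉ U ∪ Y}) (x : {x // x ∈ H}) => x.1 j.1) c x) :
    TBad c H (U ∪ Y) x.1 := by
  obtain ⟨j, hj⟩ := h
  refine ⟨j.1, j.2, ?_⟩
  have e0 : ∀ y : {x // x ∈ H}, pairRs H U Y y = pairRs H U Y x ↔ ∀ i ∈ U ∪ Y, y.1 i = x.1 i := by
    intro y
    rw [← rs_eq_iff, rs_union]
    unfold pairRs
    rw [Prod.mk.injEq]
  have e1 : (univ.filter fun x' : {x // x ∈ H} => pairRs H U Y x' = pairRs H U Y x).card
      = (agree H (U ∪ Y) x.1).card := by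
    unfold agree
    rw [← card_map (Function.Embedding.subtype _)]
    congr 1
    ext y
    simp only [mem_map, mem_filter, mem_univ, true_and, Function.Embedding.coe_subtype]
    constructor
    · rintro ⟨y', h1, rfl⟩
      exact ⟨y'.2, (e0 y').mp h1⟩
    · rintro ⟨h1, h2⟩
      exact ⟨⟨y, h1⟩, (e0 ⟨y, h1⟩).mpr h2, rfl⟩
  have e2 : (univ.filter fun x' : {x // x ∈ H} => pairRs H U Y x' = pairRs H U Y x ∧
      x'.1 j.1 = x.1 j.1).card
      = ((agree H (U ∪ Y) x.1).filter fun y => y j.1 = x.1 j.1).card := by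
    unfold agree
    rw [← card_map (Function.Embedding.subtype _)]
    congr 1
    ext y
    simp only [mem_map, mem_filter, mem_univ, true_and, Function.Embedding.coe_subtype]
    constructor
    · rintro ⟨y', h1, rfl⟩
      exact ⟨⟨y'.2, (e0 y').mp h1.1⟩, h1.2⟩
    · rintro ⟨⟨h1, h2⟩, h3⟩
      exact ⟨⟨y, h1⟩, ⟨(e0 ⟨y, h1⟩).mpr h2, h3⟩, rfl⟩
  rw [← e1, ← e2]
  convert hj

omit [Fintype I] [DecidableEq I] in
open Classical in
theorem pr_uni_le_filter (P : (I → Fin m) → Prop) :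
    pr (uni {x // x ∈ H}) (fun x => P x.1) = ((H.filter P).card : ℝ) / H.card := by
  rw [pr_eq_ite]
  unfold uni
  rw [← sum_filter, sum_const, nsmul_eq_mul, Fintype.card_coe, ← div_eq_mul_inv]
  congr 2
  rw [← card_map (Function.Embedding.subtype _)]
  congr 1
  ext y
  simp only [mem_map, mem_filter, mem_univ, true_and, Function.Embedding.coe_subtype]
  constructor
  · rintro ⟨y', h1, rfl⟩
    exact ⟨y'.2, h1⟩
  · rintro ⟨h1, h2⟩
    exact ⟨⟨y, h1⟩, h2, rfl⟩

/-- (4.2): two `ρ`-copies are rarely equal at some coordinate outside `U`. -/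
theorem collision (hne : H.Nonempty) (hm : 2 ≤ m) {U Y Z : Finset I} (hUY : Disjoint U Y)
    (hYZ : Disjoint Y Z) (hκ : ∀ i, IsKer (κ i)) {i₀ i₁ : ι} (hi : i₀ ≠ i₁)
    (h₀ : κ i₀ = rhoK H U Y Z) (c : ℝ) (hc : 0 ≤ c) :
    pr (jt κ) (fun ω => ∃ i, i ∉ U ∧ (ω.2 i₀).1 i = (ω.2 i₁).1 i) ≤
      Y.card * ((Real.log 2 + dS H (U ∪ Y ∪ Z)) / Real.log m) + Fintype.card I * c +
        pr (uni {x // x ∈ H}) (fun x => TBad c H (U ∪ Y) x.1) := by
  have hneΩ : Nonempty {x // x ∈ H} := hne.to_subtype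
  have hp := isPr_jt hκ
  have hL : 0 < Real.log m := Real.log_pos (by exact_mod_cast hm)
  have h1 : pr (jt κ) (fun ω => ∃ i, i ∉ U ∧ (ω.2 i₀).1 i = (ω.2 i₁).1 i) ≤
      pr (jt κ) (fun ω => (∃ i : {i // i ∈ Y}, (ω.2 i₀).1 i.1 = (ω.2 i₁).1 i.1) ∨
        ∃ j : {i // i ∉ U ∪ Y}, (ω.2 i₀).1 j.1 = (ω.2 i₁).1 j.1) := by
    apply pr_mono hp
    rintro ω _ ⟨i, hiU, hi⟩
    by_cases hiY : i ∈ Y
    · exact Or.inl ⟨⟨i, hiY⟩, hi⟩
    · exact Or.inr ⟨⟨i, by simp [hiU, hiY]⟩, hi⟩
  refine h1.trans ((pr_or_le hp _ _).trans ?_)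
  rw [add_assoc]
  apply add_le_add
  · refine (pr_exists_le hp _).trans ?_
    calc ∑ i : {i // i ∈ Y}, pr (jt κ) (fun ω => (ω.2 i₀).1 i.1 = (ω.2 i₁).1 i.1)
        ≤ ∑ _i : {i // i ∈ Y}, (Real.log 2 + dS H (U ∪ Y ∪ Z)) / Real.log m := by
          apply sum_le_sum
          intro i _
          rw [le_div_iff₀ hL]
          have h2 := collision_inner (by omega) hκ hi.symm (pairRs H U Y) (pairRs H U Z) h₀
            (fun x => x.1 i.1) (fun x x' h => by
              have h3 := congrArg Prod.snd h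
              exact rs_eq_iff.mp h3 i.1 i.2)
          refine h2.trans ?_
          -- `H(x_i | x_U, x_Z) ≥ L - d(U + Z + i)`
          have hiUZ : i.1 ∉ U ∪ Z := by
            simp only [mem_union, not_or]
            exact ⟨fun h => (disjoint_left.mp hUY h) i.2, fun h => (disjoint_left.mp hYZ i.2) h⟩
          have h3 : cent (uni {x // x ∈ H}) (fun x => x.1 i.1) (pairRs H U Z)
              = hS H (insert i.1 (U ∪ Z)) - hS H (U ∪ Z) := by
            unfold cent
            rw [ent_pairRs hne]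
            congr 1
            apply ent_congr isPr_uni
            · intro x y _ _ h
              rw [Prod.mk.injEq] at h
              rw [insert_eq, rs_union]
              refine ⟨?_, ?_⟩
              · rw [rs_eq_iff]
                intro j hj
                rw [mem_singleton] at hj
                rw [hj]
                exact h.1
              · exact rs_union.mpr (Prod.mk.inj h.2)
            · intro x y _ _ h
              rw [insert_eq, rs_union] at h
              have h4 := rs_union.mp h.2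
              exact Prod.ext (rs_eq_iff.mp h.1 i.1 (mem_singleton_self _))
                (Prod.ext h4.1 h4.2)
          rw [h3]
          have d1 := dS_nonneg hne (U ∪ Z)
          have d2 : dS H (insert i.1 (U ∪ Z)) ≤ dS H (U ∪ Y ∪ Z) := by
            apply dS_mono hne
            intro j hj
            simp only [mem_insert, mem_union] at hj ⊢
            rcases hj with rfl | hj | hj
            · exact Or.inl (Or.inr i.2)
            · exact Or.inl (Or.inl hj)
            · exact Or.inr hj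
          unfold dS at d1 d2
          rw [card_insert_of_notMem hiUZ] at d2
          push_cast at d2
          unfold dS
          linarith
      _ = _ := by
          rw [sum_const, card_univ, Fintype.card_coe, nsmul_eq_mul]
  · have h2 := collision_outer hκ hi.symm (pairRs H U Y) (pairRs H U Z) h₀
      (fun (j : {i // i ∉ U ∪ Y}) (x : {x // x ∈ H}) => x.1 j.1) c hc
    refine h2.trans ?_
    apply add_le_add
    · apply mul_le_mul_of_nonneg_right _ hc
      exact_mod_cast Fintype.card_subtype_le _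
    · exact pr_mono isPr_uni (fun x _ h => badPt_tBad h)

open Classical in
/-- (4.1): the point is rarely in the bad remainder. -/
theorem bad_remainder (hne : H.Nonempty) (hm : 2 ≤ m) {U Y Z : Finset I} (hUY : Disjoint U Y)
    (hUZ : Disjoint U Z) (hYZ : Disjoint Y Z) (hκ : ∀ i, IsKer (κ i)) {i₀ i₁ : ι} (hi : i₀ ≠ i₁)
    (h₀ : κ i₀ = rhoK H U Y Z) (h₁ : κ i₁ = rhoK H U Y Z) {D'' : ℝ} (hD : 0 < D'')
    (B : (I → Option (Fin m)) → (I → Option (Fin m)) → Finset ({i // i ∈ U} → Fin m))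
    (hB : ∀ a b, ((B a b).card : ℝ) ≤ (m : ℝ) ^ ((U.card : ℝ) - D'')) :
    pr (jt κ) (fun ω => (fun i : {i // i ∈ U} => ω.1.1 i.1) ∈
        B (rs Uᶜ (ω.2 i₀).1) (rs Uᶜ (ω.2 i₁).1)) ≤
      (Real.log 2 + 3 * dS H (U ∪ Y ∪ Z) + 2 * dS H univ) / (D'' * Real.log m) := by
  have hneΩ : Nonempty {x // x ∈ H} := hne.to_subtype
  have hp := isPr_jt hκ
  have hL : 0 < Real.log m := Real.log_pos (by exact_mod_cast hm)
  have hmpos : (0 : ℝ) < m := by
    have : 0 < m := by omega
    exact_mod_cast this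
  have hm1 : (1 : ℝ) ≤ m := by
    have : 1 ≤ m := by omega
    exact_mod_cast this
  have h1 := cent_le_of_list hp (fun ω => fun i : {i // i ∈ U} => ω.1.1 i.1)
    (fun ω => (rs Uᶜ (ω.2 i₀).1, rs Uᶜ (ω.2 i₁).1)) (fun p => B p.1 p.2)
    ((m : ℝ) ^ ((U.card : ℝ) - D'')) (Real.rpow_pos_of_pos hmpos _) (fun p => hB p.1 p.2)
    ((m : ℝ) ^ U.card) (one_le_pow₀ hm1) (by
      rw [Fintype.card_fun, Fintype.card_coe, Fintype.card_fin]
      push_cast
      exact le_rfl)
  have h2 := cent_two_rho hne hUY hUZ hYZ hκ hi h₀ h₁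
  have h3 : cent (jt κ) (fun ω => rs U ω.1.1) (fun ω => (rs Uᶜ (ω.2 i₀).1, rs Uᶜ (ω.2 i₁).1))
      = cent (jt κ) (fun ω => fun i : {i // i ∈ U} => ω.1.1 i.1)
        (fun ω => (rs Uᶜ (ω.2 i₀).1, rs Uᶜ (ω.2 i₁).1)) := by
    apply cent_congr hp (Det.refl _) (Det.refl _)
    · intro x y _ _ h
      rw [Prod.mk.injEq] at h
      funext i
      exact rs_eq_iff.mp h.1 i.1 i.2
    · intro x y _ _ h
      rw [Prod.mk.injEq] at h
      apply rs_eq_iff.mpr
      intro i hi
      exact congrFun h.1 ⟨i, hi⟩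
  rw [h3] at h2
  rw [Real.log_rpow hmpos, Real.log_pow] at h1
  rw [le_div_iff₀ (mul_pos hD hL)]
  simp only at h1
  nlinarith

/-- Section 4: if the key lemma fails for `U`, there are short lists. -/
theorem section4 (hne : H.Nonempty) (hm : 2 ≤ m) {U Y Z : Finset I} (hUY : Disjoint U Y)
    (hUZ : Disjoint U Z) (hYZ : Disjoint Y Z) {D'' : ℝ} (hD : 0 < D'') (hfail : KLFail H U D'')
    (c : ℝ) (hc : 0 ≤ c) :
    ∃ (V : (I → Option (Fin m)) → (I → Option (Fin m)) → Finset (I × Fin m))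
      (Idx : (I → Option (Fin m)) → (I → Option (Fin m)) → (I → Option (Fin m)) → Option I),
      (∀ a b, ((V a b).card : ℝ) ≤ MV m D'') ∧
      (∀ (x : I → Fin m) (a b : I → Option (Fin m)) (u : I), Idx (rs U x) a b = some u →
        u ∈ U ∧ (u, x u) ∈ V a b) ∧
      ∀ {ι : Type} [Fintype ι] [DecidableEq ι] {κ : ι → {x // x ∈ H} → {x // x ∈ H} → ℝ}
        (_ : ∀ i, IsKer (κ i)) {i₀ i₁ : ι} (_ : i₀ ≠ i₁) (_ : κ i₀ = rhoK H U Y Z)
        (_ : κ i₁ = rhoK H U Y Z),
        pr (jt κ) (fun ω => Idx (rs U ω.1.1) (rs Uᶜ (ω.2 i₀).1) (rs Uᶜ (ω.2 i₁).1) = none) ≤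
          (Real.log 2 + 3 * dS H (U ∪ Y ∪ Z) + 2 * dS H univ) / (D'' * Real.log m) +
          (Y.card * ((Real.log 2 + dS H (U ∪ Y ∪ Z)) / Real.log m) + Fintype.card I * c +
            pr (uni {x // x ∈ H}) (fun x => TBad c H (U ∪ Y) x.1)) := by
  classical
  have v₀ : Fin m := ⟨0, by omega⟩
  obtain ⟨V, B, hV, hB, hVB⟩ := exists_lists v₀ hD.le hfail
  refine ⟨V, idx U V, hV, ?_, ?_⟩
  · intro x a b u hu
    obtain ⟨h1, v, h2, h3⟩ := idx_spec hu
    have h4 : rs U x u = some (x u) := by simp [rs, h1]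
    rw [h4, Option.some.injEq] at h2
    rw [← h2] at h3
    exact ⟨h1, h3⟩
  · intro ι _ _ κ hκ i₀ i₁ hi h₀ h₁
    have hneΩ : Nonempty {x // x ∈ H} := hne.to_subtype
    have hp := isPr_jt hκ
    have h1 : pr (jt κ) (fun ω => idx U V (rs U ω.1.1) (rs Uᶜ (ω.2 i₀).1) (rs Uᶜ (ω.2 i₁).1)
        = none) ≤ pr (jt κ) (fun ω => (fun i : {i // i ∈ U} => ω.1.1 i.1) ∈
        B (rs Uᶜ (ω.2 i₀).1) (rs Uᶜ (ω.2 i₁).1) ∨
        ∃ i, i ∉ U ∧ (ω.2 i₀).1 i = (ω.2 i₁).1 i) := by
      apply pr_mono hp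
      intro ω hω hnone
      by_contra hcon
      push Not at hcon
      have e0 : rs U (ω.2 i₀).1 = rs U ω.1.1 := by
        have := jt_ne_zero hω i₀
        rw [h₀] at this
        exact rhoK_ne_zero this
      have e1 : rs U (ω.2 i₁).1 = rs U ω.1.1 := by
        have := jt_ne_zero hω i₁
        rw [h₁] at this
        exact rhoK_ne_zero this
      apply hVB (ω.2 i₀).1 (ω.2 i₁).1 (ω.2 i₀).2 (ω.2 i₁).2 (e0.trans e1.symm) hcon.2
      · have e2 : (fun i : {i // i ∈ U} => (ω.2 i₀).1 i.1) = fun i : {i // i ∈ U} => ω.1.1 i.1 := by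
          funext i
          exact rs_eq_iff.mp e0 i.1 i.2
        rw [e2]
        exact hcon.1
      · rw [e0]
        exact hnone
    refine h1.trans ((pr_or_le hp _ _).trans ?_)
    exact add_le_add (bad_remainder hne hm hUY hUZ hYZ hκ hi h₀ h₁ hD B hB)
      (collision hne hm hUY hYZ hκ hi h₀ c hc)

end final

end RFold
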