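import Pool.Agent.Lib.MP_3581cd_co.ModelDefs

/-!
# MP_3581cd_co: pointwise properties of the concrete quantities
-/

set_option linter.unusedSectionVars false

namespace Pool.Agent.MP3581.CopySys

open Finset

variable {V : Type*} [DecidableEq V] {h : Finset V → ℝ} {W : Finset V} {E : ℝ}
  {A : Finset V → ℕ → ℝ} {Cp : V → Prop} {typ : V → Finset V}

theorem dF_nonneg (s : CopySys h W E A Cp typ) {Z R : Finset V} {j : V}
    (hR : ∀ r ∈ R, Cp r ∧ typ r = Z) (hj : Cp j) (hjZ : typ j = Z) (hjR : j ∉ R) :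
    0 ≤ dF h W E A Z R.card := by
  have hb : ∀ x, Cp x → x ∉ W ∪ Z := fun x hx => by
    have := s.base x j hx hj
    rwa [hjZ] at this
  have e1 := s.cond (S := Z ∪ R) (T := W ∪ Z ∪ R) {j} (by
    intro x hx
    simp only [mem_union] at hx ⊢
    tauto)
  have e2 : h (W ∪ Z ∪ R ∪ {j}) = h (W ∪ Z ∪ R) + h0 h W E Z := by
    have := s.ci_one hj (S := W ∪ Z ∪ R) (by
      intro hh
      rcases mem_union.1 hh with hh | hh
      · exact hb j hj hh
      · exact hjR hh) (by rw [hjZ]; exact subset_union_left)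
    rw [this, hjZ]
  have e3 : h (Z ∪ R ∪ {j}) = A Z (R.card + 1) := by
    have := s.eq0 Z (insert j R) (by
      intro r hr
      rcases mem_insert.1 hr with rfl | hr
      · exact ⟨hj, hjZ⟩
      · exact hR r hr)
    rw [card_insert_of_notMem hjR] at this
    rw [← this]
    congr 1
    ext x
    simp only [mem_union, mem_insert, mem_singleton]
    tauto
  rw [e2, e3, s.eq0 Z R hR] at e1
  rw [dF_eq]
  linarith

theorem dF_anti (s : CopySys h W E A Cp typ) {Z R : Finset V} {i j : V}
    (hR : ∀ r ∈ R, Cp r ∧ typ r = Z) (hi : Cp i) (hiZ : typ i = Z) (hiR : i ∉ R)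
    (hj : Cp j) (hjZ : typ j = Z) (hjR : j ∉ R) (hij : i ≠ j) :
    dF h W E A Z (R.card + 1) ≤ dF h W E A Z R.card := by
  have e1 := s.cond (S := Z ∪ R) (T := Z ∪ insert i R) {j} (by
    intro x hx
    simp only [mem_union, mem_insert] at hx ⊢
    tauto)
  have hRi : ∀ r ∈ insert i R, Cp r ∧ typ r = Z := by
    intro r hr
    rcases mem_insert.1 hr with rfl | hr
    · exact ⟨hi, hiZ⟩
    · exact hR r hr
  have hRj : ∀ r ∈ insert j R, Cp r ∧ typ r = Z := by
    intro r hr
    rcases mem_insert.1 hr with rfl | hr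
    · exact ⟨hj, hjZ⟩
    · exact hR r hr
  have hRij : ∀ r ∈ insert j (insert i R), Cp r ∧ typ r = Z := by
    intro r hr
    rcases mem_insert.1 hr with rfl | hr
    · exact ⟨hj, hjZ⟩
    · exact hRi r hr
  have hji : j ∉ insert i R := by
    simp only [mem_insert, not_or]
    exact ⟨fun hh => hij hh.symm, hjR⟩
  have e2 : h (Z ∪ insert i R ∪ {j}) = A Z (R.card + 2) := by
    have := s.eq0 Z (insert j (insert i R)) hRij
    rw [card_insert_of_notMem hji, card_insert_of_notMem hiR] at this
    rw [← this]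
    congr 1
    ext x
    simp only [mem_union, mem_insert, mem_singleton]
    tauto
  have e3 : h (Z ∪ R ∪ {j}) = A Z (R.card + 1) := by
    have := s.eq0 Z (insert j R) hRj
    rw [card_insert_of_notMem hjR] at this
    rw [← this]
    congr 1
    ext x
    simp only [mem_union, mem_insert, mem_singleton]
    tauto
  have e4 := s.eq0 Z (insert i R) hRi
  rw [card_insert_of_notMem hiR] at e4
  rw [e2, e3, e4, s.eq0 Z R hR] at e1
  rw [dF_eq, dF_eq]
  have e5 : R.card + 1 + 1 = R.card + 2 := rfl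
  rw [e5]
  linarith

end Pool.Agent.MP3581.CopySys

namespace RFold

open Finset Pool.Agent.MP3581

variable {I : Type} [Fintype I] [DecidableEq I] {m : ℕ} {H : Finset (I → Fin m)}
variable {ι τ : Type} [Fintype ι] [DecidableEq ι] [Fintype τ] [DecidableEq τ]

theorem isKer_kz (U Z : Finset I) : IsKer (kz H U Z) := isKer_fk _

theorem isKer_kr (U Y Z : Finset I) : IsKer (kr H U Y Z) := isKer_comp (isKer_fk _) (isKer_fk _)

theorem fk_congr_iff {Ω α β : Type*} [Fintype Ω] {φ : Ω → α} {ψ : Ω → β}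
    (h : ∀ x y, φ y = φ x ↔ ψ y = ψ x) : fk φ = fk ψ := by
  classical
  funext x y
  unfold fk
  have e : (univ.filter fun z => φ z = φ x) = univ.filter fun z => ψ z = ψ x := by
    ext z
    simp [h]
  by_cases hh : φ y = φ x
  · rw [if_pos hh, if_pos ((h x y).1 hh), e]
  · rw [if_neg hh, if_neg (fun h' => hh ((h x y).2 h'))]

theorem kz_congr {U Z U' Z' : Finset I} (h : U ∪ Z = U' ∪ Z') : kz H U Z = kz H U' Z' := by
  unfold kz
  refine fk_congr_iff fun x y => ?_
  rw [Prod.mk.injEq, Prod.mk.injEq, ← rs_union, ← rs_union, h]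

theorem mem_bs {S : Finset I} {v : I ⊕ ι} : v ∈ (bs S : Finset (I ⊕ ι)) ↔ ∃ i ∈ S, Sum.inl i = v := by
  simp [bs]

@[simp] theorem inl_mem_bs {S : Finset I} {i : I} : Sum.inl i ∈ (bs S : Finset (I ⊕ ι)) ↔ i ∈ S := by
  simp [bs]

@[simp] theorem inr_notMem_bs {S : Finset I} {j : ι} : Sum.inr j ∉ (bs S : Finset (I ⊕ ι)) := by
  simp [bs]

theorem ub_bs (S : Finset I) : ub (bs S : Finset (I ⊕ ι)) = S := by
  ext i
  simp [ub]

theorem bs_union (S T : Finset I) : (bs (S ∪ T) : Finset (I ⊕ ι)) = bs S ∪ bs T := by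
  simp [bs, map_union]

theorem bs_mono {S T : Finset I} (h : S ⊆ T) : (bs S : Finset (I ⊕ ι)) ⊆ bs T := by
  simpa [bs] using h

theorem lev_bs (ζ : ℕ → Finset I) (i : ℕ) :
    CopySys.lev (fun j => (bs (ζ j) : Finset (I ⊕ ι))) i = bs ((range (i + 1)).biUnion ζ) := by
  ext v
  simp only [CopySys.lev, mem_biUnion, mem_bs]
  constructor
  · rintro ⟨a, ha, i, hi, rfl⟩
    exact ⟨i, ⟨a, ha, hi⟩, rfl⟩
  · rintro ⟨i, ⟨a, ha, hi⟩, rfl⟩
    exact ⟨a, ha, i, hi, rfl⟩

/-- The entropy of coordinates and a family of copies. -/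
theorem hv_family (hne : H.Nonempty) (U : Finset I) (T : ι → Finset I) (Z : Finset I)
    {s : τ → ι} (hs : Function.Injective s) {S : Finset (I ⊕ ι)}
    (hS : ∀ v, v ∈ S ↔ (∃ i ∈ Z, Sum.inl i = v) ∨ ∃ t, Sum.inr (s t) = v) :
    hv H U T S = ent (jt fun t => kz H U (T (s t))) fun ω : {x // x ∈ H} × (τ → {x // x ∈ H}) =>
      (rs Z ω.1.1, fun t => rs Uᶜ (ω.2 t).1) := by
  have : Nonempty {x // x ∈ H} := hne.to_subtype
  have e1 : hv H U T S = ent (jt fun j => kz H U (T j))
      fun ω : {x // x ∈ H} × (ι → {x // x ∈ H}) =>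
        (rs Z ω.1.1, fun t => rs Uᶜ (ω.2 (s t)).1) := by
    unfold hv
    refine ent_congr (isPr_jt fun _ => isKer_kz _ _) ?_ ?_
    · rintro ω ω' - - h
      simp only [Prod.mk.injEq] at h ⊢
      constructor
      · rw [rs_eq_iff]
        intro i hi
        have h1 := congrFun h.1 i
        have h2 : Sum.inl i ∈ S := (hS _).2 (Or.inl ⟨i, hi, rfl⟩)
        simpa [h2] using h1
      · funext t
        have h1 := congrFun h.2 (s t)
        have h2 : Sum.inr (s t) ∈ S := (hS _).2 (Or.inr ⟨t, rfl⟩)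
        simpa [h2] using h1
    · rintro ω ω' - - h
      simp only [Prod.mk.injEq] at h ⊢
      constructor
      · funext i
        by_cases h2 : Sum.inl i ∈ S
        · have h3 : i ∈ Z := by
            rcases (hS _).1 h2 with ⟨i', hi', h4⟩ | ⟨t, h4⟩
            · rw [Sum.inl.injEq] at h4
              exact h4 ▸ hi'
            · cases h4
          rw [if_pos h2, if_pos h2, rs_eq_iff.1 h.1 i h3]
        · rw [if_neg h2, if_neg h2]
      · funext j
        by_cases h2 : Sum.inr j ∈ S
        · rcases (hS _).1 h2 with ⟨i', hi', h4⟩ | ⟨t, h4⟩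
          · cases h4
          · rw [Sum.inr.injEq] at h4
            subst h4
            rw [if_pos h2, if_pos h2]
            exact congrArg some (congrFun h.2 t)
        · rw [if_neg h2, if_neg h2]
  rw [e1]
  exact ent_jt_marg (κ := fun j => kz H U (T j)) (κ' := fun t => kz H U (T (s t)))
    (fun _ => isKer_kz _ _) (fun _ => isKer_kz _ _) (s := s) (s' := id) hs
    Function.injective_id (fun _ => rfl) fun x e => (rs Z x.1, fun t => rs Uᶜ (e t).1)

theorem hv_bs (hne : H.Nonempty) (U : Finset I) (T : ι → Finset I) (S : Finset I) :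
    hv H U T (bs S) = hS H S := by
  have : Nonempty {x // x ∈ H} := hne.to_subtype
  rw [hv_family hne U T S (τ := Empty) (s := fun t => t.elim) (fun t => t.elim) (by
    intro v
    simp [mem_bs])]
  unfold hS
  rw [← ent_jt_base (κ := fun t : Empty => kz H U (T t.elim)) (fun _ => isKer_kz _ _)
    (fun x : {x // x ∈ H} => rs S x.1)]
  refine ent_congr (isPr_jt fun _ => isKer_kz _ _) ?_ ?_
  · rintro ω ω' - - h
    simp only [Prod.mk.injEq] at h
    exact h.1
  · rintro ω ω' - - h
    simp only [Prod.mk.injEq]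
    exact ⟨h, funext fun t => t.elim⟩

theorem h0_eq (hne : H.Nonempty) (U Z : Finset I) :
    h0 (fun x : {x // x ∈ H} => rs U x.1) (fun x : {x // x ∈ H} => rs Uᶜ x.1)
      (fun x : {x // x ∈ H} => rs Z x.1) = Real.log H.card - hS H (U ∪ Z) := by
  have : Nonempty {x // x ∈ H} := hne.to_subtype
  unfold h0 cent
  congr 1
  · have h := ent_uni_inj (Ω := {x // x ∈ H})
      (f := fun x => (rs Uᶜ x.1, rs U x.1, rs Z x.1)) (by
        intro x y h
        simp only [Prod.mk.injEq] at h
        refine Subtype.ext (funext fun i => ?_)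
        by_cases hi : i ∈ U
        · exact rs_eq_iff.1 h.2.1 i hi
        · exact rs_eq_iff.1 h.1 i (mem_compl.2 hi))
    rw [Fintype.card_coe] at h
    exact h
  · unfold hS
    refine ent_congr isPr_uni ?_ ?_
    · rintro x y - - h
      simp only [Prod.mk.injEq] at h
      exact rs_union.2 h
    · rintro x y - - h
      simp only [Prod.mk.injEq]
      exact rs_union.1 h

theorem F_eq (hne : H.Nonempty) (U : Finset I) (T : ι → Finset I) (Z : Finset I) (n : ℕ) :
    CopySys.F (hv H U T) (bs U) (Real.log H.card) (Av H U T) (bs Z) n = FU H U Z n := by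
  unfold CopySys.F CopySys.h0 FU FF
  rw [h0_eq hne, ← bs_union, hv_bs hne, hv_bs hne]
  congr 2
  unfold Av
  rw [ub_bs, if_pos rfl]

theorem dF_eq' (hne : H.Nonempty) (U : Finset I) (T : ι → Finset I) (Z : Finset I) (n : ℕ) :
    CopySys.dF (hv H U T) (bs U) (Real.log H.card) (Av H U T) (bs Z) n =
      FU H U Z (n + 1) - FU H U Z n := by
  unfold CopySys.dF
  rw [F_eq hne, F_eq hne]

/-! ### (P0), (P2), (P3) -/

theorem FU_zero_of (hne : H.Nonempty) (U Z : Finset I) : FU H U Z 0 = 0 := by
  have : Nonempty {x // x ∈ H} := hne.to_subtype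
  unfold FU FF AA
  rw [← ent_jt_base (κ := fun _ : Fin 0 => fk fun x : {x // x ∈ H} => (rs U x.1, rs Z x.1))
    (fun _ => isKer_fk _) (fun x : {x // x ∈ H} => rs Z x.1)]
  have : ent (jt fun _ : Fin 0 => fk fun x : {x // x ∈ H} => (rs U x.1, rs Z x.1))
      (fun ω => (rs Z ω.1.1, fun t => rs Uᶜ (ω.2 t).1)) =
    ent (jt fun _ : Fin 0 => fk fun x : {x // x ∈ H} => (rs U x.1, rs Z x.1))
      (fun ω => rs Z ω.1.1) := by
    refine ent_congr (isPr_jt fun _ => isKer_fk _) ?_ ?_
    · rintro ω ω' - - h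
      simp only [Prod.mk.injEq] at h
      exact h.1
    · rintro ω ω' - - h
      simp only [Prod.mk.injEq]
      exact ⟨h, funext fun t => t.elim0⟩
  rw [this]
  simp

section

variable (cs : CopySysStatement H)

include cs

theorem FU_mono_of (hne : H.Nonempty) {U Z : Finset I} (hd : Disjoint U Z) (n : ℕ) :
    FU H U Z n ≤ FU H U Z (n + 1) := by
  have s := cs U (Fin n ⊕ Unit) (fun _ => Z) (fun _ => hd)
  have h := s.dF_nonneg (Z := bs Z) (R := (univ : Finset (Fin n)).map
    (Function.Embedding.inl.trans Function.Embedding.inr)) (j := Sum.inr (Sum.inr ()))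
    (by
      intro r hr
      simp only [mem_map, mem_univ, true_and] at hr
      obtain ⟨a, rfl⟩ := hr
      exact ⟨rfl, rfl⟩) rfl rfl (by simp)
  rw [card_map, card_univ, Fintype.card_fin, dF_eq' hne] at h
  linarith

theorem FU_conc_of (hne : H.Nonempty) {U Z : Finset I} (hd : Disjoint U Z) (n : ℕ) :
    FU H U Z (n + 2) + FU H U Z n ≤ 2 * FU H U Z (n + 1) := by
  have s := cs U (Fin n ⊕ Bool) (fun _ => Z) (fun _ => hd)
  have h := s.dF_anti (Z := bs Z) (R := (univ : Finset (Fin n)).map
    (Function.Embedding.inl.trans Function.Embedding.inr)) (i := Sum.inr (Sum.inr false))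
    (j := Sum.inr (Sum.inr true))
    (by
      intro r hr
      simp only [mem_map, mem_univ, true_and] at hr
      obtain ⟨a, rfl⟩ := hr
      exact ⟨rfl, rfl⟩) rfl rfl (by simp) rfl rfl (by simp) (by simp)
  rw [card_map, card_univ, Fintype.card_fin, dF_eq' hne, dF_eq' hne] at h
  have e : n + 1 + 1 = n + 2 := rfl
  rw [e] at h
  linarith

theorem FU_nonneg_of (hne : H.Nonempty) {U Z : Finset I} (hd : Disjoint U Z) (n : ℕ) :
    0 ≤ FU H U Z n := by
  induction n with
  | zero => rw [FU_zero_of hne]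
  | succ n ih => exact ih.trans (FU_mono_of cs hne hd n)

theorem FU_P2_of (hne : H.Nonempty) {U Z Z' : Finset I} (hd : Disjoint U Z') (hZ : Z ⊆ Z')
    (q n : ℕ) : FU H U Z' q ≤ FU H U Z n + q * (FU H U Z (n + 1) - FU H U Z n) := by
  have hd' : Disjoint U Z := Finset.disjoint_of_subset_right hZ hd
  rcases Nat.eq_zero_or_pos q with rfl | hq
  · rw [FU_zero_of hne]
    simpa using FU_nonneg_of cs hne hd' n
  · have s := cs U (Fin n ⊕ Fin q) (Sum.elim (fun _ => Z) (fun _ => Z'))
      (fun j => by rcases j with j | j <;> simp [hd, hd'])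
    have h := s.special (Z := bs Z) (Z' := bs Z')
      (R := (univ : Finset (Fin n)).map (Function.Embedding.inl.trans Function.Embedding.inr))
      (R' := (univ : Finset (Fin q)).map (Function.Embedding.inr.trans Function.Embedding.inr))
      (bs_mono hZ)
      (by
        intro r hr
        simp only [mem_map, mem_univ, true_and] at hr
        obtain ⟨a, rfl⟩ := hr
        exact ⟨rfl, rfl⟩)
      (by
        intro r hr
        simp only [mem_map, mem_univ, true_and] at hr
        obtain ⟨a, rfl⟩ := hr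
        exact ⟨rfl, rfl⟩)
      (by
        rw [Finset.disjoint_left]
        intro x hx hx'
        simp only [mem_map, mem_univ, true_and] at hx hx'
        obtain ⟨a, rfl⟩ := hx
        obtain ⟨b, hb⟩ := hx'
        simp at hb)
      (by
        rw [Finset.map_nonempty]
        exact ⟨⟨0, hq⟩, mem_univ _⟩)
    rw [card_map, card_map, card_univ, card_univ, Fintype.card_fin, Fintype.card_fin,
      dF_eq' hne, F_eq hne, F_eq hne] at h
    exact h

omit cs in
theorem FU_one_le (hne : H.Nonempty) {U Z : Finset I} (hd : Disjoint U Z) :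
    FU H U Z 1 ≤ dS H univ := by
  have : Nonempty {x // x ∈ H} := hne.to_subtype
  have hZU : Z ⊆ Uᶜ := fun i hi => mem_compl.2 fun hi' => Finset.disjoint_left.1 hd hi' hi
  have e1 : AA (fun x : {x // x ∈ H} => rs U x.1) (fun x : {x // x ∈ H} => rs Uᶜ x.1)
      (fun x : {x // x ∈ H} => rs Z x.1) 1 = hS H Uᶜ := by
    unfold AA hS
    rw [← ent_jt_copy (κ := fun _ : Fin 1 => fk fun x : {x // x ∈ H} => (rs U x.1, rs Z x.1))
      (fun _ => isKer_fk _) (i := 0) (stat_fk _) (fun x : {x // x ∈ H} => rs Uᶜ x.1)]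
    refine ent_congr (isPr_jt fun _ => isKer_fk _) ?_ ?_
    · rintro ω ω' - - h
      simp only [Prod.mk.injEq] at h
      exact congrFun h.2 0
    · rintro ω ω' h1 h2 h
      simp only [Prod.mk.injEq]
      have e3 := jt_fk h1 (i := 0) rfl
      have e4 := jt_fk h2 (i := 0) rfl
      simp only [Prod.mk.injEq] at e3 e4
      refine ⟨?_, funext fun t => ?_⟩
      · rw [← e3.2, ← e4.2]
        exact rs_of_subset hZU h
      · rw [Subsingleton.elim t 0]
        exact h
  unfold FU FF
  rw [e1, h0_eq hne]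
  have e2 := hS_univ hne
  have e3 := dS_nonneg hne Uᶜ
  have e4 := dS_mono hne (show Z ⊆ U ∪ Z from subset_union_right)
  have e5 : ent (uni {x // x ∈ H}) (fun x : {x // x ∈ H} => rs Z x.1) = hS H Z := rfl
  rw [e5]
  unfold dS at *
  rw [card_union_of_disjoint hd] at e4
  have e6 : ((univ : Finset I).card : ℝ) = U.card + (Uᶜ).card := by
    have := card_add_card_compl U
    rw [card_univ]
    exact_mod_cast this.symm
  rw [e6, e2]
  push_cast at *
  linarith

theorem FU_P3_of (hne : H.Nonempty) {U₁ U Z : Finset I} (hd : Disjoint U Z) (hU : U₁ ⊆ U) (n : ℕ) :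
    FU H U₁ ((U \ U₁) ∪ Z) n ≤ FU H U Z n := by
  have : Nonempty {x // x ∈ H} := hne.to_subtype
  have s := cs U (Fin n) (fun _ => Z) (fun _ => hd)
  have hUZ : U₁ ∪ ((U \ U₁) ∪ Z) = U ∪ Z := by
    rw [← union_assoc, union_sdiff_of_subset hU]
  have hZU : Z ⊆ Uᶜ := fun i hi => mem_compl.2 fun hi' => Finset.disjoint_left.1 hd hi' hi
  set Z₁ := (U \ U₁) ∪ Z with hZ₁
  have hZZ : Z ⊆ Z₁ := subset_union_right
  -- the entropy for `U₁`
  have e1 : AA (fun x : {x // x ∈ H} => rs U₁ x.1) (fun x : {x // x ∈ H} => rs U₁ᶜ x.1)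
      (fun x : {x // x ∈ H} => rs Z₁ x.1) n =
      hv H U (fun _ : Fin n => Z) (bs Z₁ ∪ univ.map Function.Embedding.inr) := by
    rw [hv_family hne U (fun _ : Fin n => Z) Z₁ (s := id) Function.injective_id (by
      intro v
      simp only [mem_union, mem_bs, mem_map, mem_univ, true_and]
      exact Iff.rfl)]
    unfold AA
    have hk : (fun _ : Fin n => fk fun x : {x // x ∈ H} => (rs U₁ x.1, rs Z₁ x.1)) =
        fun _ : Fin n => kz H U Z := by
      funext t
      exact kz_congr hUZ
    rw [hk]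
    refine ent_congr (isPr_jt fun _ => isKer_kz _ _) ?_ ?_
    · rintro ω ω' - - h
      simp only [Prod.mk.injEq] at h ⊢
      refine ⟨h.1, funext fun t => ?_⟩
      exact rs_of_subset (compl_subset_compl.2 hU) (congrFun h.2 t)
    · rintro ω ω' h1 h2 h
      simp only [Prod.mk.injEq] at h ⊢
      refine ⟨h.1, funext fun t => ?_⟩
      have e3 := jt_fk h1 (i := t) rfl
      have e4 := jt_fk h2 (i := t) rfl
      simp only [Prod.mk.injEq] at e3 e4
      have e5 := congrFun h.2 t
      rw [rs_eq_iff]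
      intro i hi
      by_cases hiU : i ∈ U
      · have e6 := rs_eq_iff.1 e3.1 i hiU
        have e7 := rs_eq_iff.1 e4.1 i hiU
        have e8 := rs_eq_iff.1 h.1 i (by
          rw [hZ₁, mem_union, mem_sdiff]
          exact Or.inl ⟨hiU, mem_compl.1 hi⟩)
        rw [e6, e7, e8]
      · exact rs_eq_iff.1 e5 i (mem_compl.2 hiU)
  have e2 : AA (fun x : {x // x ∈ H} => rs U x.1) (fun x : {x // x ∈ H} => rs Uᶜ x.1)
      (fun x : {x // x ∈ H} => rs Z x.1) n =
      hv H U (fun _ : Fin n => Z) (bs Z ∪ univ.map Function.Embedding.inr) := by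
    rw [hv_family hne U (fun _ : Fin n => Z) Z (s := id) Function.injective_id (by
      intro v
      simp only [mem_union, mem_bs, mem_map, mem_univ, true_and]
      exact Iff.rfl)]
    rfl
  have e3 := s.cond (S := bs Z) (T := bs Z₁) (univ.map Function.Embedding.inr) (bs_mono hZZ)
  rw [hv_bs hne, hv_bs hne] at e3
  unfold FU FF
  rw [e1, e2, h0_eq hne, h0_eq hne, hUZ]
  have e5 : ent (uni {x // x ∈ H}) (fun x : {x // x ∈ H} => rs Z x.1) = hS H Z := rfl
  have e6 : ent (uni {x // x ∈ H}) (fun x : {x // x ∈ H} => rs Z₁ x.1) = hS H Z₁ := rfl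
  rw [e5, e6]
  linarith

/-! ### the comb lemma -/

omit cs in
theorem hk_kr (hne : H.Nonempty) {U Y Z : Finset I} (hUY : Disjoint U Y) :
    hk (kr H U Y Z) (fun x => rs Uᶜ x.1) =
      hS H (U ∪ Y ∪ Z) - hS H (U ∪ Z) + (Real.log H.card - hS H (U ∪ Y)) := by
  have : Nonempty {x // x ∈ H} := hne.to_subtype
  have hYU : Y ⊆ Uᶜ := fun i hi => mem_compl.2 fun hi' => Finset.disjoint_left.1 hUY hi' hi
  unfold kr
  rw [hk_comp (isKer_kz U Z) (isKer_kz U Y) (stat_fk _)
    (fun x : {x // x ∈ H} => (rs U x.1, rs Y x.1)) (dep_fk_self _) (fun x => rs Uᶜ x.1) (by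
      intro x y z y' z' h1 h2 h3 h4 h5
      have g1 := fk_ne_zero h1
      have g2 := fk_ne_zero h2
      have g3 := fk_ne_zero h3
      have g4 := fk_ne_zero h4
      simp only [Prod.mk.injEq] at g1 g2 g3 g4 ⊢
      refine ⟨g1.1.trans g3.1.symm, ?_⟩
      rw [← g2.2, ← g4.2]
      exact rs_of_subset hYU h5)]
  unfold kz
  rw [hk_fk, hk_fk]
  congr 1
  · unfold cent hS
    congr 1
    · refine ent_congr isPr_uni ?_ ?_
      · rintro x y - - h
        simp only [Prod.mk.injEq] at h
        exact rs_union.2 ⟨rs_union.2 h.1, h.2.2⟩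
      · rintro x y - - h
        simp only [Prod.mk.injEq]
        obtain ⟨h1, h2⟩ := rs_union.1 h
        obtain ⟨h3, h4⟩ := rs_union.1 h1
        exact ⟨⟨h3, h4⟩, h3, h2⟩
    · refine ent_congr isPr_uni ?_ ?_
      · rintro x y - - h
        simp only [Prod.mk.injEq] at h
        exact rs_union.2 h
      · rintro x y - - h
        simp only [Prod.mk.injEq]
        exact rs_union.1 h
  · exact h0_eq hne U Y

omit cs in
theorem isKer_kap (U Y Z : Finset I) (q : ℕ) (t : Option (Fin q)) :
    IsKer ((fun t : Option (Fin q) => if t = none then kr H U Y Z else kz H U Z) t) := by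
  by_cases h : t = none
  · simp only [h, if_true]
    exact isKer_kr _ _ _
  · simp only [h, if_false]
    exact isKer_kz _ _

omit cs in
/-- The parameter `κ` of the comb lemma is `KU`. -/
theorem kap_eq (hne : H.Nonempty) {U Y Z : Finset I} (hUY : Disjoint U Y) (T : ι → Finset I)
    {q : ℕ} {a : ι} {b : Fin q → ι} (ha : T a = Y) (hb : ∀ t, T (b t) = Z)
    (hbi : Function.Injective b) (hab : ∀ t, b t ≠ a) :
    hv H U T (bs Z ∪ univ.image (fun t => Sum.inr (b t)) ∪ {Sum.inr a}) -
      hv H U T (bs Z ∪ univ.image (fun t => Sum.inr (b t))) -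
      (hS H (U ∪ (Y ∪ Z)) - hS H (U ∪ Z)) - (Real.log H.card - hS H (U ∪ Y)) =
    KU H U Y Z q := by
  have : Nonempty {x // x ∈ H} := hne.to_subtype
  unfold KU cent
  rw [hk_kr hne hUY, ← union_assoc]
  have e1 : hv H U T (bs Z ∪ univ.image (fun t => Sum.inr (b t))) =
      ent (jt fun t : Option (Fin q) => if t = none then kr H U Y Z else kz H U Z)
        (fun ω => (rs Z ω.1.1, fun t : Fin q => rs Uᶜ (ω.2 (some t)).1)) := by
    rw [hv_family hne U T Z (s := b) hbi (by
      intro v
      simp only [mem_union, mem_bs, mem_image, mem_univ, true_and])]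
    exact ent_jt_marg (fun _ => isKer_kz _ _) (isKer_kap U Y Z q) (s := id) (s' := some)
      Function.injective_id (Option.some_injective _) (fun t => by simp [hb])
      fun x e => (rs Z x.1, fun t => rs Uᶜ (e t).1)
  have e2 : hv H U T (bs Z ∪ univ.image (fun t => Sum.inr (b t)) ∪ {Sum.inr a}) =
      ent (jt fun t : Option (Fin q) => if t = none then kr H U Y Z else kz H U Z)
        (fun ω => (rs Uᶜ (ω.2 none).1,
          (rs Z ω.1.1, fun t : Fin q => rs Uᶜ (ω.2 (some t)).1))) := by
    rw [hv_family hne U T Z (s := fun t : Option (Fin q) => t.elim a b) (by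
      intro t t' h
      rcases t with _ | t <;> rcases t' with _ | t'
      · rfl
      · exact absurd h.symm (hab t')
      · exact absurd h (hab t)
      · exact congrArg some (hbi h)) (by
      intro v
      simp only [mem_union, mem_bs, mem_image, mem_univ, true_and, mem_singleton]
      constructor
      · rintro ((h | ⟨t, rfl⟩) | rfl)
        · exact Or.inl h
        · exact Or.inr ⟨some t, rfl⟩
        · exact Or.inr ⟨none, rfl⟩
      · rintro (h | ⟨_ | t, rfl⟩)
        · exact Or.inl (Or.inl h)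
        · exact Or.inr rfl
        · exact Or.inl (Or.inr ⟨t, rfl⟩))]
    have e3 := ent_jt_eq
      (κ := fun t : Option (Fin q) => kz H U (T (t.elim a b)))
      (κ' := fun t : Option (Fin q) => if t = none then kr H U Y Z else kz H U Z)
      (fun _ => isKer_kz _ _) (isKer_kap U Y Z q) (s := id) (s' := id)
      Function.injective_id Function.injective_id
      (fun x : {x // x ∈ H} => (rs U x.1, rs Z x.1)) none (by
        intro t ht
        obtain ⟨t, rfl⟩ := Option.ne_none_iff_exists'.1 ht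
        simp [hb]) (by
        intro t ht
        obtain ⟨t, rfl⟩ := Option.ne_none_iff_exists'.1 ht
        simp only [id, Option.elim, hb]
        exact dep_fk_self _) (by
        simp only [id, if_true, Option.elim, ha]
        rfl)
      (fun x e => (rs Z x.1, fun t => rs Uᶜ (e t).1)) (by
        intro x x' e h
        exact Prod.ext (Prod.mk.inj h).2 rfl)
    simp only [id] at e3
    rw [e3]
    refine ent_congr (isPr_jt (isKer_kap U Y Z q)) ?_ ?_
    · rintro ω ω' - - h
      simp only [Prod.mk.injEq] at h ⊢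
      exact ⟨congrFun h.2 none, h.1, funext fun t => congrFun h.2 (some t)⟩
    · rintro ω ω' - - h
      simp only [Prod.mk.injEq] at h ⊢
      refine ⟨h.2.1, funext fun t => ?_⟩
      rcases t with _ | t
      · exact h.1
      · exact congrFun h.2.2 t
  rw [e1, e2]
  ring

/-- The comb lemma; `lev j = ζ 0 ∪ … ∪ ζ j`. -/
theorem FU_comb_of (hne : H.Nonempty) {U : Finset I} {ζ : ℕ → Finset I} {K N q n₀ : ℕ} (hN : 0 < N)
    (hd : ∀ j ≤ K, Disjoint U (ζ j)) :
    ∑ j ∈ Finset.range K, KU H U ((Finset.range (j + 1)).biUnion ζ) (ζ (j + 1)) q ≤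
      FU H U (ζ 0) n₀ + (K + 1) * (FU H U (ζ 0) (n₀ + 1) - FU H U (ζ 0) n₀) +
      ∑ j ∈ Finset.range K, ∑ l ∈ Finset.Ioc j K,
        (FU H U (ζ (j + 1)) (q + 1) - FU H U (ζ (j + 1)) q -
          (FU H U ((Finset.range (l + 1)).biUnion ζ) N -
            dS H (U ∪ (Finset.range (K + 1)).biUnion ζ) - (q + K + 1) * dS H univ) / N) := by
  have hdl : ∀ j ≤ K, Disjoint U ((Finset.range (j + 1)).biUnion ζ) := by
    intro j hj
    rw [Finset.disjoint_biUnion_right]
    intro i hi
    exact hd i (by rw [mem_range] at hi; omega)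
  have hff : ∀ j ≤ K, (Fin.ofNat (K + 1) j).val = j := fun j hj =>
    Nat.mod_eq_of_lt (by omega)
  have hffi : ∀ i ≤ K, ∀ j ≤ K, i ≠ j → Fin.ofNat (K + 1) i ≠ Fin.ofNat (K + 1) j := by
    intro i hi j hj hij h
    apply hij
    rw [← hff i hi, ← hff j hj, h]
  set T : (Fin (K + 1) × Fin N) ⊕ ((Fin (K + 1) × Fin q) ⊕ Fin n₀) → Finset I :=
    Sum.elim (fun a => (Finset.range (a.1.val + 1)).biUnion ζ)
      (Sum.elim (fun a => ζ a.1.val) (fun _ => ζ 0)) with hT
  have s := cs U _ T (by
    intro j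
    rcases j with a | a | a
    · exact hdl _ (by have := a.1.2; omega)
    · exact hd _ (by have := a.1.2; omega)
    · exact hd 0 (Nat.zero_le _))
  set ζ' : ℕ → Finset (I ⊕ ((Fin (K + 1) × Fin N) ⊕ ((Fin (K + 1) × Fin q) ⊕ Fin n₀))) :=
    fun j => bs (ζ j) with hζ'
  set c : ℕ → I ⊕ ((Fin (K + 1) × Fin N) ⊕ ((Fin (K + 1) × Fin q) ⊕ Fin n₀)) :=
    fun i => Sum.inr (Sum.inl (Fin.ofNat (K + 1) i, ⟨0, hN⟩)) with hc
  set C : ℕ → Finset (I ⊕ ((Fin (K + 1) × Fin N) ⊕ ((Fin (K + 1) × Fin q) ⊕ Fin n₀))) :=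
    fun i => univ.image fun t : Fin N => Sum.inr (Sum.inl (Fin.ofNat (K + 1) i, t)) with hC
  set R : ℕ → Finset (I ⊕ ((Fin (K + 1) × Fin N) ⊕ ((Fin (K + 1) × Fin q) ⊕ Fin n₀))) :=
    fun i => univ.image fun t : Fin q => Sum.inr (Sum.inr (Sum.inl (Fin.ofNat (K + 1) i, t)))
    with hR
  set R₀ : Finset (I ⊕ ((Fin (K + 1) × Fin N) ⊕ ((Fin (K + 1) × Fin q) ⊕ Fin n₀))) :=
    univ.image fun t : Fin n₀ => Sum.inr (Sum.inr (Sum.inr t)) with hR₀
  have hlev : ∀ i, CopySys.lev ζ' i = bs ((range (i + 1)).biUnion ζ) := fun i => lev_bs ζ i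
  have d : CopySys.CombData ζ' isCp (tyv T) K N q n₀ c C R R₀ := by
    refine ⟨?_, ?_, ?_, ?_, ?_, ?_, ?_, ?_, ?_, ?_⟩
    · intro i hi x hx
      simp only [hC, mem_image, mem_univ, true_and] at hx
      obtain ⟨t, rfl⟩ := hx
      refine ⟨rfl, ?_⟩
      rw [hlev]
      show bs ((Finset.range ((Fin.ofNat (K + 1) i).val + 1)).biUnion ζ) = _
      rw [hff i hi]
    · intro i hi
      simp only [hC, hc, mem_image, mem_univ, true_and]
      exact ⟨_, rfl⟩
    · intro i hi
      simp only [hC]
      rw [card_image_of_injective _ (fun a b h => by simpa using h), card_univ,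
        Fintype.card_fin]
    · intro i hi x hx
      simp only [hR, mem_image, mem_univ, true_and] at hx
      obtain ⟨t, rfl⟩ := hx
      refine ⟨rfl, ?_⟩
      show bs (ζ (Fin.ofNat (K + 1) i).val) = _
      rw [hff i hi]
    · intro i hi
      simp only [hR]
      rw [card_image_of_injective _ (fun a b h => by simpa using h), card_univ,
        Fintype.card_fin]
    · intro x hx
      simp only [hR₀, mem_image, mem_univ, true_and] at hx
      obtain ⟨t, rfl⟩ := hx
      exact ⟨rfl, rfl⟩
    · simp only [hR₀]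
      rw [card_image_of_injective _ (fun a b h => by simpa using h), card_univ,
        Fintype.card_fin]
    · intro i hi j hj hij
      rw [Finset.disjoint_left]
      intro x hx hx'
      simp only [hC, mem_image, mem_univ, true_and] at hx hx'
      obtain ⟨t, rfl⟩ := hx
      obtain ⟨t', ht'⟩ := hx'
      simp only [Sum.inr.injEq, Sum.inl.injEq, Prod.mk.injEq] at ht'
      exact hffi j hj i hi (fun h => hij h.symm) ht'.1
    · intro i hi j hj
      rw [Finset.disjoint_left]
      intro x hx hx'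
      simp only [hC, hR, mem_image, mem_univ, true_and] at hx hx'
      obtain ⟨t, rfl⟩ := hx
      obtain ⟨t', ht'⟩ := hx'
      simp at ht'
    · intro i hi
      rw [Finset.disjoint_left]
      intro x hx hx'
      simp only [hC, hR₀, mem_image, mem_univ, true_and] at hx hx'
      obtain ⟨t, rfl⟩ := hx
      obtain ⟨t', ht'⟩ := hx'
      simp at ht'
  have key := s.comb d hN (D := dS H univ)
    (ε := dS H (U ∪ (Finset.range (K + 1)).biUnion ζ)) (dS_nonneg hne _)
    (by
      intro i hi
      rw [hζ']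
      simp only
      rw [F_eq hne]
      exact FU_one_le hne (hd i hi))
    (by
      intro i hi
      rw [hlev, F_eq hne]
      exact FU_one_le hne (hdl i hi))
    (by
      rw [hlev, ← bs_union, hv_bs hne, hv_bs hne, hv_bs hne]
      have e1 := dS_nonneg hne U
      have e2 := dS_nonneg hne ((Finset.range (K + 1)).biUnion ζ)
      unfold dS at *
      rw [card_union_of_disjoint (hdl K le_rfl)]
      push_cast
      linarith)
  have hkap : ∀ j ∈ range K, CopySys.kap (hv H U T) (bs U) (Real.log H.card) ζ' c R j =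
      KU H U ((Finset.range (j + 1)).biUnion ζ) (ζ (j + 1)) q := by
    intro j hj
    rw [mem_range] at hj
    rw [← kap_eq hne (hdl j (by omega)) T (a := Sum.inl (Fin.ofNat (K + 1) j, ⟨0, hN⟩))
      (b := fun t => Sum.inr (Sum.inl (Fin.ofNat (K + 1) (j + 1), t)))
      (by
        show (Finset.range ((Fin.ofNat (K + 1) j).val + 1)).biUnion ζ = _
        rw [hff j (by omega)])
      (by
        intro t
        show ζ (Fin.ofNat (K + 1) (j + 1)).val = _
        rw [hff (j + 1) (by omega)])
      (fun a b h => by simpa using h) (by simp)]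
    unfold CopySys.kap CopySys.h0
    rw [hlev, hlev, hζ']
    simp only
    rw [← bs_union, ← bs_union, ← bs_union, hv_bs hne, hv_bs hne, hv_bs hne]
    have e1 : (Finset.range (j + 1 + 1)).biUnion ζ =
        (Finset.range (j + 1)).biUnion ζ ∪ ζ (j + 1) := by
      rw [Finset.range_add_one, Finset.biUnion_insert, union_comm]
    rw [e1]
  rw [Finset.sum_congr rfl hkap] at key
  simp only [hlev] at key
  rw [hζ'] at key
  simp only [F_eq hne, dF_eq' hne] at key
  exact key

end

end RFold
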