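import Pool.Agent.Lib.MP_3581cd_co.Heavy

namespace RFold

open Finset

theorem ind_mul_self {I : Type} [Fintype I] [DecidableEq I] {m : ℕ} (H : Finset (I → Fin m))
    (i : I) (x : Fin m) (u : I → Fin m) : ind H i x u * ind H i x u = ind H i x u := by
  unfold ind; split_ifs <;> norm_num

/-- Bonferroni-type bound for the points using heavy values. -/
theorem heavy_total {k m : ℕ} (H : Finset (Fin k → Fin m)) (Hv : Finset (Fin k × Fin m)) (T : ℝ)
    (hT : 0 ≤ T)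
    (h : ∀ p ∈ Hv, ∀ q ∈ Hv, p ≠ q → ∑ u, ind H p.1 p.2 u * ind H q.1 q.2 u ≤ T) :
    m * ∑ p ∈ Hv, ((H.filter fun z => z p.1 = p.2).card : ℝ) ≤ (m : ℝ) ^ k + (Hv.card : ℝ) ^ 2 * T := by
  have h1 : (m : ℝ) * ∑ p ∈ Hv, ((H.filter fun z => z p.1 = p.2).card : ℝ)
      = ∑ u, ∑ p ∈ Hv, ind H p.1 p.2 u := by
    rw [sum_comm, mul_sum]
    apply sum_congr rfl
    intro p _
    rw [sum_ind]
  rw [h1]
  have h2 : ∀ u : Fin k → Fin m, ∑ p ∈ Hv, ind H p.1 p.2 u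
      ≤ 1 + ∑ p ∈ Hv, ∑ q ∈ Hv.erase p, ind H p.1 p.2 u * ind H q.1 q.2 u := by
    intro u
    set S := ∑ p ∈ Hv, ind H p.1 p.2 u with hS
    have h3 : S * S = S + ∑ p ∈ Hv, ∑ q ∈ Hv.erase p, ind H p.1 p.2 u * ind H q.1 q.2 u := by
      rw [hS, sum_mul_sum, ← sum_add_distrib]
      apply sum_congr rfl
      intro p hp
      rw [← add_sum_erase Hv _ hp, ind_mul_self]
    nlinarith [sq_nonneg (S - 1)]
  calc ∑ u, ∑ p ∈ Hv, ind H p.1 p.2 u
      ≤ ∑ u : Fin k → Fin m,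
        (1 + ∑ p ∈ Hv, ∑ q ∈ Hv.erase p, ind H p.1 p.2 u * ind H q.1 q.2 u) :=
        sum_le_sum (fun u _ => h2 u)
    _ = (m : ℝ) ^ k + ∑ p ∈ Hv, ∑ q ∈ Hv.erase p, ∑ u, ind H p.1 p.2 u * ind H q.1 q.2 u := by
        rw [sum_add_distrib]
        congr 1
        · simp
        · rw [sum_comm]
          apply sum_congr rfl
          intro p _
          rw [sum_comm]
    _ ≤ (m : ℝ) ^ k + ∑ p ∈ Hv, ∑ q ∈ Hv.erase p, T := by
        apply add_le_add le_rfl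
        apply sum_le_sum
        intro p hp
        apply sum_le_sum
        intro q hq
        exact h p hp q (mem_of_mem_erase hq) (ne_of_mem_erase hq).symm
    _ ≤ (m : ℝ) ^ k + ∑ p ∈ Hv, ∑ q ∈ Hv, T := by
        apply add_le_add le_rfl
        apply sum_le_sum
        intro p hp
        exact sum_le_sum_of_subset_of_nonneg (erase_subset _ _) (fun _ _ _ => hT)
    _ = _ := by
        simp only [sum_const, nsmul_eq_mul]
        ring

theorem sum_slices {k m : ℕ} (H : Finset (Fin k → Fin m)) (i : Fin k) :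
    ∑ x : Fin m, ((H.filter fun z => z i = x).card : ℝ) = H.card := by
  have := card_eq_sum_card_fiberwise (s := H) (t := (univ : Finset (Fin m))) (f := fun z => z i)
    (fun _ _ => mem_coe.mpr (mem_univ _))
  rw [this]
  push_cast
  rfl

theorem partite_main (β : ℕ) (hB : ThmB (β + 2)) (ε : ℝ) (hε : 0 < ε) :
    ∃ k₀ : ℕ, ∀ k : ℕ, k₀ ≤ k → ∃ m₀ : ℕ, ∀ m : ℕ, m₀ ≤ m → ∀ H : Finset (Fin k → Fin m),
      (1 + ε) * (m : ℝ) ^ (k - 1) ≤ H.card → HasBox (β + 2) H := by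
  set η' : ℝ := (1 / 2) ^ (β + 2) with hη'
  have hη'pos : 0 < η' := by positivity
  obtain ⟨K₀, M, hM⟩ := hB 2 (η' / 16) (by positivity)
  refine ⟨max K₀ (β + 3), ?_⟩
  intro k hk
  have hk1 : K₀ ≤ k := le_trans (le_max_left _ _) hk
  have hk2 : β + 3 ≤ k := le_trans (le_max_right _ _) hk
  have hηlt : η' < (1 / 2) ^ β := by
    rw [hη']
    apply pow_lt_pow_right_of_lt_one₀ <;> norm_num
  obtain ⟨M1, hM1⟩ := box_of_same (β := β) hηlt (K := k) (by omega)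
  obtain ⟨M2, hM2⟩ := box_of_diff (β := β) (K := k) hk2
  obtain ⟨M3, hM3, hM3'⟩ := exists_rpow_gt (y := η' - 2 * (η' / 8)) (by linarith)
    ((k * (2 + ε)) ^ 2 * (2 / ε))
  obtain ⟨M4, hM4, hM4'⟩ := exists_rpow_gt (y := η' / 8 - η' / 16) (by linarith) (2 / ε)
  obtain ⟨M5, hM5, hM5'⟩ := exists_rpow_gt (y := 1) one_pos (2 / ε)
  refine ⟨max (max (max (M k) M1) (max M2 M3)) (max M4 M5), ?_⟩
  intro m hm H hH
  have hmM : M k ≤ m := le_trans (le_trans (le_max_left _ _) (le_trans (le_max_left _ _) (le_max_left _ _))) hm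
  have hm1 : M1 ≤ m := le_trans (le_trans (le_max_right _ _) (le_trans (le_max_left _ _) (le_max_left _ _))) hm
  have hm2 : M2 ≤ m := le_trans (le_trans (le_max_left _ _) (le_trans (le_max_right _ _) (le_max_left _ _))) hm
  have hm3 : M3 ≤ m := le_trans (le_trans (le_max_right _ _) (le_trans (le_max_right _ _) (le_max_left _ _))) hm
  have hm4 : M4 ≤ m := le_trans (le_trans (le_max_left _ _) (le_max_right _ _)) hm
  have hm5 : M5 ≤ m := le_trans (le_trans (le_max_right _ _) (le_max_right _ _)) hm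
  have hmone : 1 ≤ m := hM3.trans hm3
  have hmpos : (0 : ℝ) < m := by exact_mod_cast hmone
  have hmone' : (1 : ℝ) ≤ m := by exact_mod_cast hmone
  have hmk1 : (1 : ℝ) ≤ (m : ℝ) ^ (k - 1) := one_le_pow₀ hmone'
  have hksub : ((k - 1 : ℕ) : ℝ) = (k : ℝ) - 1 := by
    have : (1 : ℕ) ≤ k := by omega
    push_cast [this]; ring
  by_contra hno
  -- restrict to a subset of controlled size
  obtain ⟨H0, hH0sub, hH0card⟩ := exists_subset_card_eq
    (show ⌈(1 + ε) * (m : ℝ) ^ (k - 1)⌉₊ ≤ H.card from Nat.ceil_le.mpr hH)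
  have hno0 : ¬ HasBox (β + 2) H0 := fun h => hno (h.mono hH0sub)
  have hlow : (1 + ε) * (m : ℝ) ^ (k - 1) ≤ H0.card := by
    rw [hH0card]; exact Nat.le_ceil _
  have hupp : (H0.card : ℝ) ≤ (2 + ε) * (m : ℝ) ^ (k - 1) := by
    rw [hH0card]
    have := Nat.ceil_lt_add_one (show 0 ≤ (1 + ε) * (m : ℝ) ^ (k - 1) by positivity)
    nlinarith
  let Hv : Finset (Fin k × Fin m) := univ.filter fun p =>
    (m : ℝ) ^ (((k - 1 : ℕ) : ℝ) - η' / 8) ≤ ((H0.filter fun z => z p.1 = p.2).card : ℝ)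
  set A : ℝ := ∑ p ∈ Hv, ((H0.filter fun z => z p.1 = p.2).card : ℝ) with hA
  -- number of heavy pairs
  have hmke : (m : ℝ) ^ (((k - 1 : ℕ) : ℝ) - η' / 8) * (m : ℝ) ^ (η' / 8) = (m : ℝ) ^ (k - 1) := by
    rw [← Real.rpow_add hmpos, ← Real.rpow_natCast (m : ℝ) (k - 1)]
    congr 1
    ring
  have hTh : 0 < (m : ℝ) ^ (((k - 1 : ℕ) : ℝ) - η' / 8) := Real.rpow_pos_of_pos hmpos _
  have hHv : (Hv.card : ℝ) ≤ k * (2 + ε) * (m : ℝ) ^ (η' / 8) := by
    have h1 : (Hv.card : ℝ) * (m : ℝ) ^ (((k - 1 : ℕ) : ℝ) - η' / 8) ≤ k * H0.card := by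
      calc (Hv.card : ℝ) * (m : ℝ) ^ (((k - 1 : ℕ) : ℝ) - η' / 8)
          = ∑ p ∈ Hv, (m : ℝ) ^ (((k - 1 : ℕ) : ℝ) - η' / 8) := by
            rw [sum_const, nsmul_eq_mul]
        _ ≤ ∑ p ∈ Hv, ((H0.filter fun z => z p.1 = p.2).card : ℝ) :=
            sum_le_sum (fun p hp => (mem_filter.mp hp).2)
        _ ≤ ∑ p : Fin k × Fin m, ((H0.filter fun z => z p.1 = p.2).card : ℝ) :=
            sum_le_sum_of_subset_of_nonneg (subset_univ _) (fun _ _ _ => by positivity)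
        _ = ∑ i : Fin k, ∑ x : Fin m, ((H0.filter fun z => z i = x).card : ℝ) :=
            Fintype.sum_prod_type _
        _ = k * H0.card := by
            simp only [sum_slices]
            simp
    have h2 : (k : ℝ) * H0.card ≤ k * ((2 + ε) * (m : ℝ) ^ (k - 1)) :=
      mul_le_mul_of_nonneg_left hupp (by positivity)
    have h3 : (Hv.card : ℝ) * (m : ℝ) ^ (((k - 1 : ℕ) : ℝ) - η' / 8)
        ≤ (k * (2 + ε) * (m : ℝ) ^ (η' / 8)) * (m : ℝ) ^ (((k - 1 : ℕ) : ℝ) - η' / 8) := by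
      refine h1.trans (h2.trans (le_of_eq ?_))
      rw [← hmke]
      ring
    exact le_of_mul_le_mul_right h3 hTh
  -- pairs of heavy values
  have hpair : ∀ p ∈ Hv, ∀ q ∈ Hv, p ≠ q → ∑ u, ind H0 p.1 p.2 u * ind H0 q.1 q.2 u
      ≤ (m : ℝ) ^ ((k : ℝ) - η') := by
    intro p _ q _ hpq
    by_contra hcon
    push Not at hcon
    apply hno0
    rcases p with ⟨i, x⟩
    rcases q with ⟨j, y⟩
    by_cases hij : i = j
    · subst hij
      have hxy : x ≠ y := fun h => hpq (by rw [h])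
      exact hM1 m hm1 (Fin k) (Fintype.card_fin k) H0 i x y hxy hcon.le
    · exact hM2 m hm2 (Fin k) (Fintype.card_fin k) H0 i j x y hij hcon.le
  have hA1 := heavy_total H0 Hv ((m : ℝ) ^ ((k : ℝ) - η')) (Real.rpow_nonneg hmpos.le _) hpair
  have hA2 : (Hv.card : ℝ) ^ 2 * (m : ℝ) ^ ((k : ℝ) - η') ≤ ε / 2 * (m : ℝ) ^ k := by
    have h1 : (Hv.card : ℝ) ^ 2 ≤ (k * (2 + ε)) ^ 2 * (m : ℝ) ^ (2 * (η' / 8)) := by
      have : (k * (2 + ε)) ^ 2 * (m : ℝ) ^ (2 * (η' / 8)) = (k * (2 + ε) * (m : ℝ) ^ (η' / 8)) ^ 2 := by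
        rw [mul_pow ((k : ℝ) * (2 + ε)), ← Real.rpow_natCast ((m : ℝ) ^ (η' / 8)) 2,
          ← Real.rpow_mul hmpos.le]
        congr 2
        push_cast
        ring
      rw [this]
      exact pow_le_pow_left₀ (by positivity) hHv 2
    have h2 : (m : ℝ) ^ (2 * (η' / 8)) * (m : ℝ) ^ ((k : ℝ) - η') * (m : ℝ) ^ (η' - 2 * (η' / 8))
        = (m : ℝ) ^ k := by
      rw [← Real.rpow_add hmpos, ← Real.rpow_add hmpos, ← Real.rpow_natCast (m : ℝ) k]
      congr 1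
      ring
    have h3 := hM3' m hm3
    have h4 : 0 < (m : ℝ) ^ (2 * (η' / 8)) * (m : ℝ) ^ ((k : ℝ) - η') :=
      mul_pos (Real.rpow_pos_of_pos hmpos _) (Real.rpow_pos_of_pos hmpos _)
    have h5 : (k * (2 + ε)) ^ 2 ≤ ε / 2 * (m : ℝ) ^ (η' - 2 * (η' / 8)) := by
      have : (k * (2 + ε)) ^ 2 = ε / 2 * ((k * (2 + ε)) ^ 2 * (2 / ε)) := by
        field_simp
      rw [this]
      exact mul_le_mul_of_nonneg_left h3.le (by positivity)
    calc (Hv.card : ℝ) ^ 2 * (m : ℝ) ^ ((k : ℝ) - η')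
        ≤ ((k * (2 + ε)) ^ 2 * (m : ℝ) ^ (2 * (η' / 8))) * (m : ℝ) ^ ((k : ℝ) - η') :=
          mul_le_mul_of_nonneg_right h1 (Real.rpow_nonneg hmpos.le _)
      _ = (k * (2 + ε)) ^ 2 * ((m : ℝ) ^ (2 * (η' / 8)) * (m : ℝ) ^ ((k : ℝ) - η')) := by ring
      _ ≤ (ε / 2 * (m : ℝ) ^ (η' - 2 * (η' / 8))) *
            ((m : ℝ) ^ (2 * (η' / 8)) * (m : ℝ) ^ ((k : ℝ) - η')) :=
          mul_le_mul_of_nonneg_right h5 h4.le
      _ = ε / 2 * (m : ℝ) ^ k := by rw [← h2]; ring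
  have hmk : (m : ℝ) ^ k = m * (m : ℝ) ^ (k - 1) := by
    rw [← pow_succ']
    congr 1
    omega
  have hA3 : A ≤ (1 + ε / 2) * (m : ℝ) ^ (k - 1) := by
    have h1 : (m : ℝ) * A ≤ m * ((1 + ε / 2) * (m : ℝ) ^ (k - 1)) := by
      calc (m : ℝ) * A ≤ (m : ℝ) ^ k + ε / 2 * (m : ℝ) ^ k := by linarith
        _ = _ := by rw [hmk]; ring
    exact le_of_mul_le_mul_left h1 hmpos
  -- the light part
  let H' : Finset (Fin k → Fin m) := H0.filter fun z => ∀ i, (i, z i) ∉ Hv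
  have hH'1 : (H0.card : ℝ) ≤ H'.card + A := by
    have h1 : H0 ⊆ H' ∪ Hv.biUnion (fun p => H0.filter fun z => z p.1 = p.2) := by
      intro z hz
      rw [mem_union]
      by_cases hz' : ∀ i, (i, z i) ∉ Hv
      · exact Or.inl (mem_filter.mpr ⟨hz, hz'⟩)
      · right
        push Not at hz'
        obtain ⟨i, hi⟩ := hz'
        rw [mem_biUnion]
        exact ⟨(i, z i), hi, mem_filter.mpr ⟨hz, rfl⟩⟩
    have h2 := (card_le_card h1).trans (card_union_le _ _)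
    have h3 : (Hv.biUnion (fun p => H0.filter fun z => z p.1 = p.2)).card
        ≤ ∑ p ∈ Hv, (H0.filter fun z => z p.1 = p.2).card := card_biUnion_le
    have h4 : H0.card ≤ H'.card + ∑ p ∈ Hv, (H0.filter fun z => z p.1 = p.2).card := by omega
    rw [hA]
    exact_mod_cast h4
  have hH'2 : ε / 2 * (m : ℝ) ^ (k - 1) ≤ H'.card := by linarith
  apply hno0
  apply HasBox.mono (filter_subset _ _ : H' ⊆ H0)
  apply hM (Fin k) (by simpa using hk1) m (by simpa using hmM)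
  · -- spread
    intro i v
    have hH'nn : (0 : ℝ) ≤ (m : ℝ) ^ (-(η' / 16)) * H'.card :=
      mul_nonneg (Real.rpow_nonneg hmpos.le _) (by positivity)
    by_cases hiv : (i, v) ∈ Hv
    · have : H'.filter (fun x => x i = v) = ∅ := by
        apply filter_eq_empty_iff.mpr
        intro z hz hzi
        exact (mem_filter.mp hz).2 i (hzi ▸ hiv)
      rw [this]
      simpa using hH'nn
    · have h1 : ((H0.filter fun z => z i = v).card : ℝ) < (m : ℝ) ^ (((k - 1 : ℕ) : ℝ) - η' / 8) := by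
        by_contra hcon
        push Not at hcon
        exact hiv (mem_filter.mpr ⟨mem_univ _, hcon⟩)
      have h2 : ((H'.filter fun z => z i = v).card : ℝ) ≤ ((H0.filter fun z => z i = v).card : ℝ) := by
        exact_mod_cast card_le_card (filter_subset_filter _ (filter_subset _ _))
      refine h2.trans (h1.le.trans ?_)
      have h3 := hM4' m hm4
      have h4 : (m : ℝ) ^ (((k - 1 : ℕ) : ℝ) - η' / 8) * (m : ℝ) ^ (η' / 8 - η' / 16)
          = (m : ℝ) ^ (-(η' / 16)) * (m : ℝ) ^ (k - 1) := by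
        rw [← Real.rpow_add hmpos, ← Real.rpow_natCast (m : ℝ) (k - 1), ← Real.rpow_add hmpos]
        congr 1
        ring
      calc (m : ℝ) ^ (((k - 1 : ℕ) : ℝ) - η' / 8)
          = ε / 2 * ((m : ℝ) ^ (((k - 1 : ℕ) : ℝ) - η' / 8) * (2 / ε)) := by field_simp
        _ ≤ ε / 2 * ((m : ℝ) ^ (((k - 1 : ℕ) : ℝ) - η' / 8) * (m : ℝ) ^ (η' / 8 - η' / 16)) := by
            apply mul_le_mul_of_nonneg_left _ (by positivity)
            exact mul_le_mul_of_nonneg_left h3.le hTh.le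
        _ = (m : ℝ) ^ (-(η' / 16)) * (ε / 2 * (m : ℝ) ^ (k - 1)) := by rw [h4]; ring
        _ ≤ (m : ℝ) ^ (-(η' / 16)) * H'.card :=
            mul_le_mul_of_nonneg_left hH'2 (Real.rpow_nonneg hmpos.le _)
  · rw [Fintype.card_fin]
    refine le_trans ?_ hH'2
    have h3 := hM5' m hm5
    rw [Real.rpow_one] at h3
    have h4 : (m : ℝ) ^ ((k : ℝ) - 2) * m = (m : ℝ) ^ (k - 1) := by
      nth_rewrite 2 [← Real.rpow_one (m : ℝ)]
      rw [← Real.rpow_natCast (m : ℝ) (k - 1), ← Real.rpow_add hmpos, hksub]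
      congr 1
      ring
    have h5 : 0 < (m : ℝ) ^ ((k : ℝ) - 2) := Real.rpow_pos_of_pos hmpos _
    calc (m : ℝ) ^ ((k : ℝ) - 2) = ε / 2 * ((m : ℝ) ^ ((k : ℝ) - 2) * (2 / ε)) := by field_simp
      _ ≤ ε / 2 * ((m : ℝ) ^ ((k : ℝ) - 2) * m) := by
          apply mul_le_mul_of_nonneg_left _ (by positivity)
          exact mul_le_mul_of_nonneg_left h3.le h5.le
      _ = _ := by rw [h4]

end RFold
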