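import Pool.Agent.Lib.MP_3581cd_co.Fresh

/-!
# MP_3581cd_co, section 3: the setting

`X : Ω → I → V` are the coordinates of the points, `w` is (equivalent to) the restriction to `U`, `o` is the outer
part, `y, z` are functions of `o`.
-/

namespace RFold

open Finset

set_option linter.unusedSectionVars false

section Cps

variable {Ω : Type*} {J O α β : Type*} {p : Ω × (J → Ω) → ℝ}

/-- The outer parts of the copies with index in `T`. -/
def cps (o : Ω → O) (T : Finset J) (ω : Ω × (J → Ω)) : {t // t ∈ T} → O := fun t => o (ω.2 t.1)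

theorem Det.to_cps {o : Ω → O} {T : Finset J} {f : Ω × (J → Ω) → α}
    (h : ∀ t ∈ T, Det p f (fun ω => o (ω.2 t))) : Det p f (cps o T) :=
  fun ω ω' a b e => funext fun t => h t.1 t.2 ω ω' a b e

theorem cps_apply {o : Ω → O} {T : Finset J} {t : J} (ht : t ∈ T) :
    Det p (cps o T) (fun ω => o (ω.2 t)) := fun _ _ _ _ e => congrFun e ⟨t, ht⟩

theorem cps_mono {o : Ω → O} {T T' : Finset J} (h : T ⊆ T') : Det p (cps o T') (cps o T) :=
  Det.to_cps fun _ ht => cps_apply (h ht)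

theorem cps_insert [DecidableEq J] {o : Ω → O} {T : Finset J} {j : J} :
    Det p (fun ω => (o (ω.2 j), cps o T ω)) (cps o (insert j T)) :=
  Det.to_cps fun t ht => by
    rcases Finset.mem_insert.1 ht with rfl | h
    · exact Det.fst (Det.refl _)
    · exact Det.snd (cps_apply h)

theorem cps_update [DecidableEq J] (o : Ω → O) {T : Finset J} {j : J} (hj : j ∉ T) (x : Ω)
    (e : J → Ω) (v : Ω) : cps o T (x, Function.update e j v) = cps o T (x, e) := by
  funext t
  have : t.1 ≠ j := fun h => hj (h ▸ t.2)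
  simp [cps, Function.update_of_ne this]

end Cps

section Coord

variable {Ω : Type*} [Fintype Ω] {p : Ω → ℝ} {I V F G : Type*} [Fintype V]

/-- A function of the coordinates in `S` has entropy at most `|S| log |V|`. -/
theorem ent_coord_le (hp : IsPr p) (X : Ω → I → V) (S : Finset I) (f : Ω → F)
    (hf : Det p (fun ω (u : {u // u ∈ S}) => X ω u.1) f) :
    ent p f ≤ S.card * Real.log (Fintype.card V) := by
  classical
  refine (ent_mono hp hf).trans ((ent_le_log_card' hp _).trans (le_of_eq ?_))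
  rw [Fintype.card_fun, Fintype.card_coe]
  push_cast
  rw [Real.log_pow]

/-- `H(w | g) ≤ ∑_{u ∈ S} H(X_u | g)`. -/
theorem cent_coord_le (hp : IsPr p) (X : Ω → I → V) (S : Finset I) (f : Ω → F) (g : Ω → G)
    (hf : Det p (fun ω (u : {u // u ∈ S}) => X ω u.1) f) :
    cent p f g ≤ ∑ u ∈ S, cent p (fun ω => X ω u) g := by
  classical
  have h1 := cent_mono hp (f := f) (f' := fun ω (u : {u // u ∈ S}) => X ω u.1) (g := g) (g' := g)
    (Det.fst hf) (Det.refl g)
  have h2 := cent_family_le hp g (fun (u : {u // u ∈ S}) ω => X ω u.1)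
  have h3 : ∑ u : {u // u ∈ S}, cent p (fun ω => X ω u.1) g =
      ∑ u ∈ S, cent p (fun ω => X ω u) g :=
    Finset.sum_coe_sort S fun u => cent p (fun ω => X ω u) g
  linarith

/-- Each coordinate has entropy at most `log |V|`. -/
theorem cent_one_le (hp : IsPr p) (X : Ω → I → V) (u : I) (g : Ω → G) :
    cent p (fun ω => X ω u) g ≤ Real.log (Fintype.card V) :=
  (cent_le_ent hp _ _).trans (ent_le_log_card' hp _)

end Coord

section FFcongr

variable {Ω : Type*} [Fintype Ω] [Nonempty Ω] {W O Z W' O' Z' : Type*}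

theorem FF_congr {w : Ω → W} {o : Ω → O} {z : Ω → Z} {w' : Ω → W'} {o' : Ω → O'} {z' : Ω → Z'}
    (hw : ∀ x x', (w x = w x' ∧ z x = z x') ↔ (w' x = w' x' ∧ z' x = z' x'))
    (ho : ∀ x x', o x = o x' ↔ o' x = o' x') (hz : ∀ x x', z x = z x' ↔ z' x = z' x') (n : ℕ) :
    FF w o z n = FF w' o' z' n := by
  have hfk : (fk fun x => (w x, z x)) = fk fun x => (w' x, z' x) :=
    fk_congr fun x x' => by
      simp only [Prod.mk.injEq]
      exact hw x x'
  unfold FF AA h0
  rw [hfk]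
  have hp : IsPr (uni Ω) := isPr_uni
  have hp1 : IsPr (jt fun _ : Fin n => fk fun x => (w' x, z' x)) := isPr_jt fun _ => isKer_fk _
  congr 1
  · congr 1
    · refine ent_congr hp1 ?_ ?_
      · intro ω ω' _ _ e
        simp only [Prod.mk.injEq] at e ⊢
        exact ⟨(hz _ _).1 e.1, funext fun t => (ho _ _).1 (congrFun e.2 t)⟩
      · intro ω ω' _ _ e
        simp only [Prod.mk.injEq] at e ⊢
        exact ⟨(hz _ _).2 e.1, funext fun t => (ho _ _).2 (congrFun e.2 t)⟩
    · exact ent_congr hp (fun x x' _ _ e => (hz _ _).1 e) (fun x x' _ _ e => (hz _ _).2 e)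
  · congr 1
    refine cent_congr hp ?_ ?_ ?_ ?_
    · intro x x' _ _ e
      simp only [Prod.mk.injEq] at e ⊢
      exact (hw _ _).1 e
    · intro x x' _ _ e
      simp only [Prod.mk.injEq] at e ⊢
      exact (hw _ _).2 e
    · exact Det.fst fun x x' _ _ e => (ho _ _).1 e
    · exact Det.fst fun x x' _ _ e => (ho _ _).2 e

end FFcongr

/-- The setting of section 3. -/
structure S3 {Ω I V W O Y Z : Type*} [Fintype Ω] [Fintype V] (X : Ω → I → V) (U : Finset I)
    (w : Ω → W) (o : Ω → O) (y : Ω → Y) (z : Ω → Z) (ε D : ℝ) : Prop where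
  hw : ∀ x x', w x = w x' ↔ ∀ u ∈ U, X x u = X x' u
  inj : ∀ x x', w x = w x' → o x = o x' → x = x'
  hy : ∀ x x', o x = o x' → y x = y x'
  hz : ∀ x x', o x = o x' → z x = z x'
  E1 : U.card * Real.log (Fintype.card V) - ε ≤ cent (uni Ω) w z
  E2 : cent (uni Ω) y w - ε ≤ cent (uni Ω) y (fun x => (w x, z x))
  D2 : ent (uni Ω) o + ent (uni Ω) w - Real.log (Fintype.card Ω) ≤ D

/-- The kernels: `(w, z)`-copies and `ρ`-copies. -/
noncomputable def K3 {Ω W Y Z : Type*} [Fintype Ω] (A B : Type*) (w : Ω → W) (y : Ω → Y)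
    (z : Ω → Z) : A ⊕ B → Ω → Ω → ℝ :=
  Sum.elim (fun _ => fk fun x => (w x, z x)) (fun _ => rk w y z)

section Main

variable {Ω I V W O Y Z : Type*} [Fintype Ω] [Nonempty Ω] [Fintype V]
  {X : Ω → I → V} {U : Finset I} {w : Ω → W} {o : Ω → O} {y : Ω → Y} {z : Ω → Z} {ε D : ℝ}

theorem S3.ε_nonneg (s : S3 X U w o y z ε D) : 0 ≤ ε := by
  have h1 := s.E1
  have h2 := cent_le_ent (isPr_uni (Ω := Ω)) w z
  have h3 := ent_coord_le (isPr_uni (Ω := Ω)) X U w (fun x x' _ _ e =>
    (s.hw x x').2 fun u hu => congrFun e ⟨u, hu⟩)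
  linarith

theorem S3.ent_wo (s : S3 X U w o y z ε D) :
    ent (uni Ω) (fun x => (o x, w x)) = Real.log (Fintype.card Ω) :=
  ent_uni_inj fun x x' e => s.inj x x' (Prod.ext_iff.mp e).2 (Prod.ext_iff.mp e).1

theorem S3.D_nonneg (s : S3 X U w o y z ε D) : 0 ≤ D := by
  have h1 := s.D2
  have h2 := ent_pair_le (isPr_uni (Ω := Ω)) o w
  rw [s.ent_wo] at h2
  linarith

/-- `h_0(ζ)` for a function `ζ` of `o`. -/
theorem S3.cent_o (s : S3 X U w o y z ε D) {F : Type*} (ζ : Ω → F)
    (hζ : ∀ x x', o x = o x' → ζ x = ζ x') :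
    cent (uni Ω) o (fun x => (w x, ζ x)) =
      Real.log (Fintype.card Ω) - ent (uni Ω) (fun x => (w x, ζ x)) := by
  unfold cent
  rw [← s.ent_wo]
  congr 1
  refine ent_congr isPr_uni ?_ ?_
  · intro x x' _ _ e
    simp only [Prod.mk.injEq] at e ⊢
    exact ⟨e.1, e.2.1⟩
  · intro x x' _ _ e
    simp only [Prod.mk.injEq] at e ⊢
    exact ⟨e.1, e.2, hζ _ _ e.1⟩

variable {A B : Type*} [Fintype A] [DecidableEq A] [Fintype B] [DecidableEq B]

theorem isKer_K3 (t : A ⊕ B) : IsKer (K3 A B w y z t) := by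
  rcases t with t | t
  · exact isKer_fk _
  · exact isKer_rk _ _ _

theorem dep_K3 (t : A ⊕ B) : Dep (fun x => (w x, z x)) (K3 A B w y z t) := by
  rcases t with t | t
  · exact dep_fk_self _
  · exact dep_rk _ _ _

theorem stat_K3 (t : A ⊕ B) : Stat (K3 A B w y z t) := by
  rcases t with t | t
  · exact stat_fk _
  · exact stat_rk _ _ _

theorem isPr_K3 : IsPr (jt (K3 A B w y z)) := isPr_jt isKer_K3

/-- Each `(w, z)`-copy carries little information on `w`. -/
theorem S3.info_R (s : S3 X U w o y z ε D) (t : A) :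
    cent (jt (K3 A B w y z)) (fun ω => o (ω.2 (Sum.inl t))) (fun ω => z ω.1) ≤
      D + hk (K3 A B w y z (Sum.inl t)) o := by
  have hp : IsPr (jt (K3 A B w y z)) := isPr_K3
  have hpU : IsPr (uni Ω) := isPr_uni
  have h1 := ent_jt_copy (κ := K3 A B w y z) isKer_K3 (stat_K3 (Sum.inl t)) o
  have e1 : ent (jt (K3 A B w y z)) (fun ω => (o (ω.2 (Sum.inl t)), z ω.1)) =
      ent (jt (K3 A B w y z)) (fun ω => o (ω.2 (Sum.inl t))) := by
    refine ent_pair_eq hp ?_
    intro ω ω' h h' e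
    have e1 := jt_fk (κ := K3 A B w y z) h (i := Sum.inl t) (φ := fun x => (w x, z x)) rfl
    have e2 := jt_fk (κ := K3 A B w y z) h' (i := Sum.inl t) (φ := fun x => (w x, z x)) rfl
    simp only [Prod.mk.injEq] at e1 e2
    show z ω.1 = z ω'.1
    rw [← e1.2, ← e2.2]
    exact s.hz _ _ e
  have e2 : hk (K3 A B w y z (Sum.inl t)) o =
      Real.log (Fintype.card Ω) - ent (uni Ω) (fun x => (w x, z x)) := by
    rw [← s.cent_o z s.hz]
    exact hk_fk _ _
  have e3 : ent (jt (K3 A B w y z)) (fun ω => z ω.1) = ent (uni Ω) z :=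
    ent_jt_base isKer_K3 z
  have e4 := s.D2
  have e5 := cent_le_ent hpU w z
  unfold cent at e5 ⊢
  linarith

/-- Each copy carries little information on `w`. -/
theorem S3.info_one (s : S3 X U w o y z ε D) (t : A ⊕ B) :
    cent (jt (K3 A B w y z)) (fun ω => o (ω.2 t)) (fun ω => z ω.1) ≤
      D + ε + hk (K3 A B w y z t) o := by
  have hp : IsPr (jt (K3 A B w y z)) := isPr_K3
  have h1 := ent_jt_copy (κ := K3 A B w y z) isKer_K3 (stat_K3 t) o
  have hε := s.ε_nonneg
  rcases t with t | t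
  · have := s.info_R (B := B) t
    linarith
  · have e1 := cent_le_ent hp (fun ω => o (ω.2 (Sum.inr t))) (fun ω => z ω.1)
    have e2 : hk (K3 A B w y z (Sum.inr t)) o = cent (uni Ω) y (fun x => (w x, z x)) +
        cent (uni Ω) o (fun x => (w x, y x)) := hk_rk w y z o s.hy
    have e3 := s.cent_o y s.hy
    have e4 := s.D2
    have e5 := s.E2
    have e6 : ent (uni Ω) (fun x => (y x, w x)) = ent (uni Ω) (fun x => (w x, y x)) :=
      ent_swap isPr_uni y w
    unfold cent at e1 e2 e3 e5 ⊢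
    rw [e6] at e5
    linarith

/-- Two complementary sets of coordinates. -/
structure S3.Split (_s : S3 X U w o y z ε D) {W1 W2 : Type*} (U1 U2 : Finset I) (w1 : Ω → W1)
    (w2 : Ω → W2) : Prop where
  hU : ∀ u, u ∈ U ↔ u ∈ U1 ∨ u ∈ U2
  card : U1.card + U2.card = U.card
  h1 : ∀ x x', w1 x = w1 x' ↔ ∀ u ∈ U1, X x u = X x' u
  h2 : ∀ x x', w2 x = w2 x' ↔ ∀ u ∈ U2, X x u = X x' u

variable {W1 W2 : Type*} {U1 U2 : Finset I} {w1 : Ω → W1} {w2 : Ω → W2}

theorem S3.Split.h12 {s : S3 X U w o y z ε D} (t : s.Split U1 U2 w1 w2) (x x' : Ω) :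
    w x = w x' ↔ w1 x = w1 x' ∧ w2 x = w2 x' := by
  rw [s.hw, t.h1, t.h2]
  constructor
  · exact fun h => ⟨fun u hu => h u ((t.hU u).2 (Or.inl hu)),
      fun u hu => h u ((t.hU u).2 (Or.inr hu))⟩
  · rintro ⟨h1, h2⟩ u hu
    rcases (t.hU u).1 hu with h | h
    exacts [h1 u h, h2 u h]

/-- `H(w₂ | z) ≥ |U₂| L - ε`. -/
theorem S3.Split.ent_w2 {s : S3 X U w o y z ε D} (t : s.Split U1 U2 w1 w2) :
    U2.card * Real.log (Fintype.card V) - ε ≤ cent (uni Ω) w2 z := by
  have hp : IsPr (uni Ω) := isPr_uni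
  have h1 := s.E1
  have h2 : ent (uni Ω) w1 ≤ U1.card * Real.log (Fintype.card V) :=
    ent_coord_le hp X U1 w1 fun x x' _ _ e => (t.h1 x x').2 fun u hu => congrFun e ⟨u, hu⟩
  have h3 : cent (uni Ω) w z ≤ cent (uni Ω) (fun x => (w2 x, w1 x)) z :=
    cent_mono hp (fun x x' _ _ e => by
      simp only [Prod.mk.injEq] at e
      exact (t.h12 x x').2 ⟨e.1.2, e.1.1⟩) (Det.refl z)
  rw [cent_chain hp] at h3
  have h4 := cent_le_ent hp w1 (fun x => (w2 x, z x))
  have h5 : (U.card : ℝ) = U1.card + U2.card := by exact_mod_cast t.card.symm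
  rw [h5] at h1
  linarith

/-- `H(w₁ | w₂, y) - H(w₁ | w₂, z) ≤ ε`. -/
theorem S3.Split.ent_w1 {s : S3 X U w o y z ε D} (t : s.Split U1 U2 w1 w2) :
    cent (uni Ω) w1 (fun x => (w2 x, y x)) - cent (uni Ω) w1 (fun x => (w2 x, z x)) ≤ ε := by
  have hp : IsPr (uni Ω) := isPr_uni
  have h1 := s.E1
  have h2 : ent (uni Ω) w1 ≤ U1.card * Real.log (Fintype.card V) :=
    ent_coord_le hp X U1 w1 fun x x' _ _ e => (t.h1 x x').2 fun u hu => congrFun e ⟨u, hu⟩
  have h2' : ent (uni Ω) w2 ≤ U2.card * Real.log (Fintype.card V) :=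
    ent_coord_le hp X U2 w2 fun x x' _ _ e => (t.h2 x x').2 fun u hu => congrFun e ⟨u, hu⟩
  have h3 : cent (uni Ω) w z ≤ cent (uni Ω) (fun x => (w2 x, w1 x)) z :=
    cent_mono hp (fun x x' _ _ e => by
      simp only [Prod.mk.injEq] at e
      exact (t.h12 x x').2 ⟨e.1.2, e.1.1⟩) (Det.refl z)
  rw [cent_chain hp] at h3
  have h4 := cent_le_ent hp w1 (fun x => (w2 x, y x))
  have h6 := cent_le_ent hp w2 z
  have h5 : (U.card : ℝ) = U1.card + U2.card := by exact_mod_cast t.card.symm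
  rw [h5] at h1
  linarith

/-- A fresh `ρ`-copy has large entropy. -/
theorem S3.Split.low {s : S3 X U w o y z ε D} (t : s.Split U1 U2 w1 w2) (b : B)
    (T : Finset (A ⊕ B)) (hb : Sum.inr b ∉ T) (P : ℕ) (hP : 1 ≤ P) :
    (FF w1 (fun x => (w2 x, o x)) (fun x => (w2 x, y x)) P - ε - T.card * (D + ε)) / P +
        hk (rk w y z) o ≤
      cent (jt (K3 A B w y z)) (fun ω => o (ω.2 (Sum.inr b)))
        (fun ω => (z ω.1, w2 ω.1, cps o T ω)) := by
  classical
  have hp : IsPr (jt (K3 A B w y z)) := isPr_K3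
  have h1 := fresh w w1 w2 o y z t.h12 s.hy (K3 A B w y z) isKer_K3 dep_K3 (Sum.inr b) rfl T hb P
    hP
  have h2 := t.ent_w1
  have h3 : cent (jt (K3 A B w y z)) (fun ω (t : {t // t ∈ T}) => o (ω.2 t.1))
      (fun ω => (z ω.1, w2 ω.1)) ≤
      ∑ t : {t // t ∈ T}, (D + ε + hk (K3 A B w y z t.1) o) := by
    refine (cent_family_le hp _ (fun (t : {t // t ∈ T}) ω => o (ω.2 t.1))).trans
      (Finset.sum_le_sum fun t _ => ?_)
    exact (cent_anti hp _ (Det.fst (Det.refl _))).trans (s.info_one t.1)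
  rw [Finset.sum_add_distrib, Finset.sum_const, Finset.card_univ, Fintype.card_coe,
    nsmul_eq_mul] at h3
  have hP' : (0 : ℝ) < P := by exact_mod_cast hP
  have h4 : FF w1 (fun x => (w2 x, o x)) (fun x => (w2 x, y x)) P - ε - T.card * (D + ε) ≤
      P * (cent (jt (K3 A B w y z)) (fun ω => o (ω.2 (Sum.inr b)))
        (fun ω => (z ω.1, w2 ω.1, cps o T ω)) - hk (rk w y z) o) := by
    unfold cps
    linarith
  rw [← sub_nonneg] at h4 ⊢
  have h5 : cent (jt (K3 A B w y z)) (fun ω => o (ω.2 (Sum.inr b)))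
        (fun ω => (z ω.1, w2 ω.1, cps o T ω)) -
        ((FF w1 (fun x => (w2 x, o x)) (fun x => (w2 x, y x)) P - ε - T.card * (D + ε)) / P +
        hk (rk w y z) o) =
      (P * (cent (jt (K3 A B w y z)) (fun ω => o (ω.2 (Sum.inr b)))
        (fun ω => (z ω.1, w2 ω.1, cps o T ω)) - hk (rk w y z) o) -
        (FF w1 (fun x => (w2 x, o x)) (fun x => (w2 x, y x)) P - ε - T.card * (D + ε))) / P := by
    field_simp
    ring
  rw [h5]
  exact div_nonneg h4 hP'.le

/-- Several fresh `ρ`-copies. -/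
theorem S3.Split.low_family {s : S3 X U w o y z ε D} (t : s.Split U1 U2 w1 w2)
    (T : Finset (A ⊕ B)) (S : Finset B) (hS : ∀ b ∈ S, Sum.inr b ∉ T) (P : ℕ) (hP : 1 ≤ P)
    (N : ℝ) (hN : (T.card : ℝ) + S.card ≤ N) :
    S.card * ((FF w1 (fun x => (w2 x, o x)) (fun x => (w2 x, y x)) P - ε - N * (D + ε)) / P +
        hk (rk w y z) o) ≤
      cent (jt (K3 A B w y z)) (fun ω => fun b : {b // b ∈ S} => o (ω.2 (Sum.inr b.1)))
        (fun ω => (z ω.1, w2 ω.1, cps o T ω)) := by
  classical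
  have hp : IsPr (jt (K3 A B w y z)) := isPr_K3
  have hP' : (0 : ℝ) < P := by exact_mod_cast hP
  have hDε : 0 ≤ D + ε := add_nonneg s.D_nonneg s.ε_nonneg
  induction S using Finset.induction_on with
  | empty =>
    simp only [Finset.card_empty, Nat.cast_zero, zero_mul]
    exact cent_nonneg hp _ _
  | insert b S hbS ih =>
    have hS' : ∀ b ∈ S, Sum.inr b ∉ T := fun b hb => hS b (Finset.mem_insert_of_mem hb)
    have hbT : Sum.inr b ∉ T := hS b (Finset.mem_insert_self _ _)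
    rw [Finset.card_insert_of_notMem hbS] at hN ⊢
    push_cast at hN ⊢
    have ih' := ih hS' (by linarith)
    -- the copies in `T` and `S`
    set T' : Finset (A ⊕ B) := T ∪ S.map ⟨Sum.inr, Sum.inr_injective⟩ with hT'
    have hbT' : Sum.inr b ∉ T' := by
      rw [hT', Finset.mem_union, Finset.mem_map]
      rintro (h | ⟨b', hb', h⟩)
      · exact hbT h
      · simp only [Function.Embedding.coeFn_mk, Sum.inr.injEq] at h
        exact hbS (h ▸ hb')
    have h1 := t.low (A := A) b T' hbT' P hP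
    have hcard : (T'.card : ℝ) ≤ T.card + S.card := by
      have := Finset.card_union_le T (S.map ⟨Sum.inr, Sum.inr_injective⟩)
      rw [Finset.card_map] at this
      exact_mod_cast this
    have h2 : (FF w1 (fun x => (w2 x, o x)) (fun x => (w2 x, y x)) P - ε - N * (D + ε)) / P ≤
        (FF w1 (fun x => (w2 x, o x)) (fun x => (w2 x, y x)) P - ε - T'.card * (D + ε)) / P := by
      refine div_le_div_of_nonneg_right ?_ hP'.le
      have : T'.card * (D + ε) ≤ N * (D + ε) := mul_le_mul_of_nonneg_right (by linarith) hDε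
      linarith
    have h3 : cent (jt (K3 A B w y z))
        (fun ω => fun b' : {b' // b' ∈ insert b S} => o (ω.2 (Sum.inr b'.1)))
        (fun ω => (z ω.1, w2 ω.1, cps o T ω)) =
        cent (jt (K3 A B w y z)) (fun ω => fun b : {b // b ∈ S} => o (ω.2 (Sum.inr b.1)))
          (fun ω => (z ω.1, w2 ω.1, cps o T ω)) +
        cent (jt (K3 A B w y z)) (fun ω => o (ω.2 (Sum.inr b)))
          (fun ω => ((fun b : {b // b ∈ S} => o (ω.2 (Sum.inr b.1))),
            (z ω.1, w2 ω.1, cps o T ω))) := by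
      rw [← cent_chain hp]
      refine cent_congr hp (Det.refl _) (Det.refl _) ?_ ?_
      · refine Det.fst ?_
        intro ω ω' _ _ e
        simp only [Prod.mk.injEq]
        exact ⟨funext fun b' => congrFun e ⟨b'.1, Finset.mem_insert_of_mem b'.2⟩,
          congrFun e ⟨b, Finset.mem_insert_self _ _⟩⟩
      · refine Det.fst ?_
        intro ω ω' _ _ e
        simp only [Prod.mk.injEq] at e
        funext b'
        obtain ⟨b', hb'⟩ := b'
        rcases Finset.mem_insert.1 hb' with rfl | h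
        · exact e.2
        · exact congrFun e.1 ⟨b', h⟩
    have h4 : cent (jt (K3 A B w y z)) (fun ω => o (ω.2 (Sum.inr b)))
        (fun ω => (z ω.1, w2 ω.1, cps o T' ω)) ≤
        cent (jt (K3 A B w y z)) (fun ω => o (ω.2 (Sum.inr b)))
          (fun ω => ((fun b : {b // b ∈ S} => o (ω.2 (Sum.inr b.1))),
            (z ω.1, w2 ω.1, cps o T ω))) := by
      refine cent_anti hp _ ?_
      intro ω ω' a b e
      simp only [Prod.mk.injEq] at e ⊢
      refine ⟨funext fun b' => ?_, e.1, e.2.1, funext fun c => ?_⟩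
      · exact congrFun e.2.2 ⟨Sum.inr b'.1, Finset.mem_union_right _
          (Finset.mem_map.2 ⟨b'.1, b'.2, rfl⟩)⟩
      · exact congrFun e.2.2 ⟨c.1, Finset.mem_union_left _ c.2⟩
    rw [h3]
    linarith

end Main

end RFold
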