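import Pool.Agent.Lib.MP_3581cd_co.Sect3a

/-!
# MP_3581cd_co, section 3: lists and Gibbs' inequality
-/

namespace RFold

open Finset

set_option linter.unusedSectionVars false

section Lists

variable {Ω : Type*} [Fintype Ω] {p : Ω → ℝ} {β γ : Type*}

theorem pr_eq_ite (p : Ω → ℝ) (A : Ω → Prop) [DecidablePred A] :
    pr p A = ∑ ω, if A ω then p ω else 0 := by
  unfold pr
  refine sum_congr rfl fun ω _ => ?_
  split_ifs <;> rfl

/-- If `f` lies in a short list (depending on `g`) on the event `E` and in the set `S₀` otherwise. -/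
theorem cent_list_le (hp : IsPr p) (f : Ω → β) (g : Ω → γ) (Λ : γ → Finset β) (S₀ : Finset β)
    {K N : ℝ} (hK : 1 ≤ K) (hN : 1 ≤ N) (hΛ : ∀ c, ((Λ c).card : ℝ) ≤ K)
    (hS₀ : (S₀.card : ℝ) ≤ N) (E : Ω → Prop) (hE : ∀ ω, p ω ≠ 0 → E ω → f ω ∈ Λ (g ω))
    (hE' : ∀ ω, p ω ≠ 0 → ¬ E ω → f ω ∈ S₀) :
    cent p f g ≤ Real.log 2 + pr p E * Real.log K + (1 - pr p E) * Real.log N := by
  classical
  have hK0 : (0 : ℝ) < K := by linarith
  have hN0 : (0 : ℝ) < N := by linarith
  set q : γ → β → ℝ := fun c b => (if b ∈ Λ c then 1 / (2 * K) else 0) +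
    (if b ∈ S₀ then 1 / (2 * N) else 0) with hq
  have hq0 : ∀ c b, 0 ≤ q c b := by
    intro c b
    rw [hq]
    simp only
    split_ifs <;> positivity
  have hqΛ : ∀ c b, b ∈ Λ c → 1 / (2 * K) ≤ q c b := by
    intro c b hb
    rw [hq]
    simp only [if_pos hb]
    have : (0 : ℝ) ≤ if b ∈ S₀ then 1 / (2 * N) else 0 := by split_ifs <;> positivity
    linarith
  have hqS : ∀ c b, b ∈ S₀ → 1 / (2 * N) ≤ q c b := by
    intro c b hb
    rw [hq]
    simp only [if_pos hb]
    have : (0 : ℝ) ≤ if b ∈ Λ c then 1 / (2 * K) else 0 := by split_ifs <;> positivity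
    linarith
  have h1 := cent_le_gibbs hp f g q (fun ω hω => by
      by_cases h : E ω
      · exact lt_of_lt_of_le (by positivity) (hqΛ _ _ (hE ω hω h))
      · exact lt_of_lt_of_le (by positivity) (hqS (g ω) _ (hE' ω hω h)))
    (fun c => Λ c ∪ S₀) (fun ω hω => by
      by_cases h : E ω
      · exact mem_union_left _ (hE ω hω h)
      · exact mem_union_right _ (hE' ω hω h))
    (fun ω _ b _ => hq0 _ b) (fun ω _ => by
      rw [hq]
      simp only [sum_add_distrib]
      have e1 : ∑ b ∈ Λ (g ω) ∪ S₀, (if b ∈ Λ (g ω) then 1 / (2 * K) else 0) ≤ 1 / 2 := by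
        rw [← sum_filter, sum_const, nsmul_eq_mul]
        have : ((Λ (g ω) ∪ S₀).filter fun b => b ∈ Λ (g ω)) = Λ (g ω) := by
          ext b
          simp only [mem_filter, mem_union]
          tauto
        rw [this]
        calc ((Λ (g ω)).card : ℝ) * (1 / (2 * K)) ≤ K * (1 / (2 * K)) :=
              mul_le_mul_of_nonneg_right (hΛ _) (by positivity)
          _ = 1 / 2 := by field_simp
      have e2 : ∑ b ∈ Λ (g ω) ∪ S₀, (if b ∈ S₀ then 1 / (2 * N) else 0) ≤ 1 / 2 := by
        rw [← sum_filter, sum_const, nsmul_eq_mul]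
        have : ((Λ (g ω) ∪ S₀).filter fun b => b ∈ S₀) = S₀ := by
          ext b
          simp only [mem_filter, mem_union]
          tauto
        rw [this]
        calc (S₀.card : ℝ) * (1 / (2 * N)) ≤ N * (1 / (2 * N)) :=
              mul_le_mul_of_nonneg_right hS₀ (by positivity)
          _ = 1 / 2 := by field_simp
      linarith)
  refine h1.trans ?_
  have hlog : ∀ x : ℝ, 0 < x → -Real.log (1 / (2 * x)) = Real.log 2 + Real.log x := by
    intro x hx
    rw [one_div, Real.log_inv, neg_neg, Real.log_mul (by norm_num) hx.ne']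
  have h2 : ∀ ω, p ω * (-Real.log (q (g ω) (f ω))) ≤
      p ω * Real.log 2 + (if E ω then p ω else 0) * Real.log K +
        (p ω - if E ω then p ω else 0) * Real.log N := by
    intro ω
    by_cases hω : p ω = 0
    · simp [hω]
    have hp0 := hp.nonneg ω
    by_cases h : E ω
    · rw [if_pos h, sub_self, zero_mul, add_zero, ← mul_add]
      refine mul_le_mul_of_nonneg_left ?_ hp0
      rw [← hlog K hK0, neg_le_neg_iff]
      exact Real.log_le_log (by positivity) (hqΛ _ _ (hE ω hω h))
    · rw [if_neg h, sub_zero, zero_mul, add_zero, ← mul_add]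
      refine mul_le_mul_of_nonneg_left ?_ hp0
      rw [← hlog N hN0, neg_le_neg_iff]
      exact Real.log_le_log (by positivity) (hqS _ _ (hE' ω hω h))
  refine (sum_le_sum fun ω _ => h2 ω).trans (le_of_eq ?_)
  rw [sum_add_distrib, sum_add_distrib, ← sum_mul, ← sum_mul, ← sum_mul, sum_sub_distrib, hp.sum_eq]
  rw [pr_eq_ite]
  ring

end Lists

section Index

variable {Ω : Type*} [Fintype Ω] {p : Ω → ℝ} {I V γ : Type*} [Fintype V]

/-- If `u = I₀` is a random index, the entropy of the pair `(u, X_u)` is large. -/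
theorem gibbs_index (hp : IsPr p) (X : Ω → I → V) (U : Finset I) (I₀ : Ω → Option I)
    (hI : ∀ ω u, I₀ ω = some u → u ∈ U) (C : Ω → γ) :
    ∑ u ∈ U, cent p (fun ω => X ω u) C ≤ U.card * Real.log 2 +
      cent p (fun ω => (I₀ ω).map fun u => (u, X ω u)) C +
      (U.card - (1 - pr p fun ω => I₀ ω = none)) * Real.log (Fintype.card V) := by
  classical
  rcases U.eq_empty_or_nonempty with hU | ⟨u₀, hu₀⟩
  · subst hU
    have h0 : ∀ ω, I₀ ω = none := fun ω => by
      rcases h : I₀ ω with _ | u
      · rfl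
      · exact absurd (hI ω u h) (notMem_empty u)
    have h1 : (pr p fun ω => I₀ ω = none) = 1 := by
      rw [← pr_true hp]
      exact pr_congr hp fun ω _ => by simp [h0 ω]
    rw [h1]
    simp only [sum_empty, card_empty, Nat.cast_zero, zero_mul, sub_self, add_zero, zero_add]
    exact cent_nonneg hp _ _
  set V0 : Ω → Option (I × V) := fun ω => (I₀ ω).map fun u => (u, X ω u) with hV0
  set L2 : Option (I × V) × γ → ℝ := law p (fun ω => (V0 ω, C ω)) with hL2
  obtain ⟨ω₀⟩ := hp.nonempty
  have hm : (0 : ℝ) < Fintype.card V := by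
    exact_mod_cast Fintype.card_pos_iff.2 ⟨X ω₀ u₀⟩
  set m : ℝ := (Fintype.card V : ℝ) with hmdef
  have hL2n : ∀ a, 0 ≤ L2 a := fun a => law_nonneg hp _ _
  -- Gibbs for each `u`
  have h1 : ∀ u ∈ U, cent p (fun ω => X ω u) C ≤ ∑ ω, p ω * (Real.log 2 +
      if I₀ ω = some u then Real.log (law p C (C ω)) - Real.log (L2 (V0 ω, C ω))
        else Real.log m) := by
    intro u _
    set q : γ → V → ℝ := fun c v => 1 / (2 * m) + 1 / 2 * (L2 (some (u, v), c) / law p C c) with hq
    have hq1 : ∀ c v, 1 / (2 * m) ≤ q c v := by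
      intro c v
      rw [hq]
      have : 0 ≤ 1 / 2 * (L2 (some (u, v), c) / law p C c) :=
        mul_nonneg (by norm_num) (div_nonneg (hL2n _) (law_nonneg hp _ _))
      simp only
      linarith
    have h2 := cent_le_gibbs hp (fun ω => X ω u) C q (fun ω _ =>
      lt_of_lt_of_le (by positivity) (hq1 _ _)) (fun _ => univ) (fun _ _ => mem_univ _)
      (fun ω _ b _ => le_trans (by positivity) (hq1 _ _)) (fun ω hω => by
        rw [hq]
        simp only
        rw [sum_add_distrib, sum_const, card_univ, nsmul_eq_mul, ← mul_sum, ← sum_div]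
        have hC : 0 < law p C (C ω) := law_pos hp C hω
        have e1 : ∑ v, L2 (some (u, v), C ω) ≤ law p C (C ω) := by
          rw [hL2]
          unfold law
          simp_rw [pr_eq_ite]
          rw [sum_comm]
          refine sum_le_sum fun ω' _ => ?_
          by_cases h : C ω' = C ω
          · rw [if_pos h]
            have : ∀ v, (if (V0 ω', C ω') = (some (u, v), C ω) then p ω' else 0) ≤
                if X ω' u = v then p ω' else 0 := by
              intro v
              by_cases hh : (V0 ω', C ω') = (some (u, v), C ω)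
              · rw [if_pos hh, if_pos]
                have h3 := (Prod.ext_iff.mp hh).1
                simp only [hV0, Option.map_eq_some_iff, Prod.mk.injEq] at h3
                obtain ⟨u', -, h5, h6⟩ := h3
                rw [← h5, h6]
              · rw [if_neg hh]
                split_ifs
                exacts [hp.nonneg _, le_rfl]
            refine (sum_le_sum fun v _ => this v).trans ?_
            rw [sum_ite_eq, if_pos (mem_univ _)]
          · rw [if_neg h]
            refine le_of_eq (sum_eq_zero fun v _ => ?_)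
            rw [if_neg fun hh => h (Prod.ext_iff.mp hh).2]
        have e2 : (∑ v, L2 (some (u, v), C ω)) / law p C (C ω) ≤ 1 :=
          (div_le_one hC).2 e1
        have e3 : (Fintype.card V : ℝ) * (1 / (2 * m)) = 1 / 2 := by
          rw [← hmdef]
          field_simp
        rw [e3]
        linarith)
    refine h2.trans (sum_le_sum fun ω _ => ?_)
    by_cases hω : p ω = 0
    · simp [hω]
    refine mul_le_mul_of_nonneg_left ?_ (hp.nonneg ω)
    have hC : 0 < law p C (C ω) := law_pos hp C hω
    split_ifs with h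
    · have e1 : V0 ω = some (u, X ω u) := by rw [hV0]; simp [h]
      have e2 : 0 < L2 (V0 ω, C ω) := law_pos hp (fun ω => (V0 ω, C ω)) hω
      have e3 : 1 / 2 * (L2 (V0 ω, C ω) / law p C (C ω)) ≤ q (C ω) (X ω u) := by
        rw [hq, e1]
        simp only
        have : 0 ≤ 1 / (2 * m) := by positivity
        linarith
      have e4 := Real.log_le_log (by positivity) e3
      rw [Real.log_mul (by norm_num) (by positivity), Real.log_div e2.ne' hC.ne', one_div,
        Real.log_inv] at e4
      linarith
    · have e4 := Real.log_le_log (by positivity) (hq1 (C ω) (X ω u))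
      rw [one_div, Real.log_inv, Real.log_mul (by norm_num) hm.ne'] at e4
      linarith
  refine (sum_le_sum h1).trans ?_
  rw [sum_comm]
  have h3 : ∀ ω, p ω ≠ 0 → ∑ u ∈ U, (Real.log 2 +
      if I₀ ω = some u then Real.log (law p C (C ω)) - Real.log (L2 (V0 ω, C ω))
        else Real.log m) ≤ U.card * Real.log 2 +
        (Real.log (law p C (C ω)) - Real.log (L2 (V0 ω, C ω))) +
        (U.card - (1 - if I₀ ω = none then 1 else 0)) * Real.log m := by
    intro ω hω
    rw [sum_add_distrib, sum_const, nsmul_eq_mul]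
    rcases h : I₀ ω with _ | u
    · simp only [reduceCtorEq, if_false, sum_const, nsmul_eq_mul, if_true, sub_self, sub_zero]
      have e1 : L2 (V0 ω, C ω) ≤ law p C (C ω) := by
        rw [hL2]
        exact law_mono hp (f := fun ω => (V0 ω, C ω)) (g := C) (Det.snd (Det.refl C)) hω
      have e2 : 0 < L2 (V0 ω, C ω) := law_pos hp (fun ω => (V0 ω, C ω)) hω
      have e3 := Real.log_le_log e2 e1
      linarith
    · have hu := hI ω u h
      have e1 : ∑ u' ∈ U, (if (some u : Option I) = some u' then
          Real.log (law p C (C ω)) - Real.log (L2 (V0 ω, C ω)) else Real.log m) =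
          (Real.log (law p C (C ω)) - Real.log (L2 (V0 ω, C ω))) + (U.card - 1) * Real.log m := by
        rw [← add_sum_erase U _ hu, if_pos rfl]
        congr 1
        rw [sum_congr rfl (g := fun _ => Real.log m), sum_const, card_erase_of_mem hu, nsmul_eq_mul]
        · congr 1
          have : 1 ≤ U.card := card_pos.2 ⟨u, hu⟩
          push_cast [this]
          ring
        · intro u' hu'
          rw [if_neg]
          intro hh
          exact (mem_erase.1 hu').1 (Option.some_inj.1 hh).symm
      rw [e1]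
      simp only [reduceCtorEq, if_false, sub_zero]
      linarith
  have h4 : ∀ ω, ∑ u ∈ U, p ω * (Real.log 2 +
      if I₀ ω = some u then Real.log (law p C (C ω)) - Real.log (L2 (V0 ω, C ω))
        else Real.log m) ≤ p ω * (U.card * Real.log 2) +
        p ω * (Real.log (law p C (C ω)) - Real.log (L2 (V0 ω, C ω))) +
        (p ω * (U.card - 1) + if I₀ ω = none then p ω else 0) * Real.log m := by
    intro ω
    rw [← mul_sum]
    by_cases hω : p ω = 0
    · simp [hω]
    have := mul_le_mul_of_nonneg_left (h3 ω hω) (hp.nonneg ω)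
    refine this.trans (le_of_eq ?_)
    split_ifs <;> ring
  refine (sum_le_sum fun ω _ => h4 ω).trans (le_of_eq ?_)
  rw [sum_add_distrib, sum_add_distrib, ← sum_mul, ← sum_mul, sum_add_distrib, ← sum_mul, hp.sum_eq,
    cent_eq]
  rw [pr_eq_ite]
  ring

end Index

section Unique

variable {Ω : Type*} [Fintype Ω] {p : Ω → ℝ} {I N : Type*} [Fintype N]

/-- The expected number of indices which are used exactly once is at most the expected number of
indices used. -/
theorem sum_unique_le (hp : IsPr p) (U : Finset I) (I₀ : N → Ω → Option I)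
    (hI : ∀ j ω u, I₀ j ω = some u → u ∈ U) :
    ∑ j, pr p (fun ω => ∃ u, I₀ j ω = some u ∧ ∀ i, i ≠ j → I₀ i ω ≠ some u) ≤
      ∑ u ∈ U, pr p (fun ω => ∃ j, I₀ j ω = some u) := by
  classical
  simp_rw [pr_eq_ite]
  rw [sum_comm, sum_comm (s := U)]
  refine sum_le_sum fun ω _ => ?_
  have h0 := hp.nonneg ω
  -- reduce to counting
  have e1 : ∀ j, (if ∃ u, I₀ j ω = some u ∧ ∀ i, i ≠ j → I₀ i ω ≠ some u then p ω else 0) ≤
      ∑ u ∈ U, if I₀ j ω = some u ∧ ∀ i, i ≠ j → I₀ i ω ≠ some u then p ω else 0 := by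
    intro j
    have hn : ∀ u ∈ U, (0 : ℝ) ≤ if I₀ j ω = some u ∧ ∀ i, i ≠ j → I₀ i ω ≠ some u then p ω
        else 0 := fun u _ => by
      split_ifs
      exacts [h0, le_rfl]
    split_ifs with h
    · obtain ⟨u, hu⟩ := h
      refine le_trans ?_ (single_le_sum hn (hI j ω u hu.1))
      rw [if_pos hu]
    · exact sum_nonneg hn
  have e2 : ∀ u ∈ U, ∑ j, (if I₀ j ω = some u ∧ ∀ i, i ≠ j → I₀ i ω ≠ some u then p ω else 0) ≤
      if ∃ j, I₀ j ω = some u then p ω else 0 := by
    intro u _
    by_cases h : ∃ j, I₀ j ω = some u ∧ ∀ i, i ≠ j → I₀ i ω ≠ some u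
    · obtain ⟨j, hj⟩ := h
      rw [if_pos ⟨j, hj.1⟩, sum_eq_single j]
      · rw [if_pos hj]
      · intro i _ hij
        rw [if_neg fun hh => hj.2 i hij hh.1]
      · intro hh
        exact absurd (mem_univ j) hh
    · push Not at h
      rw [sum_eq_zero]
      · split_ifs
        exacts [h0, le_rfl]
      · intro j _
        rw [if_neg]
        rintro ⟨h1, h2⟩
        obtain ⟨i, hi, hi'⟩ := h j h1
        exact h2 i hi hi'
  calc _ ≤ ∑ j, ∑ u ∈ U, if I₀ j ω = some u ∧ ∀ i, i ≠ j → I₀ i ω ≠ some u then p ω else 0 :=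
        sum_le_sum fun j _ => e1 j
    _ = ∑ u ∈ U, ∑ j, if I₀ j ω = some u ∧ ∀ i, i ≠ j → I₀ i ω ≠ some u then p ω else 0 :=
        sum_comm
    _ ≤ _ := sum_le_sum e2

end Unique

end RFold
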