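import Pool.Agent.Lib.MP_3581cd_co.Sect3b

/-!
# MP_3581cd_co, section 3: the final inequalities
-/

namespace RFold

open Finset

set_option linter.unusedSectionVars false

section Quantities

variable {Ω : Type*} [Fintype Ω] {W O Y Z α : Type*}

/-- `H(o(r) | z, R') - h_ρ` where `r` is a `(w, y)`-copy and `R'` are `q` `(w, z)`-copies. -/
noncomputable def kp (w : Ω → W) (o : Ω → O) (y : Ω → Y) (z : Ω → Z) (q : ℕ) : ℝ :=
  cent (jt (Sum.elim (fun _ : Fin q => fk fun x => (w x, z x))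
      (fun _ : Unit => fk fun x => (w x, y x))))
    (fun ω => o (ω.2 (Sum.inr ()))) (fun ω => (z ω.1, fun t : Fin q => o (ω.2 (Sum.inl t)))) -
  (cent (uni Ω) y (fun x => (w x, z x)) + cent (uni Ω) o (fun x => (w x, y x)))

/-- `H(g | z, R')` where `R'` are `q` `(w, z)`-copies. -/
noncomputable def hR (w : Ω → W) (o : Ω → O) (z : Ω → Z) (g : Ω → α) (q : ℕ) : ℝ :=
  cent (jt (fun _ : Fin q => fk fun x => (w x, z x))) (fun ω => g ω.1)
    (fun ω => (z ω.1, fun t => o (ω.2 t)))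

/-- `H(g | z, Q)` where `Q` are `ρ`-copies indexed by `B`. -/
noncomputable def hQ (w : Ω → W) (o : Ω → O) (y : Ω → Y) (z : Ω → Z) (g : Ω → α) (B : Type*)
    [Fintype B] [DecidableEq B] : ℝ :=
  cent (jt (fun _ : B => rk w y z)) (fun ω => g ω.1) (fun ω => (z ω.1, fun t => o (ω.2 t)))

end Quantities

section Main

variable {Ω I V W O Y Z : Type*} [Fintype Ω] [Nonempty Ω] [Fintype V]
  {X : Ω → I → V} {U : Finset I} {w : Ω → W} {o : Ω → O} {y : Ω → Y} {z : Ω → Z} {ε D : ℝ}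
  {W1 W2 : Type*} {U1 U2 : Finset I} {w1 : Ω → W1} {w2 : Ω → W2}
  {B : Type*} [Fintype B] [DecidableEq B]

theorem cent_rho (q : ℕ) (b : B) :
    cent (jt (K3 (Fin q) B w y z)) (fun ω => o (ω.2 (Sum.inr b)))
      (fun ω => (z ω.1, fun t : Fin q => o (ω.2 (Sum.inl t)))) =
    kp w o y z q + (cent (uni Ω) y (fun x => (w x, z x)) +
      cent (uni Ω) o (fun x => (w x, y x))) := by
  unfold kp
  rw [sub_add_cancel]
  set κ1 : Fin q ⊕ Unit → Ω → Ω → ℝ := Sum.elim (fun _ : Fin q => fk fun x => (w x, z x))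
      (fun _ : Unit => fk fun x => (w x, y x)) with hκ1
  have hk1 : ∀ t, IsKer (κ1 t) := by
    rintro (t | t)
    · exact isKer_fk _
    · exact isKer_fk _
  have hinj : Function.Injective (Sum.map id (fun _ : Unit => b) : Fin q ⊕ Unit → Fin q ⊕ B) :=
    Function.Injective.sumMap Function.injective_id fun _ _ _ => rfl
  have e1 := ent_jt_eq (κ := κ1) (κ' := K3 (Fin q) B w y z) (s := id)
    (s' := Sum.map id (fun _ : Unit => b)) hk1 isKer_K3 Function.injective_id hinj
    (fun x => (w x, z x)) (Sum.inr ())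
    (by
      rintro (t | t) h
      · rfl
      · exact absurd rfl h)
    (by
      rintro (t | t) h
      · exact dep_fk_self _
      · exact absurd rfl h)
    rfl (fun x e => (o (e (Sum.inr ())), z x, fun t : Fin q => o (e (Sum.inl t))))
    (by
      intro x x' e h
      simp only [Prod.mk.injEq] at h ⊢
      exact ⟨trivial, h.2, trivial⟩)
  have e2 := ent_jt_marg (κ := κ1) (κ' := K3 (Fin q) B w y z) (τ := Fin q) (s := Sum.inl)
    (s' := Sum.inl) hk1 isKer_K3 Sum.inl_injective Sum.inl_injective (fun _ => rfl)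
    (fun x e => (z x, fun t : Fin q => o (e t)))
  unfold cent
  rw [e2]
  congr 1
  exact e1.symm

theorem hk_inl (q : ℕ) (t : Fin q) :
    hk (K3 (Fin q) B w y z (Sum.inl t)) o = h0 w o z := hk_fk _ _

/-- The big space and the small space of the `(w, z)`-copies. -/
theorem ent_R (q : ℕ) {α : Type*} (F : Ω → (Fin q → O) → α) :
    ent (jt (K3 (Fin q) B w y z)) (fun ω => F ω.1 fun t => o (ω.2 (Sum.inl t))) =
      ent (jt (fun _ : Fin q => fk fun x => (w x, z x))) (fun ω => F ω.1 fun t => o (ω.2 t)) :=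
  ent_jt_marg (κ := K3 (Fin q) B w y z) (κ' := fun _ : Fin q => fk fun x => (w x, z x))
    (τ := Fin q) (s := Sum.inl) (s' := id) isKer_K3 (fun _ => isKer_fk _) Sum.inl_injective
    Function.injective_id (fun _ => rfl) (fun x e => F x fun t => o (e t))

/-- The big space and the small space of the `ρ`-copies. -/
theorem ent_Q (q : ℕ) {α : Type*} (F : Ω → (B → O) → α) :
    ent (jt (K3 (Fin q) B w y z)) (fun ω => F ω.1 fun t => o (ω.2 (Sum.inr t))) =
      ent (jt (fun _ : B => rk w y z)) (fun ω => F ω.1 fun t => o (ω.2 t)) :=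
  ent_jt_marg (κ := K3 (Fin q) B w y z) (κ' := fun _ : B => rk w y z)
    (τ := B) (s := Sum.inr) (s' := id) isKer_K3 (fun _ => isKer_rk _ _ _) Sum.inr_injective
    Function.injective_id (fun _ => rfl) (fun x e => F x fun t => o (e t))

/-- `∑_{u ∈ U₂} I(X_u ; C | z) ≤ I(w₂ ; C | z) + ε`. -/
theorem S3.Split.sum_info_le {s : S3 X U w o y z ε D} (t : s.Split U1 U2 w1 w2) {ι γ : Type*}
    [Fintype ι] [DecidableEq ι] {κ : ι → Ω → Ω → ℝ} (hκ : ∀ i, IsKer (κ i))
    (C : Ω × (ι → Ω) → γ) :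
    ∑ u ∈ U2, (cent (uni Ω) (fun x => X x u) z - cent (jt κ) (fun ω => X ω.1 u) C) ≤
      cent (uni Ω) w2 z - cent (jt κ) (fun ω => w2 ω.1) C + ε := by
  have hp : IsPr (jt κ) := isPr_jt hκ
  have h1 := t.ent_w2
  have h2 : cent (jt κ) (fun ω => w2 ω.1) C ≤ ∑ u ∈ U2, cent (jt κ) (fun ω => X ω.1 u) C :=
    cent_coord_le hp (fun ω => X ω.1) U2 _ C fun ω ω' _ _ e =>
      (t.h2 _ _).2 fun u hu => congrFun e ⟨u, hu⟩
  have h3 : ∑ u ∈ U2, cent (uni Ω) (fun x => X x u) z ≤ U2.card * Real.log (Fintype.card V) := by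
    rw [← nsmul_eq_mul, ← sum_const]
    exact sum_le_sum fun u _ => cent_one_le isPr_uni X u z
  rw [sum_sub_distrib]
  linarith

/-- **(3.b1)** -/
theorem S3.Split.b1 {s : S3 X U w o y z ε D} (t : s.Split U1 U2 w1 w2) (q P : ℕ) (hP : 1 ≤ P) :
    ∑ u ∈ U2, (cent (uni Ω) (fun x => X x u) z - hQ w o y z (fun x => X x u) B) ≤
      ε + q * D + Fintype.card B * (kp w o y z q -
        (FF w1 (fun x => (w2 x, o x)) (fun x => (w2 x, y x)) P - ε
          - Fintype.card B * (D + ε)) / P) := by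
  classical
  have hp : IsPr (jt (K3 (Fin q) B w y z)) := isPr_K3
  set κ := K3 (Fin q) B w y z with hκ
  set R : Ω × (Fin q ⊕ B → Ω) → Fin q → O := fun ω t => o (ω.2 (Sum.inl t)) with hR
  set Q : Ω × (Fin q ⊕ B → Ω) → B → O := fun ω b => o (ω.2 (Sum.inr b)) with hQ
  have h0 := t.sum_info_le (κ := fun _ : B => rk w y z) (fun _ => isKer_rk _ _ _)
    (fun ω => (z ω.1, fun t => o (ω.2 t)))
  -- the small space
  have e1 : cent (jt (fun _ : B => rk w y z)) (fun ω => w2 ω.1)
      (fun ω => (z ω.1, fun t => o (ω.2 t))) = cent (jt κ) (fun ω => w2 ω.1)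
        (fun ω => (z ω.1, Q ω)) := by
    unfold cent
    rw [← ent_Q q (fun x e => (w2 x, z x, e)), ← ent_Q q (fun x e => (z x, e))]
  -- (a)
  have ha : q * RFold.h0 w o z ≤ cent (jt κ) R (fun ω => (z ω.1, Q ω)) := by
    have := sum_hk_le_cent_family (κ := κ) isKer_K3 (s := fun t : Fin q => Sum.inl t)
      Sum.inl_injective (fun ω => (z ω.1, Q ω)) (fun x e t v => by
        have : Q (x, Function.update e (Sum.inl t) v) = Q (x, e) := by
          funext i
          simp [hQ]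
        rw [this]) (fun _ => o)
    refine le_trans (le_of_eq ?_) this
    rw [sum_congr rfl fun t _ => hk_inl q t, sum_const, card_univ, Fintype.card_fin, nsmul_eq_mul]
  -- (b)
  have hb : cent (jt κ) Q (fun ω => (z ω.1, R ω)) ≤ Fintype.card B * (kp w o y z q +
      (cent (uni Ω) y (fun x => (w x, z x)) + cent (uni Ω) o (fun x => (w x, y x)))) := by
    refine (cent_family_le hp (fun ω => (z ω.1, R ω)) (fun b ω => Q ω b)).trans (le_of_eq ?_)
    rw [sum_congr rfl fun b _ => cent_rho q b, sum_const, card_univ, nsmul_eq_mul]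
  -- (c)
  have hc : cent (jt κ) R (fun ω => z ω.1) ≤ q * (D + RFold.h0 w o z) := by
    refine (cent_family_le hp (fun ω => z ω.1) (fun b ω => R ω b)).trans ?_
    refine (sum_le_sum fun b _ => s.info_R (B := B) b).trans (le_of_eq ?_)
    rw [sum_congr rfl fun t _ => by rw [hk_inl q t], sum_const, card_univ, Fintype.card_fin,
      nsmul_eq_mul]
  -- (d)
  have hd := t.low_family (A := Fin q) (B := B) ∅ univ (fun _ _ => notMem_empty _) P hP
    (Fintype.card B) (by simp)
  rw [card_univ, hk_rk w y z o s.hy] at hd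
  have hd' : cent (jt κ) (fun ω => fun b : {b // b ∈ (univ : Finset B)} => o (ω.2 (Sum.inr b.1)))
        (fun ω => (z ω.1, w2 ω.1, cps o ∅ ω)) = cent (jt κ) Q (fun ω => (w2 ω.1, z ω.1)) := by
    refine cent_congr hp ?_ ?_ ?_ ?_
    · intro ω ω' _ _ e
      simp only [Prod.mk.injEq] at e ⊢
      exact ⟨e.2.1, e.1⟩
    · intro ω ω' _ _ e
      simp only [Prod.mk.injEq] at e ⊢
      exact ⟨e.2, e.1, funext fun t => absurd t.2 (notMem_empty _)⟩
    · refine Det.fst fun ω ω' _ _ e => funext fun b => ?_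
      exact congrFun e ⟨b, mem_univ _⟩
    · refine Det.fst fun ω ω' _ _ e => funext fun b => ?_
      exact congrFun e b.1
  rw [hd'] at hd
  -- combine
  have c1 : ent (jt κ) (fun ω => (R ω, z ω.1, Q ω)) = ent (jt κ) (fun ω => (Q ω, z ω.1, R ω)) :=
    ent_congr hp (fun _ _ _ _ e => by simp only [Prod.mk.injEq] at e ⊢; tauto)
      (fun _ _ _ _ e => by simp only [Prod.mk.injEq] at e ⊢; tauto)
  have c2 : ent (jt κ) (fun ω => (R ω, z ω.1)) = ent (jt κ) (fun ω => (z ω.1, R ω)) :=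
    ent_swap hp R (fun ω => z ω.1)
  have c3 : ent (jt κ) (fun ω => (Q ω, w2 ω.1, z ω.1)) =
      ent (jt κ) (fun ω => (w2 ω.1, z ω.1, Q ω)) :=
    ent_congr hp (fun _ _ _ _ e => by simp only [Prod.mk.injEq] at e ⊢; tauto)
      (fun _ _ _ _ e => by simp only [Prod.mk.injEq] at e ⊢; tauto)
  have c4 : ent (jt κ) (fun ω => (w2 ω.1, z ω.1)) = ent (uni Ω) (fun x => (w2 x, z x)) :=
    ent_jt_base isKer_K3 (fun x => (w2 x, z x))
  have c5 : ent (jt κ) (fun ω => z ω.1) = ent (uni Ω) z := ent_jt_base isKer_K3 z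
  unfold RFold.hQ
  rw [e1] at h0
  unfold cent at h0 ha hb hc hd ⊢
  nlinarith [h0, ha, hb, hc, hd, c1, c2, c3, c4, c5]

/-- **(3.c1)** -/
theorem S3.c1 (s : S3 X U w o y z ε D) (q : ℕ) :
    ∑ u ∈ U, (Real.log (Fintype.card V) - hR w o z (fun x => X x u) q) ≤
      ε + ∑ u ∈ U, (cent (uni Ω) (fun x => X x u) z - hR w o z (fun x => X x u) q) := by
  have hp : IsPr (uni Ω) := isPr_uni
  have h1 := s.E1
  have h2 : cent (uni Ω) w z ≤ ∑ u ∈ U, cent (uni Ω) (fun x => X x u) z :=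
    cent_coord_le hp X U w z fun x x' _ _ e => (s.hw x x').2 fun u hu => congrFun e ⟨u, hu⟩
  rw [sum_sub_distrib, sum_sub_distrib, sum_const, nsmul_eq_mul]
  linarith

/-- **(3.c2)** -/
theorem S3.Split.c2 {s : S3 X U w o y z ε D} (t : s.Split U1 U2 w1 w2) (q : ℕ) :
    ∑ u ∈ U2, (cent (uni Ω) (fun x => X x u) z - hR w o z (fun x => X x u) q) ≤
      FF w o z q - FF w1 (fun x => (w2 x, o x)) (fun x => (w2 x, z x)) q + ε := by
  have hpU : IsPr (uni Ω) := isPr_uni
  set κ : Fin q → Ω → Ω → ℝ := fun _ : Fin q => fk fun x => (w x, z x) with hκdef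
  have hκ : ∀ i, IsKer (κ i) := fun _ => isKer_fk _
  have hp : IsPr (jt κ) := isPr_jt hκ
  have h0 := t.sum_info_le (κ := κ) hκ (fun ω => (z ω.1, fun t => o (ω.2 t)))
  have hfk : (fk fun x => (w1 x, (w2 x, z x))) = fk fun x => (w x, z x) :=
    fk_congr fun x x' => by
      simp only [Prod.mk.injEq]
      rw [t.h12 x x']
      tauto
  have e1 : AA w1 (fun x => (w2 x, o x)) (fun x => (w2 x, z x)) q =
      ent (jt κ) (fun ω => (w2 ω.1, z ω.1, fun t => o (ω.2 t))) := by
    unfold AA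
    rw [hfk]
    have hw : ∀ ω, jt κ ω ≠ 0 → ∀ i, w2 (ω.2 i) = w2 ω.1 := by
      intro ω h i
      have e1 := jt_fk (κ := κ) h (i := i) (φ := fun x => (w x, z x)) rfl
      simp only [Prod.mk.injEq] at e1
      exact ((t.h12 _ _).1 e1.1).2
    refine ent_congr hp ?_ ?_
    · intro ω ω' h h' e
      simp only [Prod.mk.injEq] at e ⊢
      exact ⟨e.1.1, e.1.2, funext fun t => (Prod.ext_iff.mp (congrFun e.2 t)).2⟩
    · intro ω ω' h h' e
      simp only [Prod.mk.injEq] at e ⊢
      refine ⟨⟨e.1, e.2.1⟩, funext fun t => ?_⟩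
      rw [hw ω h t, hw ω' h' t, e.1]
      exact congrArg (Prod.mk _) (congrFun e.2.2 t)
  have e2 : RFold.h0 w1 (fun x => (w2 x, o x)) (fun x => (w2 x, z x)) = RFold.h0 w o z := by
    unfold RFold.h0
    refine cent_congr hpU ?_ ?_ ?_ ?_
    · intro x x' _ _ e
      simp only [Prod.mk.injEq] at e ⊢
      exact ⟨(t.h12 x x').2 ⟨e.1, e.2.1⟩, e.2.2⟩
    · intro x x' _ _ e
      simp only [Prod.mk.injEq] at e ⊢
      exact ⟨((t.h12 x x').1 e.1).1, ((t.h12 x x').1 e.1).2, e.2⟩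
    · intro x x' _ _ e
      simp only [Prod.mk.injEq] at e ⊢
      exact e.1.2
    · intro x x' _ _ e
      simp only [Prod.mk.injEq] at e ⊢
      exact ⟨((t.h12 x x').1 e.2.1).2, e.1⟩
  unfold FF
  rw [e1, e2]
  unfold RFold.hR AA
  have h1 : cent (uni Ω) w2 z = ent (uni Ω) (fun x => (w2 x, z x)) - ent (uni Ω) z := rfl
  have h2 : cent (jt κ) (fun ω => w2 ω.1) (fun ω => (z ω.1, fun t => o (ω.2 t))) =
      ent (jt κ) (fun ω => (w2 ω.1, z ω.1, fun t => o (ω.2 t))) -
        ent (jt κ) (fun ω => (z ω.1, fun t => o (ω.2 t))) := rfl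
  rw [h1, h2] at h0
  linarith

/-- Lists and indices: `Idx x a b = some u` implies that `(u, X_u(x))` is in the list `Vl a b`. -/
structure S3.Lists (_s : S3 X U w o y z ε D) (Vl : O → O → Finset (I × V)) (M : ℝ)
    (Idx : Ω → O → O → Option I) : Prop where
  card : ∀ a b, ((Vl a b).card : ℝ) ≤ M
  memU : ∀ x a b u, Idx x a b = some u → u ∈ U
  memV : ∀ x a b u, Idx x a b = some u → (u, X x u) ∈ Vl a b

variable {Vl : O → O → Finset (I × V)} {M : ℝ} {Idx : Ω → O → O → Option I}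
  {N : Type*} [Fintype N] [DecidableEq N]

/-- The probability that the index of the pair `j` is not used by any other pair. -/
noncomputable def nu (w : Ω → W) (o : Ω → O) (y : Ω → Y) (z : Ω → Z) (Idx : Ω → O → O → Option I)
    (j : N) : ℝ :=
  pr (jt (fun _ : N × Bool => rk w y z)) fun ω => ∃ u,
    Idx ω.1 (o (ω.2 (j, false))) (o (ω.2 (j, true))) = some u ∧
      ∀ i, i ≠ j → Idx ω.1 (o (ω.2 (i, false))) (o (ω.2 (i, true))) ≠ some u

/-- The probability that a pair has no index. -/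
noncomputable def pn (w : Ω → W) (o : Ω → O) (y : Ω → Y) (z : Ω → Z)
    (Idx : Ω → O → O → Option I) : ℝ :=
  pr (jt (fun _ : Bool => rk w y z)) fun ω => Idx ω.1 (o (ω.2 false)) (o (ω.2 true)) = none

theorem S3.Lists.M_nonneg {s : S3 X U w o y z ε D} (l : s.Lists Vl M Idx) : 0 ≤ M := by
  obtain ⟨x⟩ := ‹Nonempty Ω›
  exact le_trans (Nat.cast_nonneg _) (l.card (o x) (o x))

/-- **(3.b2)** -/
theorem S3.Lists.b2 {s : S3 X U w o y z ε D} (l : s.Lists Vl M Idx) :
    (∑ j : N, nu w o y z Idx j) *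
        (Real.log (Fintype.card V) - Real.log (1 + Fintype.card N * M))
        - U.card * Real.log 2 - ε ≤
      ∑ u ∈ U, (cent (uni Ω) (fun x => X x u) z - hQ w o y z (fun x => X x u) (N × Bool)) := by
  classical
  set κ : N × Bool → Ω → Ω → ℝ := fun _ => rk w y z with hκdef
  have hκ : ∀ i, IsKer (κ i) := fun _ => isKer_rk _ _ _
  have hp : IsPr (jt κ) := isPr_jt hκ
  have hM := l.M_nonneg
  have hε := s.ε_nonneg
  by_cases hL : Real.log (1 + Fintype.card N * M) ≤ Real.log (Fintype.card V)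
  swap
  · -- the left-hand side is negative
    have h1 : 0 ≤ ∑ j : N, nu w o y z Idx j :=
      sum_nonneg fun j _ => pr_nonneg hp _
    have h2 : (∑ j : N, nu w o y z Idx j) *
        (Real.log (Fintype.card V) - Real.log (1 + Fintype.card N * M)) ≤ 0 :=
      mul_nonpos_of_nonneg_of_nonpos h1 (by linarith)
    have h3 : 0 ≤ (U.card : ℝ) * Real.log 2 :=
      mul_nonneg (Nat.cast_nonneg _) (Real.log_nonneg (by norm_num))
    have h4 : ∀ u ∈ U, 0 ≤ cent (uni Ω) (fun x => X x u) z -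
        hQ w o y z (fun x => X x u) (N × Bool) := by
      intro u _
      have e1 : cent (jt κ) (fun ω => X ω.1 u) (fun ω => (z ω.1, fun t => o (ω.2 t))) ≤
          cent (jt κ) (fun ω => X ω.1 u) (fun ω => z ω.1) :=
        cent_anti hp _ (Det.fst (Det.refl _))
      have e2 : cent (jt κ) (fun ω => X ω.1 u) (fun ω => z ω.1) =
          cent (uni Ω) (fun x => X x u) z := by
        unfold cent
        rw [ent_jt_base hκ (fun x => (X x u, z x)), ent_jt_base hκ z]
      unfold RFold.hQ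
      linarith
    have h5 := sum_nonneg h4
    linarith
  set K : ℝ := 1 + Fintype.card N * M with hK
  have hK1 : 1 ≤ K := by
    rw [hK]
    have : 0 ≤ (Fintype.card N : ℝ) * M := by positivity
    linarith
  set I₀ : N → Ω × (N × Bool → Ω) → Option I := fun j ω =>
    Idx ω.1 (o (ω.2 (j, false))) (o (ω.2 (j, true))) with hI₀
  -- the list of all pairs
  set Lst : (N × Bool → O) → Finset (I × V) := fun c =>
    univ.biUnion fun j => Vl (c (j, false)) (c (j, true)) with hLst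
  have hLst' : ∀ c, ((Lst c).card : ℝ) ≤ K := by
    intro c
    have h1 : ((Lst c).card : ℝ) ≤ ∑ j : N, ((Vl (c (j, false)) (c (j, true))).card : ℝ) := by
      exact_mod_cast card_biUnion_le
    have h2 : ∑ j : N, ((Vl (c (j, false)) (c (j, true))).card : ℝ) ≤ ∑ _j : N, M :=
      sum_le_sum fun j _ => l.card _ _
    rw [sum_const, card_univ, nsmul_eq_mul] at h2
    linarith
  have h1 : ∀ u ∈ U, cent (jt κ) (fun ω => X ω.1 u) (fun ω => (z ω.1, fun t => o (ω.2 t))) ≤
      Real.log 2 + pr (jt κ) (fun ω => ∃ j, I₀ j ω = some u) * Real.log K +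
        (1 - pr (jt κ) (fun ω => ∃ j, I₀ j ω = some u)) * Real.log (Fintype.card V) := by
    intro u _
    refine cent_list_le hp (fun ω => X ω.1 u) (fun ω => (z ω.1, fun t => o (ω.2 t)))
      (fun c => ((Lst c.2).filter fun a => a.1 = u).image Prod.snd) univ hK1 ?_ ?_ ?_
      (fun ω => ∃ j, I₀ j ω = some u) ?_ ?_
    · obtain ⟨x⟩ := ‹Nonempty Ω›
      have : 0 < Fintype.card V := Fintype.card_pos_iff.2 ⟨X x u⟩
      exact_mod_cast this
    · intro c
      refine le_trans ?_ (hLst' c.2)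
      exact_mod_cast card_image_le.trans (card_filter_le _ _)
    · rw [card_univ]
    · rintro ω _ ⟨j, hj⟩
      rw [mem_image]
      refine ⟨(u, X ω.1 u), mem_filter.2 ⟨mem_biUnion.2 ⟨j, mem_univ _, l.memV _ _ _ _ hj⟩, rfl⟩,
        rfl⟩
    · intro ω _ _
      exact mem_univ _
  have h2 := sum_le_sum h1
  rw [sum_add_distrib, sum_add_distrib, sum_const, nsmul_eq_mul, ← sum_mul, ← sum_mul,
    sum_sub_distrib, sum_const, nsmul_eq_mul, mul_one] at h2
  have h3 : ∑ j : N, nu w o y z Idx j ≤ ∑ u ∈ U, pr (jt κ) (fun ω => ∃ j, I₀ j ω = some u) :=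
    sum_unique_le hp U I₀ fun j ω u h => l.memU _ _ _ _ h
  have h4 := s.E1
  have h5 : cent (uni Ω) w z ≤ ∑ u ∈ U, cent (uni Ω) (fun x => X x u) z :=
    cent_coord_le isPr_uni X U w z fun x x' _ _ e => (s.hw x x').2 fun u hu => congrFun e ⟨u, hu⟩
  have h6 : (∑ j : N, nu w o y z Idx j) * (Real.log (Fintype.card V) - Real.log K) ≤
      (∑ u ∈ U, pr (jt κ) (fun ω => ∃ j, I₀ j ω = some u)) *
        (Real.log (Fintype.card V) - Real.log K) :=
    mul_le_mul_of_nonneg_right h3 (by linarith)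
  rw [sum_sub_distrib]
  unfold RFold.hQ
  nlinarith [h2, h4, h5, h6]

end Main

end RFold
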