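import Pool.Agent.Lib.MP_3581cd_co.Sect3c

/-!
# MP_3581cd_co, section 3: inequality (3.a)
-/

namespace RFold

open Finset

set_option linter.unusedSectionVars false

section Main

variable {Ω I V W O Y Z : Type*} [Fintype Ω] [Nonempty Ω] [Fintype V]
  {X : Ω → I → V} {U : Finset I} {w : Ω → W} {o : Ω → O} {y : Ω → Y} {z : Ω → Z} {ε D : ℝ}
  {Vl : O → O → Finset (I × V)} {M : ℝ} {Idx : Ω → O → O → Option I}
  {N : Type*} [Fintype N] [DecidableEq N]

/-- **(3.a)** for the pair `j`. -/
theorem S3.Lists.a_one {s : S3 X U w o y z ε D} (l : s.Lists Vl M Idx) (hU : U.Nonempty) (j : N)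
    (q P : ℕ) (hP : 1 ≤ P) :
    (1 - pn w o y z Idx) * Real.log (Fintype.card V)
      - ∑ u ∈ U, (Real.log (Fintype.card V) - hR w o z (fun x => X x u) q)
      - U.card * Real.log 2
      - (Real.log 2 + Real.log (1 + Fintype.card N * M)
          + nu w o y z Idx j * Real.log (U.card * Fintype.card V))
      - Real.log (1 + M)
      + 2 * ((FF w o y P - ε - (q + 2 * Fintype.card N) * (D + ε)) / P) ≤
      2 * kp w o y z q := by
  classical
  have hpU : IsPr (uni Ω) := isPr_uni
  set κ : Fin q ⊕ (N × Bool) → Ω → Ω → ℝ := K3 (Fin q) (N × Bool) w y z with hκdef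
  have hκ : ∀ i, IsKer (κ i) := isKer_K3
  have hp : IsPr (jt κ) := isPr_jt hκ
  have hM := l.M_nonneg
  -- the observables
  set C : Ω × (Fin q ⊕ (N × Bool) → Ω) → Z × (Fin q → O) :=
    fun ω => (z ω.1, fun t : Fin q => o (ω.2 (Sum.inl t))) with hC
  set Q : Ω × (Fin q ⊕ (N × Bool) → Ω) → {b : N × Bool // b.1 ≠ j} → O :=
    fun ω b => o (ω.2 (Sum.inr b.1)) with hQ
  set π : Ω × (Fin q ⊕ (N × Bool) → Ω) → O × O :=
    fun ω => (o (ω.2 (Sum.inr (j, false))), o (ω.2 (Sum.inr (j, true)))) with hπ
  set I₀ : N → Ω × (Fin q ⊕ (N × Bool) → Ω) → Option I := fun i ω =>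
    Idx ω.1 (o (ω.2 (Sum.inr (i, false)))) (o (ω.2 (Sum.inr (i, true)))) with hI₀
  set V0 : Ω × (Fin q ⊕ (N × Bool) → Ω) → Option (I × V) :=
    fun ω => (I₀ j ω).map fun u => (u, X ω.1 u) with hV0
  have hI₀U : ∀ i ω u, I₀ i ω = some u → u ∈ U := fun i ω u h => l.memU _ _ _ _ h
  set h : ℝ := cent (uni Ω) y (fun x => (w x, z x)) + cent (uni Ω) o (fun x => (w x, y x)) with hh
  set n : ℝ := (Fintype.card N : ℝ) with hn
  -- (a) the Shannon step
  have ha : cent (jt κ) V0 C + cent (jt κ) π (fun ω => (Q ω, C ω)) ≤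
      cent (jt κ) π C + cent (jt κ) V0 Q + cent (jt κ) V0 π := by
    have h1 := ent_submod' hp (A := fun ω => (V0 ω, C ω, Q ω)) (B := fun ω => (V0 ω, C ω, π ω))
      (J := fun ω => (π ω, Q ω, C ω)) (M := fun ω => (V0 ω, C ω))
      (fun _ _ _ _ e => by simp only [Prod.mk.injEq] at e ⊢; tauto)
      (fun _ _ _ _ e => by simp only [Prod.mk.injEq] at e ⊢; tauto)
      (fun _ _ _ _ e => by simp only [Prod.mk.injEq] at e ⊢; tauto)
    have h2 : cent (jt κ) V0 (fun ω => (C ω, Q ω)) ≤ cent (jt κ) V0 Q :=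
      cent_anti hp _ (Det.snd (Det.refl _))
    have h3 : cent (jt κ) V0 (fun ω => (C ω, π ω)) ≤ cent (jt κ) V0 π :=
      cent_anti hp _ (Det.snd (Det.refl _))
    have h4 : ent (jt κ) (fun ω => (C ω, Q ω)) = ent (jt κ) (fun ω => (Q ω, C ω)) :=
      ent_swap hp C Q
    have h5 : ent (jt κ) (fun ω => (C ω, π ω)) = ent (jt κ) (fun ω => (π ω, C ω)) :=
      ent_swap hp C π
    unfold cent at h2 h3 ⊢
    linarith
  -- (b) `H(π | C) ≤ 2 (kp + h)`
  have hb : cent (jt κ) π C ≤ 2 * (kp w o y z q + h) := by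
    have h1 := cent_chain hp (fun ω => o (ω.2 (Sum.inr (j, false))))
      (fun ω => o (ω.2 (Sum.inr (j, true)))) C
    have h2 : cent (jt κ) (fun ω => o (ω.2 (Sum.inr (j, true))))
        (fun ω => (o (ω.2 (Sum.inr (j, false))), C ω)) ≤
        cent (jt κ) (fun ω => o (ω.2 (Sum.inr (j, true)))) C :=
      cent_anti hp _ (Det.snd (Det.refl _))
    have h3 := cent_rho (w := w) (o := o) (y := y) (z := z) q (j, false)
    have h4 := cent_rho (w := w) (o := o) (y := y) (z := z) q (j, true)
    rw [← hh] at h3 h4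
    have h1' : cent (jt κ) π C = cent (jt κ) (fun ω => o (ω.2 (Sum.inr (j, false)))) C +
      cent (jt κ) (fun ω => o (ω.2 (Sum.inr (j, true))))
        (fun ω => (o (ω.2 (Sum.inr (j, false))), C ω)) := h1
    have h3' : cent (jt κ) (fun ω => o (ω.2 (Sum.inr (j, false)))) C = kp w o y z q + h := h3
    have h4' : cent (jt κ) (fun ω => o (ω.2 (Sum.inr (j, true)))) C = kp w o y z q + h := h4
    linarith
  -- (c) `H(π | Q, C) ≥ 2 (low + h)`
  have hsplit : s.Split U ∅ w (fun _ => ()) :=
    { hU := fun u => by simp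
      card := by simp
      h1 := s.hw
      h2 := fun x x' => by simp }
  set F : ℝ := FF w o y P with hF
  have hc : 2 * ((F - ε - (q + 2 * n) * (D + ε)) / P + h) ≤
      cent (jt κ) π (fun ω => (Q ω, C ω)) := by
    set S : Finset (N × Bool) := {(j, false), (j, true)} with hS
    set T : Finset (Fin q ⊕ (N × Bool)) := (S.map ⟨Sum.inr, Sum.inr_injective⟩)ᶜ with hT
    have hScard : S.card = 2 := by
      rw [hS, card_insert_of_notMem (by simp), card_singleton]
    have hTcard : (T.card : ℝ) + S.card ≤ q + 2 * n := by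
      have h1 : T.card + S.card = Fintype.card (Fin q ⊕ (N × Bool)) := by
        rw [hT, card_compl, card_map]
        exact Nat.sub_add_cancel (by
          rw [← card_map (⟨Sum.inr, Sum.inr_injective⟩ : N × Bool ↪ Fin q ⊕ (N × Bool))]
          exact card_le_univ _)
      rw [Fintype.card_sum, Fintype.card_fin, Fintype.card_prod, Fintype.card_bool] at h1
      have h2 : ((T.card + S.card : ℕ) : ℝ) = (q + Fintype.card N * 2 : ℕ) := by rw [h1]
      push_cast at h2
      rw [h2, hn]
      linarith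
    have h1 := hsplit.low_family (A := Fin q) (B := N × Bool) T S (fun b hb => by
      rw [hT, mem_compl, not_not]
      exact mem_map.2 ⟨b, hb, rfl⟩) P hP (q + 2 * n) hTcard
    have h2 : FF w (fun x => ((), o x)) (fun x => ((), y x)) P = F :=
      FF_congr (fun x x' => by simp) (fun x x' => by simp) (fun x x' => by simp) P
    rw [h2, hScard, hk_rk w y z o s.hy] at h1
    refine le_trans (le_of_eq ?_) (h1.trans (le_of_eq ?_))
    · push_cast
      ring
    · refine cent_congr hp ?_ ?_ ?_ ?_
      · intro ω ω' _ _ e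
        simp only [hC, Prod.mk.injEq] at e ⊢
        refine ⟨funext fun b => ?_, e.1, funext fun t => ?_⟩
        · refine congrFun e.2.2 ⟨Sum.inr b.1, ?_⟩
          rw [hT, mem_compl, mem_map]
          rintro ⟨b', hb', e'⟩
          simp only [Function.Embedding.coeFn_mk, Sum.inr.injEq] at e'
          rw [hS, mem_insert, mem_singleton] at hb'
          rw [e'] at hb'
          rcases hb' with hb' | hb'
          · exact b.2 (by rw [hb'])
          · exact b.2 (by rw [hb'])
        · refine congrFun e.2.2 ⟨Sum.inl t, ?_⟩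
          rw [hT, mem_compl, mem_map]
          rintro ⟨b', hb', e'⟩
          simp at e'
      · intro ω ω' _ _ e
        simp only [hC, Prod.mk.injEq] at e ⊢
        refine ⟨e.2.1, trivial, funext fun t => ?_⟩
        obtain ⟨t, ht⟩ := t
        rcases t with t | ⟨i, c⟩
        · exact congrFun e.2.2 t
        · have hi : i ≠ j := by
            rintro rfl
            rw [hT, mem_compl] at ht
            apply ht
            refine mem_map.2 ⟨(i, c), ?_, rfl⟩
            rw [hS, mem_insert, mem_singleton]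
            cases c
            · exact Or.inl rfl
            · exact Or.inr rfl
          exact congrFun e.1 ⟨(i, c), hi⟩
      · refine Det.fst ?_
        intro ω ω' _ _ e
        simp only [hπ, Prod.mk.injEq]
        exact ⟨congrFun e ⟨(j, false), by simp [hS]⟩, congrFun e ⟨(j, true), by simp [hS]⟩⟩
      · refine Det.fst ?_
        intro ω ω' _ _ e
        simp only [hπ, Prod.mk.injEq] at e
        funext b
        obtain ⟨b, hb⟩ := b
        rw [hS, mem_insert, mem_singleton] at hb
        rcases hb with rfl | rfl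
        · exact e.1
        · exact e.2
  -- (d) Gibbs
  have hd := gibbs_index hp (fun ω => X ω.1) U (I₀ j) (fun ω u h => hI₀U j ω u h) C
  have hd1 : (pr (jt κ) fun ω => I₀ j ω = none) = pn w o y z Idx := by
    refine pr_jt_marg (κ := κ) (κ' := fun _ : Bool => rk w y z)
      (s := fun c : Bool => Sum.inr (j, c)) (s' := id) hκ (fun _ => isKer_rk _ _ _) ?_
      Function.injective_id (fun _ => rfl)
      (fun x e => Idx x (o (e false)) (o (e true)) = none)
    intro a b hab
    simpa using hab
  have hd2 : ∀ u ∈ U, cent (jt κ) (fun ω => X ω.1 u) C = hR w o z (fun x => X x u) q := by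
    intro u _
    unfold RFold.hR cent
    rw [← ent_R (B := N × Bool) (y := y) q (fun x e => (X x u, z x, e)),
      ← ent_R (B := N × Bool) (y := y) q (fun x e => (z x, e))]
  rw [sum_congr rfl hd2, hd1] at hd
  -- (e) `H(V0 | Q)`
  obtain ⟨x₀⟩ := ‹Nonempty Ω›
  obtain ⟨u₀, hu₀⟩ := hU
  have hm1 : (1 : ℝ) ≤ Fintype.card V := by
    have : 0 < Fintype.card V := Fintype.card_pos_iff.2 ⟨X x₀ u₀⟩
    exact_mod_cast this
  have hs1 : (1 : ℝ) ≤ U.card := by
    have : 0 < U.card := card_pos.2 ⟨u₀, hu₀⟩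
    exact_mod_cast this
  have hsm : (1 : ℝ) ≤ U.card * Fintype.card V := one_le_mul_of_one_le_of_one_le hs1 hm1
  have hnM : 0 ≤ n * M := by positivity
  have hK : (1 : ℝ) ≤ 1 + n * M := by linarith
  have emb : Function.Injective (some : I × V → Option (I × V)) := Option.some_injective _
  set ν : ℝ := nu w o y z Idx j with hν
  have he1 : (pr (jt κ) fun ω => ∃ u, I₀ j ω = some u ∧ ∀ i, i ≠ j → I₀ i ω ≠ some u) = ν :=
    pr_jt_marg (κ := κ) (κ' := fun _ : N × Bool => rk w y z)
      (s := Sum.inr) (s' := id) hκ (fun _ => isKer_rk _ _ _) Sum.inr_injective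
      Function.injective_id (fun _ => rfl)
      (fun x e => ∃ u, Idx x (o (e (j, false))) (o (e (j, true))) = some u ∧
        ∀ i, i ≠ j → Idx x (o (e (i, false))) (o (e (i, true))) ≠ some u)
  have he : cent (jt κ) V0 Q ≤ Real.log 2 + Real.log (1 + n * M) +
      ν * Real.log (U.card * Fintype.card V) := by
    have h1 := cent_list_le hp V0 Q
      (fun c => insert none ((univ.biUnion fun i : {i : N // i ≠ j} =>
        Vl (c ⟨(i.1, false), i.2⟩) (c ⟨(i.1, true), i.2⟩)).map ⟨some, emb⟩))
      ((U ×ˢ (univ : Finset V)).map ⟨some, emb⟩) hK hsm (by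
        intro c
        have h1 : ((insert none ((univ.biUnion fun i : {i : N // i ≠ j} =>
            Vl (c ⟨(i.1, false), i.2⟩) (c ⟨(i.1, true), i.2⟩)).map ⟨some, emb⟩)).card : ℝ) ≤
            ((univ.biUnion fun i : {i : N // i ≠ j} =>
            Vl (c ⟨(i.1, false), i.2⟩) (c ⟨(i.1, true), i.2⟩)).card : ℝ) + 1 := by
          rw [← card_map ⟨some, emb⟩]
          exact_mod_cast card_insert_le _ _
        have h2 : ((univ.biUnion fun i : {i : N // i ≠ j} =>
            Vl (c ⟨(i.1, false), i.2⟩) (c ⟨(i.1, true), i.2⟩)).card : ℝ) ≤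
            ∑ i : {i : N // i ≠ j}, ((Vl (c ⟨(i.1, false), i.2⟩) (c ⟨(i.1, true), i.2⟩)).card : ℝ) := by
          exact_mod_cast card_biUnion_le
        have h3 : ∑ i : {i : N // i ≠ j},
            ((Vl (c ⟨(i.1, false), i.2⟩) (c ⟨(i.1, true), i.2⟩)).card : ℝ) ≤
            ∑ _i : {i : N // i ≠ j}, M := sum_le_sum fun i _ => l.card _ _
        rw [sum_const, card_univ, nsmul_eq_mul] at h3
        have h4 : (Fintype.card {i : N // i ≠ j} : ℝ) ≤ n := by
          rw [hn]
          exact_mod_cast Fintype.card_subtype_le _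
        have h5 := mul_le_mul_of_nonneg_right h4 hM
        linarith) (by
        rw [card_map, card_product, card_univ]
        push_cast
        exact le_rfl)
      (fun ω => ¬ ∃ u, I₀ j ω = some u ∧ ∀ i, i ≠ j → I₀ i ω ≠ some u)
      (by
        intro ω _ hE
        rw [mem_insert]
        rcases hIj : I₀ j ω with _ | u
        · left
          simp [hV0, hIj]
        · right
          push Not at hE
          obtain ⟨i, hij, hi⟩ := hE u hIj
          rw [mem_map]
          refine ⟨(u, X ω.1 u), mem_biUnion.2 ⟨⟨i, hij⟩, mem_univ _, l.memV _ _ _ _ hi⟩, ?_⟩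
          simp [hV0, hIj])
      (by
        intro ω _ hE
        rw [not_not] at hE
        obtain ⟨u, hu, -⟩ := hE
        rw [mem_map]
        refine ⟨(u, X ω.1 u), mem_product.2 ⟨hI₀U _ _ _ hu, mem_univ _⟩, ?_⟩
        simp [hV0, hu])
    rw [pr_not hp, he1] at h1
    have h2 : 0 ≤ ν := by
      rw [← he1]
      exact pr_nonneg hp _
    have h3 : 0 ≤ Real.log (1 + n * M) := Real.log_nonneg hK
    nlinarith [h1, h2, h3, mul_nonneg h2 h3]
  -- (f) `H(V0 | π)`
  have hf : cent (jt κ) V0 π ≤ Real.log (1 + M) := by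
    have h1 := cent_le_log_card hp V0 π (fun c => insert none ((Vl c.1 c.2).map ⟨some, emb⟩)) (by
      intro ω _
      rw [mem_insert]
      rcases hIj : I₀ j ω with _ | u
      · left
        simp [hV0, hIj]
      · right
        rw [mem_map]
        refine ⟨(u, X ω.1 u), l.memV _ _ _ _ hIj, ?_⟩
        simp [hV0, hIj])
    refine h1.trans ?_
    have h2 : ∀ ω, jt κ ω * Real.log
        ((insert none ((Vl (π ω).1 (π ω).2).map ⟨some, emb⟩)).card : ℝ) ≤
        jt κ ω * Real.log (1 + M) := by
      intro ω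
      refine mul_le_mul_of_nonneg_left (Real.log_le_log ?_ ?_) (hp.nonneg ω)
      · exact_mod_cast card_pos.2 ⟨none, mem_insert_self _ _⟩
      · have h3 : ((insert none ((Vl (π ω).1 (π ω).2).map ⟨some, emb⟩)).card : ℝ) ≤
            ((Vl (π ω).1 (π ω).2).card : ℝ) + 1 := by
          rw [← card_map ⟨some, emb⟩]
          exact_mod_cast card_insert_le _ _
        have h4 := l.card (π ω).1 (π ω).2
        linarith
    refine (sum_le_sum fun ω _ => h2 ω).trans (le_of_eq ?_)
    rw [← sum_mul, hp.sum_eq, one_mul]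
  -- combine
  have hd3 : cent (jt κ) (fun ω => (I₀ j ω).map fun u => (u, X ω.1 u)) C = cent (jt κ) V0 C := rfl
  rw [hd3] at hd
  rw [sum_sub_distrib, sum_const, nsmul_eq_mul]
  nlinarith [ha, hb, hc, hd, he, hf]

/-- **(3.a)**, averaged over the pairs. -/
theorem S3.Lists.a {s : S3 X U w o y z ε D} (l : s.Lists Vl M Idx) (hU : U.Nonempty)
    [Nonempty N] (q P : ℕ) (hP : 1 ≤ P) :
    (1 - pn w o y z Idx) * Real.log (Fintype.card V)
      - ∑ u ∈ U, (Real.log (Fintype.card V) - hR w o z (fun x => X x u) q)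
      - U.card * Real.log 2
      - (Real.log 2 + Real.log (1 + Fintype.card N * M)
          + (∑ j : N, nu w o y z Idx j) / Fintype.card N * Real.log (U.card * Fintype.card V))
      - Real.log (1 + M)
      + 2 * ((FF w o y P - ε - (q + 2 * Fintype.card N) * (D + ε)) / P) ≤
      2 * kp w o y z q := by
  have hn : (0 : ℝ) < Fintype.card N := by exact_mod_cast Fintype.card_pos
  have h1 := sum_le_sum fun j (_ : j ∈ (univ : Finset N)) => l.a_one hU j q P hP
  rw [sum_const, card_univ, nsmul_eq_mul] at h1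
  simp only [sum_add_distrib, sum_sub_distrib, sum_const, card_univ, nsmul_eq_mul, ← sum_mul] at h1
  rw [sum_sub_distrib, sum_const, nsmul_eq_mul]
  rw [← mul_le_mul_iff_right₀ hn]
  refine le_trans (le_of_eq ?_) h1
  field_simp

end Main

end RFold
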